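import Mathlib
import Pool.Agent.Helper15.CE.Crit
import Pool.Agent.Helper15.CE.Cone

/-!
# Project FC: fibred coarse embeddability into Hilbert space implies coarse embeddability into CAT(0) spaces

Common definitions.
-/

set_option autoImplicit false

namespace Pool.Agent.Helper48.FC

open Real Set
open scoped RealInnerProductSpace

/-- sum of `e` along the chain `c 0, ..., c n` -/
def csum {Z : Type*} (e : Z → Z → ℝ) (c : ℕ → Z) (n : ℕ) : ℝ :=
  ∑ i ∈ Finset.range n, e (c i) (c (i + 1))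

/-- infimum of the sums of `e` along all chains from `a` to `b` -/
noncomputable def cinf {Z : Type*} (e : Z → Z → ℝ) (a b : Z) : ℝ :=
  sInf {L | ∃ (c : ℕ → Z) (n : ℕ), c 0 = a ∧ c n = b ∧ L = csum e c n}

section conf

variable {E : Type*} [NormedAddCommGroup E] [InnerProductSpace ℝ E]

/-- chord of the conformal metric `exp (2 φ) |dz|^2` -/
noncomputable def rr (φ : E → ℝ) (a b : E) : ℝ := ‖a - b‖ * exp ((φ a + φ b) / 2)

/-- cost of a step of a chain: `r + r^2`, `r` the chord -/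
noncomputable def ed (φ : E → ℝ) (a b : E) : ℝ := rr φ a b + rr φ a b ^ 2

/-- bounded, Lipschitz, with bounded second differences; the constants are small -/
structure Slow (φ : E → ℝ) : Prop where
  bdd : ∀ x, |φ x| ≤ 1 / 10
  lip : ∀ x y, |φ x - φ y| ≤ 1 / 10000 * ‖x - y‖
  sd : ∀ x h, |φ (x + h) + φ (x - h) - 2 * φ x| ≤ 1 / 10000 * ‖h‖ ^ 2

/-- a smooth function with small first and second derivatives: `A` is its gradient, `H` its Hessian -/
structure Good (φ : E → ℝ) (A : E → E) (H : E → E →L[ℝ] E) : Prop where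
  bdd : ∀ x, |φ x| ≤ 1 / 10
  grad : ∀ x, HasFDerivAt φ (innerSL ℝ (A x)) x
  hess : ∀ x, HasFDerivAt A (H x) x
  symm : ∀ x u v, ⟪H x u, v⟫ = ⟪u, H x v⟫
  bA : ∀ x, ‖A x‖ ≤ 1 / 10000
  bH : ∀ x u, ‖H x u‖ ≤ 1 / 10000 * ‖u‖
  third : ∀ R : ℝ, ∃ K : ℝ, 0 ≤ K ∧ ∀ x y, ‖x‖ ≤ R → ‖y‖ ≤ R →
    ‖A y - A x - H x (y - x)‖ ≤ K * ‖y - x‖ ^ 2

/-- the acceleration of a geodesic of `exp (2 φ) |dz|^2` with velocity `v`, where `a` is the gradient of `φ` -/
noncomputable def acc (a v : E) : E := ‖v‖ ^ 2 • a - (2 * ⟪a, v⟫) • v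

/-- `c` with velocity `v` is a geodesic on `[0,1]` -/
structure Geo (A : E → E) (c v : ℝ → E) : Prop where
  dc : ∀ t ∈ Icc (0 : ℝ) 1, HasDerivAt c (v t) t
  dv : ∀ t ∈ Icc (0 : ℝ) 1, HasDerivAt v (acc (A (c t)) (v t)) t

/-- distance to the complement of `O`, cut off at `ρ` -/
noncomputable def DD (ρ : ℝ) (O : Set E) (w : E) : ℝ := by
  classical exact ⨅ f : E, if f ∈ O then ρ else min ρ (dist w f)

/-- regularisation of the square of `DD ρ O`: at most twice this square, with bounded second differences -/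
noncomputable def PP (ρ : ℝ) (O : Set E) (x : E) : ℝ :=
  ⨆ w : E, (DD ρ O w ^ 2 - 2 * dist x w ^ 2)

end conf

/-- the constant `c` of the conformal factor `c √P` -/
noncomputable def cc : ℝ := 1 / 100000000

universe u v

/-- flat transition data at one scale: sections and transition isometries between the fibres over the points of `V` at
distance at most `R` -/
structure Loc (X : Type u) [MetricSpace X] (E : Type v) [NormedAddCommGroup E] [InnerProductSpace ℝ E]
    (V : Set X) (R ρ : ℝ) where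
  /-- the section -/
  s : X → E
  /-- the transition isometries -/
  T : X → X → (E ≃ᵢ E)
  hR : 0 < R
  hρ : 0 < ρ
  coc : ∀ x ∈ V, ∀ y ∈ V, ∀ z ∈ V, dist x y ≤ R → dist y z ≤ R → dist x z ≤ R →
    ∀ q, T x y (T y z q) = T x z q
  far : ∀ x ∈ V, ∀ y ∈ V, dist x y ≤ R → dist (s x) (T x y (s y)) ≤ 30 * ρ → dist x y ≤ R / 8

section loc

variable {X : Type u} [MetricSpace X] {E : Type v} [NormedAddCommGroup E] [InnerProductSpace ℝ E]
  {V : Set X} {R ρ : ℝ}

/-- the union of the balls of radius `ρ` about the developed sections, in the fibre over `x` -/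
def Loc.O (L : Loc X E V R ρ) (x : X) : Set E :=
  {w | ∃ y ∈ V, dist x y ≤ R / 2 ∧ dist w (L.T x y (L.s y)) < ρ}

/-- points of the thickened section -/
structure Pt (L : Loc X E V R ρ) where
  /-- the base point -/
  x : X
  hx : x ∈ V
  /-- the position in the fibre -/
  p : E
  hp : dist p (L.s x) < ρ

variable {L : Loc X E V R ρ}

/-- the conformal factor at a point -/
noncomputable def kp (a : Pt L) : ℝ := cc * √(PP ρ (L.O a.x) a.p)

/-- the chord between two points over nearby base points -/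
noncomputable def rz (a b : Pt L) : ℝ := dist a.p (L.T a.x b.x b.p) / √(kp a * kp b)

/-- cost of a step -/
noncomputable def ez (a b : Pt L) : ℝ := by
  classical exact if dist a.x b.x ≤ R / 4 then rz a b + rz a b ^ 2 else 10

/-- the angle between two points -/
noncomputable def tht (a b : Pt L) : ℝ := min π (cinf ez a b)

/-- `b` lies over a point near the base point of `a`, and `z` is its position in the chart of `a`, in units of
`kp a` -/
def Near (a b : Pt L) (z : E) : Prop :=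
  dist a.x b.x ≤ R / 8 ∧ L.T a.x b.x b.p = a.p + kp a • z ∧ ‖z‖ ≤ 20

/-- `φ` is the weight of the chart of `a` -/
structure Chart (a : Pt L) (φ : E → ℝ) : Prop where
  slow : Slow φ
  pos : ∀ z, ‖z‖ ≤ 20 → 0 < PP ρ (L.O a.x) (a.p + kp a • z)
  eq : ∀ z, ‖z‖ ≤ 20 →
    φ z = -(1 / 2) * log (PP ρ (L.O a.x) (a.p + kp a • z) / PP ρ (L.O a.x) a.p)

end loc

/-- approximate version of `Ang` -/
structure AngA {Z : Type*} (θ : Z → Z → ℝ) : Prop where
  nonneg : ∀ x y, 0 ≤ θ x y
  le_pi : ∀ x y, θ x y ≤ π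
  self : ∀ x, θ x x = 0
  symm : ∀ x y, θ x y = θ y x
  tri : ∀ x y z, θ x z ≤ θ x y + θ y z
  stew : ∀ ε : ℝ, 0 < ε → ∀ y z, θ y z < π → ∀ u, 0 ≤ u → u ≤ θ y z → ∃ w, ∀ x,
    sin (θ y z - u) * cos (θ x y) + sin u * cos (θ x z) ≤ sin (θ y z) * cos (θ x w) + ε

/-- exact spherical Stewart inequality for `d` (not cut off): the point `w` divides the segment from `y` to `z` -/
def StewAt {Z : Type*} (d : Z → Z → ℝ) (y z : Z) (u : ℝ) (w : Z) : Prop :=
  d y w ≤ u ∧ d w z ≤ d y z - u ∧ ∀ x, d x y + d x z + d y z < 2 * π →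
    sin (d y z - u) * cos (d x y) + sin u * cos (d x z) ≤ sin (d y z) * cos (d x w)

/-- approximate spherical Stewart inequality for `d` -/
def StewA {Z : Type*} (d : Z → Z → ℝ) : Prop :=
  ∀ ε : ℝ, 0 < ε → ∀ y z, d y z < π → ∀ u, 0 ≤ u → u ≤ d y z → ∃ w,
    d y w ≤ u + ε ∧ d w z ≤ d y z - u + ε ∧ ∀ x, d x y + d x z + d y z < 2 * π →
      sin (d y z - u) * cos (d x y) + sin u * cos (d x z) ≤ sin (d y z) * cos (d x w) + ε

end Pool.Agent.Helper48.FC
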