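import Mathlib
import Pool.Agent.Helper48.FC.Defs

/-!
Project FC, basic facts on `Good` functions, and the definitions of `Seg` and `ll`.
-/

set_option autoImplicit false
set_option linter.unusedSectionVars false

namespace Pool.Agent.Helper48.FC

open Real Set
open scoped RealInnerProductSpace

variable {E : Type*} [NormedAddCommGroup E] [InnerProductSpace ℝ E]

/-- `c` with velocity `v` is the geodesic from `x` to `y`, parametrised by `[0,1]` -/
structure Seg (A : E → E) (x y : E) (c v : ℝ → E) : Prop where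
  geo : Geo A c v
  c0 : c 0 = x
  c1 : c 1 = y
  bd : ∀ t ∈ Icc (0 : ℝ) 1, ‖v t - (y - x)‖ ≤ ‖y - x‖ / 100

/-- the length of the geodesic from `x` to `y` -/
noncomputable def ll (φ : E → ℝ) (A : E → E) (x y : E) : ℝ := by
  classical exact if h : ∃ c v : ℝ → E, Seg A x y c v then exp (φ x) * ‖h.choose_spec.choose 0‖ else 0

variable {φ : E → ℝ} {A : E → E} {H : E → E →L[ℝ] E}

theorem Good.lip (h : Good φ A H) (x y : E) : |φ x - φ y| ≤ 1 / 10000 * ‖x - y‖ := by
  have := convex_univ.norm_image_sub_le_of_norm_hasFDerivWithin_le (f := φ)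
    (f' := fun x => innerSL ℝ (A x)) (C := 1 / 10000) (s := univ)
    (fun x _ => (h.grad x).hasFDerivWithinAt) (fun x _ => by
      rw [innerSL_apply_norm]
      exact h.bA x) (mem_univ y) (mem_univ x)
  rwa [Real.norm_eq_abs] at this

theorem Good.lipA (h : Good φ A H) (x y : E) : ‖A x - A y‖ ≤ 1 / 10000 * ‖x - y‖ :=
  convex_univ.norm_image_sub_le_of_norm_hasFDerivWithin_le (f := A)
    (f' := fun x => H x) (C := 1 / 10000) (s := univ)
    (fun x _ => (h.hess x).hasFDerivWithinAt) (fun x _ =>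
      ContinuousLinearMap.opNorm_le_bound _ (by norm_num) (h.bH x)) (mem_univ y) (mem_univ x)

theorem Good.cont (h : Good φ A H) : Continuous φ :=
  continuous_iff_continuousAt.2 fun x => (h.grad x).continuousAt

theorem Good.contA (h : Good φ A H) : Continuous A :=
  continuous_iff_continuousAt.2 fun x => (h.hess x).continuousAt

theorem exp_tenth_lt : exp (1 / 10) < 1.1052 := by
  have h : exp (1 / 10) ≤ _ := Real.exp_bound' (x := 1 / 10) (by norm_num) (by norm_num) (n := 5)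
    (by norm_num)
  refine lt_of_le_of_lt h ?_
  simp only [Finset.sum_range_succ, Finset.sum_range_zero, Nat.factorial]
  norm_num

theorem exp_le_of_bdd {s : ℝ} (h : |s| ≤ 1 / 10) : exp s ≤ 1.1052 :=
  (exp_le_exp.2 (abs_le.1 h).2).trans exp_tenth_lt.le

theorem le_exp_of_bdd {s : ℝ} (h : |s| ≤ 1 / 10) : 0.9048 ≤ exp s := by
  have h1 : 1 / 1.1052 ≤ exp s := by
    rw [div_le_iff₀ (by norm_num)]
    have h2 := exp_le_of_bdd (s := -s) (by rwa [abs_neg])
    have h3 : exp s * exp (-s) = 1 := by rw [← exp_add]; simp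
    have h4 := mul_le_mul_of_nonneg_left h2 (exp_pos s).le
    linarith
  refine le_trans ?_ h1
  norm_num

theorem norm_acc_le {a v : E} {α β : ℝ} (ha : ‖a‖ ≤ α) (hv : ‖v‖ ≤ β) : ‖acc a v‖ ≤ 3 * α * β ^ 2 := by
  have h0 := norm_nonneg a
  have h1 := norm_nonneg v
  have h2 : ‖‖v‖ ^ 2 • a‖ = ‖v‖ ^ 2 * ‖a‖ := by
    rw [norm_smul, Real.norm_eq_abs, abs_of_nonneg (by positivity)]
  have h3 : ‖(2 * ⟪a, v⟫) • v‖ ≤ 2 * (‖a‖ * ‖v‖) * ‖v‖ := by
    rw [norm_smul, norm_mul, Real.norm_eq_abs, Real.norm_eq_abs, abs_of_pos (by norm_num : (0 : ℝ) < 2)]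
    have := abs_real_inner_le_norm a v
    gcongr
  have h4 : ‖acc a v‖ ≤ ‖v‖ ^ 2 * ‖a‖ + 2 * (‖a‖ * ‖v‖) * ‖v‖ := by
    unfold acc
    refine (norm_sub_le _ _).trans ?_
    rw [h2]
    linarith
  refine h4.trans ?_
  have h5 : ‖v‖ ^ 2 * ‖a‖ + 2 * (‖a‖ * ‖v‖) * ‖v‖ = 3 * ‖a‖ * ‖v‖ ^ 2 := by ring
  rw [h5]
  have h6 : 0 ≤ α := h0.trans ha
  gcongr

theorem Seg.norm_le {x y : E} {c v : ℝ → E} (h : Seg A x y c v) {t : ℝ} (ht : t ∈ Icc (0 : ℝ) 1) :
    ‖v t‖ ≤ 1.01 * ‖y - x‖ := by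
  have h1 := h.bd t ht
  have h2 : v t = (v t - (y - x)) + (y - x) := by abel
  have h3 := norm_add_le (v t - (y - x)) (y - x)
  rw [← h2] at h3
  linarith

theorem Seg.le_norm {x y : E} {c v : ℝ → E} (h : Seg A x y c v) {t : ℝ} (ht : t ∈ Icc (0 : ℝ) 1) :
    0.99 * ‖y - x‖ ≤ ‖v t‖ := by
  have h1 := h.bd t ht
  have h2 : (y - x) = v t - (v t - (y - x)) := by abel
  have h3 := norm_sub_le (v t) (v t - (y - x))
  rw [← h2] at h3
  linarith

theorem Seg.norm_le_eleven {x y : E} {c v : ℝ → E} (h : Seg A x y c v) (hd : ‖y - x‖ ≤ 10) {t : ℝ}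
    (ht : t ∈ Icc (0 : ℝ) 1) : ‖v t‖ ≤ 11 := by
  have := h.norm_le ht
  linarith

/-- the points of a geodesic are near the points of the segment -/
theorem Seg.near {x y : E} {c v : ℝ → E} (h : Seg A x y c v) {t : ℝ} (ht : t ∈ Icc (0 : ℝ) 1) :
    ‖c t - (x + t • (y - x))‖ ≤ t * (‖y - x‖ / 100) := by
  have h1 : ∀ s ∈ Icc (0 : ℝ) t, HasDerivWithinAt (fun s => c s - (x + s • (y - x)))
      (v s - (y - x)) (Icc 0 t) s := by
    intro s hs
    have h2 := h.geo.dc s ⟨hs.1, hs.2.trans ht.2⟩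
    have h3 : HasDerivAt (fun s : ℝ => x + s • (y - x)) (y - x) s := by
      have := ((hasDerivAt_id s).smul_const (y - x)).const_add x
      simpa using this
    exact (h2.sub h3).hasDerivWithinAt
  have h4 := norm_image_sub_le_of_norm_deriv_le_segment' h1 (C := ‖y - x‖ / 100)
    (fun s hs => h.bd s ⟨hs.1, hs.2.le.trans ht.2⟩) t ⟨ht.1, le_rfl⟩
  simp only [h.c0, zero_smul, add_zero, sub_self, sub_zero] at h4
  linarith

end Pool.Agent.Helper48.FC
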