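import Mathlib
import Pool.Agent.Helper48.FC.Basic

/-!
Project FC, algebra of the second variation.
-/

set_option autoImplicit false
set_option linter.unusedSectionVars false

namespace Pool.Agent.Helper48.FC

open Real Set
open scoped RealInnerProductSpace

variable {E : Type*} [NormedAddCommGroup E] [InnerProductSpace ℝ E]

/-- the derivative of `acc` at `(a, v)` in the direction `(h, w1)` -/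
noncomputable def Lin (a v h w1 : E) : E :=
  ‖v‖ ^ 2 • h + (2 * ⟪v, w1⟫) • a - (2 * ⟪h, v⟫) • v - (2 * ⟪a, w1⟫) • v - (2 * ⟪a, v⟫) • w1

theorem acc_split (a a' v v' h : E) : acc a' v' - acc a v - Lin a v h (v' - v) =
    (‖v‖ ^ 2 • (a' - a - h) - (2 * ⟪a' - a - h, v⟫) • v) +
    ((2 * ⟪v, v' - v⟫) • (a' - a) + ‖v' - v‖ ^ 2 • a' - (2 * ⟪a' - a, v' - v⟫) • v' -
      (2 * ⟪a, v' - v⟫) • (v' - v) - (2 * ⟪a' - a, v⟫) • (v' - v)) := by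
  obtain ⟨α, rfl⟩ : ∃ α, a' = a + α := ⟨a' - a, by abel⟩
  obtain ⟨β, rfl⟩ : ∃ β, v' = v + β := ⟨v' - v, by abel⟩
  have e1 : a + α - a = α := by abel
  have e2 : v + β - v = β := by abel
  rw [e1, e2]
  unfold acc Lin
  have e3 : ‖v + β‖ ^ 2 = ‖v‖ ^ 2 + 2 * ⟪v, β⟫ + ‖β‖ ^ 2 := norm_add_sq_real v β
  rw [e3]
  simp only [inner_add_left, inner_add_right, inner_sub_left, smul_add, smul_sub, add_smul, sub_smul,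
    mul_add, mul_sub]
  abel

theorem norm_sm {c : ℝ} {x : E} {C X : ℝ} (h1 : |c| ≤ C) (h2 : ‖x‖ ≤ X) : ‖c • x‖ ≤ C * X := by
  rw [norm_smul, Real.norm_eq_abs]
  exact mul_le_mul h1 h2 (norm_nonneg _) ((abs_nonneg _).trans h1)

theorem abs_two_inner_le {x y : E} {X Y : ℝ} (h1 : ‖x‖ ≤ X) (h2 : ‖y‖ ≤ Y) :
    |2 * ⟪x, y⟫| ≤ 2 * (X * Y) := by
  rw [abs_mul, abs_of_pos (by norm_num : (0 : ℝ) < 2)]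
  have := abs_real_inner_le_norm x y
  have h3 : ‖x‖ * ‖y‖ ≤ X * Y := mul_le_mul h1 h2 (norm_nonneg _) ((norm_nonneg _).trans h1)
  linarith

theorem acc_expand {a a' v v' h : E} (ha : ‖a‖ ≤ 1 / 10000) (ha' : ‖a'‖ ≤ 1 / 10000)
    (hv : ‖v‖ ≤ 11) (hv' : ‖v'‖ ≤ 11) :
    ‖acc a' v' - acc a v - Lin a v h (v' - v)‖ ≤
      363 * ‖a' - a - h‖ + 66 * ‖a' - a‖ * ‖v' - v‖ + 3 / 10000 * ‖v' - v‖ ^ 2 := by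
  rw [acc_split]
  have n1 : ‖‖v‖ ^ 2 • (a' - a - h)‖ ≤ 121 * ‖a' - a - h‖ := by
    refine norm_sm ?_ le_rfl
    rw [abs_of_nonneg (by positivity)]
    nlinarith [norm_nonneg v]
  have n2 : ‖(2 * ⟪a' - a - h, v⟫) • v‖ ≤ (2 * (‖a' - a - h‖ * 11)) * 11 :=
    norm_sm (abs_two_inner_le le_rfl hv) hv
  have n3 : ‖(2 * ⟪v, v' - v⟫) • (a' - a)‖ ≤ (2 * (11 * ‖v' - v‖)) * ‖a' - a‖ :=
    norm_sm (abs_two_inner_le hv le_rfl) le_rfl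
  have n4 : ‖‖v' - v‖ ^ 2 • a'‖ ≤ ‖v' - v‖ ^ 2 * (1 / 10000) :=
    norm_sm (by rw [abs_of_nonneg (by positivity)]) ha'
  have n5 : ‖(2 * ⟪a' - a, v' - v⟫) • v'‖ ≤ (2 * (‖a' - a‖ * ‖v' - v‖)) * 11 :=
    norm_sm (abs_two_inner_le le_rfl le_rfl) hv'
  have n6 : ‖(2 * ⟪a, v' - v⟫) • (v' - v)‖ ≤ (2 * (1 / 10000 * ‖v' - v‖)) * ‖v' - v‖ :=
    norm_sm (abs_two_inner_le ha le_rfl) le_rfl
  have n7 : ‖(2 * ⟪a' - a, v⟫) • (v' - v)‖ ≤ (2 * (‖a' - a‖ * 11)) * ‖v' - v‖ :=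
    norm_sm (abs_two_inner_le le_rfl hv) le_rfl
  refine (norm_add_le _ _).trans ?_
  have m1 := norm_sub_le (‖v‖ ^ 2 • (a' - a - h)) ((2 * ⟪a' - a - h, v⟫) • v)
  have m2 := norm_sub_le ((2 * ⟪v, v' - v⟫) • (a' - a) + ‖v' - v‖ ^ 2 • a' -
    (2 * ⟪a' - a, v' - v⟫) • v' - (2 * ⟪a, v' - v⟫) • (v' - v)) ((2 * ⟪a' - a, v⟫) • (v' - v))
  have m3 := norm_sub_le ((2 * ⟪v, v' - v⟫) • (a' - a) + ‖v' - v‖ ^ 2 • a' -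
    (2 * ⟪a' - a, v' - v⟫) • v') ((2 * ⟪a, v' - v⟫) • (v' - v))
  have m4 := norm_sub_le ((2 * ⟪v, v' - v⟫) • (a' - a) + ‖v' - v‖ ^ 2 • a')
    ((2 * ⟪a' - a, v' - v⟫) • v')
  have m5 := norm_add_le ((2 * ⟪v, v' - v⟫) • (a' - a)) (‖v' - v‖ ^ 2 • a')
  nlinarith

/-- `acc` is Lipschitz on bounded sets -/
theorem norm_acc_sub_le {a a' v v' : E} {β : ℝ} (ha : ‖a‖ ≤ 1 / 10000) (ha' : ‖a'‖ ≤ 1 / 10000)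
    (hv : ‖v‖ ≤ β) (hv' : ‖v'‖ ≤ β) :
    ‖acc a' v' - acc a v‖ ≤ 3 * β ^ 2 * ‖a' - a‖ + 6 / 10000 * β * ‖v' - v‖ := by
  have hβ : 0 ≤ β := (norm_nonneg v).trans hv
  have e : acc a' v' - acc a v = (‖v‖ ^ 2 • (a' - a) - (2 * ⟪a' - a, v⟫) • v) +
      ((‖v'‖ ^ 2 - ‖v‖ ^ 2) • a' - (2 * ⟪a', v' - v⟫) • v' - (2 * ⟪a', v⟫) • (v' - v)) := by
    unfold acc
    simp only [inner_sub_left, inner_sub_right, smul_sub, sub_smul, mul_sub]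
    abel
  rw [e]
  have n1 : ‖‖v‖ ^ 2 • (a' - a)‖ ≤ β ^ 2 * ‖a' - a‖ := by
    refine norm_sm ?_ le_rfl
    rw [abs_of_nonneg (by positivity)]
    exact pow_le_pow_left₀ (norm_nonneg _) hv 2
  have n2 : ‖(2 * ⟪a' - a, v⟫) • v‖ ≤ (2 * (‖a' - a‖ * β)) * β :=
    norm_sm (abs_two_inner_le le_rfl hv) hv
  have n3 : ‖(‖v'‖ ^ 2 - ‖v‖ ^ 2) • a'‖ ≤ (2 * β * ‖v' - v‖) * (1 / 10000) := by
    refine norm_sm ?_ ha'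
    have h1 : ‖v'‖ ^ 2 - ‖v‖ ^ 2 = (‖v'‖ + ‖v‖) * (‖v'‖ - ‖v‖) := by ring
    rw [h1, abs_mul]
    have h2 := abs_norm_sub_norm_le v' v
    have h3 : |‖v'‖ + ‖v‖| ≤ 2 * β := by
      rw [abs_of_nonneg (by positivity)]
      linarith
    exact mul_le_mul h3 h2 (abs_nonneg _) (by positivity)
  have n4 : ‖(2 * ⟪a', v' - v⟫) • v'‖ ≤ (2 * (1 / 10000 * ‖v' - v‖)) * β :=
    norm_sm (abs_two_inner_le ha' le_rfl) hv'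
  have n5 : ‖(2 * ⟪a', v⟫) • (v' - v)‖ ≤ (2 * (1 / 10000 * β)) * ‖v' - v‖ :=
    norm_sm (abs_two_inner_le ha' hv) le_rfl
  refine (norm_add_le _ _).trans ?_
  have m1 := norm_sub_le (‖v‖ ^ 2 • (a' - a)) ((2 * ⟪a' - a, v⟫) • v)
  have m2 := norm_sub_le ((‖v'‖ ^ 2 - ‖v‖ ^ 2) • a' - (2 * ⟪a', v' - v⟫) • v')
    ((2 * ⟪a', v⟫) • (v' - v))
  have m3 := norm_sub_le ((‖v'‖ ^ 2 - ‖v‖ ^ 2) • a') ((2 * ⟪a', v' - v⟫) • v')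
  nlinarith

/-- normal part -/
theorem norm_nrm_sq (v w : E) : ‖‖v‖ ^ 2 • w - ⟪v, w⟫ • v‖ ^ 2 =
    ‖v‖ ^ 2 * (‖v‖ ^ 2 * ‖w‖ ^ 2 - ⟪v, w⟫ ^ 2) := by
  rw [← real_inner_self_eq_norm_sq, inner_sub_left, inner_sub_right, inner_sub_right]
  simp only [real_inner_smul_left, real_inner_smul_right, real_inner_self_eq_norm_sq,
    real_inner_comm v w, norm_smul, mul_pow, Real.norm_eq_abs, sq_abs]
  ring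

theorem gram2 (v w : E) : 0 ≤ ‖v‖ ^ 2 * ‖w‖ ^ 2 - ⟪v, w⟫ ^ 2 := by
  have := abs_real_inner_le_norm v w
  have h2 : ⟪v, w⟫ ^ 2 ≤ (‖v‖ * ‖w‖) ^ 2 := by
    rw [← sq_abs ⟪v, w⟫]
    exact pow_le_pow_left₀ (abs_nonneg _) this 2
  nlinarith

theorem gram3 (a v w : E) : 0 ≤ ‖a‖ ^ 2 * ‖v‖ ^ 2 * ‖w‖ ^ 2 + 2 * ⟪a, v⟫ * ⟪a, w⟫ * ⟪v, w⟫ -
    ⟪a, v⟫ ^ 2 * ‖w‖ ^ 2 - ⟪a, w⟫ ^ 2 * ‖v‖ ^ 2 - ⟪v, w⟫ ^ 2 * ‖a‖ ^ 2 := by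
  by_cases hv : v = 0
  · subst hv
    simp
  have hv2 : 0 < ‖v‖ ^ 2 := by have := norm_pos_iff.2 hv; positivity
  have h1 := gram2 (‖v‖ ^ 2 • w - ⟪v, w⟫ • v) (‖v‖ ^ 2 • a - ⟪v, a⟫ • v)
  rw [norm_nrm_sq, norm_nrm_sq] at h1
  have h2 : ⟪‖v‖ ^ 2 • w - ⟪v, w⟫ • v, ‖v‖ ^ 2 • a - ⟪v, a⟫ • v⟫ =
      ‖v‖ ^ 2 * (‖v‖ ^ 2 * ⟪w, a⟫ - ⟪v, w⟫ * ⟪v, a⟫) := by
    rw [inner_sub_left, inner_sub_right, inner_sub_right]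
    simp only [real_inner_smul_left, real_inner_smul_right, real_inner_self_eq_norm_sq,
      real_inner_comm v w]
    ring
  rw [h2] at h1
  have h3 : ‖v‖ ^ 2 * (‖v‖ ^ 2 * ‖w‖ ^ 2 - ⟪v, w⟫ ^ 2) * (‖v‖ ^ 2 * (‖v‖ ^ 2 * ‖a‖ ^ 2 - ⟪v, a⟫ ^ 2)) -
      (‖v‖ ^ 2 * (‖v‖ ^ 2 * ⟪w, a⟫ - ⟪v, w⟫ * ⟪v, a⟫)) ^ 2 =
      (‖v‖ ^ 2) ^ 3 * (‖a‖ ^ 2 * ‖v‖ ^ 2 * ‖w‖ ^ 2 + 2 * ⟪a, v⟫ * ⟪a, w⟫ * ⟪v, w⟫ -
    ⟪a, v⟫ ^ 2 * ‖w‖ ^ 2 - ⟪a, w⟫ ^ 2 * ‖v‖ ^ 2 - ⟪v, w⟫ ^ 2 * ‖a‖ ^ 2) := by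
    rw [real_inner_comm a v, real_inner_comm a w]
    ring
  rw [h3] at h1
  exact nonneg_of_mul_nonneg_right h1 (by positivity)

theorem hess_plane {H : E →L[ℝ] E} {η : ℝ} (hs : ∀ u v, ⟪H u, v⟫ = ⟪u, H v⟫)
    (hb : ∀ u, |⟪H u, u⟫| ≤ η * ‖u‖ ^ 2) (v w : E) :
    -(2 * η * (‖v‖ ^ 2 * ‖w‖ ^ 2 - ⟪v, w⟫ ^ 2)) ≤
      ‖v‖ ^ 2 * ⟪H w, w⟫ + ‖w‖ ^ 2 * ⟪H v, v⟫ - 2 * ⟪v, w⟫ * ⟪H w, v⟫ := by
  by_cases hv : v = 0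
  · subst hv
    simp
  have hv2 : 0 < ‖v‖ ^ 2 := by have := norm_pos_iff.2 hv; positivity
  have h1 := (abs_le.1 (hb (‖v‖ ^ 2 • w - ⟪v, w⟫ • v))).1
  have h2 := (abs_le.1 (hb v)).1
  rw [norm_nrm_sq] at h1
  have hsym : ⟪H v, w⟫ = ⟪H w, v⟫ := by rw [hs, real_inner_comm]
  have h3 : ⟪H (‖v‖ ^ 2 • w - ⟪v, w⟫ • v), ‖v‖ ^ 2 • w - ⟪v, w⟫ • v⟫ =
      (‖v‖ ^ 2) ^ 2 * ⟪H w, w⟫ - 2 * ‖v‖ ^ 2 * ⟪v, w⟫ * ⟪H w, v⟫ + ⟪v, w⟫ ^ 2 * ⟪H v, v⟫ := by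
    rw [map_sub, map_smul, map_smul, inner_sub_left, inner_sub_right, inner_sub_right]
    simp only [real_inner_smul_left, real_inner_smul_right, hsym]
    ring
  rw [h3] at h1
  have h4 := gram2 v w
  have h5 := mul_le_mul_of_nonneg_left h2 h4
  have h6 : ‖v‖ ^ 2 * (-(2 * η * (‖v‖ ^ 2 * ‖w‖ ^ 2 - ⟪v, w⟫ ^ 2))) ≤
      ‖v‖ ^ 2 * (‖v‖ ^ 2 * ⟪H w, w⟫ + ‖w‖ ^ 2 * ⟪H v, v⟫ - 2 * ⟪v, w⟫ * ⟪H w, v⟫) := by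
    nlinarith
  exact le_of_mul_le_mul_left h6 hv2

/-- covariant derivative of `w` along a geodesic with velocity `v` -/
noncomputable def Xd (a v w w1 : E) : E := w1 + ⟪a, v⟫ • w + ⟪a, w⟫ • v - ⟪v, w⟫ • a

theorem inner_acc_self (a v : E) : ⟪a, acc a v⟫ = ‖v‖ ^ 2 * ‖a‖ ^ 2 - 2 * ⟪a, v⟫ ^ 2 := by
  unfold acc
  rw [inner_sub_right, real_inner_smul_right, real_inner_smul_right, real_inner_self_eq_norm_sq]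
  ring

theorem inner_v_acc (a v : E) : ⟪v, acc a v⟫ = -(‖v‖ ^ 2 * ⟪a, v⟫) := by
  unfold acc
  rw [inner_sub_right, real_inner_smul_right, real_inner_smul_right, real_inner_self_eq_norm_sq,
    real_inner_comm a v]
  ring

theorem inner_w_Xd (a v w w1 : E) : ⟪w, Xd a v w w1⟫ = ⟪w, w1⟫ + ⟪a, v⟫ * ‖w‖ ^ 2 := by
  unfold Xd
  rw [inner_sub_right, inner_add_right, inner_add_right]
  simp only [real_inner_smul_right, real_inner_self_eq_norm_sq, real_inner_comm a w, real_inner_comm v w]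
  ring

theorem inner_v_Xd (a v w w1 : E) : ⟪v, Xd a v w w1⟫ = ⟪w1, v⟫ + ‖v‖ ^ 2 * ⟪a, w⟫ := by
  unfold Xd
  rw [inner_sub_right, inner_add_right, inner_add_right]
  simp only [real_inner_smul_right, real_inner_self_eq_norm_sq, real_inner_comm a v, real_inner_comm w1 v]
  ring

/-- the second derivative of the energy of the variation -/
theorem psi2_identity {H : E →L[ℝ] E} (a v w w1 : E) :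
    2 * ⟪a, v⟫ * (⟪a, v⟫ * ‖w‖ ^ 2 + ⟪w, w1⟫) + (⟪H v, v⟫ + ⟪a, acc a v⟫) * ‖w‖ ^ 2 +
      2 * ⟪a, v⟫ * ⟪w, w1⟫ + ‖w1‖ ^ 2 + ⟪w, Lin a v (H w) w1⟫ =
    ‖Xd a v w w1‖ ^ 2 + (‖a‖ ^ 2 * ‖v‖ ^ 2 * ‖w‖ ^ 2 + 2 * ⟪a, v⟫ * ⟪a, w⟫ * ⟪v, w⟫ -
      ⟪a, v⟫ ^ 2 * ‖w‖ ^ 2 - ⟪a, w⟫ ^ 2 * ‖v‖ ^ 2 - ⟪v, w⟫ ^ 2 * ‖a‖ ^ 2) +
      (‖v‖ ^ 2 * ⟪H w, w⟫ + ‖w‖ ^ 2 * ⟪H v, v⟫ - 2 * ⟪v, w⟫ * ⟪H w, v⟫) := by
  rw [inner_acc_self, ← real_inner_self_eq_norm_sq (Xd a v w w1)]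
  unfold Xd Lin
  simp only [inner_sub_left, inner_sub_right, inner_add_left, inner_add_right, real_inner_smul_left,
    real_inner_smul_right, real_inner_self_eq_norm_sq, norm_smul, mul_pow, Real.norm_eq_abs, sq_abs]
  rw [real_inner_comm a w, real_inner_comm a v, real_inner_comm v w, real_inner_comm a w1,
    real_inner_comm w w1, real_inner_comm v w1, real_inner_comm (H w) w]
  ring

/-- the second derivative of the tangential part -/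
theorem t2_identity {H : E →L[ℝ] E} (hs : ∀ u v, ⟪H u, v⟫ = ⟪u, H v⟫) (a v w w1 : E) :
    2 * ⟪a, v⟫ * (⟪w1, v⟫ + ‖v‖ ^ 2 * ⟪a, w⟫) + ⟪Lin a v (H w) w1, v⟫ + ⟪w1, acc a v⟫ +
      2 * ⟪v, acc a v⟫ * ⟪a, w⟫ + ‖v‖ ^ 2 * (⟪H v, w⟫ + ⟪a, w1⟫) = 0 := by
  rw [inner_v_acc]
  have hsym : ⟪H v, w⟫ = ⟪H w, v⟫ := by rw [hs, real_inner_comm]
  rw [hsym]
  unfold acc Lin
  simp only [inner_sub_left, inner_sub_right, inner_add_left, real_inner_smul_left,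
    real_inner_smul_right, real_inner_self_eq_norm_sq]
  rw [real_inner_comm a w1, real_inner_comm v w1]
  ring

end Pool.Agent.Helper48.FC
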