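import Mathlib

/-!
Block FC-7.  A comparison lemma for one real function.

For `t ∈ (0,1]` put `a t = 1/t - ω t`, `Q t = N1 t - 2 a t N t`.  Then `a' = -1/t² - ω`, `a² = 1/t² - 2ω + ω² t²`, so
`a² + a' + ω = -2ω + ω² t² ≤ 0` and, with `b = a t` in the hypothesis,
`Q' = N2 - 2 a N1 - 2 a' N ≥ -2 a² N - 2 ω N - ε - 2 a' N = -2 N (a² + a' + ω) - ε ≥ -ε`.  So `t ↦ Q t + ε t` is monotone on `(0,1]`
(derivative nonnegative on `(0,1)`, continuous), and `|Q t| ≤ M t + 2 (1/t + ω t) M t² → 0` as `t → 0`, so `Q 1 + ε ≥ 0`.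
-/

set_option autoImplicit false

namespace Pool.Agent.Helper48.FC

open Real Set

theorem bar {N N1 N2 : ℝ → ℝ} {M ω ε : ℝ} (hd : ∀ t ∈ Icc (0 : ℝ) 1, HasDerivAt N (N1 t) t)
    (hd1 : ∀ t ∈ Icc (0 : ℝ) 1, HasDerivAt N1 (N2 t) t) (hN : ∀ t ∈ Icc (0 : ℝ) 1, 0 ≤ N t)
    (hM : ∀ t ∈ Icc (0 : ℝ) 1, N t ≤ M * t ^ 2 ∧ |N1 t| ≤ M * t)
    (hω0 : 0 ≤ ω) (hω1 : ω ≤ 1) (hε : 0 ≤ ε)
    (h : ∀ t ∈ Ioc (0 : ℝ) 1, ∀ b : ℝ,
      2 * b * N1 t - 2 * b ^ 2 * N t - 2 * ω * N t - ε ≤ N2 t) :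
    2 * (1 - ω) * N 1 - ε ≤ N1 1 := by
  have hM0 : 0 ≤ M := by
    have h1 := (hM 1 ⟨zero_le_one, le_rfl⟩).1
    have h2 := hN 1 ⟨zero_le_one, le_rfl⟩
    linarith
  set P : ℝ → ℝ := fun t => N1 t - 2 * (t⁻¹ - ω * t) * N t + ε * t with hP
  have hder : ∀ t ∈ Ioc (0 : ℝ) 1, HasDerivAt P
      (N2 t - (2 * (-(t ^ 2)⁻¹ - ω) * N t + 2 * (t⁻¹ - ω * t) * N1 t) + ε) t := by
    intro t ht
    have ht' : t ∈ Icc (0 : ℝ) 1 := ⟨ht.1.le, ht.2⟩
    have e1 : HasDerivAt (fun t : ℝ => 2 * (t⁻¹ - ω * t)) (2 * (-(t ^ 2)⁻¹ - ω)) t := by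
      have k1 := hasDerivAt_inv ht.1.ne'
      have k2 : HasDerivAt (fun t : ℝ => ω * t) ω t := by
        simpa using (hasDerivAt_id t).const_mul ω
      exact (k1.sub k2).const_mul 2
    have e2 : HasDerivAt (fun t : ℝ => ε * t) ε t := by
      simpa using (hasDerivAt_id t).const_mul ε
    exact ((hd1 t ht').sub (e1.mul (hd t ht'))).add e2
  have hnn : ∀ t ∈ Ioc (0 : ℝ) 1,
      0 ≤ N2 t - (2 * (-(t ^ 2)⁻¹ - ω) * N t + 2 * (t⁻¹ - ω * t) * N1 t) + ε := by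
    intro t ht
    have h1 := h t ht (t⁻¹ - ω * t)
    have h2 := hN t ⟨ht.1.le, ht.2⟩
    have ht0 := ht.1
    have h3 : (t⁻¹ - ω * t) ^ 2 = (t ^ 2)⁻¹ - 2 * ω + ω ^ 2 * t ^ 2 := by
      field_simp
      ring
    rw [h3] at h1
    have h4 : 0 ≤ 2 * ω - ω ^ 2 * t ^ 2 := by
      have k1 : t ^ 2 ≤ 1 := pow_le_one₀ ht.1.le ht.2
      have k2 : ω ^ 2 * t ^ 2 ≤ ω * 1 := by
        have k3 : ω ^ 2 ≤ ω := by nlinarith
        exact mul_le_mul k3 k1 (sq_nonneg t) hω0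
      linarith
    have h5 := mul_nonneg h2 h4
    nlinarith
  have hmono : ∀ s ∈ Ioo (0 : ℝ) 1, P s ≤ P 1 := by
    intro s hs
    have hm : MonotoneOn P (Icc s 1) := by
      apply monotoneOn_of_deriv_nonneg (convex_Icc s 1)
      · intro t ht
        exact (hder t ⟨lt_of_lt_of_le hs.1 ht.1, ht.2⟩).continuousAt.continuousWithinAt
      · intro t ht
        rw [interior_Icc] at ht
        exact (hder t ⟨hs.1.trans ht.1, ht.2.le⟩).differentiableAt.differentiableWithinAt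
      · intro t ht
        rw [interior_Icc] at ht
        rw [(hder t ⟨hs.1.trans ht.1, ht.2.le⟩).deriv]
        exact hnn t ⟨hs.1.trans ht.1, ht.2.le⟩
    exact hm ⟨le_rfl, hs.2.le⟩ ⟨hs.2.le, le_rfl⟩ hs.2.le
  have hlow : ∀ s ∈ Ioo (0 : ℝ) 1, -(5 * M * s) ≤ P s := by
    intro s hs
    have hs' : s ∈ Icc (0 : ℝ) 1 := ⟨hs.1.le, hs.2.le⟩
    obtain ⟨h1, h2⟩ := hM s hs'
    have h3 := (abs_le.1 h2).1
    have h4 := hN s hs'
    have h5 : (s⁻¹ - ω * s) * N s ≤ M * s := by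
      have k1 : (s⁻¹ - ω * s) * N s ≤ s⁻¹ * N s := by
        have := mul_nonneg (mul_nonneg hω0 hs.1.le) h4
        linarith
      have k2 : s⁻¹ * N s ≤ s⁻¹ * (M * s ^ 2) := mul_le_mul_of_nonneg_left h1 (by
        have := hs.1
        positivity)
      have k3 : s⁻¹ * (M * s ^ 2) = M * s := by
        have := hs.1.ne'
        field_simp
      linarith
    have h6 : P s = N1 s - 2 * ((s⁻¹ - ω * s) * N s) + ε * s := by
      rw [hP]
      ring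
    rw [h6]
    have h7 := mul_nonneg hε hs.1.le
    have h8 := mul_nonneg hM0 hs.1.le
    linarith
  have hfin : 0 ≤ P 1 := by
    by_contra hcon
    rw [not_le] at hcon
    obtain ⟨s, hs⟩ : ∃ s, s = min (1 / 2) (-P 1 / (10 * (M + 1))) := ⟨_, rfl⟩
    have hs0 : 0 < s := by
      rw [hs]
      apply lt_min (by norm_num)
      apply div_pos (by linarith) (by linarith)
    have hs1 : s < 1 := by
      have : s ≤ 1 / 2 := by rw [hs]; exact min_le_left _ _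
      linarith
    have h1 := hmono s ⟨hs0, hs1⟩
    have h2 := hlow s ⟨hs0, hs1⟩
    have h3 : s * (10 * (M + 1)) ≤ -P 1 := by
      have : s ≤ -P 1 / (10 * (M + 1)) := by rw [hs]; exact min_le_right _ _
      exact (le_div_iff₀ (by linarith)).1 this
    nlinarith
  have hP1 : P 1 = N1 1 - 2 * (1 - ω) * N 1 + ε := by
    rw [hP]
    norm_num
  rw [hP1] at hfin
  linarith

end Pool.Agent.Helper48.FC
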