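import Mathlib
import Pool.Agent.Helper48.FC.Alg

/-!
Block FC-2.  Comparison of two geodesics.

Put `w t = c' t - c t`, `w1 t = v' t - v t`, `W0 = ‖w 0‖`, `W1 = ‖w 1‖`; `w` has derivative `w1` and `w1` has derivative
`w2 t = acc (A (c' t)) (v' t) - acc (A (c t)) (v t)` on `[0,1]`.  Let `M` be the maximum of `‖w1‖` on `[0,1]` (`w1` is continuous there).
`‖w t‖ ≤ W0 + t M` (`norm_image_sub_le_of_norm_deriv_le_segment'`).  `norm_acc_sub_le` with `β = 11` and `Good.lipA`: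
`‖w2 t‖ ≤ 363/10000 (W0 + M) + 66/10000 M =: B`.  So `‖w1 s - w1 t‖ ≤ B` for `s, t ∈ [0,1]`, and the function `s ↦ w s - s • w1 t` has
derivative `w1 s - w1 t` of norm at most `B`, so `‖w 1 - w 0 - w1 t‖ ≤ B`, `‖w1 t‖ ≤ W0 + W1 + B` for all `t`, that is
`M ≤ W0 + W1 + 0.0363 W0 + 0.0429 M`, `M ≤ 2 (W0 + W1)`.
-/

set_option autoImplicit false
set_option linter.unusedSectionVars false

namespace Pool.Agent.Helper48.FC

open Real Set
open scoped RealInnerProductSpace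

variable {E : Type*} [NormedAddCommGroup E] [InnerProductSpace ℝ E]
variable {φ : E → ℝ} {A : E → E} {H : E → E →L[ℝ] E}

theorem geo_compare (h : Good φ A H) {c v c' v' : ℝ → E} (g : Geo A c v) (g' : Geo A c' v')
    (hb : ∀ t ∈ Icc (0 : ℝ) 1, ‖v t‖ ≤ 11) (hb' : ∀ t ∈ Icc (0 : ℝ) 1, ‖v' t‖ ≤ 11)
    {t : ℝ} (ht : t ∈ Icc (0 : ℝ) 1) :
    ‖v' t - v t‖ ≤ 2 * (‖c' 0 - c 0‖ + ‖c' 1 - c 1‖) ∧
      ‖c' t - c t‖ ≤ ‖c' 0 - c 0‖ + 2 * t * (‖c' 0 - c 0‖ + ‖c' 1 - c 1‖) := by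
  have hcont1 : ContinuousOn (fun s => ‖v' s - v s‖) (Icc (0 : ℝ) 1) := by
    intro s hs
    exact ((g'.dv s hs).continuousAt.sub (g.dv s hs).continuousAt).norm.continuousWithinAt
  obtain ⟨m, hm, hmax⟩ := isCompact_Icc.exists_isMaxOn (nonempty_Icc.2 (zero_le_one' ℝ)) hcont1
  set M : ℝ := ‖v' m - v m‖ with hM
  have hM0 : 0 ≤ M := norm_nonneg _
  have hle : ∀ s ∈ Icc (0 : ℝ) 1, ‖v' s - v s‖ ≤ M := fun s hs => hmax hs
  set W0 : ℝ := ‖c' 0 - c 0‖ with hW0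
  set W1 : ℝ := ‖c' 1 - c 1‖ with hW1
  have hW0' : 0 ≤ W0 := norm_nonneg _
  have hW1' : 0 ≤ W1 := norm_nonneg _
  have hw : ∀ s ∈ Icc (0 : ℝ) 1, ‖c' s - c s‖ ≤ W0 + s * M := by
    intro s hs
    have h1 : ∀ r ∈ Icc (0 : ℝ) s, HasDerivWithinAt (fun r => c' r - c r) (v' r - v r) (Icc 0 s) r := by
      intro r hr
      have hr1 : r ∈ Icc (0 : ℝ) 1 := ⟨hr.1, hr.2.trans hs.2⟩
      exact ((g'.dc r hr1).sub (g.dc r hr1)).hasDerivWithinAt
    have h4 := norm_image_sub_le_of_norm_deriv_le_segment' h1 (C := M)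
      (fun r hr => hle r ⟨hr.1, hr.2.le.trans hs.2⟩) s ⟨hs.1, le_rfl⟩
    have h5 := norm_add_le (c' s - c s - (c' 0 - c 0)) (c' 0 - c 0)
    rw [sub_add_cancel] at h5
    have h4' : ‖c' s - c s - (c' 0 - c 0)‖ ≤ M * (s - 0) := h4
    linarith
  set B : ℝ := 363 / 10000 * (W0 + M) + 66 / 10000 * M with hB
  have hB0 : 0 ≤ B := by positivity
  have hacc : ∀ s ∈ Icc (0 : ℝ) 1, ‖acc (A (c' s)) (v' s) - acc (A (c s)) (v s)‖ ≤ B := by
    intro s hs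
    have h1 := norm_acc_sub_le (β := 11) (h.bA (c s)) (h.bA (c' s)) (hb s hs) (hb' s hs)
    have h2 := h.lipA (c' s) (c s)
    have h3 := hw s hs
    have h4 := hle s hs
    have h5 : s * M ≤ 1 * M := mul_le_mul_of_nonneg_right hs.2 hM0
    rw [hB]
    linarith
  have hv1 : ∀ r ∈ Icc (0 : ℝ) 1, ∀ s ∈ Icc (0 : ℝ) 1,
      ‖(v' s - v s) - (v' r - v r)‖ ≤ B := by
    intro r hr s hs
    have h1 := (convex_Icc (0 : ℝ) 1).norm_image_sub_le_of_norm_hasDerivWithin_le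
      (f := fun s => v' s - v s)
      (f' := fun s => acc (A (c' s)) (v' s) - acc (A (c s)) (v s)) (C := B)
      (fun x hx => ((g'.dv x hx).sub (g.dv x hx)).hasDerivWithinAt) hacc hr hs
    have h1' : ‖(v' s - v s) - (v' r - v r)‖ ≤ B * ‖s - r‖ := h1
    have h2 : ‖s - r‖ ≤ 1 := by
      rw [Real.norm_eq_abs, abs_le]
      constructor <;> linarith [hr.1, hr.2, hs.1, hs.2]
    have h3 : B * ‖s - r‖ ≤ B * 1 := mul_le_mul_of_nonneg_left h2 hB0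
    linarith
  have hend : ∀ r ∈ Icc (0 : ℝ) 1, ‖v' r - v r‖ ≤ W0 + W1 + B := by
    intro r hr
    have h1 : ∀ s ∈ Icc (0 : ℝ) 1, HasDerivWithinAt (fun s => c' s - c s - s • (v' r - v r))
        ((v' s - v s) - (v' r - v r)) (Icc 0 1) s := by
      intro s hs
      have h3 : HasDerivAt (fun s : ℝ => s • (v' r - v r)) (v' r - v r) s := by
        simpa using (hasDerivAt_id s).smul_const (v' r - v r)
      exact (((g'.dc s hs).sub (g.dc s hs)).sub h3).hasDerivWithinAt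
    have h4 := norm_image_sub_le_of_norm_deriv_le_segment' h1 (C := B)
      (fun s hs => hv1 r hr s ⟨hs.1, hs.2.le⟩) 1 ⟨zero_le_one, le_rfl⟩
    have h4' : ‖c' 1 - c 1 - (1 : ℝ) • (v' r - v r) - (c' 0 - c 0 - (0 : ℝ) • (v' r - v r))‖
        ≤ B * (1 - 0) := h4
    rw [one_smul, zero_smul, sub_zero] at h4'
    have e : v' r - v r = (c' 1 - c 1) - (c' 0 - c 0) -
        (c' 1 - c 1 - (v' r - v r) - (c' 0 - c 0)) := by abel
    rw [e]
    have h5 := norm_sub_le ((c' 1 - c 1) - (c' 0 - c 0)) (c' 1 - c 1 - (v' r - v r) - (c' 0 - c 0))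
    have h6 := norm_sub_le (c' 1 - c 1) (c' 0 - c 0)
    linarith
  have hMle : M ≤ 2 * (W0 + W1) := by
    have h1 := hend m hm
    rw [← hM, hB] at h1
    linarith
  refine ⟨(hle t ht).trans hMle, (hw t ht).trans ?_⟩
  have h1 : t * M ≤ t * (2 * (W0 + W1)) := mul_le_mul_of_nonneg_left hMle ht.1
  linarith

/-- uniqueness -/
theorem geo_unique (h : Good φ A H) {c v c' v' : ℝ → E} (g : Geo A c v) (g' : Geo A c' v')
    (hb : ∀ t ∈ Icc (0 : ℝ) 1, ‖v t‖ ≤ 11) (hb' : ∀ t ∈ Icc (0 : ℝ) 1, ‖v' t‖ ≤ 11)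
    (h0 : c' 0 = c 0) (h1 : c' 1 = c 1) {t : ℝ} (ht : t ∈ Icc (0 : ℝ) 1) :
    v' t = v t ∧ c' t = c t := by
  have h2 := geo_compare h g g' hb hb' ht
  rw [h0, h1, sub_self, sub_self, norm_zero, add_zero, mul_zero, mul_zero, add_zero] at h2
  exact ⟨sub_eq_zero.1 (norm_le_zero_iff.1 h2.1), sub_eq_zero.1 (norm_le_zero_iff.1 h2.2)⟩

end Pool.Agent.Helper48.FC
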