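import Mathlib
import Pool.Agent.Helper48.FC.Alg

/-!
Block FC-1.  Two points at distance at most `10` are joined by a geodesic (Banach fixed point).

Put `D = ‖y - x‖ ≤ 10`.  For `u` in `C(Icc 0 1, E)` let `ū : ℝ → E` be its extension (`Set.IccExtend`), which is continuous,
`U1 t = ∫_0^t ū`, `U2 t = ∫_0^t U1`, `v t = (y - x) + U1 t - U2 1`, `c t = x + t (y - x) + U2 t - t U2 1`.  Then `c 0 = x`, `c 1 = y`,
`c' = v` and `v' = ū` on `ℝ`.  Let `Φ u` be the function `t ↦ acc (A (c t)) (v t)` on `[0,1]` (continuous: `A` is Lipschitz, `Good.lipA`).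
If `‖u‖ ≤ D/200`: `‖v t - (y - x)‖ ≤ 2 ‖u‖ ≤ D/100`, so `‖v t‖ ≤ 1.01 D ≤ 10.1`, and `‖Φ u t‖ ≤ 3/10000 (1.01 D)² ≤ D/200`
(`norm_acc_le`, `D² ≤ 10 D`): the closed ball of radius `D/200` is stable.  For `u, u'` in this ball and `δ = ‖u - u'‖`:
`‖v t - v' t‖ ≤ 2 δ`, `‖c t - c' t‖ ≤ 2 δ`, so by `norm_acc_sub_le` with `β = 10.1` and `Good.lipA`
`‖Φ u t - Φ u' t‖ ≤ 3 * 10.1² * 2 δ/10000 + 6/10000 * 10.1 * 2 δ ≤ δ/2`.  The closed ball is complete
(`ContractingWith.exists_fixedPoint'`), so there is a fixed point `u`, and `v' t = ū t = acc (A (c t)) (v t)` for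
`t ∈ [0,1]` (two-sided derivatives, also at the end points, as `ū` is continuous on `ℝ`).
-/

set_option autoImplicit false
set_option linter.unusedSectionVars false

namespace Pool.Agent.Helper48.FC

open Real Set
open scoped RealInnerProductSpace

variable {E : Type*} [NormedAddCommGroup E] [InnerProductSpace ℝ E]
variable {φ : E → ℝ} {A : E → E} {H : E → E →L[ℝ] E}

/-- the primitive which vanishes at `0` -/
private noncomputable def J1 (f : ℝ → E) (t : ℝ) : E := ∫ s in (0 : ℝ)..t, f s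

private theorem J1_zero (f : ℝ → E) : J1 f 0 = 0 := by
  unfold J1
  exact intervalIntegral.integral_same

private theorem J1_deriv [CompleteSpace E] {f : ℝ → E} (hf : Continuous f) (t : ℝ) : HasDerivAt (J1 f) (f t) t :=
  intervalIntegral.integral_hasDerivAt_right (hf.intervalIntegrable _ _)
    (hf.stronglyMeasurableAtFilter _ _) hf.continuousAt

private theorem J1_cont [CompleteSpace E] {f : ℝ → E} (hf : Continuous f) : Continuous (J1 f) :=
  continuous_iff_continuousAt.2 fun t => (J1_deriv hf t).continuousAt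

private theorem J1_sub_le {f g : ℝ → E} (hf : Continuous f) (hg : Continuous g) {δ : ℝ}
    (hδ : ∀ s ∈ Icc (0 : ℝ) 1, ‖f s - g s‖ ≤ δ) {t : ℝ} (ht : t ∈ Icc (0 : ℝ) 1) :
    ‖J1 f t - J1 g t‖ ≤ δ := by
  unfold J1
  rw [← intervalIntegral.integral_sub (hf.intervalIntegrable _ _) (hg.intervalIntegrable _ _)]
  have h0 : 0 ≤ δ := (norm_nonneg _).trans (hδ t ht)
  have h1 : ‖∫ s in (0 : ℝ)..t, (f s - g s)‖ ≤ δ * |t - 0| := by
    refine intervalIntegral.norm_integral_le_of_norm_le_const ?_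
    intro s hs
    rw [uIoc_of_le ht.1] at hs
    exact hδ s ⟨hs.1.le, hs.2.trans ht.2⟩
  refine h1.trans ?_
  rw [sub_zero, abs_of_nonneg ht.1]
  exact mul_le_of_le_one_right h0 ht.2

private theorem J1_le {f : ℝ → E} (hf : Continuous f) {δ : ℝ}
    (hδ : ∀ s ∈ Icc (0 : ℝ) 1, ‖f s‖ ≤ δ) {t : ℝ} (ht : t ∈ Icc (0 : ℝ) 1) :
    ‖J1 f t‖ ≤ δ := by
  have h := J1_sub_le hf (continuous_const (y := (0 : E))) (δ := δ) (fun s hs => by simpa using hδ s hs) ht
  have h2 : J1 (fun _ : ℝ => (0 : E)) t = 0 := by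
    unfold J1
    simp
  rw [h2, sub_zero] at h
  exact h

/-- velocity -/
private noncomputable def VV (x y : E) (f : ℝ → E) (t : ℝ) : E := (y - x) + J1 f t - J1 (J1 f) 1

/-- curve -/
private noncomputable def CV (x y : E) (f : ℝ → E) (t : ℝ) : E :=
  x + t • (y - x) + J1 (J1 f) t - t • J1 (J1 f) 1

private theorem VV_deriv [CompleteSpace E] (x y : E) {f : ℝ → E} (hf : Continuous f) (t : ℝ) :
    HasDerivAt (VV x y f) (f t) t :=
  ((J1_deriv hf t).const_add (y - x)).sub_const _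

private theorem CV_deriv [CompleteSpace E] (x y : E) {f : ℝ → E} (hf : Continuous f) (t : ℝ) :
    HasDerivAt (CV x y f) (VV x y f t) t := by
  have h1 : HasDerivAt (fun s : ℝ => s • (y - x)) (y - x) t := by
    simpa using (hasDerivAt_id t).smul_const (y - x)
  have h2 : HasDerivAt (fun s : ℝ => s • J1 (J1 f) 1) (J1 (J1 f) 1) t := by
    simpa using (hasDerivAt_id t).smul_const (J1 (J1 f) 1)
  exact ((h1.const_add x).add (J1_deriv (J1_cont hf) t)).sub h2

private theorem VV_cont [CompleteSpace E] (x y : E) {f : ℝ → E} (hf : Continuous f) : Continuous (VV x y f) :=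
  continuous_iff_continuousAt.2 fun t => (VV_deriv x y hf t).continuousAt

private theorem CV_cont [CompleteSpace E] (x y : E) {f : ℝ → E} (hf : Continuous f) : Continuous (CV x y f) :=
  continuous_iff_continuousAt.2 fun t => (CV_deriv x y hf t).continuousAt

private theorem VV_bd [CompleteSpace E] (x y : E) {f : ℝ → E} (hf : Continuous f) {δ : ℝ}
    (hδ : ∀ s ∈ Icc (0 : ℝ) 1, ‖f s‖ ≤ δ) {t : ℝ} (ht : t ∈ Icc (0 : ℝ) 1) :
    ‖VV x y f t - (y - x)‖ ≤ 2 * δ := by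
  have e : VV x y f t - (y - x) = J1 f t - J1 (J1 f) 1 := by
    unfold VV
    abel
  rw [e]
  have h1 := J1_le hf hδ ht
  have h2 : ‖J1 (J1 f) 1‖ ≤ δ := J1_le (J1_cont hf) (fun s hs => J1_le hf hδ hs) ⟨zero_le_one, le_rfl⟩
  have h3 := norm_sub_le (J1 f t) (J1 (J1 f) 1)
  linarith

private theorem VV_sub [CompleteSpace E] (x y : E) {f g : ℝ → E} (hf : Continuous f) (hg : Continuous g) {δ : ℝ}
    (hδ : ∀ s ∈ Icc (0 : ℝ) 1, ‖f s - g s‖ ≤ δ) {t : ℝ} (ht : t ∈ Icc (0 : ℝ) 1) :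
    ‖VV x y f t - VV x y g t‖ ≤ 2 * δ := by
  have e : VV x y f t - VV x y g t = (J1 f t - J1 g t) - (J1 (J1 f) 1 - J1 (J1 g) 1) := by
    unfold VV
    abel
  rw [e]
  have h1 := J1_sub_le hf hg hδ ht
  have h2 := J1_sub_le (J1_cont hf) (J1_cont hg) (fun s hs => J1_sub_le hf hg hδ hs)
    (⟨zero_le_one, le_rfl⟩ : (1 : ℝ) ∈ Icc (0 : ℝ) 1)
  have h3 := norm_sub_le (J1 f t - J1 g t) (J1 (J1 f) 1 - J1 (J1 g) 1)
  linarith

private theorem CV_sub [CompleteSpace E] (x y : E) {f g : ℝ → E} (hf : Continuous f) (hg : Continuous g) {δ : ℝ}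
    (hδ : ∀ s ∈ Icc (0 : ℝ) 1, ‖f s - g s‖ ≤ δ) {t : ℝ} (ht : t ∈ Icc (0 : ℝ) 1) :
    ‖CV x y f t - CV x y g t‖ ≤ 2 * δ := by
  have e : CV x y f t - CV x y g t = (J1 (J1 f) t - J1 (J1 g) t) - t • (J1 (J1 f) 1 - J1 (J1 g) 1) := by
    unfold CV
    rw [smul_sub t (J1 (J1 f) 1)]
    abel
  rw [e]
  have h1 := J1_sub_le (J1_cont hf) (J1_cont hg) (fun s hs => J1_sub_le hf hg hδ hs) ht
  have h2 := J1_sub_le (J1_cont hf) (J1_cont hg) (fun s hs => J1_sub_le hf hg hδ hs)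
    (⟨zero_le_one, le_rfl⟩ : (1 : ℝ) ∈ Icc (0 : ℝ) 1)
  have h3 := norm_sub_le (J1 (J1 f) t - J1 (J1 g) t) (t • (J1 (J1 f) 1 - J1 (J1 g) 1))
  have h4 : ‖t • (J1 (J1 f) 1 - J1 (J1 g) 1)‖ ≤ δ := by
    rw [norm_smul, Real.norm_eq_abs, abs_of_nonneg ht.1]
    exact (mul_le_of_le_one_left (norm_nonneg _) ht.2).trans h2
  linarith

private theorem acc_cont (hA : Continuous A) {c v : ℝ → E} (hc : Continuous c) (hv : Continuous v) :
    Continuous fun t => acc (A (c t)) (v t) := by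
  unfold acc
  have h1 : Continuous fun t => A (c t) := hA.comp hc
  exact ((hv.norm.pow 2).smul h1).sub ((continuous_const.mul (h1.inner hv)).smul hv)

private noncomputable def Phi [CompleteSpace E] (hA : Continuous A) (x y : E) (u : C(Icc (0 : ℝ) 1, E)) :
    C(Icc (0 : ℝ) 1, E) :=
  ⟨fun t => acc (A (CV x y (IccExtend (zero_le_one (α := ℝ)) u) t)) (VV x y (IccExtend (zero_le_one (α := ℝ)) u) t),
    (acc_cont hA (CV_cont x y (u.continuous.Icc_extend')) (VV_cont x y (u.continuous.Icc_extend'))).comp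
      continuous_subtype_val⟩

theorem exists_seg [CompleteSpace E] (h : Good φ A H) {x y : E} (hd : ‖y - x‖ ≤ 10) :
    ∃ c v : ℝ → E, Seg A x y c v := by
  have hD0 := norm_nonneg (y - x)
  have hext : ∀ u : C(Icc (0 : ℝ) 1, E), Continuous (IccExtend (zero_le_one (α := ℝ)) u) :=
    fun u => u.continuous.Icc_extend'
  have hn : ∀ (u : C(Icc (0 : ℝ) 1, E)) (s : ℝ), ‖IccExtend (zero_le_one (α := ℝ)) u s‖ ≤ ‖u‖ :=
    fun u s => u.norm_coe_le_norm _
  have hn2 : ∀ (u u' : C(Icc (0 : ℝ) 1, E)) (s : ℝ),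
      ‖IccExtend (zero_le_one (α := ℝ)) u s - IccExtend (zero_le_one (α := ℝ)) u' s‖ ≤ dist u u' := by
    intro u u' s
    rw [← dist_eq_norm]
    exact ContinuousMap.dist_apply_le_dist _
  have hA := h.contA
  have hV : ∀ u : C(Icc (0 : ℝ) 1, E), ‖u‖ ≤ ‖y - x‖ / 200 → ∀ t ∈ Icc (0 : ℝ) 1,
      ‖VV x y (IccExtend (zero_le_one (α := ℝ)) u) t - (y - x)‖ ≤ ‖y - x‖ / 100 := by
    intro u hu t ht
    have := VV_bd x y (hext u) (δ := ‖y - x‖ / 200) (fun s _ => (hn u s).trans hu) ht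
    linarith
  have hV2 : ∀ u : C(Icc (0 : ℝ) 1, E), ‖u‖ ≤ ‖y - x‖ / 200 → ∀ t ∈ Icc (0 : ℝ) 1,
      ‖VV x y (IccExtend (zero_le_one (α := ℝ)) u) t‖ ≤ 1.01 * ‖y - x‖ := by
    intro u hu t ht
    have h1 := hV u hu t ht
    have h2 : VV x y (IccExtend (zero_le_one (α := ℝ)) u) t =
        (VV x y (IccExtend (zero_le_one (α := ℝ)) u) t - (y - x)) + (y - x) := by abel
    have h3 := norm_add_le (VV x y (IccExtend (zero_le_one (α := ℝ)) u) t - (y - x)) (y - x)
    rw [← h2] at h3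
    linarith
  let B : Set C(Icc (0 : ℝ) 1, E) := Metric.closedBall 0 (‖y - x‖ / 200)
  have hB : ∀ u, u ∈ B ↔ ‖u‖ ≤ ‖y - x‖ / 200 := fun u => mem_closedBall_zero_iff
  have hmaps : MapsTo (Phi hA x y) B B := by
    intro u hu
    rw [hB] at hu ⊢
    rw [ContinuousMap.norm_le _ (by positivity)]
    intro t
    have h1 : ‖Phi hA x y u t‖ ≤ 3 * (1 / 10000) * (1.01 * ‖y - x‖) ^ 2 :=
      norm_acc_le (h.bA _) (hV2 u hu t t.2)
    refine h1.trans ?_
    nlinarith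
  have hlip : LipschitzWith (1 / 2 : NNReal) (hmaps.restrict (Phi hA x y) B B) := by
    refine LipschitzWith.of_dist_le_mul ?_
    intro u u'
    rw [Subtype.dist_eq, Subtype.dist_eq, MapsTo.val_restrict_apply, MapsTo.val_restrict_apply,
      ContinuousMap.dist_le (by positivity)]
    intro t
    have hu := (hB _).1 u.2
    have hu' := (hB _).1 u'.2
    have h1 : ‖VV x y (IccExtend (zero_le_one (α := ℝ)) u'.1) t‖ ≤ 10.1 := by
      have := hV2 u'.1 hu' t t.2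
      linarith
    have h2 : ‖VV x y (IccExtend (zero_le_one (α := ℝ)) u.1) t‖ ≤ 10.1 := by
      have := hV2 u.1 hu t t.2
      linarith
    have h3 := norm_acc_sub_le (h.bA (CV x y (IccExtend (zero_le_one (α := ℝ)) u'.1) t))
      (h.bA (CV x y (IccExtend (zero_le_one (α := ℝ)) u.1) t)) h1 h2
    have h4 := h.lipA (CV x y (IccExtend (zero_le_one (α := ℝ)) u.1) t)
      (CV x y (IccExtend (zero_le_one (α := ℝ)) u'.1) t)
    have h5 := CV_sub x y (hext u.1) (hext u'.1) (fun s _ => hn2 u.1 u'.1 s) t.2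
    have h6 := VV_sub x y (hext u.1) (hext u'.1) (fun s _ => hn2 u.1 u'.1 s) t.2
    have h7 : dist (Phi hA x y u.1 t) (Phi hA x y u'.1 t) ≤ 1 / 2 * dist u.1 u'.1 := by
      rw [dist_eq_norm]
      refine h3.trans ?_
      nlinarith [dist_nonneg (x := u.1) (y := u'.1)]
    simpa using h7
  have hcon : ContractingWith (1 / 2 : NNReal) (hmaps.restrict (Phi hA x y) B B) :=
    ⟨by rw [← NNReal.coe_lt_coe]; norm_num, hlip⟩
  have h0 : (0 : C(Icc (0 : ℝ) 1, E)) ∈ B := by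
    rw [hB, norm_zero]
    positivity
  obtain ⟨u, hu, hfix, -⟩ := hcon.exists_fixedPoint' (Metric.isClosed_closedBall.isComplete) hmaps h0
    (edist_ne_top _ _)
  rw [hB] at hu
  refine ⟨CV x y (IccExtend (zero_le_one (α := ℝ)) u), VV x y (IccExtend (zero_le_one (α := ℝ)) u),
    ⟨fun t _ => CV_deriv x y (hext u) t, fun t ht => ?_⟩, ?_, ?_, hV u hu⟩
  · have h1 := VV_deriv x y (hext u) t
    have h2 : IccExtend (zero_le_one (α := ℝ)) u t = u ⟨t, ht⟩ := IccExtend_of_mem _ _ ht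
    have h3 : u ⟨t, ht⟩ = Phi hA x y u ⟨t, ht⟩ := by rw [hfix.eq]
    rw [h2, h3] at h1
    exact h1
  · unfold CV
    rw [J1_zero]
    simp
  · unfold CV
    rw [one_smul, one_smul]
    abel

end Pool.Agent.Helper48.FC
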