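import Mathlib
import Pool.Agent.Helper48.FC.ExGeo
import Pool.Agent.Helper48.FC.Cmp

/-!
Block FC-3.  The length `ll` and the gradient `gg` of half the square of the length.

* `speed_const`: `exp (2 φ (c t)) ‖v t‖²` has derivative `exp (2φ) (2⟪A,v⟫‖v‖² + 2⟪v, acc A v⟫) = 0` (`inner_v_acc`) on `[0,1]`.
* `Geo.seg`: let `M` be the maximum of `‖v‖` on `[0,1]`, `M ≤ 11`; `‖acc‖ ≤ 3/10000 M² ≤ 0.0033 M` (`norm_acc_le`), so `‖v s - v t‖ ≤ 0.0033 M`,
  `‖c 1 - c 0 - v t‖ ≤ 0.0033 M` (derivative of `s ↦ c s - s • v t`), `M ≤ ‖c 1 - c 0‖ + 0.0033 M`, so `0.0033 M ≤ ‖c 1 - c 0‖ / 100`.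
* `ll_eq`, `gg_eq`: unfold; the chosen geodesic has the same velocity (`geo_unique`, `Seg.norm_le_eleven`), and `speed_const`.
* `ll_self`: constant geodesic, `‖v 0‖ ≤ 1.01 * 0`.  `ll_symm`: `t ↦ c (1 - t)`, `t ↦ -v (1 - t)` is a geodesic from `y` to `x`
  (`acc a (-v) = acc a v`); use `ll_eq` at `t = 0` and `t = 1`.
* `ll_le`, `le_ll`: `exists_seg`, `ll_eq` at `t = 0`, `Seg.norm_le`, `Seg.le_norm`, `exp_le_of_bdd`, `le_exp_of_bdd`.
* `norm_gg`: `‖gg o p‖ = exp (2 φ p) ‖v 1‖`, `ll_eq` at `t = 1`.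
* `ll_sub`: for `s < t` the curve `r ↦ c (s + (t - s) r)` with velocity `(t - s) v (s + (t - s) r)` is a geodesic (`acc a (k v) = k² acc a v`)
  with velocity of norm at most `11`, so `Geo.seg` and `ll_eq` at `r = 0` give `ll (c s) (c t) = exp (φ (c s)) (t - s) ‖v s‖ = (t - s) ll x y`.
  `‖c t - c s‖ ≤ 10`: `Seg.norm_le` gives `‖c t - c s‖ ≤ 1.01 (t - s) ‖y - x‖`, hence the hypothesis `‖y - x‖ ≤ 9`.
-/

set_option autoImplicit false
set_option linter.unusedSectionVars false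

namespace Pool.Agent.Helper48.FC

open Real Set
open scoped RealInnerProductSpace

variable {E : Type*} [NormedAddCommGroup E] [InnerProductSpace ℝ E]
variable {φ : E → ℝ} {A : E → E} {H : E → E →L[ℝ] E}

/-- the gradient of `p ↦ ll o p ^ 2 / 2` -/
noncomputable def gg (φ : E → ℝ) (A : E → E) (o p : E) : E := by
  classical exact if h : ∃ c v : ℝ → E, Seg A o p c v then exp (2 * φ p) • h.choose_spec.choose 1 else 0

private theorem acc_smul96 (k : ℝ) (a v : E) : acc a (k • v) = k ^ 2 • acc a v := by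
  unfold acc
  rw [norm_smul, inner_smul_right, smul_sub, smul_smul, smul_smul, smul_smul, mul_pow, Real.norm_eq_abs, sq_abs]
  congr 2
  ring

private theorem acc_neg96 (a v : E) : acc a (-v) = acc a v := by
  have := acc_smul96 (-1) a v
  rwa [neg_one_smul, neg_one_sq, one_smul] at this

theorem speed_const (h : Good φ A H) {c v : ℝ → E} (g : Geo A c v) {t : ℝ} (ht : t ∈ Icc (0 : ℝ) 1) :
    exp (φ (c t)) * ‖v t‖ = exp (φ (c 0)) * ‖v 0‖ := by
  have hd : ∀ s ∈ Icc (0 : ℝ) 1, HasDerivAt (fun s => exp (2 * φ (c s)) * ‖v s‖ ^ 2) 0 s := by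
    intro s hs
    have h1 : HasDerivAt (fun s => φ (c s)) ⟪A (c s), v s⟫ s :=
      (h.grad (c s)).comp_hasDerivAt s (g.dc s hs)
    have h2 : HasDerivAt (fun s => exp (2 * φ (c s))) (exp (2 * φ (c s)) * (2 * ⟪A (c s), v s⟫)) s :=
      (h1.const_mul 2).exp
    have h3 : HasDerivAt (fun s => ‖v s‖ ^ 2) (2 * ⟪v s, acc (A (c s)) (v s)⟫) s := by
      have h4 := HasDerivAt.inner ℝ (g.dv s hs) (g.dv s hs)
      have e : (fun s => ‖v s‖ ^ 2) = fun s => ⟪v s, v s⟫ := by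
        funext s
        rw [real_inner_self_eq_norm_sq]
      rw [e]
      refine h4.congr_deriv ?_
      rw [real_inner_comm (v s) (acc (A (c s)) (v s))]
      ring
    refine (h2.mul h3).congr_deriv ?_
    rw [inner_v_acc]
    ring
  have h5 := norm_image_sub_le_of_norm_deriv_le_segment' (fun s hs => (hd s hs).hasDerivWithinAt) (C := 0)
    (fun s hs => by rw [norm_zero]) t ht
  rw [zero_mul] at h5
  have h6 : exp (2 * φ (c t)) * ‖v t‖ ^ 2 = exp (2 * φ (c 0)) * ‖v 0‖ ^ 2 := sub_eq_zero.1 (norm_le_zero_iff.1 h5)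
  have e2 : ∀ s, exp (2 * φ (c s)) * ‖v s‖ ^ 2 = (exp (φ (c s)) * ‖v s‖) ^ 2 := by
    intro s
    rw [mul_pow, ← Real.exp_nat_mul]
    norm_num
  rw [e2, e2] at h6
  exact (pow_left_inj₀ (by positivity) (by positivity) two_ne_zero).1 h6

theorem Geo.seg (h : Good φ A H) {c v : ℝ → E} (g : Geo A c v)
    (hb : ∀ t ∈ Icc (0 : ℝ) 1, ‖v t‖ ≤ 11) : Seg A (c 0) (c 1) c v := by
  have hvc : ContinuousOn (fun t => ‖v t‖) (Icc (0 : ℝ) 1) := fun t ht =>
    (g.dv t ht).continuousAt.norm.continuousWithinAt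
  obtain ⟨t0, ht0, hmax⟩ := isCompact_Icc.exists_isMaxOn (nonempty_Icc.2 zero_le_one) hvc
  set M := ‖v t0‖ with hM
  have hM1 : ∀ t ∈ Icc (0 : ℝ) 1, ‖v t‖ ≤ M := fun t ht => hmax ht
  have hM0 : 0 ≤ M := norm_nonneg _
  have hM11 : M ≤ 11 := hb t0 ht0
  have hacc : ∀ t ∈ Icc (0 : ℝ) 1, ‖acc (A (c t)) (v t)‖ ≤ 33 / 10000 * M := by
    intro t ht
    have h1 := norm_acc_le (h.bA (c t)) (hM1 t ht)
    have h2 : M ^ 2 ≤ 11 * M := by nlinarith
    linarith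
  have hvv : ∀ s ∈ Icc (0 : ℝ) 1, ∀ t ∈ Icc (0 : ℝ) 1, ‖v s - v t‖ ≤ 33 / 10000 * M := by
    intro s hs t ht
    have h1 := (convex_Icc (0 : ℝ) 1).norm_image_sub_le_of_norm_hasDerivWithin_le
      (fun r hr => (g.dv r hr).hasDerivWithinAt) hacc ht hs
    have h2 : ‖s - t‖ ≤ 1 := by
      rw [Real.norm_eq_abs, abs_le]
      constructor <;> linarith [hs.1, hs.2, ht.1, ht.2]
    calc ‖v s - v t‖ ≤ 33 / 10000 * M * ‖s - t‖ := h1
      _ ≤ 33 / 10000 * M * 1 := by gcongr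
      _ = _ := mul_one _
  have hcv : ∀ t ∈ Icc (0 : ℝ) 1, ‖v t - (c 1 - c 0)‖ ≤ 33 / 10000 * M := by
    intro t ht
    have h1 : ∀ s ∈ Icc (0 : ℝ) 1, HasDerivWithinAt (fun s => c s - s • v t) (v s - v t) (Icc 0 1) s := by
      intro s hs
      have h2 : HasDerivAt (fun s : ℝ => s • v t) (v t) s := by
        have := (hasDerivAt_id s).smul_const (v t)
        simpa using this
      exact ((g.dc s hs).sub h2).hasDerivWithinAt
    have h3 := norm_image_sub_le_of_norm_deriv_le_segment' h1 (C := 33 / 10000 * M)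
      (fun s hs => hvv s ⟨hs.1, hs.2.le⟩ t ht) 1 ⟨zero_le_one, le_rfl⟩
    simp only [one_smul, zero_smul, sub_zero, mul_one] at h3
    have e : v t - (c 1 - c 0) = -(c 1 - v t - c 0) := by abel
    rw [e, norm_neg]
    exact h3
  refine ⟨g, rfl, rfl, fun t ht => (hcv t ht).trans ?_⟩
  have h4 := hcv t0 ht0
  have h5 : M ≤ ‖v t0 - (c 1 - c 0)‖ + ‖c 1 - c 0‖ := by
    have := norm_add_le (v t0 - (c 1 - c 0)) (c 1 - c 0)
    rwa [sub_add_cancel] at this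
  linarith

theorem ll_eq (h : Good φ A H) {x y : E} {c v : ℝ → E} (s : Seg A x y c v) (hd : ‖y - x‖ ≤ 10)
    {t : ℝ} (ht : t ∈ Icc (0 : ℝ) 1) : exp (φ (c t)) * ‖v t‖ = ll φ A x y := by
  rw [speed_const h s.geo ht]
  have hex : ∃ c v : ℝ → E, Seg A x y c v := ⟨c, v, s⟩
  unfold ll
  rw [dif_pos hex]
  have s' : Seg A x y hex.choose hex.choose_spec.choose := hex.choose_spec.choose_spec
  have h1 := geo_unique h s.geo s'.geo (fun t ht => s.norm_le_eleven hd ht) (fun t ht => s'.norm_le_eleven hd ht)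
    (by rw [s.c0, s'.c0]) (by rw [s.c1, s'.c1]) (t := 0) ⟨le_rfl, zero_le_one⟩
  rw [h1.1, s.c0]

theorem gg_eq (h : Good φ A H) {x y : E} {c v : ℝ → E} (s : Seg A x y c v) (hd : ‖y - x‖ ≤ 10) :
    exp (2 * φ y) • v 1 = gg φ A x y := by
  have hex : ∃ c v : ℝ → E, Seg A x y c v := ⟨c, v, s⟩
  unfold gg
  rw [dif_pos hex]
  have s' : Seg A x y hex.choose hex.choose_spec.choose := hex.choose_spec.choose_spec
  have h1 := geo_unique h s.geo s'.geo (fun t ht => s.norm_le_eleven hd ht) (fun t ht => s'.norm_le_eleven hd ht)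
    (by rw [s.c0, s'.c0]) (by rw [s.c1, s'.c1]) (t := 1) ⟨zero_le_one, le_rfl⟩
  rw [h1.1]

theorem ll_nonneg (x y : E) : 0 ≤ ll φ A x y := by
  unfold ll
  split_ifs
  · positivity
  · exact le_rfl

theorem ll_self (x : E) : ll φ A x x = 0 := by
  unfold ll
  split_ifs with hex
  · have s' : Seg A x x hex.choose hex.choose_spec.choose := hex.choose_spec.choose_spec
    have h1 := s'.norm_le (t := 0) ⟨le_rfl, zero_le_one⟩
    rw [sub_self, norm_zero, mul_zero] at h1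
    have h2 : ‖hex.choose_spec.choose 0‖ = 0 := le_antisymm h1 (norm_nonneg _)
    rw [h2, mul_zero]
  · rfl

variable [CompleteSpace E]

theorem ll_symm (h : Good φ A H) {x y : E} (hd : ‖y - x‖ ≤ 10) : ll φ A x y = ll φ A y x := by
  obtain ⟨c, v, s⟩ := exists_seg h hd
  have hr : ∀ t ∈ Icc (0 : ℝ) 1, 1 - t ∈ Icc (0 : ℝ) 1 := fun t ht => ⟨by linarith [ht.2], by linarith [ht.1]⟩
  have hdt : ∀ t : ℝ, HasDerivAt (fun t : ℝ => 1 - t) (-1) t := fun t => by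
    simpa using (hasDerivAt_id t).const_sub 1
  have s' : Seg A y x (fun t => c (1 - t)) (fun t => -v (1 - t)) := by
    refine ⟨⟨fun t ht => ?_, fun t ht => ?_⟩, ?_, ?_, fun t ht => ?_⟩
    · exact ((s.geo.dc (1 - t) (hr t ht)).scomp t (hdt t)).congr_deriv (neg_one_smul ℝ _)
    · rw [acc_neg96]
      exact ((s.geo.dv (1 - t) (hr t ht)).scomp t (hdt t)).neg.congr_deriv (by rw [neg_one_smul, neg_neg])
    · simp only [sub_zero]
      exact s.c1
    · simp only [sub_self]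
      exact s.c0
    · have h1 := s.bd (1 - t) (hr t ht)
      have e : -v (1 - t) - (x - y) = -(v (1 - t) - (y - x)) := by abel
      rw [e, norm_neg, norm_sub_rev x y]
      exact h1
  have h1 := ll_eq h s hd (t := 0) ⟨le_rfl, zero_le_one⟩
  have h2 := ll_eq h s' (by rwa [norm_sub_rev]) (t := 1) ⟨zero_le_one, le_rfl⟩
  rw [← h1, ← h2]
  simp only [sub_self, norm_neg]

theorem ll_le (h : Good φ A H) {x y : E} (hd : ‖y - x‖ ≤ 10) : ll φ A x y ≤ 1.12 * ‖y - x‖ := by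
  obtain ⟨c, v, s⟩ := exists_seg h hd
  rw [← ll_eq h s hd (t := 0) ⟨le_rfl, zero_le_one⟩]
  have h1 := exp_le_of_bdd (h.bdd (c 0))
  have h2 := s.norm_le (t := 0) ⟨le_rfl, zero_le_one⟩
  calc exp (φ (c 0)) * ‖v 0‖ ≤ 1.1052 * (1.01 * ‖y - x‖) := by gcongr
    _ ≤ 1.12 * ‖y - x‖ := by nlinarith [norm_nonneg (y - x)]

theorem le_ll (h : Good φ A H) {x y : E} (hd : ‖y - x‖ ≤ 10) : 0.88 * ‖y - x‖ ≤ ll φ A x y := by
  obtain ⟨c, v, s⟩ := exists_seg h hd
  rw [← ll_eq h s hd (t := 0) ⟨le_rfl, zero_le_one⟩]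
  have h1 := le_exp_of_bdd (h.bdd (c 0))
  have h2 := s.le_norm (t := 0) ⟨le_rfl, zero_le_one⟩
  calc 0.88 * ‖y - x‖ ≤ 0.9048 * (0.99 * ‖y - x‖) := by nlinarith [norm_nonneg (y - x)]
    _ ≤ exp (φ (c 0)) * ‖v 0‖ := by gcongr

theorem norm_gg (h : Good φ A H) {o p : E} (hd : ‖p - o‖ ≤ 10) :
    ‖gg φ A o p‖ = exp (φ p) * ll φ A o p := by
  obtain ⟨c, v, s⟩ := exists_seg h hd
  rw [← gg_eq h s hd, ← ll_eq h s hd (t := 1) ⟨zero_le_one, le_rfl⟩, s.c1, norm_smul, Real.norm_eq_abs,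
    abs_of_pos (exp_pos _), ← mul_assoc, ← exp_add]
  congr 2
  ring

theorem ll_sub (h : Good φ A H) {x y : E} {c v : ℝ → E} (g : Seg A x y c v) (hd : ‖y - x‖ ≤ 9)
    {s t : ℝ} (hs : 0 ≤ s) (hst : s ≤ t) (ht : t ≤ 1) :
    ll φ A (c s) (c t) = (t - s) * ll φ A x y := by
  have hk0 : 0 ≤ t - s := by linarith
  have hk1 : t - s ≤ 1 := by linarith
  have hr : ∀ r ∈ Icc (0 : ℝ) 1, s + (t - s) * r ∈ Icc (0 : ℝ) 1 := fun r hr =>
    ⟨by nlinarith [hr.1, hr.2], by nlinarith [hr.1, hr.2]⟩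
  have hdt : ∀ r : ℝ, HasDerivAt (fun r : ℝ => s + (t - s) * r) (t - s) r := fun r => by
    simpa using ((hasDerivAt_id r).const_mul (t - s)).const_add s
  have hd10 : ‖y - x‖ ≤ 10 := hd.trans (by norm_num)
  have g' : Geo A (fun r => c (s + (t - s) * r)) (fun r => (t - s) • v (s + (t - s) * r)) := by
    refine ⟨fun r hr' => ?_, fun r hr' => ?_⟩
    · exact (g.geo.dc _ (hr r hr')).scomp r (hdt r)
    · have h1 := ((g.geo.dv _ (hr r hr')).scomp r (hdt r)).const_smul (t - s)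
      rw [acc_smul96, pow_two, mul_smul]
      exact h1
  have hb' : ∀ r ∈ Icc (0 : ℝ) 1, ‖(t - s) • v (s + (t - s) * r)‖ ≤ 10 := by
    intro r hr'
    have h1 := g.norm_le (hr r hr')
    rw [norm_smul, Real.norm_eq_abs, abs_of_nonneg hk0]
    calc (t - s) * ‖v (s + (t - s) * r)‖ ≤ 1 * (1.01 * ‖y - x‖) := by gcongr
      _ ≤ 10 := by linarith
  have s' := Geo.seg h g' fun r hr' => (hb' r hr').trans (by norm_num)
  simp only [mul_zero, add_zero, mul_one, add_sub_cancel] at s'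
  have hd' : ‖c t - c s‖ ≤ 10 := by
    have h1 := norm_image_sub_le_of_norm_deriv_le_segment' (fun r hr' => (g'.dc r hr').hasDerivWithinAt) (C := 10)
      (fun r hr' => hb' r ⟨hr'.1, hr'.2.le⟩) 1 ⟨zero_le_one, le_rfl⟩
    simpa only [mul_zero, add_zero, mul_one, add_sub_cancel, sub_zero] using h1
  have h2 := ll_eq h s' hd' (t := 0) ⟨le_rfl, zero_le_one⟩
  have h3 := ll_eq h g hd10 (t := s) ⟨hs, hst.trans ht⟩
  rw [← h2, ← h3]
  simp only [mul_zero, add_zero]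
  rw [norm_smul, Real.norm_eq_abs, abs_of_nonneg hk0]
  ring

end Pool.Agent.Helper48.FC
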