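import Mathlib
import Pool.Agent.Helper48.FC.Len

/-!
Block FC-4.  First variation.

Take geodesics `(c, v)` from `o` to `p` and `(c', v')` from `o` to `p'` (`exists_seg`), `w = c' - c`, `w1 = v' - v`, `σ = ‖p' - p‖`.
`geo_compare`: `‖w t‖ ≤ 2 σ`, `‖w1 t‖ ≤ 2 σ` on `[0,1]`.

`m t = exp (2 φ (c t)) ⟪v t, w t⟫` has derivative `m1 t = exp (2φ) (2⟪A,v⟫⟪v,w⟫ + ⟪acc A v, w⟫ + ⟪v,w1⟫) = exp (2φ) (‖v‖² ⟪A,w⟫ + ⟪v,w1⟫)`, and
`m 0 = 0`, `m 1 = ⟪gg o p, p' - p⟫` (`gg_eq`).  For each `t ∈ [0,1]`: `f τ = exp (2 φ (c + τ w)) ‖v + τ w1‖² / 2` (at this `t`),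
`f 0 = (ll o p)²/2`, `f 1 = (ll o p')²/2` (`ll_eq`), `f' 0 = m1 t`, and
`f'' τ = exp (2φ) ((2 ⟪A,w⟫² + ⟪H w, w⟫) ‖v + τ w1‖² + 4 ⟪A,w⟫ ⟪v + τ w1, w1⟫ + ‖w1‖²)`,
`|f''| ≤ 1.23 ((2e-8 + 1e-4) * 121 * 4 + 4e-4 * 11 * 4 + 4) σ² ≤ 10 σ²`.  So `|f 1 - f 0 - m1 t| ≤ 10 σ²` for all `t` (Taylor / mean value),
and the function `t ↦ t (f 1 - f 0) - m t` has derivative of norm at most `10 σ²`; its increment over `[0,1]` is
`(ll o p')²/2 - (ll o p)²/2 - ⟪gg o p, p' - p⟫`.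

`gg_lip`: `exp (2 φ p') v' 1 - exp (2 φ p) v 1 = exp (2 φ p') (v' 1 - v 1) + (exp (2 φ p') - exp (2 φ p)) v 1`, with `exp (2φ) ≤ 1.2215`,
`‖v' 1 - v 1‖ ≤ 2 σ`, `|exp (2 φ p') - exp (2 φ p)| ≤ 1.2215 * 2/10000 σ`, `‖v 1‖ ≤ 11`.
-/

set_option autoImplicit false
set_option linter.unusedSectionVars false

namespace Pool.Agent.Helper48.FC

open Real Set
open scoped RealInnerProductSpace

variable {E : Type*} [NormedAddCommGroup E] [InnerProductSpace ℝ E] [CompleteSpace E]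
variable {φ : E → ℝ} {A : E → E} {H : E → E →L[ℝ] E}

private theorem line94 (c w : E) (τ : ℝ) : HasDerivAt (fun τ : ℝ => c + τ • w) w τ := by
  have := ((hasDerivAt_id τ).smul_const w).const_add c
  simpa using this

private theorem dphi94 (h : Good φ A H) {c : ℝ → E} {v : E} {t : ℝ} (hc : HasDerivAt c v t) :
    HasDerivAt (fun t => exp (2 * φ (c t))) (exp (2 * φ (c t)) * (2 * ⟪A (c t), v⟫)) t := by
  have h1 : HasDerivAt (fun t => φ (c t)) ⟪A (c t), v⟫ t := by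
    have h2 := (h.grad (c t)).comp_hasDerivAt t hc
    exact h2
  exact (h1.const_mul 2).exp

private theorem df94 (h : Good φ A H) (c v w w1 : E) (τ : ℝ) :
    HasDerivAt (fun τ : ℝ => exp (2 * φ (c + τ • w)) * (‖v + τ • w1‖ ^ 2 / 2))
      (exp (2 * φ (c + τ • w)) * (⟪A (c + τ • w), w⟫ * ‖v + τ • w1‖ ^ 2 + ⟪v + τ • w1, w1⟫)) τ := by
  have h1 := dphi94 h (line94 c w τ)
  have h2 := (line94 v w1 τ).norm_sq.div_const 2
  have h3 := h1.mul h2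
  refine h3.congr_deriv ?_
  ring

private theorem dg94 (h : Good φ A H) (c v w w1 : E) (τ : ℝ) :
    HasDerivAt (fun τ : ℝ => exp (2 * φ (c + τ • w)) *
        (⟪A (c + τ • w), w⟫ * ‖v + τ • w1‖ ^ 2 + ⟪v + τ • w1, w1⟫))
      (exp (2 * φ (c + τ • w)) * ((2 * ⟪A (c + τ • w), w⟫ ^ 2 + ⟪H (c + τ • w) w, w⟫) * ‖v + τ • w1‖ ^ 2 +
        4 * (⟪A (c + τ • w), w⟫ * ⟪v + τ • w1, w1⟫) + ‖w1‖ ^ 2)) τ := by
  have h1 := dphi94 h (line94 c w τ)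
  have h2 := (line94 v w1 τ).norm_sq
  have h3 : HasDerivAt (fun τ : ℝ => ⟪A (c + τ • w), w⟫) ⟪H (c + τ • w) w, w⟫ τ := by
    have h4 : HasDerivAt (fun τ : ℝ => A (c + τ • w)) (H (c + τ • w) w) τ :=
      (h.hess (c + τ • w)).comp_hasDerivAt τ (line94 c w τ)
    have h5 := h4.inner ℝ (hasDerivAt_const τ w)
    simpa using h5
  have h4 : HasDerivAt (fun τ : ℝ => ⟪v + τ • w1, w1⟫) (‖w1‖ ^ 2) τ := by
    have h5 := (line94 v w1 τ).inner ℝ (hasDerivAt_const τ w1)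
    simpa using h5
  have h5 := h1.mul ((h3.mul h2).add h4)
  refine h5.congr_deriv ?_
  simp only [Pi.add_apply, Pi.mul_apply]
  ring

private theorem exp2_le94 (h : Good φ A H) (x : E) : exp (2 * φ x) ≤ 1.2215 := by
  have h1 := exp_le_of_bdd (h.bdd x)
  have h2 : exp (2 * φ x) = exp (φ x) * exp (φ x) := by rw [← exp_add]; ring_nf
  have h3 := exp_pos (φ x)
  rw [h2]
  nlinarith

private theorem norm_conv94 {v w1 : E} {τ : ℝ} (h0 : 0 ≤ τ) (h1 : τ ≤ 1) (hv : ‖v‖ ≤ 11) (hv' : ‖v + w1‖ ≤ 11) :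
    ‖v + τ • w1‖ ≤ 11 := by
  have e : v + τ • w1 = (1 - τ) • v + τ • (v + w1) := by
    rw [sub_smul, one_smul, smul_add]
    abel
  rw [e]
  refine (norm_add_le _ _).trans ?_
  rw [norm_smul, norm_smul, Real.norm_eq_abs, Real.norm_eq_abs, abs_of_nonneg h0,
    abs_of_nonneg (sub_nonneg.2 h1)]
  nlinarith [sub_nonneg.2 h1]

private theorem bd94 (h : Good φ A H) {c v w w1 : E} {σ : ℝ} (hw : ‖w‖ ≤ 2 * σ) (hw1 : ‖w1‖ ≤ 2 * σ)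
    (hv : ‖v‖ ≤ 11) (hv' : ‖v + w1‖ ≤ 11) {τ : ℝ} (h0 : 0 ≤ τ) (h1 : τ ≤ 1) :
    ‖exp (2 * φ (c + τ • w)) * ((2 * ⟪A (c + τ • w), w⟫ ^ 2 + ⟪H (c + τ • w) w, w⟫) * ‖v + τ • w1‖ ^ 2 +
        4 * (⟪A (c + τ • w), w⟫ * ⟪v + τ • w1, w1⟫) + ‖w1‖ ^ 2)‖ ≤ 10 * σ ^ 2 := by
  have hσ : 0 ≤ σ := by linarith [norm_nonneg w]
  have a1 : |⟪A (c + τ • w), w⟫| ≤ 1 / 10000 * (2 * σ) := by
    refine (abs_real_inner_le_norm _ _).trans ?_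
    exact mul_le_mul (h.bA _) hw (norm_nonneg _) (by norm_num)
  have a2 : |⟪H (c + τ • w) w, w⟫| ≤ 1 / 10000 * (2 * σ) * (2 * σ) := by
    refine (abs_real_inner_le_norm _ _).trans ?_
    refine mul_le_mul ((h.bH _ _).trans ?_) hw (norm_nonneg _) (by positivity)
    linarith
  have a3 := norm_conv94 h0 h1 hv hv'
  have a4 : |⟪v + τ • w1, w1⟫| ≤ 11 * (2 * σ) := by
    refine (abs_real_inner_le_norm _ _).trans ?_
    exact mul_le_mul a3 hw1 (norm_nonneg _) (by norm_num)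
  have a5 := exp2_le94 h (c + τ • w)
  have a6 := exp_pos (2 * φ (c + τ • w))
  have b1 : ⟪A (c + τ • w), w⟫ ^ 2 ≤ (1 / 10000 * (2 * σ)) ^ 2 := by
    rw [← sq_abs]
    exact pow_le_pow_left₀ (abs_nonneg _) a1 2
  have b2 : ‖v + τ • w1‖ ^ 2 ≤ 11 ^ 2 := pow_le_pow_left₀ (norm_nonneg _) a3 2
  have b3 : ‖w1‖ ^ 2 ≤ (2 * σ) ^ 2 := pow_le_pow_left₀ (norm_nonneg _) hw1 2
  have b4 : |⟪A (c + τ • w), w⟫ * ⟪v + τ • w1, w1⟫| ≤ 1 / 10000 * (2 * σ) * (11 * (2 * σ)) := by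
    rw [abs_mul]
    exact mul_le_mul a1 a4 (abs_nonneg _) (by positivity)
  have b5 : |2 * ⟪A (c + τ • w), w⟫ ^ 2 + ⟪H (c + τ • w) w, w⟫| ≤
      2 * (1 / 10000 * (2 * σ)) ^ 2 + 1 / 10000 * (2 * σ) * (2 * σ) := by
    refine (abs_add_le _ _).trans ?_
    rw [abs_of_nonneg (by positivity : 0 ≤ 2 * ⟪A (c + τ • w), w⟫ ^ 2)]
    linarith
  have b6 : |(2 * ⟪A (c + τ • w), w⟫ ^ 2 + ⟪H (c + τ • w) w, w⟫) * ‖v + τ • w1‖ ^ 2| ≤
      (2 * (1 / 10000 * (2 * σ)) ^ 2 + 1 / 10000 * (2 * σ) * (2 * σ)) * 11 ^ 2 := by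
    rw [abs_mul, abs_of_nonneg (by positivity : 0 ≤ ‖v + τ • w1‖ ^ 2)]
    exact mul_le_mul b5 b2 (by positivity) (by positivity)
  have b7 : |(2 * ⟪A (c + τ • w), w⟫ ^ 2 + ⟪H (c + τ • w) w, w⟫) * ‖v + τ • w1‖ ^ 2 +
        4 * (⟪A (c + τ • w), w⟫ * ⟪v + τ • w1, w1⟫) + ‖w1‖ ^ 2| ≤ 5 * σ ^ 2 := by
    refine (abs_add_le _ _).trans ?_
    have c1 := abs_add_le ((2 * ⟪A (c + τ • w), w⟫ ^ 2 + ⟪H (c + τ • w) w, w⟫) * ‖v + τ • w1‖ ^ 2)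
      (4 * (⟪A (c + τ • w), w⟫ * ⟪v + τ • w1, w1⟫))
    have c2 : |4 * (⟪A (c + τ • w), w⟫ * ⟪v + τ • w1, w1⟫)| =
        4 * |⟪A (c + τ • w), w⟫ * ⟪v + τ • w1, w1⟫| := by
      rw [abs_mul, abs_of_pos (by norm_num : (0 : ℝ) < 4)]
    have c3 : |‖w1‖ ^ 2| = ‖w1‖ ^ 2 := abs_of_nonneg (by positivity)
    rw [c3]
    nlinarith [sq_nonneg σ]
  rw [norm_mul, Real.norm_eq_abs, Real.norm_eq_abs, abs_of_pos a6]
  calc exp (2 * φ (c + τ • w)) * _ ≤ 1.2215 * (5 * σ ^ 2) :=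
        mul_le_mul a5 b7 (abs_nonneg _) (by norm_num)
    _ ≤ 10 * σ ^ 2 := by nlinarith [sq_nonneg σ]

private theorem tay94 (h : Good φ A H) {c v w w1 : E} {σ : ℝ} (hw : ‖w‖ ≤ 2 * σ) (hw1 : ‖w1‖ ≤ 2 * σ)
    (hv : ‖v‖ ≤ 11) (hv' : ‖v + w1‖ ≤ 11) :
    |exp (2 * φ (c + w)) * (‖v + w1‖ ^ 2 / 2) - exp (2 * φ c) * (‖v‖ ^ 2 / 2) -
      exp (2 * φ c) * (⟪A c, w⟫ * ‖v‖ ^ 2 + ⟪v, w1⟫)| ≤ 10 * σ ^ 2 := by
  obtain ⟨g, hg⟩ : ∃ g : ℝ → ℝ, g = fun τ => exp (2 * φ (c + τ • w)) *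
    (⟪A (c + τ • w), w⟫ * ‖v + τ • w1‖ ^ 2 + ⟪v + τ • w1, w1⟫) := ⟨_, rfl⟩
  have g0 : g 0 = exp (2 * φ c) * (⟪A c, w⟫ * ‖v‖ ^ 2 + ⟪v, w1⟫) := by
    rw [hg]
    simp only [zero_smul, add_zero]
  have h1 : ∀ τ ∈ Icc (0 : ℝ) 1, ‖g τ - g 0‖ ≤ 10 * σ ^ 2 := by
    intro τ hτ
    have h2 := norm_image_sub_le_of_norm_deriv_le_segment' (f := g) (a := 0) (b := τ) (C := 10 * σ ^ 2)
      (fun x _ => by
        rw [hg]
        exact (dg94 h c v w w1 x).hasDerivWithinAt)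
      (fun x hx => bd94 h hw hw1 hv hv' hx.1 (hx.2.le.trans hτ.2)) τ ⟨hτ.1, le_rfl⟩
    refine h2.trans ?_
    have h3 : 0 ≤ 10 * σ ^ 2 := by positivity
    nlinarith [hτ.1, hτ.2]
  have h2 := norm_image_sub_le_of_norm_deriv_le_segment_01' (C := 10 * σ ^ 2)
    (f := fun τ : ℝ => exp (2 * φ (c + τ • w)) * (‖v + τ • w1‖ ^ 2 / 2) - τ * g 0)
    (f' := fun τ => g τ - g 0)
    (fun τ _ => by
      have h3 := (df94 h c v w w1 τ).sub ((hasDerivAt_id τ).mul_const (g 0))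
      refine (h3.congr_deriv ?_).hasDerivWithinAt
      rw [hg]
      ring)
    (fun τ hτ => h1 τ ⟨hτ.1, hτ.2.le⟩)
  simp only [one_smul, zero_smul, add_zero, one_mul, zero_mul, sub_zero] at h2
  rw [Real.norm_eq_abs, g0] at h2
  refine le_trans (le_of_eq ?_) h2
  congr 1
  ring

theorem first_var (h : Good φ A H) {o p p' : E} (hd : ‖p - o‖ ≤ 10) (hd' : ‖p' - o‖ ≤ 10) :
    |ll φ A o p' ^ 2 / 2 - ll φ A o p ^ 2 / 2 - ⟪gg φ A o p, p' - p⟫| ≤ 10 * ‖p' - p‖ ^ 2 := by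
  obtain ⟨c, v, hs⟩ := exists_seg h hd
  obtain ⟨c', v', hs'⟩ := exists_seg h hd'
  have hcmp : ∀ t ∈ Icc (0 : ℝ) 1, ‖v' t - v t‖ ≤ 2 * ‖p' - p‖ ∧ ‖c' t - c t‖ ≤ 2 * ‖p' - p‖ := by
    intro t ht
    have h1 := geo_compare h hs.geo hs'.geo (fun t ht => hs.norm_le_eleven hd ht)
      (fun t ht => hs'.norm_le_eleven hd' ht) ht
    rw [hs.c0, hs'.c0, hs.c1, hs'.c1, sub_self, norm_zero, zero_add, zero_add] at h1
    refine ⟨h1.1, h1.2.trans ?_⟩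
    nlinarith [norm_nonneg (p' - p), ht.2]
  have hll : ∀ t ∈ Icc (0 : ℝ) 1, exp (2 * φ (c t)) * (‖v t‖ ^ 2 / 2) = ll φ A o p ^ 2 / 2 := by
    intro t ht
    rw [← ll_eq h hs hd ht, mul_pow, ← Real.exp_nat_mul]
    push_cast
    ring
  have hll' : ∀ t ∈ Icc (0 : ℝ) 1, exp (2 * φ (c' t)) * (‖v' t‖ ^ 2 / 2) = ll φ A o p' ^ 2 / 2 := by
    intro t ht
    rw [← ll_eq h hs' hd' ht, mul_pow, ← Real.exp_nat_mul]
    push_cast
    ring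
  have hb : ∀ t ∈ Icc (0 : ℝ) 1, |ll φ A o p' ^ 2 / 2 - ll φ A o p ^ 2 / 2 -
      exp (2 * φ (c t)) * (⟪A (c t), c' t - c t⟫ * ‖v t‖ ^ 2 + ⟪v t, v' t - v t⟫)| ≤ 10 * ‖p' - p‖ ^ 2 := by
    intro t ht
    have h1 := tay94 h (c := c t) (v := v t) (w := c' t - c t) (w1 := v' t - v t) (σ := ‖p' - p‖)
      (hcmp t ht).2 (hcmp t ht).1 (hs.norm_le_eleven hd ht) (by
        rw [add_sub_cancel]
        exact hs'.norm_le_eleven hd' ht)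
    rw [add_sub_cancel, add_sub_cancel, hll t ht, hll' t ht] at h1
    exact h1
  have hm : ∀ t ∈ Icc (0 : ℝ) 1, HasDerivAt (fun t => exp (2 * φ (c t)) * ⟪v t, c' t - c t⟫)
      (exp (2 * φ (c t)) * (⟪A (c t), c' t - c t⟫ * ‖v t‖ ^ 2 + ⟪v t, v' t - v t⟫)) t := by
    intro t ht
    have h1 := dphi94 h (hs.geo.dc t ht)
    have h2 := (hs.geo.dv t ht).inner ℝ ((hs'.geo.dc t ht).sub (hs.geo.dc t ht))
    have h3 := h1.mul h2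
    refine h3.congr_deriv ?_
    simp only [Pi.sub_apply]
    have e : ⟪acc (A (c t)) (v t), c' t - c t⟫ =
        ‖v t‖ ^ 2 * ⟪A (c t), c' t - c t⟫ - 2 * ⟪A (c t), v t⟫ * ⟪v t, c' t - c t⟫ := by
      unfold acc
      rw [inner_sub_left, real_inner_smul_left, real_inner_smul_left]
    rw [e]
    ring
  have h2 := norm_image_sub_le_of_norm_deriv_le_segment_01' (C := 10 * ‖p' - p‖ ^ 2)
    (f := fun t : ℝ => t * (ll φ A o p' ^ 2 / 2 - ll φ A o p ^ 2 / 2) -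
      exp (2 * φ (c t)) * ⟪v t, c' t - c t⟫)
    (f' := fun t => ll φ A o p' ^ 2 / 2 - ll φ A o p ^ 2 / 2 -
      exp (2 * φ (c t)) * (⟪A (c t), c' t - c t⟫ * ‖v t‖ ^ 2 + ⟪v t, v' t - v t⟫))
    (fun t ht => by
      have h3 := ((hasDerivAt_id t).mul_const (ll φ A o p' ^ 2 / 2 - ll φ A o p ^ 2 / 2)).sub (hm t ht)
      refine (h3.congr_deriv ?_).hasDerivWithinAt
      ring)
    (fun t ht => by
      rw [Real.norm_eq_abs]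
      exact hb t ⟨ht.1, ht.2.le⟩)
  rw [Real.norm_eq_abs] at h2
  refine le_trans (le_of_eq ?_) h2
  rw [hs.c0, hs'.c0, hs.c1, hs'.c1, sub_self, inner_zero_right, ← gg_eq h hs hd, real_inner_smul_left]
  congr 1
  ring

theorem gg_lip (h : Good φ A H) {o p p' : E} (hd : ‖p - o‖ ≤ 10) (hd' : ‖p' - o‖ ≤ 10) :
    ‖gg φ A o p' - gg φ A o p‖ ≤ 3 * ‖p' - p‖ := by
  obtain ⟨c, v, hs⟩ := exists_seg h hd
  obtain ⟨c', v', hs'⟩ := exists_seg h hd'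
  have h1 := (geo_compare h hs.geo hs'.geo (fun t ht => hs.norm_le_eleven hd ht)
      (fun t ht => hs'.norm_le_eleven hd' ht) (t := 1) ⟨zero_le_one, le_rfl⟩).1
  rw [hs.c0, hs'.c0, hs.c1, hs'.c1, sub_self, norm_zero, zero_add] at h1
  have h2 : ‖v 1‖ ≤ 11 := hs.norm_le_eleven hd ⟨zero_le_one, le_rfl⟩
  have h3 : |exp (2 * φ p') - exp (2 * φ p)| ≤ 1.2215 * (2 / 10000) * ‖p' - p‖ := by
    have h4 := norm_image_sub_le_of_norm_deriv_le_segment_01' (C := 1.2215 * (2 / 10000) * ‖p' - p‖)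
      (f := fun t : ℝ => exp (2 * φ (p + t • (p' - p))))
      (f' := fun t => exp (2 * φ (p + t • (p' - p))) * (2 * ⟪A (p + t • (p' - p)), p' - p⟫))
      (fun t _ => (dphi94 h (line94 p (p' - p) t)).hasDerivWithinAt)
      (fun t _ => by
        have a1 : |⟪A (p + t • (p' - p)), p' - p⟫| ≤ 1 / 10000 * ‖p' - p‖ := by
          refine (abs_real_inner_le_norm _ _).trans ?_
          exact mul_le_mul_of_nonneg_right (h.bA _) (norm_nonneg _)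
        have a2 := exp2_le94 h (p + t • (p' - p))
        have a3 := exp_pos (2 * φ (p + t • (p' - p)))
        rw [Real.norm_eq_abs, abs_mul, abs_of_pos a3, abs_mul, abs_of_pos (by norm_num : (0 : ℝ) < 2)]
        calc exp (2 * φ (p + t • (p' - p))) * (2 * |⟪A (p + t • (p' - p)), p' - p⟫|)
            ≤ 1.2215 * (2 * (1 / 10000 * ‖p' - p‖)) :=
              mul_le_mul a2 (by linarith) (by positivity) (by norm_num)
          _ = 1.2215 * (2 / 10000) * ‖p' - p‖ := by ring)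
    simp only [one_smul, zero_smul, add_zero, add_sub_cancel] at h4
    exact h4
  rw [← gg_eq h hs hd, ← gg_eq h hs' hd']
  have e : exp (2 * φ p') • v' 1 - exp (2 * φ p) • v 1 =
      exp (2 * φ p') • (v' 1 - v 1) + (exp (2 * φ p') - exp (2 * φ p)) • v 1 := by
    rw [smul_sub, sub_smul]
    abel
  rw [e]
  refine (norm_add_le _ _).trans ?_
  have h5 : ‖exp (2 * φ p') • (v' 1 - v 1)‖ ≤ 1.2215 * (2 * ‖p' - p‖) :=
    norm_sm (by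
      rw [abs_of_pos (exp_pos _)]
      exact exp2_le94 h p') h1
  have h6 : ‖(exp (2 * φ p') - exp (2 * φ p)) • v 1‖ ≤ 1.2215 * (2 / 10000) * ‖p' - p‖ * 11 :=
    norm_sm h3 h2
  nlinarith [norm_nonneg (p' - p)]

end Pool.Agent.Helper48.FC
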