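import Mathlib
import Pool.Agent.Helper48.FC.Alg

/-!
Block FC-5.  Derivatives of the energy of a variation.

`c, v` and `c', v'` are geodesics, `w = c' - c` (`wv`), `w1 = v' - v`, `w2 = acc (A c') v' - acc (A c) v`.  Product and chain rules:
`t ↦ exp (2 φ (c t))` has derivative `2 ⟪A c, v⟫ exp (2 φ (c t))` (`Good.grad`), `t ↦ A (c t)` has derivative `H (c t) (v t)`
(`Good.hess`), `c' = v`, `v' = acc (A c) v`, `w' = w1`, `w1' = w2`.  For `T0`: `⟪w, acc a v⟫ = ‖v‖² ⟪a,w⟫ - 2 ⟪a,v⟫ ⟪w,v⟫`.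
-/

set_option autoImplicit false
set_option linter.unusedSectionVars false

namespace Pool.Agent.Helper48.FC

open Real Set
open scoped RealInnerProductSpace

variable {E : Type*} [NormedAddCommGroup E] [InnerProductSpace ℝ E]
variable {φ : E → ℝ} {A : E → E} {H : E → E →L[ℝ] E}

/-- difference of the accelerations -/
noncomputable def w2 (A : E → E) (c v c' v' : ℝ → E) (t : ℝ) : E :=
  acc (A (c' t)) (v' t) - acc (A (c t)) (v t)

/-- half the energy of the variation -/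
noncomputable def P0 (φ : E → ℝ) (c c' : ℝ → E) (t : ℝ) : ℝ :=
  exp (2 * φ (c t)) * ‖c' t - c t‖ ^ 2 / 2

/-- its derivative -/
noncomputable def P1 (φ : E → ℝ) (A : E → E) (c v c' v' : ℝ → E) (t : ℝ) : ℝ :=
  exp (2 * φ (c t)) * (⟪c' t - c t, v' t - v t⟫ + ⟪A (c t), v t⟫ * ‖c' t - c t‖ ^ 2)

/-- its second derivative -/
noncomputable def P2 (φ : E → ℝ) (A : E → E) (H : E → E →L[ℝ] E) (c v c' v' : ℝ → E) (t : ℝ) : ℝ :=
  exp (2 * φ (c t)) * (2 * ⟪A (c t), v t⟫ * (⟪A (c t), v t⟫ * ‖c' t - c t‖ ^ 2 + ⟪c' t - c t, v' t - v t⟫) +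
    (⟪H (c t) (v t), v t⟫ + ⟪A (c t), acc (A (c t)) (v t)⟫) * ‖c' t - c t‖ ^ 2 +
    2 * ⟪A (c t), v t⟫ * ⟪c' t - c t, v' t - v t⟫ + ‖v' t - v t‖ ^ 2 +
    ⟪c' t - c t, w2 A c v c' v' t⟫)

/-- the tangential part of the variation -/
noncomputable def T0 (φ : E → ℝ) (c v c' : ℝ → E) (t : ℝ) : ℝ :=
  exp (2 * φ (c t)) * ⟪c' t - c t, v t⟫

/-- its derivative -/
noncomputable def T1 (φ : E → ℝ) (A : E → E) (c v c' v' : ℝ → E) (t : ℝ) : ℝ :=
  exp (2 * φ (c t)) * (⟪v' t - v t, v t⟫ + ‖v t‖ ^ 2 * ⟪A (c t), c' t - c t⟫)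

/-- its second derivative -/
noncomputable def T2 (φ : E → ℝ) (A : E → E) (H : E → E →L[ℝ] E) (c v c' v' : ℝ → E) (t : ℝ) : ℝ :=
  exp (2 * φ (c t)) * (2 * ⟪A (c t), v t⟫ * (⟪v' t - v t, v t⟫ + ‖v t‖ ^ 2 * ⟪A (c t), c' t - c t⟫) +
    ⟪w2 A c v c' v' t, v t⟫ + ⟪v' t - v t, acc (A (c t)) (v t)⟫ +
    2 * ⟪v t, acc (A (c t)) (v t)⟫ * ⟪A (c t), c' t - c t⟫ +
    ‖v t‖ ^ 2 * (⟪H (c t) (v t), c' t - c t⟫ + ⟪A (c t), v' t - v t⟫))

private theorem dphi5 (h : Good φ A H) {c v : ℝ → E} (g : Geo A c v) {t : ℝ} (ht : t ∈ Icc (0 : ℝ) 1) :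
    HasDerivAt (fun s => exp (2 * φ (c s))) (exp (2 * φ (c t)) * (2 * ⟪A (c t), v t⟫)) t := by
  have h1 : HasDerivAt (fun s => φ (c s)) ⟪A (c t), v t⟫ t := by
    have h2 := (h.grad (c t)).comp_hasDerivAt t (g.dc t ht)
    exact h2
  exact (h1.const_mul 2).exp

private theorem dA5 (h : Good φ A H) {c v : ℝ → E} (g : Geo A c v) {t : ℝ} (ht : t ∈ Icc (0 : ℝ) 1) :
    HasDerivAt (fun s => A (c s)) (H (c t) (v t)) t := by
  have h2 := (h.hess (c t)).comp_hasDerivAt t (g.dc t ht)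
  exact h2

private theorem dw5 {c v c' v' : ℝ → E} (g : Geo A c v) (g' : Geo A c' v') {t : ℝ} (ht : t ∈ Icc (0 : ℝ) 1) :
    HasDerivAt (fun s => c' s - c s) (v' t - v t) t := (g'.dc t ht).sub (g.dc t ht)

private theorem dw15 {c v c' v' : ℝ → E} (g : Geo A c v) (g' : Geo A c' v') {t : ℝ} (ht : t ∈ Icc (0 : ℝ) 1) :
    HasDerivAt (fun s => v' s - v s) (w2 A c v c' v' t) t := (g'.dv t ht).sub (g.dv t ht)

theorem der_P0 (h : Good φ A H) {c v c' v' : ℝ → E} (g : Geo A c v) (g' : Geo A c' v')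
    {t : ℝ} (ht : t ∈ Icc (0 : ℝ) 1) : HasDerivAt (P0 φ c c') (P1 φ A c v c' v' t) t := by
  have h1 := dphi5 h g ht
  have h2 := (dw5 g g' ht).norm_sq
  have h3 := (h1.mul h2).div_const 2
  refine h3.congr_deriv ?_
  unfold P1
  ring

theorem der_P1 (h : Good φ A H) {c v c' v' : ℝ → E} (g : Geo A c v) (g' : Geo A c' v')
    {t : ℝ} (ht : t ∈ Icc (0 : ℝ) 1) : HasDerivAt (P1 φ A c v c' v') (P2 φ A H c v c' v' t) t := by
  have h1 := dphi5 h g ht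
  have h2 := (dw5 g g' ht).norm_sq
  have h3 := (dw5 g g' ht).inner ℝ (dw15 g g' ht)
  have h4 := (dA5 h g ht).inner ℝ (g.dv t ht)
  have h5 := h1.mul (h3.add (h4.mul h2))
  refine h5.congr_deriv ?_
  unfold P2
  simp only [Pi.add_apply, Pi.mul_apply]
  rw [real_inner_self_eq_norm_sq]
  ring

theorem der_T0 (h : Good φ A H) {c v c' v' : ℝ → E} (g : Geo A c v) (g' : Geo A c' v')
    {t : ℝ} (ht : t ∈ Icc (0 : ℝ) 1) : HasDerivAt (T0 φ c v c') (T1 φ A c v c' v' t) t := by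
  have h1 := dphi5 h g ht
  have h3 := (dw5 g g' ht).inner ℝ (g.dv t ht)
  have h5 := h1.mul h3
  refine h5.congr_deriv ?_
  unfold T1 acc
  rw [inner_sub_right, real_inner_smul_right, real_inner_smul_right, real_inner_comm (A (c t)) (c' t - c t)]
  ring

theorem der_T1 (h : Good φ A H) {c v c' v' : ℝ → E} (g : Geo A c v) (g' : Geo A c' v')
    {t : ℝ} (ht : t ∈ Icc (0 : ℝ) 1) : HasDerivAt (T1 φ A c v c' v') (T2 φ A H c v c' v' t) t := by
  have h1 := dphi5 h g ht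
  have h3 := (dw15 g g' ht).inner ℝ (g.dv t ht)
  have h4 := (g.dv t ht).norm_sq
  have h5 := (dA5 h g ht).inner ℝ (dw5 g g' ht)
  have h6 := h1.mul (h3.add (h4.mul h5))
  refine h6.congr_deriv ?_
  unfold T2
  simp only [Pi.add_apply, Pi.mul_apply]
  ring

end Pool.Agent.Helper48.FC
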