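import Mathlib
import Pool.Agent.Helper48.FC.Der

/-!
Block FC-6.  The differential inequality of the second variation.

At the point `t` write `a = A (c t)`, `v`, `w = c' - c`, `w1 = v' - v`, `w2` (as in `Der`), `h = H (c t) w`, `X = Xd a v w w1`, `e = exp (2 φ (c t))`
(`0.8187 ≤ 0.9048² ≤ e ≤ 1.1052² ≤ 1.2215`), `ℓ = exp (φ (c t)) ‖v‖`, `ℓ² = e ‖v‖²`.

`acc_expand` with `a' = A (c' t)`, `‖a' - a - h‖ ≤ K ‖w‖² ≤ 4 K σ²`, `‖a' - a‖ ≤ ‖w‖/10000` (`Good.lipA`):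
`‖w2 - Lin a v h w1‖ ≤ 363 * 4 K σ² + 66/10000 * 4 σ² + 3/10000 * 4 σ² ≤ (1452 K + 1) σ²`.

* `P2 = e (‖X‖² + gram + hessian term + ⟪w, w2 - Lin⟫)` by `psi2_identity`, so by `gram3` and `hess_plane` (`η = 1/10000`;
  `|⟪H u, u⟫| ≤ ‖u‖²/10000` from `Good.bH`)  `P2 ≥ e ‖X‖² - 2 η e (‖v‖²‖w‖² - ⟪v,w⟫²) - 1.2215 * 2 σ * (1452 K + 1) σ²`.
* `|T2| = e |⟪w2 - Lin, v⟫| ≤ 1.2215 (1452 K + 1) σ² ‖v‖ ≤ 2000 (K + 1) σ² ‖v‖` by `t2_identity`.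
* With `N = P0 - T0²/(2ℓ²)`: `2 N = e ‖w‖² - e² ⟪w,v⟫²/(e ‖v‖²) = e (‖w‖² - ⟪v,w⟫²/‖v‖²)`, so
  `2 η e (‖v‖²‖w‖² - ⟪v,w⟫²) = 2 η ‖v‖² * 2 N = 4 η e⁻¹ ℓ² N ≤ 5 η ℓ² N = 2 (ℓ²/4000) N`   (`e⁻¹ ≤ 1.25`, `N ≥ 0` by `gram2`).
* `P1 = e ⟪w, X⟫` (`inner_w_Xd`), `T1 = e ⟪v, X⟫` (`inner_v_Xd`), `T0 = e ⟪v,w⟫`.  With `n = w - (⟪v,w⟫/‖v‖²) v`, `Y = X - (⟪v,X⟫/‖v‖²) v`:
  `e ‖X‖² - T1²/ℓ² = e ‖Y‖²`, `P1 - T0 T1/ℓ² = e ⟪n, Y⟫`, `2 N = e ‖n‖²`, and `‖Y‖² ≥ 2 b ⟪n,Y⟫ - b² ‖n‖²` (`‖Y - b n‖² ≥ 0`).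
* `|T0 T2|/ℓ² ≤ 1.2215 * 2 σ ‖v‖ * 1.2215 (1452 K + 1) σ² ‖v‖/(e ‖v‖²) ≤ 1.2215² * 1.25 * 2 (1452 K + 1) σ³`.
The sum of the errors is at most `(1.2215 * 2 + 1.2215² * 2.5) (1452 K + 1) σ³ ≤ 6.2 (1452 K + 1) σ³ ≤ 10000 (K + 1) σ³`.
-/

set_option autoImplicit false
set_option linter.unusedSectionVars false

namespace Pool.Agent.Helper48.FC

open Real Set
open scoped RealInnerProductSpace

variable {E : Type*} [NormedAddCommGroup E] [InnerProductSpace ℝ E]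
variable {φ : E → ℝ} {A : E → E} {H : E → E →L[ℝ] E}

private theorem e_le (h : Good φ A H) (x : E) : exp (2 * φ x) ≤ 1.2215 := by
  have h1 := exp_le_of_bdd (h.bdd x)
  have h2 : exp (2 * φ x) = exp (φ x) * exp (φ x) := by rw [← exp_add]; ring_nf
  rw [h2]
  have := (exp_pos (φ x)).le
  nlinarith

private theorem le_e (h : Good φ A H) (x : E) : 0.8 ≤ exp (2 * φ x) := by
  have h1 := le_exp_of_bdd (h.bdd x)
  have h2 : exp (2 * φ x) = exp (φ x) * exp (φ x) := by rw [← exp_add]; ring_nf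
  rw [h2]
  nlinarith

private theorem err_le (h : Good φ A H) {c v c' v' : ℝ → E} {t K σ : ℝ} (hK : 0 ≤ K)
    (hv : ‖v t‖ ≤ 11) (hv' : ‖v' t‖ ≤ 11)
    (hw : ‖c' t - c t‖ ≤ 2 * σ) (hw1 : ‖v' t - v t‖ ≤ 2 * σ)
    (h3 : ‖A (c' t) - A (c t) - H (c t) (c' t - c t)‖ ≤ K * ‖c' t - c t‖ ^ 2) :
    ‖w2 A c v c' v' t - Lin (A (c t)) (v t) (H (c t) (c' t - c t)) (v' t - v t)‖ ≤
      (1452 * K + 1) * σ ^ 2 := by
  have h4 := acc_expand (a := A (c t)) (a' := A (c' t)) (v := v t) (v' := v' t)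
    (h := H (c t) (c' t - c t)) (h.bA _) (h.bA _) hv hv'
  unfold w2
  refine h4.trans ?_
  have h5 := h.lipA (c' t) (c t)
  have n1 := norm_nonneg (c' t - c t)
  have n2 := norm_nonneg (v' t - v t)
  have s0 : 0 ≤ σ := by linarith
  have q1 : ‖c' t - c t‖ ^ 2 ≤ 4 * σ ^ 2 := by nlinarith
  have q2 : ‖v' t - v t‖ ^ 2 ≤ 4 * σ ^ 2 := by nlinarith
  have q3 : ‖c' t - c t‖ * ‖v' t - v t‖ ≤ 4 * σ ^ 2 := by nlinarith
  have q4 : K * ‖c' t - c t‖ ^ 2 ≤ K * (4 * σ ^ 2) := mul_le_mul_of_nonneg_left q1 hK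
  have q5 : ‖A (c' t) - A (c t)‖ * ‖v' t - v t‖ ≤ 1 / 10000 * ‖c' t - c t‖ * ‖v' t - v t‖ :=
    mul_le_mul_of_nonneg_right h5 n2
  have q6 : 66 * ‖A (c' t) - A (c t)‖ * ‖v' t - v t‖ ≤ 66 / 10000 * (4 * σ ^ 2) := by
    have e1 : 66 * ‖A (c' t) - A (c t)‖ * ‖v' t - v t‖ = 66 * (‖A (c' t) - A (c t)‖ * ‖v' t - v t‖) := by
      ring
    rw [e1]
    linarith
  nlinarith [sq_nonneg σ]

private theorem T2_eq (h : Good φ A H) {c v c' v' : ℝ → E} {t : ℝ} :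
    T2 φ A H c v c' v' t = exp (2 * φ (c t)) *
      ⟪w2 A c v c' v' t - Lin (A (c t)) (v t) (H (c t) (c' t - c t)) (v' t - v t), v t⟫ := by
  have h1 := t2_identity (H := H (c t)) (h.symm (c t)) (A (c t)) (v t) (c' t - c t) (v' t - v t)
  unfold T2
  rw [inner_sub_left (w2 A c v c' v' t)]
  congr 1
  linarith

theorem T2_le (h : Good φ A H) {c v c' v' : ℝ → E} {t K σ : ℝ} (hK : 0 ≤ K)
    (hv : ‖v t‖ ≤ 11) (hv' : ‖v' t‖ ≤ 11)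
    (hw : ‖c' t - c t‖ ≤ 2 * σ) (hw1 : ‖v' t - v t‖ ≤ 2 * σ)
    (h3 : ‖A (c' t) - A (c t) - H (c t) (c' t - c t)‖ ≤ K * ‖c' t - c t‖ ^ 2) :
    |T2 φ A H c v c' v' t| ≤ 2000 * (K + 1) * ‖v t‖ * σ ^ 2 := by
  have h4 := err_le h hK hv hv' hw hw1 h3
  rw [T2_eq h, abs_mul, abs_of_pos (exp_pos _)]
  have h5 := abs_real_inner_le_norm
    (w2 A c v c' v' t - Lin (A (c t)) (v t) (H (c t) (c' t - c t)) (v' t - v t)) (v t)
  have h6 := e_le h (c t)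
  have n1 := norm_nonneg (v t)
  have h7 : ‖w2 A c v c' v' t - Lin (A (c t)) (v t) (H (c t) (c' t - c t)) (v' t - v t)‖ * ‖v t‖ ≤
      (1452 * K + 1) * σ ^ 2 * ‖v t‖ := mul_le_mul_of_nonneg_right h4 n1
  have h8 : exp (2 * φ (c t)) * |⟪w2 A c v c' v' t -
      Lin (A (c t)) (v t) (H (c t) (c' t - c t)) (v' t - v t), v t⟫| ≤
      1.2215 * ((1452 * K + 1) * σ ^ 2 * ‖v t‖) :=
    mul_le_mul h6 (h5.trans h7) (abs_nonneg _) (by norm_num)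
  refine h8.trans ?_
  have h9 : 0 ≤ σ ^ 2 * ‖v t‖ := by positivity
  have h10 : 1.2215 * ((1452 * K + 1) * σ ^ 2 * ‖v t‖) = (1.2215 * (1452 * K + 1)) * (σ ^ 2 * ‖v t‖) := by
    ring
  have h11 : 2000 * (K + 1) * ‖v t‖ * σ ^ 2 = (2000 * (K + 1)) * (σ ^ 2 * ‖v t‖) := by ring
  rw [h10, h11]
  apply mul_le_mul_of_nonneg_right _ h9
  linarith

theorem key_ineq (h : Good φ A H) {c v c' v' : ℝ → E} {t K σ l : ℝ} (hK : 0 ≤ K)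
    (hv0 : v t ≠ 0) (hv : ‖v t‖ ≤ 11) (hv' : ‖v' t‖ ≤ 11)
    (hw : ‖c' t - c t‖ ≤ 2 * σ) (hw1 : ‖v' t - v t‖ ≤ 2 * σ)
    (h3 : ‖A (c' t) - A (c t) - H (c t) (c' t - c t)‖ ≤ K * ‖c' t - c t‖ ^ 2)
    (hl : l = exp (φ (c t)) * ‖v t‖) (b : ℝ) :
    2 * b * (P1 φ A c v c' v' t - T0 φ c v c' t * T1 φ A c v c' v' t / l ^ 2) -
      2 * b ^ 2 * (P0 φ c c' t - T0 φ c v c' t ^ 2 / (2 * l ^ 2)) -
      2 * (l ^ 2 / 4000) * (P0 φ c c' t - T0 φ c v c' t ^ 2 / (2 * l ^ 2)) -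
      10000 * (K + 1) * σ ^ 3 ≤
    P2 φ A H c v c' v' t -
      (T1 φ A c v c' v' t ^ 2 + T0 φ c v c' t * T2 φ A H c v c' v' t) / l ^ 2 := by
  have herr := err_le h hK hv hv' hw hw1 h3
  have hT2 := T2_eq h (c := c) (v := v) (c' := c') (v' := v') (t := t)
  have hid := psi2_identity (H := H (c t)) (A (c t)) (v t) (c' t - c t) (v' t - v t)
  have hg3 := gram3 (A (c t)) (v t) (c' t - c t)
  have hhp := hess_plane (H := H (c t)) (η := 1 / 10000) (h.symm (c t)) (fun u => by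
    refine (abs_real_inner_le_norm _ _).trans ?_
    have := mul_le_mul_of_nonneg_right (h.bH (c t) u) (norm_nonneg u)
    nlinarith) (v t) (c' t - c t)
  have hwX := inner_w_Xd (A (c t)) (v t) (c' t - c t) (v' t - v t)
  have hvX := inner_v_Xd (A (c t)) (v t) (c' t - c t) (v' t - v t)
  have hE1 := e_le h (c t)
  have hE2 := le_e h (c t)
  have hl2 : l ^ 2 = exp (2 * φ (c t)) * ‖v t‖ ^ 2 := by
    rw [hl, mul_pow, ← exp_nat_mul]; push_cast; rfl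
  have hP2 : P2 φ A H c v c' v' t = exp (2 * φ (c t)) * (‖Xd (A (c t)) (v t) (c' t - c t) (v' t - v t)‖ ^ 2 +
      (‖A (c t)‖ ^ 2 * ‖v t‖ ^ 2 * ‖c' t - c t‖ ^ 2 + 2 * ⟪A (c t), v t⟫ * ⟪A (c t), c' t - c t⟫ * ⟪v t, c' t - c t⟫ -
      ⟪A (c t), v t⟫ ^ 2 * ‖c' t - c t‖ ^ 2 - ⟪A (c t), c' t - c t⟫ ^ 2 * ‖v t‖ ^ 2 -
      ⟪v t, c' t - c t⟫ ^ 2 * ‖A (c t)‖ ^ 2) +
      (‖v t‖ ^ 2 * ⟪H (c t) (c' t - c t), c' t - c t⟫ + ‖c' t - c t‖ ^ 2 * ⟪H (c t) (v t), v t⟫ -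
        2 * ⟪v t, c' t - c t⟫ * ⟪H (c t) (c' t - c t), v t⟫) +
      ⟪c' t - c t, w2 A c v c' v' t - Lin (A (c t)) (v t) (H (c t) (c' t - c t)) (v' t - v t)⟫) := by
    unfold P2
    rw [inner_sub_right (c' t - c t) (w2 A c v c' v' t)]
    congr 1
    linarith
  have hP1 : P1 φ A c v c' v' t = exp (2 * φ (c t)) *
      ⟪c' t - c t, Xd (A (c t)) (v t) (c' t - c t) (v' t - v t)⟫ := by
    unfold P1; rw [hwX]
  have hT1 : T1 φ A c v c' v' t = exp (2 * φ (c t)) *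
      ⟪v t, Xd (A (c t)) (v t) (c' t - c t) (v' t - v t)⟫ := by
    unfold T1; rw [hvX]
  have hT0 : T0 φ c v c' t = exp (2 * φ (c t)) * ⟪v t, c' t - c t⟫ := by
    unfold T0; rw [real_inner_comm]
  have hP0 : P0 φ c c' t = exp (2 * φ (c t)) * ‖c' t - c t‖ ^ 2 / 2 := rfl
  have hgX := gram2 (v t) (Xd (A (c t)) (v t) (c' t - c t) (v' t - v t) - b • (c' t - c t))
  have hgw := gram2 (v t) (c' t - c t)
  have hexp1 : ‖Xd (A (c t)) (v t) (c' t - c t) (v' t - v t) - b • (c' t - c t)‖ ^ 2 =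
      ‖Xd (A (c t)) (v t) (c' t - c t) (v' t - v t)‖ ^ 2 -
      2 * b * ⟪c' t - c t, Xd (A (c t)) (v t) (c' t - c t) (v' t - v t)⟫ + b ^ 2 * ‖c' t - c t‖ ^ 2 := by
    rw [norm_sub_sq_real, real_inner_smul_right, norm_smul, mul_pow, Real.norm_eq_abs, sq_abs,
      real_inner_comm]
    ring
  have hexp2 : ⟪v t, Xd (A (c t)) (v t) (c' t - c t) (v' t - v t) - b • (c' t - c t)⟫ =
      ⟪v t, Xd (A (c t)) (v t) (c' t - c t) (v' t - v t)⟫ - b * ⟪v t, c' t - c t⟫ := by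
    rw [inner_sub_right, real_inner_smul_right]
  rw [hexp1, hexp2] at hgX
  have hV : 0 < ‖v t‖ ^ 2 := by have := norm_pos_iff.2 hv0; positivity
  have hI1 := abs_real_inner_le_norm (c' t - c t)
    (w2 A c v c' v' t - Lin (A (c t)) (v t) (H (c t) (c' t - c t)) (v' t - v t))
  have hI2 := abs_real_inner_le_norm
    (w2 A c v c' v' t - Lin (A (c t)) (v t) (H (c t) (c' t - c t)) (v' t - v t)) (v t)
  have hI3 := abs_real_inner_le_norm (v t) (c' t - c t)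
  rw [hP2, hP1, hT1, hT0, hP0, hT2, hl2]
  -- abstract everything
  generalize hXX : ‖Xd (A (c t)) (v t) (c' t - c t) (v' t - v t)‖ ^ 2 = XX at *
  generalize hs : ⟪c' t - c t, Xd (A (c t)) (v t) (c' t - c t) (v' t - v t)⟫ = s at *
  generalize hr : ⟪v t, Xd (A (c t)) (v t) (c' t - c t) (v' t - v t)⟫ = r at *
  generalize hG : (‖A (c t)‖ ^ 2 * ‖v t‖ ^ 2 * ‖c' t - c t‖ ^ 2 + 2 * ⟪A (c t), v t⟫ * ⟪A (c t), c' t - c t⟫ * ⟪v t, c' t - c t⟫ -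
      ⟪A (c t), v t⟫ ^ 2 * ‖c' t - c t‖ ^ 2 - ⟪A (c t), c' t - c t⟫ ^ 2 * ‖v t‖ ^ 2 -
      ⟪v t, c' t - c t⟫ ^ 2 * ‖A (c t)‖ ^ 2) = G at *
  generalize hHs : (‖v t‖ ^ 2 * ⟪H (c t) (c' t - c t), c' t - c t⟫ + ‖c' t - c t‖ ^ 2 * ⟪H (c t) (v t), v t⟫ -
        2 * ⟪v t, c' t - c t⟫ * ⟪H (c t) (c' t - c t), v t⟫) = Hs at *
  generalize hi1 : ⟪c' t - c t, w2 A c v c' v' t - Lin (A (c t)) (v t) (H (c t) (c' t - c t)) (v' t - v t)⟫ = i1 at *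
  generalize hi2 : ⟪w2 A c v c' v' t - Lin (A (c t)) (v t) (H (c t) (c' t - c t)) (v' t - v t), v t⟫ = i2 at *
  generalize hne : ‖w2 A c v c' v' t - Lin (A (c t)) (v t) (H (c t) (c' t - c t)) (v' t - v t)‖ = ne at *
  generalize hp : ⟪v t, c' t - c t⟫ = p at *
  generalize he : exp (2 * φ (c t)) = e at *
  have hne0 : 0 ≤ ne := by rw [← hne]; exact norm_nonneg _
  have hn0 : 0 ≤ ‖c' t - c t‖ := norm_nonneg _
  have hv00 : 0 < ‖v t‖ := norm_pos_iff.2 hv0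
  clear hid hwX hvX hP2 hP1 hT1 hT0 hP0 hT2 hexp1 hexp2 hXX hs hr hG hHs hi1 hi2 hne hp he hl hl2 h3
  generalize hn : ‖c' t - c t‖ = n at *
  generalize hvv : ‖v t‖ = V at *
  clear hn hvv hv0 hv'
  have he0 : 0 < e := by linarith
  have hσ0 : 0 ≤ σ := by linarith
  -- the main inequality for the normal parts
  have m1 : 2 * b * (s - p * r / V ^ 2) - b ^ 2 * (n ^ 2 - p ^ 2 / V ^ 2) ≤ XX - r ^ 2 / V ^ 2 := by
    have h1 : 0 ≤ (V ^ 2 * (XX - 2 * b * s + b ^ 2 * n ^ 2) - (r - b * p) ^ 2) / V ^ 2 :=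
      div_nonneg hgX hV.le
    have h2 : (V ^ 2 * (XX - 2 * b * s + b ^ 2 * n ^ 2) - (r - b * p) ^ 2) / V ^ 2 =
        (XX - r ^ 2 / V ^ 2) - (2 * b * (s - p * r / V ^ 2) - b ^ 2 * (n ^ 2 - p ^ 2 / V ^ 2)) := by
      field_simp
      ring
    linarith
  have hM0 : 0 ≤ n ^ 2 - p ^ 2 / V ^ 2 := by
    have h1 : 0 ≤ (V ^ 2 * n ^ 2 - p ^ 2) / V ^ 2 := div_nonneg hgw hV.le
    have h2 : (V ^ 2 * n ^ 2 - p ^ 2) / V ^ 2 = n ^ 2 - p ^ 2 / V ^ 2 := by field_simp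
    linarith
  -- rewrite the expressions
  have r1 : e * s - e * p * (e * r) / (e * V ^ 2) = e * (s - p * r / V ^ 2) := by field_simp
  have r2 : e * n ^ 2 / 2 - (e * p) ^ 2 / (2 * (e * V ^ 2)) = e * (n ^ 2 - p ^ 2 / V ^ 2) / 2 := by
    field_simp
  have r3 : ((e * r) ^ 2 + e * p * (e * i2)) / (e * V ^ 2) = e * (r ^ 2 / V ^ 2) + e * (p * i2) / V ^ 2 := by
    field_simp
  rw [r1, r2, r3]
  -- hessian term
  have m2 : -(2 * (e * V ^ 2 / 4000) * (e * (n ^ 2 - p ^ 2 / V ^ 2) / 2)) ≤ e * Hs := by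
    have h1 : V ^ 2 * n ^ 2 - p ^ 2 = V ^ 2 * (n ^ 2 - p ^ 2 / V ^ 2) := by field_simp
    rw [h1] at hhp
    have h2 := mul_le_mul_of_nonneg_left hhp he0.le
    have h3 : e * -(2 * (1 / 10000) * (V ^ 2 * (n ^ 2 - p ^ 2 / V ^ 2))) =
        -(2 / 10000 * (e * (V ^ 2 * (n ^ 2 - p ^ 2 / V ^ 2)))) := by ring
    have h4 : 2 * (e * V ^ 2 / 4000) * (e * (n ^ 2 - p ^ 2 / V ^ 2) / 2) =
        e / 4000 * (e * (V ^ 2 * (n ^ 2 - p ^ 2 / V ^ 2))) := by ring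
    rw [h3] at h2
    rw [h4]
    have h5 : 0 ≤ e * (V ^ 2 * (n ^ 2 - p ^ 2 / V ^ 2)) := by positivity
    have h6 : 2 / 10000 * (e * (V ^ 2 * (n ^ 2 - p ^ 2 / V ^ 2))) ≤
        e / 4000 * (e * (V ^ 2 * (n ^ 2 - p ^ 2 / V ^ 2))) :=
      mul_le_mul_of_nonneg_right (by linarith) h5
    linarith
  -- error terms
  have m3 : |e * i1| ≤ 1.2215 * (2 * σ * ((1452 * K + 1) * σ ^ 2)) := by
    rw [abs_mul, abs_of_pos he0]
    refine mul_le_mul hE1 (hI1.trans ?_) (abs_nonneg _) (by norm_num)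
    exact mul_le_mul hw herr hne0 (by linarith)
  have m4 : |e * (p * i2) / V ^ 2| ≤ 1.2215 * (2 * σ * ((1452 * K + 1) * σ ^ 2)) := by
    rw [abs_div, abs_of_pos hV, div_le_iff₀ hV, abs_mul, abs_of_pos he0, abs_mul]
    have h1 : |p| * |i2| ≤ (V * n) * (ne * V) := mul_le_mul hI3 hI2 (abs_nonneg _) (by positivity)
    have h2 : (V * n) * (ne * V) ≤ (2 * σ * ((1452 * K + 1) * σ ^ 2)) * V ^ 2 := by
      have h3 : n * ne ≤ 2 * σ * ((1452 * K + 1) * σ ^ 2) := mul_le_mul hw herr hne0 (by linarith)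
      have h4 := mul_le_mul_of_nonneg_right h3 hV.le
      nlinarith
    have h5 : e * (|p| * |i2|) ≤ 1.2215 * ((2 * σ * ((1452 * K + 1) * σ ^ 2)) * V ^ 2) :=
      mul_le_mul hE1 (h1.trans h2) (by positivity) (by norm_num)
    linarith
  have m5 := (abs_le.1 m3).1
  have m6 := (abs_le.1 m4).2
  have m7 := mul_le_mul_of_nonneg_left m1 he0.le
  have m8 : 0 ≤ e * G := mul_nonneg he0.le hg3
  have m9 : 2 * (1.2215 * (2 * σ * ((1452 * K + 1) * σ ^ 2))) ≤ 10000 * (K + 1) * σ ^ 3 := by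
    have h1 : 2 * (1.2215 * (2 * σ * ((1452 * K + 1) * σ ^ 2))) = (4.886 * (1452 * K + 1)) * σ ^ 3 := by ring
    rw [h1]
    apply mul_le_mul_of_nonneg_right _ (by positivity)
    linarith
  have m10 : e * (XX + G + Hs + i1) = e * XX + e * G + e * Hs + e * i1 := by ring
  rw [m10]
  have m11 : e * (2 * b * (s - p * r / V ^ 2) - b ^ 2 * (n ^ 2 - p ^ 2 / V ^ 2)) =
      2 * b * (e * (s - p * r / V ^ 2)) - 2 * b ^ 2 * (e * (n ^ 2 - p ^ 2 / V ^ 2) / 2) := by ring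
  have m12 : e * (XX - r ^ 2 / V ^ 2) = e * XX - e * (r ^ 2 / V ^ 2) := by ring
  rw [m11, m12] at m7
  linarith

/-- the energy of the normal part is nonnegative -/
theorem normal_nonneg {c v c' : ℝ → E} {t l : ℝ} (hl : l = exp (φ (c t)) * ‖v t‖) :
    0 ≤ P0 φ c c' t - T0 φ c v c' t ^ 2 / (2 * l ^ 2) := by
  have hl2 : l ^ 2 = exp (2 * φ (c t)) * ‖v t‖ ^ 2 := by
    rw [hl, mul_pow, ← exp_nat_mul]; push_cast; rfl
  have he : 0 < exp (2 * φ (c t)) := exp_pos _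
  unfold P0 T0
  rw [hl2]
  by_cases hv : v t = 0
  · rw [hv]
    simp
    positivity
  have hV : 0 < ‖v t‖ ^ 2 := by have := norm_pos_iff.2 hv; positivity
  have h1 := gram2 (v t) (c' t - c t)
  rw [sub_nonneg, div_le_iff₀ (by positivity)]
  have h2 : exp (2 * φ (c t)) * ‖c' t - c t‖ ^ 2 / 2 * (2 * (exp (2 * φ (c t)) * ‖v t‖ ^ 2)) =
      exp (2 * φ (c t)) ^ 2 * (‖v t‖ ^ 2 * ‖c' t - c t‖ ^ 2) := by ring
  rw [h2, mul_pow, real_inner_comm]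
  apply mul_le_mul_of_nonneg_left _ (by positivity)
  linarith

end Pool.Agent.Helper48.FC
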