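import Mathlib
import Pool.Agent.Helper48.FC.Ineq
import Pool.Agent.Helper48.FC.Bar
import Pool.Agent.Helper48.FC.FV

/-!
Block FC-8.  Second variation.

Let `R ≥ 0`; `K` from `Good.third` for the radius `R + 30`.  Let `‖o‖ ≤ R`, `(c, v)` the geodesic from `o` to `p`, `(c', v')` the one from `o` to
`p'` (`exists_seg`), `w = p' - p`, `σ = ‖w‖`, `l = ll o p > 0` (`le_ll`, `p ≠ o`).  All points of both geodesics have norm at most `R + 30`
(`Seg.near`), the velocities have norm at most `11`, and `geo_compare` gives `‖c' t - c t‖ ≤ 2 t σ ≤ 2 σ`, `‖v' t - v t‖ ≤ 2 σ`.  `l = exp (φ (c t)) ‖v t‖` for all `t`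
(`ll_eq`), so `v t ≠ 0`.

Apply `bar` to `N = P0 - T0²/(2 l²)`, `N1 = P1 - T0 T1/l²`, `N2 = P2 - (T1² + T0 T2)/l²` (derivatives: `Der`), `ω = l²/4000 ≤ 1`
(`l ≤ 1.12 * 10`), `ε = 10000 (K+1) σ³` (`key_ineq`), `N ≥ 0` (`normal_nonneg`).  The bounds `N t ≤ M t²`, `|N1 t| ≤ M t` for some `M`: `‖w t‖ ≤ 2 t σ`,
`‖w1‖ ≤ 2σ`, so `P0 ≤ C t²`, `|P1| ≤ C t`, `|T0| ≤ C t`, `|T1| ≤ C`.  Result:
`P1 1 - T0 1 T1 1/l² ≥ (1 - ω)(2 P0 1 - (T0 1)²/l²) - 10000 (K+1) σ³`.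
`T0 0 = 0` and `|T2| ≤ 2000 (K+1) 11 σ²`; more precisely `‖v t‖ ≤ 1.2215 ‖v 1‖` (constant speed), so `|T1 t - T1 1| ≤ 2500 (K+1) ‖v 1‖ σ²` and
`|T0 1 - T1 1| ≤ 2500 (K+1) ‖v 1‖ σ²` (derivative of `t ↦ T0 t - t T1 1`).  As `|T0 1| ≤ 1.2215 σ ‖v 1‖` and `‖v 1‖²/l² ≤ 1.25`,
`T0 1 T1 1/l² ≥ (T0 1)²/l² - 4000 (K+1) σ³`.
So `P1 1 ≥ (T0 1)²/l² + (1 - ω)(exp (2 φ p) ‖w‖² - (T0 1)²/l²) - 14000 (K+1) σ³`, and `T0 1 = ⟪gg o p, w⟫` (`gg_eq`).

Finally `⟪gg o p' - gg o p, w⟫ + ⟪gg o p, acc (A p) w⟫ - P1 1 = (exp (2φ p') - exp (2φ p)) ⟪v' 1, w⟫ - 2 exp (2φ p) ⟪A p, w⟫ ⟪w, v 1⟫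
= exp (2φ p) ((exp (2δ) - 1 - 2 ⟪A p, w⟫) ⟪v' 1, w⟫ + 2 ⟪A p, w⟫ ⟪v' 1 - v 1, w⟫)`, `δ = φ p' - φ p`, `|δ| ≤ σ/10000`, `|δ| ≤ 1/5`,
`|exp (2δ) - 1 - 2δ| ≤ (2δ)²` (`Real.abs_exp_sub_one_sub_id_le`), `|δ - ⟪A p, w⟫| ≤ σ²/10000` (mean value, `Good.lipA`),
`‖v' 1 - v 1‖ ≤ 2σ`: at most `σ³` in absolute value.  So `C = 14000 (K+1) + 1` works.
-/

set_option autoImplicit false
set_option linter.unusedSectionVars false

namespace Pool.Agent.Helper48.FC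

open Real Set
open scoped RealInnerProductSpace

variable {E : Type*} [NormedAddCommGroup E] [InnerProductSpace ℝ E] [CompleteSpace E]
variable {φ : E → ℝ} {A : E → E} {H : E → E →L[ℝ] E}

private theorem e_le67 (h : Good φ A H) (x : E) : exp (2 * φ x) ≤ 1.2215 := by
  have h1 := exp_le_of_bdd (h.bdd x)
  have h2 : exp (2 * φ x) = exp (φ x) * exp (φ x) := by rw [← exp_add]; ring_nf
  rw [h2]
  have := (exp_pos (φ x)).le
  nlinarith

private theorem le_e67 (h : Good φ A H) (x : E) : 0.8 ≤ exp (2 * φ x) := by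
  have h1 := le_exp_of_bdd (h.bdd x)
  have h2 : exp (2 * φ x) = exp (φ x) * exp (φ x) := by rw [← exp_add]; ring_nf
  rw [h2]
  nlinarith

/-- first order Taylor estimate for `φ` -/
private theorem tay67 (h : Good φ A H) (p p' : E) :
    |φ p' - φ p - ⟪A p, p' - p⟫| ≤ 1 / 10000 * ‖p' - p‖ ^ 2 := by
  have h1 := (convex_closedBall p ‖p' - p‖).norm_image_sub_le_of_norm_hasFDerivWithin_le' (f := φ)
    (f' := fun x => innerSL ℝ (A x)) (φ := innerSL ℝ (A p)) (C := 1 / 10000 * ‖p' - p‖)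
    (fun x _ => (h.grad x).hasFDerivWithinAt) (fun x hx => by
      have e1 : innerSL ℝ (A x) - innerSL ℝ (A p) = innerSL ℝ (A x - A p) := by
        rw [map_sub]
      rw [e1, innerSL_apply_norm]
      refine (h.lipA x p).trans ?_
      have e2 : ‖x - p‖ ≤ ‖p' - p‖ := by
        rw [Metric.mem_closedBall, dist_eq_norm] at hx
        exact hx
      linarith)
    (Metric.mem_closedBall_self (norm_nonneg _)) (show p' ∈ Metric.closedBall p ‖p' - p‖ by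
      rw [Metric.mem_closedBall, dist_eq_norm])
  rw [Real.norm_eq_abs, innerSL_apply_apply] at h1
  refine h1.trans (le_of_eq ?_)
  ring

/-- the difference between the second variation and its expression at the end point -/
private theorem fin67 (h : Good φ A H) (p p' v1 v1' : E) (hd : ‖p' - p‖ ≤ 20) (hv' : ‖v1'‖ ≤ 11)
    (hvv : ‖v1' - v1‖ ≤ 2 * ‖p' - p‖) :
    |⟪exp (2 * φ p') • v1' - exp (2 * φ p) • v1, p' - p⟫ +
      ⟪exp (2 * φ p) • v1, acc (A p) (p' - p)⟫ -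
      exp (2 * φ p) * (⟪p' - p, v1' - v1⟫ + ⟪A p, v1⟫ * ‖p' - p‖ ^ 2)| ≤ ‖p' - p‖ ^ 3 := by
  have hE1 := e_le67 h p
  have hE2 := le_e67 h p
  have ht := tay67 h p p'
  have hlip := h.lip p' p
  have hA := h.bA p
  have hexp : exp (2 * φ p') = exp (2 * φ p) * exp (2 * (φ p' - φ p)) := by
    rw [← exp_add]; ring_nf
  have hI1 := abs_real_inner_le_norm v1' (p' - p)
  have hI2 := abs_real_inner_le_norm (v1' - v1) (p' - p)
  have hI3 := abs_real_inner_le_norm (A p) (p' - p)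
  have e1 : ⟪exp (2 * φ p') • v1' - exp (2 * φ p) • v1, p' - p⟫ +
      ⟪exp (2 * φ p) • v1, acc (A p) (p' - p)⟫ -
      exp (2 * φ p) * (⟪p' - p, v1' - v1⟫ + ⟪A p, v1⟫ * ‖p' - p‖ ^ 2) =
      exp (2 * φ p) * ((exp (2 * (φ p' - φ p)) - 1 - 2 * ⟪A p, p' - p⟫) * ⟪v1', p' - p⟫ +
        2 * ⟪A p, p' - p⟫ * ⟪v1' - v1, p' - p⟫) := by
    unfold acc
    rw [hexp]
    simp only [inner_sub_left, inner_sub_right, real_inner_smul_left, real_inner_smul_right,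
      ← real_inner_self_eq_norm_sq]
    simp only [real_inner_comm v1 p, real_inner_comm v1 p', real_inner_comm v1' p,
      real_inner_comm v1' p', real_inner_comm v1 (A p), real_inner_comm p p']
    ring
  rw [e1, abs_mul, abs_of_pos (exp_pos _)]
  set σ := ‖p' - p‖ with hσ
  have s0 : 0 ≤ σ := norm_nonneg _
  have hδ : |φ p' - φ p| ≤ 1 / 10000 * σ := hlip
  have h2δ : |2 * (φ p' - φ p)| ≤ 1 := by
    rw [abs_mul, abs_of_pos (by norm_num : (0 : ℝ) < 2)]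
    linarith
  have hx := Real.abs_exp_sub_one_sub_id_le h2δ
  have hsq : (2 * (φ p' - φ p)) ^ 2 ≤ 4 / 100000000 * σ ^ 2 := by
    have h1 : (φ p' - φ p) ^ 2 ≤ (1 / 10000 * σ) ^ 2 := by
      rw [← sq_abs (φ p' - φ p)]
      exact pow_le_pow_left₀ (abs_nonneg _) hδ 2
    nlinarith
  have q1 : |exp (2 * (φ p' - φ p)) - 1 - 2 * ⟪A p, p' - p⟫| ≤ 3 / 10000 * σ ^ 2 := by
    have e2 : exp (2 * (φ p' - φ p)) - 1 - 2 * ⟪A p, p' - p⟫ =
        (exp (2 * (φ p' - φ p)) - 1 - 2 * (φ p' - φ p)) +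
          2 * (φ p' - φ p - ⟪A p, p' - p⟫) := by ring
    rw [e2]
    refine (abs_add_le _ _).trans ?_
    rw [abs_mul, abs_of_pos (by norm_num : (0 : ℝ) < 2)]
    nlinarith [sq_nonneg σ]
  have q2 : |⟪v1', p' - p⟫| ≤ 11 * σ := hI1.trans (mul_le_mul_of_nonneg_right hv' s0)
  have q3 : |⟪A p, p' - p⟫| ≤ 1 / 10000 * σ := hI3.trans (mul_le_mul_of_nonneg_right hA s0)
  have q4 : |⟪v1' - v1, p' - p⟫| ≤ 2 * σ * σ := hI2.trans (mul_le_mul_of_nonneg_right hvv s0)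
  have q5 : |(exp (2 * (φ p' - φ p)) - 1 - 2 * ⟪A p, p' - p⟫) * ⟪v1', p' - p⟫ +
        2 * ⟪A p, p' - p⟫ * ⟪v1' - v1, p' - p⟫| ≤
        3 / 10000 * σ ^ 2 * (11 * σ) + 2 * (1 / 10000 * σ) * (2 * σ * σ) := by
    refine (abs_add_le _ _).trans (add_le_add ?_ ?_)
    · rw [abs_mul]
      exact mul_le_mul q1 q2 (abs_nonneg _) (by positivity)
    · rw [abs_mul, abs_mul, abs_of_pos (by norm_num : (0 : ℝ) < 2)]
      exact mul_le_mul (by linarith) q4 (abs_nonneg _) (by positivity)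
  have q6 := mul_le_mul hE1 q5 (abs_nonneg _) (by norm_num)
  refine q6.trans ?_
  have s3 : 0 ≤ σ ^ 3 := by positivity
  have e3 : (1.2215 : ℝ) * (3 / 10000 * σ ^ 2 * (11 * σ) + 2 * (1 / 10000 * σ) * (2 * σ * σ)) =
      (1.2215 * (33 / 10000 + 4 / 10000)) * σ ^ 3 := by ring
  rw [e3]
  nlinarith

/-- the bound for `P1 1` -/
private theorem p1_ge67 (h : Good φ A H) {R K : ℝ} (hK : 0 ≤ K)
    (hK3 : ∀ x y, ‖x‖ ≤ R + 30 → ‖y‖ ≤ R + 30 → ‖A y - A x - H x (y - x)‖ ≤ K * ‖y - x‖ ^ 2)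
    {o p p' : E} (ho : ‖o‖ ≤ R) (hp : ‖p - o‖ ≤ 10) (hp' : ‖p' - o‖ ≤ 10) (hne : p ≠ o)
    {c v c' v' : ℝ → E} (s : Seg A o p c v) (s' : Seg A o p' c' v') :
    (exp (2 * φ p) * ⟪p' - p, v 1⟫) ^ 2 / ll φ A o p ^ 2 + (1 - ll φ A o p ^ 2 / 4000) *
      (exp (2 * φ p) * ‖p' - p‖ ^ 2 - (exp (2 * φ p) * ⟪p' - p, v 1⟫) ^ 2 / ll φ A o p ^ 2) -
      14000 * (K + 1) * ‖p' - p‖ ^ 3 ≤ P1 φ A c v c' v' 1 := by
  have h1m : (1 : ℝ) ∈ Icc (0 : ℝ) 1 := ⟨zero_le_one, le_rfl⟩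
  have hv : ∀ t ∈ Icc (0 : ℝ) 1, ‖v t‖ ≤ 11 := fun t ht => s.norm_le_eleven hp ht
  have hv' : ∀ t ∈ Icc (0 : ℝ) 1, ‖v' t‖ ≤ 11 := fun t ht => s'.norm_le_eleven hp' ht
  set σ := ‖p' - p‖ with hσ
  have s0 : 0 ≤ σ := norm_nonneg _
  have hw1 : ∀ t ∈ Icc (0 : ℝ) 1, ‖v' t - v t‖ ≤ 2 * σ := by
    intro t ht
    have h2 := (geo_compare h s.geo s'.geo hv hv' ht).1
    rw [s.c0, s'.c0, s.c1, s'.c1, sub_self, norm_zero, zero_add] at h2
    exact h2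
  have hwt : ∀ t ∈ Icc (0 : ℝ) 1, ‖c' t - c t‖ ≤ 2 * t * σ := by
    intro t ht
    have h2 := (geo_compare h s.geo s'.geo hv hv' ht).2
    rw [s.c0, s'.c0, s.c1, s'.c1, sub_self, norm_zero, zero_add, zero_add] at h2
    exact h2
  have hw : ∀ t ∈ Icc (0 : ℝ) 1, ‖c' t - c t‖ ≤ 2 * σ := by
    intro t ht
    have h2 := hwt t ht
    have h3 : t * σ ≤ 1 * σ := mul_le_mul_of_nonneg_right ht.2 s0
    linarith
  have hnorm : ∀ (q : E) (b u : ℝ → E), ‖q - o‖ ≤ 10 → Seg A o q b u → ∀ t ∈ Icc (0 : ℝ) 1,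
      ‖b t‖ ≤ R + 30 := by
    intro q b u hq hs t ht
    have h2 := hs.near ht
    have h3 : b t = (b t - (o + t • (q - o))) + (o + t • (q - o)) := by abel
    have h4 := norm_add_le (b t - (o + t • (q - o))) (o + t • (q - o))
    rw [← h3] at h4
    have h5 := norm_add_le o (t • (q - o))
    have h6 : ‖t • (q - o)‖ ≤ 10 := by
      rw [norm_smul, Real.norm_eq_abs, abs_of_nonneg ht.1]
      have := mul_le_mul ht.2 hq (norm_nonneg _) zero_le_one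
      linarith
    have h7 : t * (‖q - o‖ / 100) ≤ 1 * (10 / 100) :=
      mul_le_mul ht.2 (by linarith) (by positivity) zero_le_one
    linarith
  have h3t : ∀ t ∈ Icc (0 : ℝ) 1,
      ‖A (c' t) - A (c t) - H (c t) (c' t - c t)‖ ≤ K * ‖c' t - c t‖ ^ 2 := fun t ht =>
    hK3 _ _ (hnorm p c v hp s t ht) (hnorm p' c' v' hp' s' t ht)
  have hll : ∀ t ∈ Icc (0 : ℝ) 1, ll φ A o p = exp (φ (c t)) * ‖v t‖ := fun t ht =>
    (ll_eq h s hp ht).symm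
  have hlpos : 0 < ll φ A o p := by
    have h2 := le_ll h hp
    have h3 : 0 < ‖p - o‖ := norm_pos_iff.2 (sub_ne_zero.2 hne)
    linarith
  have hlle : ll φ A o p ≤ 11.2 := by
    have h2 := ll_le h hp
    linarith
  set l := ll φ A o p with hl
  have hv0 : ∀ t ∈ Icc (0 : ℝ) 1, v t ≠ 0 := by
    intro t ht h2
    have h3 := hll t ht
    rw [h2, norm_zero, mul_zero] at h3
    linarith
  have hl2 : 0 < l ^ 2 := by positivity
  have hl2' : l ^ 2 ≤ 4000 := by nlinarith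
  -- the functions
  have dP0 := fun t (ht : t ∈ Icc (0 : ℝ) 1) => der_P0 h s.geo s'.geo ht
  have dP1 := fun t (ht : t ∈ Icc (0 : ℝ) 1) => der_P1 h s.geo s'.geo ht
  have dT0 := fun t (ht : t ∈ Icc (0 : ℝ) 1) => der_T0 h s.geo s'.geo ht
  have dT1 := fun t (ht : t ∈ Icc (0 : ℝ) 1) => der_T1 h s.geo s'.geo ht
  have dN : ∀ t ∈ Icc (0 : ℝ) 1, HasDerivAt (fun t => P0 φ c c' t - T0 φ c v c' t ^ 2 / (2 * l ^ 2))
      (P1 φ A c v c' v' t - T0 φ c v c' t * T1 φ A c v c' v' t / l ^ 2) t := by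
    intro t ht
    have h2 := (dP0 t ht).sub (((dT0 t ht).pow 2).div_const (2 * l ^ 2))
    refine h2.congr_deriv ?_
    field_simp
    ring
  have dN1 : ∀ t ∈ Icc (0 : ℝ) 1,
      HasDerivAt (fun t => P1 φ A c v c' v' t - T0 φ c v c' t * T1 φ A c v c' v' t / l ^ 2)
      (P2 φ A H c v c' v' t -
        (T1 φ A c v c' v' t ^ 2 + T0 φ c v c' t * T2 φ A H c v c' v' t) / l ^ 2) t := by
    intro t ht
    have h2 := (dP1 t ht).sub (((dT0 t ht).mul (dT1 t ht)).div_const (l ^ 2))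
    refine h2.congr_deriv ?_
    ring
  have bT0 : ∀ t ∈ Icc (0 : ℝ) 1, |T0 φ c v c' t| ≤ 27 * t * σ := by
    intro t ht
    unfold T0
    rw [abs_mul, abs_of_pos (exp_pos _)]
    have h2 := abs_real_inner_le_norm (c' t - c t) (v t)
    have h3 : ‖c' t - c t‖ * ‖v t‖ ≤ (2 * t * σ) * 11 :=
      mul_le_mul (hwt t ht) (hv t ht) (norm_nonneg _) ((norm_nonneg _).trans (hwt t ht))
    have h4 := mul_le_mul (e_le67 h (c t)) (h2.trans h3) (abs_nonneg _) (by norm_num)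
    have h5 : 0 ≤ t * σ := mul_nonneg ht.1 s0
    linarith
  have bT1 : ∀ t ∈ Icc (0 : ℝ) 1, |T1 φ A c v c' v' t| ≤ 27 * σ := by
    intro t ht
    unfold T1
    rw [abs_mul, abs_of_pos (exp_pos _)]
    have h2 := abs_real_inner_le_norm (v' t - v t) (v t)
    have h3 : ‖v' t - v t‖ * ‖v t‖ ≤ (2 * σ) * 11 :=
      mul_le_mul (hw1 t ht) (hv t ht) (norm_nonneg _) (by positivity)
    have h4 := abs_real_inner_le_norm (A (c t)) (c' t - c t)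
    have h5 : ‖A (c t)‖ * ‖c' t - c t‖ ≤ (1 / 10000) * (2 * σ) :=
      mul_le_mul (h.bA _) (hw t ht) (norm_nonneg _) (by norm_num)
    have h6 : ‖v t‖ ^ 2 ≤ 121 := by
      have := hv t ht
      have := norm_nonneg (v t)
      nlinarith
    have h7 : |⟪v' t - v t, v t⟫ + ‖v t‖ ^ 2 * ⟪A (c t), c' t - c t⟫| ≤
        (2 * σ) * 11 + 121 * ((1 / 10000) * (2 * σ)) := by
      refine (abs_add_le _ _).trans (add_le_add (h2.trans h3) ?_)
      rw [abs_mul, abs_of_nonneg (by positivity)]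
      exact mul_le_mul h6 (h4.trans h5) (abs_nonneg _) (by norm_num)
    have h8 := mul_le_mul (e_le67 h (c t)) h7 (abs_nonneg _) (by norm_num)
    linarith
  have bP1 : ∀ t ∈ Icc (0 : ℝ) 1, |P1 φ A c v c' v' t| ≤ 5 * σ ^ 2 * t := by
    intro t ht
    unfold P1
    rw [abs_mul, abs_of_pos (exp_pos _)]
    have h2 := abs_real_inner_le_norm (c' t - c t) (v' t - v t)
    have h3 : ‖c' t - c t‖ * ‖v' t - v t‖ ≤ (2 * t * σ) * (2 * σ) :=
      mul_le_mul (hwt t ht) (hw1 t ht) (norm_nonneg _) ((norm_nonneg _).trans (hwt t ht))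
    have h4 := abs_real_inner_le_norm (A (c t)) (v t)
    have h5 : ‖A (c t)‖ * ‖v t‖ ≤ (1 / 10000) * 11 :=
      mul_le_mul (h.bA _) (hv t ht) (norm_nonneg _) (by norm_num)
    have h6 : ‖c' t - c t‖ ^ 2 ≤ (2 * t * σ) * (2 * σ) := by
      rw [sq]
      exact mul_le_mul (hwt t ht) (hw t ht) (norm_nonneg _) ((norm_nonneg _).trans (hwt t ht))
    have h7 : |⟪c' t - c t, v' t - v t⟫ + ⟪A (c t), v t⟫ * ‖c' t - c t‖ ^ 2| ≤
        (2 * t * σ) * (2 * σ) + ((1 / 10000) * 11) * ((2 * t * σ) * (2 * σ)) := by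
      refine (abs_add_le _ _).trans (add_le_add (h2.trans h3) ?_)
      rw [abs_mul, abs_of_nonneg (sq_nonneg ‖c' t - c t‖)]
      exact mul_le_mul (h4.trans h5) h6 (sq_nonneg _) (by norm_num)
    have h8 := mul_le_mul (e_le67 h (c t)) h7 (abs_nonneg _) (by norm_num)
    have h9 : 0 ≤ t * σ ^ 2 := mul_nonneg ht.1 (sq_nonneg _)
    refine h8.trans ?_
    have e1 : (1.2215 : ℝ) * (2 * t * σ * (2 * σ) + 1 / 10000 * 11 * (2 * t * σ * (2 * σ))) =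
        (1.2215 * (4 + 44 / 10000)) * (t * σ ^ 2) := by ring
    rw [e1]
    have e2 : 5 * σ ^ 2 * t = 5 * (t * σ ^ 2) := by ring
    rw [e2]
    nlinarith
  have bar1 := bar (N := fun t => P0 φ c c' t - T0 φ c v c' t ^ 2 / (2 * l ^ 2))
    (N1 := fun t => P1 φ A c v c' v' t - T0 φ c v c' t * T1 φ A c v c' v' t / l ^ 2)
    (N2 := fun t => P2 φ A H c v c' v' t -
        (T1 φ A c v c' v' t ^ 2 + T0 φ c v c' t * T2 φ A H c v c' v' t) / l ^ 2)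
    (M := 5 * σ ^ 2 + 729 * σ ^ 2 / l ^ 2) (ω := l ^ 2 / 4000) (ε := 10000 * (K + 1) * σ ^ 3)
    dN dN1 (fun t ht => normal_nonneg (hll t ht))
    (fun t ht => by
      have p0 : 0 ≤ 729 * σ ^ 2 / l ^ 2 := by positivity
      constructor
      · have h2 : 0 ≤ T0 φ c v c' t ^ 2 / (2 * l ^ 2) := by positivity
        have h3 : P0 φ c c' t ≤ 5 * σ ^ 2 * t ^ 2 := by
          unfold P0
          have h4 : ‖c' t - c t‖ ^ 2 ≤ (2 * t * σ) ^ 2 :=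
            pow_le_pow_left₀ (norm_nonneg _) (hwt t ht) 2
          have h5 := mul_le_mul (e_le67 h (c t)) h4 (sq_nonneg _) (by norm_num)
          nlinarith [sq_nonneg (t * σ)]
        have h4 : 0 ≤ 729 * σ ^ 2 / l ^ 2 * t ^ 2 := by positivity
        have h5 : (5 * σ ^ 2 + 729 * σ ^ 2 / l ^ 2) * t ^ 2 =
            5 * σ ^ 2 * t ^ 2 + 729 * σ ^ 2 / l ^ 2 * t ^ 2 := by ring
        rw [h5]
        show P0 φ c c' t - T0 φ c v c' t ^ 2 / (2 * l ^ 2) ≤ _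
        linarith
      · have h2 : |T0 φ c v c' t * T1 φ A c v c' v' t / l ^ 2| ≤ 729 * σ ^ 2 / l ^ 2 * t := by
          rw [abs_div, abs_of_pos hl2, abs_mul, div_mul_eq_mul_div]
          apply div_le_div_of_nonneg_right _ hl2.le
          have h3 := mul_le_mul (bT0 t ht) (bT1 t ht) (abs_nonneg _)
            ((abs_nonneg _).trans (bT0 t ht))
          refine h3.trans (le_of_eq ?_)
          ring
        have h3 := abs_sub (P1 φ A c v c' v' t) (T0 φ c v c' t * T1 φ A c v c' v' t / l ^ 2)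
        have h4 := bP1 t ht
        show |P1 φ A c v c' v' t - T0 φ c v c' t * T1 φ A c v c' v' t / l ^ 2| ≤ _
        have h5 : (5 * σ ^ 2 + 729 * σ ^ 2 / l ^ 2) * t =
            5 * σ ^ 2 * t + 729 * σ ^ 2 / l ^ 2 * t := by ring
        rw [h5]
        linarith)
    (by positivity) (by linarith) (by positivity)
    (fun t ht b => key_ineq h hK (hv0 t ⟨ht.1.le, ht.2⟩) (hv t ⟨ht.1.le, ht.2⟩)
      (hv' t ⟨ht.1.le, ht.2⟩) (hw t ⟨ht.1.le, ht.2⟩) (hw1 t ⟨ht.1.le, ht.2⟩)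
      (h3t t ⟨ht.1.le, ht.2⟩) (hll t ⟨ht.1.le, ht.2⟩) b)
  -- the tangential part
  have hvt : ∀ t ∈ Icc (0 : ℝ) 1, ‖v t‖ ≤ 1.2215 * ‖v 1‖ := by
    intro t ht
    have h2 := hll t ht
    have h3 := hll 1 h1m
    have h4 := le_exp_of_bdd (h.bdd (c t))
    have h5 := exp_le_of_bdd (h.bdd (c 1))
    have h6 := mul_le_mul_of_nonneg_right h4 (norm_nonneg (v t))
    have h7 := mul_le_mul_of_nonneg_right h5 (norm_nonneg (v 1))
    have h8 := norm_nonneg (v 1)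
    linarith
  set B := 2500 * (K + 1) * ‖v 1‖ * σ ^ 2 with hB
  have bT2 : ∀ t ∈ Icc (0 : ℝ) 1, |T2 φ A H c v c' v' t| ≤ B := by
    intro t ht
    have h2 := T2_le h hK (hv t ht) (hv' t ht) (hw t ht) (hw1 t ht) (h3t t ht)
    refine h2.trans ?_
    have h3 := mul_le_mul_of_nonneg_left (hvt t ht) (by positivity : (0 : ℝ) ≤ 2000 * (K + 1) * σ ^ 2)
    have h4 : 0 ≤ (K + 1) * σ ^ 2 * ‖v 1‖ := by positivity
    rw [hB]
    nlinarith
  have dT10 : ∀ t ∈ Icc (0 : ℝ) 1, |T1 φ A c v c' v' t - T1 φ A c v c' v' 1| ≤ B := by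
    intro t ht
    have h2 := (convex_Icc (0 : ℝ) 1).norm_image_sub_le_of_norm_hasDerivWithin_le
      (f := T1 φ A c v c' v') (f' := T2 φ A H c v c' v') (C := B)
      (fun x hx => (dT1 x hx).hasDerivWithinAt) (fun x hx => bT2 x hx) h1m ht
    have h3 : ‖t - 1‖ ≤ 1 := by
      rw [Real.norm_eq_abs, abs_le]
      constructor
      · linarith [ht.1]
      · linarith [ht.2]
    have h4 : 0 ≤ B := by positivity
    have h5 := mul_le_mul_of_nonneg_left h3 h4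
    rw [mul_one] at h5
    exact h2.trans h5
  have hT00 : T0 φ c v c' 0 = 0 := by
    unfold T0
    rw [s.c0, s'.c0, sub_self, inner_zero_left, mul_zero]
  have hdiff : |T0 φ c v c' 1 - T1 φ A c v c' v' 1| ≤ B := by
    have h2 := (convex_Icc (0 : ℝ) 1).norm_image_sub_le_of_norm_hasDerivWithin_le
      (f := fun t => T0 φ c v c' t - t * T1 φ A c v c' v' 1)
      (f' := fun t => T1 φ A c v c' v' t - T1 φ A c v c' v' 1) (C := B)
      (fun x hx => by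
        have h3 := (dT0 x hx).sub ((hasDerivAt_id x).mul_const (T1 φ A c v c' v' 1))
        rw [one_mul] at h3
        exact h3.hasDerivWithinAt) (fun x hx => dT10 x hx)
      (⟨le_rfl, zero_le_one⟩ : (0 : ℝ) ∈ Icc (0 : ℝ) 1) h1m
    simp only [hT00, zero_mul, sub_zero, one_mul, norm_one, mul_one, Real.norm_eq_abs] at h2
    exact h2
  have hT01 : T0 φ c v c' 1 = exp (2 * φ p) * ⟪p' - p, v 1⟫ := by
    unfold T0
    rw [s.c1, s'.c1]
  have hP01 : P0 φ c c' 1 = exp (2 * φ p) * σ ^ 2 / 2 := by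
    unfold P0
    rw [s.c1, s'.c1]
  have hT0b : |T0 φ c v c' 1| ≤ 1.2215 * σ * ‖v 1‖ := by
    rw [hT01, abs_mul, abs_of_pos (exp_pos _)]
    have h2 := abs_real_inner_le_norm (p' - p) (v 1)
    have h3 := mul_le_mul (e_le67 h p) h2 (abs_nonneg _) (by norm_num)
    rw [← hσ] at h3
    linarith
  have hv1l : ‖v 1‖ ^ 2 ≤ 1.25 * l ^ 2 := by
    have h2 := hll 1 h1m
    rw [s.c1] at h2
    have h3 : l ^ 2 = exp (2 * φ p) * ‖v 1‖ ^ 2 := by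
      rw [h2, mul_pow, ← exp_nat_mul]; push_cast; rfl
    rw [h3]
    have h4 := mul_le_mul_of_nonneg_right (le_e67 h p) (sq_nonneg ‖v 1‖)
    linarith
  have hprod : T0 φ c v c' 1 ^ 2 - 4000 * (K + 1) * σ ^ 3 * l ^ 2 ≤
      T0 φ c v c' 1 * T1 φ A c v c' v' 1 := by
    have h2 : |T0 φ c v c' 1 * (T0 φ c v c' 1 - T1 φ A c v c' v' 1)| ≤
        1.2215 * σ * ‖v 1‖ * B := by
      rw [abs_mul]
      exact mul_le_mul hT0b hdiff (abs_nonneg _) (by positivity)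
    have h3 := (abs_le.1 h2).2
    have h4 : 1.2215 * σ * ‖v 1‖ * B = (1.2215 * 2500 * (K + 1) * σ ^ 3) * ‖v 1‖ ^ 2 := by
      rw [hB]; ring
    have h5 : (1.2215 * 2500 * (K + 1) * σ ^ 3) * ‖v 1‖ ^ 2 ≤
        (1.2215 * 2500 * (K + 1) * σ ^ 3) * (1.25 * l ^ 2) :=
      mul_le_mul_of_nonneg_left hv1l (by positivity)
    have h6 : 0 ≤ (K + 1) * σ ^ 3 * l ^ 2 := by positivity
    nlinarith
  have hdivd : T0 φ c v c' 1 ^ 2 / l ^ 2 - 4000 * (K + 1) * σ ^ 3 ≤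
      T0 φ c v c' 1 * T1 φ A c v c' v' 1 / l ^ 2 := by
    rw [le_div_iff₀ hl2]
    have h2 : (T0 φ c v c' 1 ^ 2 / l ^ 2 - 4000 * (K + 1) * σ ^ 3) * l ^ 2 =
        T0 φ c v c' 1 ^ 2 - 4000 * (K + 1) * σ ^ 3 * l ^ 2 := by
      field_simp
    rw [h2]
    exact hprod
  beta_reduce at bar1
  rw [hP01] at bar1
  rw [← hT01]
  have e5 : 2 * (1 - l ^ 2 / 4000) *
      (exp (2 * φ p) * σ ^ 2 / 2 - T0 φ c v c' 1 ^ 2 / (2 * l ^ 2)) =
      (1 - l ^ 2 / 4000) * (exp (2 * φ p) * σ ^ 2 - T0 φ c v c' 1 ^ 2 / l ^ 2) := by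
    field_simp
  rw [e5] at bar1
  linarith

theorem second_var (h : Good φ A H) (R : ℝ) : ∃ C : ℝ, 0 ≤ C ∧ ∀ o p p' : E, ‖o‖ ≤ R →
    ‖p - o‖ ≤ 10 → ‖p' - o‖ ≤ 10 → p ≠ o →
    ⟪gg φ A o p, p' - p⟫ ^ 2 / ll φ A o p ^ 2 + (1 - ll φ A o p ^ 2 / 4000) *
      (exp (2 * φ p) * ‖p' - p‖ ^ 2 - ⟪gg φ A o p, p' - p⟫ ^ 2 / ll φ A o p ^ 2) -
      C * ‖p' - p‖ ^ 3 ≤
    ⟪gg φ A o p' - gg φ A o p, p' - p⟫ + ⟪gg φ A o p, acc (A p) (p' - p)⟫ := by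
  obtain ⟨K, hK, hK3⟩ := h.third (R + 30)
  refine ⟨14000 * (K + 1) + 1, by positivity, ?_⟩
  intro o p p' ho hp hp' hne
  obtain ⟨c, v, s⟩ := exists_seg h hp
  obtain ⟨c', v', s'⟩ := exists_seg h hp'
  have h1 := p1_ge67 h hK hK3 ho hp hp' hne s s'
  have h1m : (1 : ℝ) ∈ Icc (0 : ℝ) 1 := ⟨zero_le_one, le_rfl⟩
  have hv1' := s'.norm_le_eleven hp' h1m
  have hvv : ‖v' 1 - v 1‖ ≤ 2 * ‖p' - p‖ := by
    have h2 := (geo_compare h s.geo s'.geo (fun t ht => s.norm_le_eleven hp ht)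
      (fun t ht => s'.norm_le_eleven hp' ht) h1m).1
    rw [s.c0, s'.c0, s.c1, s'.c1, sub_self, norm_zero, zero_add] at h2
    exact h2
  have hd : ‖p' - p‖ ≤ 20 := by
    have h2 : p' - p = (p' - o) - (p - o) := by abel
    rw [h2]
    refine (norm_sub_le _ _).trans ?_
    linarith
  have h2 := fin67 h p p' (v 1) (v' 1) hd hv1' hvv
  rw [gg_eq h s hp, gg_eq h s' hp'] at h2
  have h3 : P1 φ A c v c' v' 1 =
      exp (2 * φ p) * (⟪p' - p, v' 1 - v 1⟫ + ⟪A p, v 1⟫ * ‖p' - p‖ ^ 2) := by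
    unfold P1
    rw [s.c1, s'.c1]
  rw [← h3] at h2
  have h4 : ⟪gg φ A o p, p' - p⟫ = exp (2 * φ p) * ⟪p' - p, v 1⟫ := by
    rw [← gg_eq h s hp, real_inner_smul_left, real_inner_comm]
  rw [h4]
  have h5 := (abs_le.1 h2).1
  linarith

end Pool.Agent.Helper48.FC
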