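import Mathlib
import Pool.Agent.Helper48.FC.SV

/-!
Block FC-9.  The function `τ ↦ (ll o (γ τ))²/2` along a geodesic `γ`.

`(γ, ζ)` is the geodesic from `y` to `z`, `a = ll y z = exp (φ (γ τ)) ‖ζ τ‖` (`ll_eq`), `g τ = ⟪gg o (γ τ), ζ τ⟫`, `ℓ τ = ll o (γ τ)`.
Facts: `‖ζ‖ ≤ 11`, `‖ζ τ' - ζ τ‖ ≤ 1/10 |τ' - τ|` (`norm_acc_le`: `‖acc‖ ≤ 3/10000 * 121`), `‖γ τ' - γ τ‖ ≤ 11 |τ' - τ|`,
`‖γ τ' - γ τ - (τ' - τ) ζ τ‖ ≤ (τ' - τ)²`, `‖ζ τ' - ζ τ - (τ' - τ) acc (A (γ τ)) (ζ τ)‖ ≤ C (τ' - τ)²` (`norm_acc_sub_le`).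
`ll o (γ τ)` is continuous in `τ` (its square is, by `first_var`; `ll ≥ 0`) and positive (`le_ll`), so `ℓ ≥ l0 > 0` on `[0,1]`.
* derivative of `ℓ²/2`: `first_var` for `p = γ τ`, `p' = γ τ'`: `|ℓ(τ')²/2 - ℓ(τ)²/2 - ⟪gg, γ τ' - γ τ⟫| ≤ 1210 (τ'-τ)²`.
* `|g| ≤ ‖gg‖ ‖ζ‖ = exp φ ℓ ‖ζ‖ = a ℓ` (`norm_gg`).
* Lipschitz: `gg_lip` and the bound for `ζ τ' - ζ τ`.
* last part: let `δ = τ' - τ ≥ 0` (`δ = 0` trivial), `w = γ τ' - γ τ`.  `g τ' - g τ = ⟪gg' - gg, ζ τ'⟫ + ⟪gg, ζ τ' - ζ τ⟫`, so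
  `δ (g τ' - g τ) = ⟪gg' - gg, w⟫ + ⟪gg, acc (A (γ τ)) w⟫ + O(δ³)` (`‖δ ζ τ' - w‖ ≤ 2 δ²`, `‖gg' - gg‖ ≤ 33 δ`,
  `acc a w - δ² acc a (ζ τ) = O(δ³)`, as `w = δ ζ τ + O(δ²)`).  `second_var` with `R = ‖o‖`, `T = ⟪gg, w⟫ = δ g τ + O(δ²)`,
  `exp (2φ) ‖w‖² = δ² a² + O(δ³)`: the left side of `second_var` is `δ² (g²/ℓ² + (1 - ℓ²/4000)(a² - g²/ℓ²)) + O(δ³)
  = δ² (a² - (ℓ² a² - g²)/4000) + O(δ³)`.  Divide by `δ`.
The constants are uniform in `τ` (`ℓ ≥ l0`); only the existence of `C` matters.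
-/

set_option autoImplicit false
set_option linter.unusedSectionVars false

namespace Pool.Agent.Helper48.FC

open Real Set
open scoped RealInnerProductSpace

variable {E : Type*} [NormedAddCommGroup E] [InnerProductSpace ℝ E] [CompleteSpace E]
variable {φ : E → ℝ} {A : E → E} {H : E → E →L[ℝ] E}

/-- second order bound -/
private theorem quad50 {f f' : ℝ → E} {v : E} {K τ τ' : ℝ} (hf : ∀ t ∈ Icc (0 : ℝ) 1, HasDerivAt f (f' t) t)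
    (hK : 0 ≤ K) (hτ : τ ∈ Icc (0 : ℝ) 1) (hτ' : τ' ∈ Icc (0 : ℝ) 1) (hb : ∀ t ∈ Icc (0 : ℝ) 1, ‖f' t - v‖ ≤ K * |t - τ|) :
    ‖f τ' - f τ - (τ' - τ) • v‖ ≤ K * (τ' - τ) ^ 2 := by
  have hsub : uIcc τ τ' ⊆ Icc (0 : ℝ) 1 := uIcc_subset_Icc hτ hτ'
  have h1 : ‖(fun t => f t - t • v) τ' - (fun t => f t - t • v) τ‖ ≤ K * |τ' - τ| * ‖τ' - τ‖ := by
    refine (convex_uIcc τ τ').norm_image_sub_le_of_norm_hasDerivWithin_le (f := fun t => f t - t • v)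
      (f' := fun t => f' t - v) (C := K * |τ' - τ|)
      (fun t ht => ?_) (fun t ht => ?_) left_mem_uIcc right_mem_uIcc
    · have h2 : HasDerivAt (fun t : ℝ => t • v) v t := by
        have := (hasDerivAt_id t).smul_const v
        simpa using this
      exact ((hf t (hsub ht)).sub h2).hasDerivWithinAt
    · refine (hb t (hsub ht)).trans ?_
      exact mul_le_mul_of_nonneg_left (abs_sub_left_of_mem_uIcc ht) hK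
  have e : f τ' - f τ - (τ' - τ) • v = (fun t => f t - t • v) τ' - (fun t => f t - t • v) τ := by
    show _ = (f τ' - τ' • v) - (f τ - τ • v)
    module
  rw [e]
  refine h1.trans (le_of_eq ?_)
  rw [Real.norm_eq_abs, mul_assoc, abs_mul_abs_self]
  ring

private theorem der50 {f : ℝ → ℝ} {g K x : ℝ} {s : Set ℝ} (h : ∀ y ∈ s, |f y - f x - (y - x) * g| ≤ K * (y - x) ^ 2) :
    HasDerivWithinAt f g s x := by
  rw [hasDerivWithinAt_iff_isLittleO]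
  have h1 : (fun y => f y - f x - (y - x) • g) =O[nhdsWithin x s] fun y => ‖y - x‖ ^ 2 := by
    refine Asymptotics.IsBigO.of_bound K ?_
    filter_upwards [self_mem_nhdsWithin] with y hy
    rw [Real.norm_eq_abs, Real.norm_eq_abs, Real.norm_eq_abs, sq_abs, abs_of_nonneg (sq_nonneg (y - x)), smul_eq_mul]
    exact h y hy
  refine h1.trans_isLittleO ?_
  exact (Asymptotics.isLittleO_pow_sub_sub x one_lt_two).mono nhdsWithin_le_nhds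

private theorem e_le50 (h : Good φ A H) (x : E) : exp (2 * φ x) ≤ 1.2215 := by
  have h1 := exp_le_of_bdd (h.bdd x)
  have h2 : exp (2 * φ x) = exp (φ x) * exp (φ x) := by rw [← exp_add]; ring_nf
  rw [h2]
  have := (exp_pos (φ x)).le
  nlinarith

section seg

variable {y z o : E} {γ ζ : ℝ → E}

private theorem zlip50 (h : Good φ A H) (s : Seg A y z γ ζ) (hyz : ‖z - y‖ ≤ 10)
    {τ τ' : ℝ} (hτ : τ ∈ Icc (0 : ℝ) 1) (hτ' : τ' ∈ Icc (0 : ℝ) 1) : ‖ζ τ' - ζ τ‖ ≤ 1 / 10 * |τ' - τ| := by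
  have h1 := (convex_Icc (0 : ℝ) 1).norm_image_sub_le_of_norm_hasDerivWithin_le (f := ζ)
    (f' := fun t => acc (A (γ t)) (ζ t)) (C := 1 / 10)
    (fun t ht => (s.geo.dv t ht).hasDerivWithinAt) (fun t ht => by
      have h2 := norm_acc_le (h.bA (γ t)) (s.norm_le_eleven hyz ht)
      refine h2.trans ?_
      norm_num) hτ hτ'
  rwa [Real.norm_eq_abs] at h1

private theorem glip50 (s : Seg A y z γ ζ) (hyz : ‖z - y‖ ≤ 10)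
    {τ τ' : ℝ} (hτ : τ ∈ Icc (0 : ℝ) 1) (hτ' : τ' ∈ Icc (0 : ℝ) 1) : ‖γ τ' - γ τ‖ ≤ 11 * |τ' - τ| := by
  have h1 := (convex_Icc (0 : ℝ) 1).norm_image_sub_le_of_norm_hasDerivWithin_le (f := γ)
    (f' := ζ) (C := 11)
    (fun t ht => (s.geo.dc t ht).hasDerivWithinAt) (fun t ht => s.norm_le_eleven hyz ht) hτ hτ'
  rwa [Real.norm_eq_abs] at h1

private theorem gquad50 (h : Good φ A H) (s : Seg A y z γ ζ) (hyz : ‖z - y‖ ≤ 10)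
    {τ τ' : ℝ} (hτ : τ ∈ Icc (0 : ℝ) 1) (hτ' : τ' ∈ Icc (0 : ℝ) 1) :
    ‖γ τ' - γ τ - (τ' - τ) • ζ τ‖ ≤ 1 * (τ' - τ) ^ 2 := by
  refine quad50 (fun t ht => s.geo.dc t ht) zero_le_one hτ hτ' fun t ht => ?_
  refine (zlip50 h s hyz hτ ht).trans ?_
  exact mul_le_mul_of_nonneg_right (by norm_num) (abs_nonneg _)

private theorem zquad50 (h : Good φ A H) (s : Seg A y z γ ζ) (hyz : ‖z - y‖ ≤ 10)
    {τ τ' : ℝ} (hτ : τ ∈ Icc (0 : ℝ) 1) (hτ' : τ' ∈ Icc (0 : ℝ) 1) :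
    ‖ζ τ' - ζ τ - (τ' - τ) • acc (A (γ τ)) (ζ τ)‖ ≤ 1 * (τ' - τ) ^ 2 := by
  refine quad50 (fun t ht => s.geo.dv t ht) zero_le_one hτ hτ' fun t ht => ?_
  refine (norm_acc_sub_le (h.bA _) (h.bA _) (s.norm_le_eleven hyz hτ) (s.norm_le_eleven hyz ht)).trans ?_
  have h1 := zlip50 h s hyz hτ ht
  have h2 := glip50 s hyz hτ ht
  have h3 := h.lipA (γ t) (γ τ)
  have h4 := abs_nonneg (t - τ)
  linarith

end seg

private theorem gg_le50 (h : Good φ A H) {o p : E} (hd : ‖p - o‖ ≤ 10) : ‖gg φ A o p‖ ≤ 13 := by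
  rw [norm_gg h hd]
  have h1 := ll_le h hd
  have h2 := exp_le_of_bdd (h.bdd p)
  have h3 : ll φ A o p ≤ 11.2 := by linarith
  have h4 : exp (φ p) * ll φ A o p ≤ 1.1052 * 11.2 := mul_le_mul h2 h3 (ll_nonneg _ _) (by norm_num)
  refine h4.trans ?_
  norm_num

theorem along (h : Good φ A H) {y z o : E} {γ ζ : ℝ → E} (s : Seg A y z γ ζ) (hyz : ‖z - y‖ ≤ 10)
    (ho : ∀ τ ∈ Icc (0 : ℝ) 1, ‖γ τ - o‖ ≤ 10 ∧ γ τ ≠ o) :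
    ∃ (g : ℝ → ℝ) (C : ℝ), 0 ≤ C ∧
      (∀ τ ∈ Icc (0 : ℝ) 1,
        HasDerivWithinAt (fun τ => ll φ A o (γ τ) ^ 2 / 2) (g τ) (Icc 0 1) τ ∧
        |g τ| ≤ ll φ A y z * ll φ A o (γ τ)) ∧
      (∀ τ ∈ Icc (0 : ℝ) 1, ∀ τ' ∈ Icc (0 : ℝ) 1, |g τ' - g τ| ≤ C * |τ' - τ|) ∧
      ∀ τ ∈ Icc (0 : ℝ) 1, ∀ τ' ∈ Icc (0 : ℝ) 1, τ ≤ τ' →
        (τ' - τ) * (ll φ A y z ^ 2 -
          (ll φ A o (γ τ) ^ 2 * ll φ A y z ^ 2 - g τ ^ 2) / 4000) - C * (τ' - τ) ^ 2 ≤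
        g τ' - g τ := by
  obtain ⟨C₂, hC₂, hsv⟩ := second_var h ‖o‖
  -- first order
  have hT : ∀ τ ∈ Icc (0 : ℝ) 1, ∀ τ' ∈ Icc (0 : ℝ) 1,
      |⟪gg φ A o (γ τ), γ τ' - γ τ⟫ - (τ' - τ) * ⟪gg φ A o (γ τ), ζ τ⟫| ≤ 13 * (τ' - τ) ^ 2 := by
    intro τ hτ τ' hτ'
    have e : ⟪gg φ A o (γ τ), γ τ' - γ τ⟫ - (τ' - τ) * ⟪gg φ A o (γ τ), ζ τ⟫ =
        ⟪gg φ A o (γ τ), γ τ' - γ τ - (τ' - τ) • ζ τ⟫ := by
      rw [inner_sub_right _ _ ((τ' - τ) • ζ τ), real_inner_smul_right]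
    rw [e]
    refine (abs_real_inner_le_norm _ _).trans ?_
    have h1 := gquad50 h s hyz hτ hτ'
    rw [one_mul] at h1
    exact mul_le_mul (gg_le50 h (ho τ hτ).1) h1 (norm_nonneg _) (by norm_num)
  refine ⟨fun τ => ⟪gg φ A o (γ τ), ζ τ⟫, 1331 * C₂ + 400, by positivity, fun τ hτ => ⟨?_, ?_⟩, fun τ hτ τ' hτ' => ?_,
    fun τ hτ τ' hτ' hle => ?_⟩
  · -- the derivative
    refine der50 (K := 1223) fun τ' hτ' => ?_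
    have h1 := first_var h (ho τ hτ).1 (ho τ' hτ').1
    have h2 := hT τ hτ τ' hτ'
    have h3 := glip50 s hyz hτ hτ'
    have h4 : ‖γ τ' - γ τ‖ ^ 2 ≤ 121 * (τ' - τ) ^ 2 := by
      have h5 := pow_le_pow_left₀ (norm_nonneg _) h3 2
      rw [mul_pow, sq_abs] at h5
      linarith
    have h6 : ll φ A o (γ τ') ^ 2 / 2 - ll φ A o (γ τ) ^ 2 / 2 - (τ' - τ) * ⟪gg φ A o (γ τ), ζ τ⟫ =
        (ll φ A o (γ τ') ^ 2 / 2 - ll φ A o (γ τ) ^ 2 / 2 - ⟪gg φ A o (γ τ), γ τ' - γ τ⟫) +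
        (⟪gg φ A o (γ τ), γ τ' - γ τ⟫ - (τ' - τ) * ⟪gg φ A o (γ τ), ζ τ⟫) := by ring
    show |ll φ A o (γ τ') ^ 2 / 2 - ll φ A o (γ τ) ^ 2 / 2 - (τ' - τ) * ⟪gg φ A o (γ τ), ζ τ⟫| ≤ _
    rw [h6]
    refine (abs_add_le _ _).trans ?_
    linarith
  · -- the bound
    refine (abs_real_inner_le_norm _ _).trans ?_
    rw [norm_gg h (ho τ hτ).1, ← ll_eq h s hyz hτ]
    apply le_of_eq
    ring
  · -- Lipschitz
    show |⟪gg φ A o (γ τ'), ζ τ'⟫ - ⟪gg φ A o (γ τ), ζ τ⟫| ≤ _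
    have e : ⟪gg φ A o (γ τ'), ζ τ'⟫ - ⟪gg φ A o (γ τ), ζ τ⟫ =
        ⟪gg φ A o (γ τ') - gg φ A o (γ τ), ζ τ'⟫ + ⟪gg φ A o (γ τ), ζ τ' - ζ τ⟫ := by
      rw [inner_sub_left, inner_sub_right]
      ring
    rw [e]
    have h1 := gg_lip h (ho τ hτ).1 (ho τ' hτ').1
    have h2 := glip50 s hyz hτ hτ'
    have h3 := zlip50 h s hyz hτ hτ'
    have h4 := abs_nonneg (τ' - τ)
    have h5 : |⟪gg φ A o (γ τ') - gg φ A o (γ τ), ζ τ'⟫| ≤ (33 * |τ' - τ|) * 11 :=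
      (abs_real_inner_le_norm _ _).trans (mul_le_mul (by linarith) (s.norm_le_eleven hyz hτ') (norm_nonneg _) (by positivity))
    have h6 : |⟪gg φ A o (γ τ), ζ τ' - ζ τ⟫| ≤ 13 * (1 / 10 * |τ' - τ|) :=
      (abs_real_inner_le_norm _ _).trans (mul_le_mul (gg_le50 h (ho τ hτ).1) h3 (norm_nonneg _) (by norm_num))
    refine (abs_add_le _ _).trans ?_
    have h7 := mul_nonneg hC₂ h4
    linarith
  · -- second order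
    rcases hle.eq_or_lt with rfl | hlt
    · simp
    obtain ⟨δ, hδ⟩ : ∃ δ, δ = τ' - τ := ⟨_, rfl⟩
    have hδ0 : 0 < δ := by rw [hδ]; linarith
    obtain ⟨G, hG⟩ : ∃ G, G = gg φ A o (γ τ) := ⟨_, rfl⟩
    obtain ⟨G', hG'⟩ : ∃ G', G' = gg φ A o (γ τ') := ⟨_, rfl⟩
    obtain ⟨w, hw⟩ : ∃ w, w = γ τ' - γ τ := ⟨_, rfl⟩
    obtain ⟨ℓ, hℓ⟩ : ∃ ℓ, ℓ = ll φ A o (γ τ) := ⟨_, rfl⟩
    obtain ⟨a, ha⟩ : ∃ a, a = ll φ A y z := ⟨_, rfl⟩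
    obtain ⟨e, he⟩ : ∃ e, e = exp (2 * φ (γ τ)) := ⟨_, rfl⟩
    show (τ' - τ) * (ll φ A y z ^ 2 - (ll φ A o (γ τ) ^ 2 * ll φ A y z ^ 2 - ⟪gg φ A o (γ τ), ζ τ⟫ ^ 2) / 4000) -
      (1331 * C₂ + 400) * (τ' - τ) ^ 2 ≤ ⟪gg φ A o (γ τ'), ζ τ'⟫ - ⟪gg φ A o (γ τ), ζ τ⟫
    have hℓ0 : 0 < ℓ := by
      rw [hℓ]
      refine lt_of_lt_of_le ?_ (le_ll h (ho τ hτ).1)
      have := norm_pos_iff.2 (sub_ne_zero.2 (ho τ hτ).2)
      positivity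
    have hℓ1 : ℓ ≤ 11.2 := by
      rw [hℓ]
      have := ll_le h (ho τ hτ).1
      have := (ho τ hτ).1
      linarith
    have hea : a ^ 2 = e * ‖ζ τ‖ ^ 2 := by
      rw [ha, ← ll_eq h s hyz hτ, mul_pow, he]
      congr 1
      rw [sq, ← exp_add]
      ring_nf
    have he1 : e ≤ 1.2215 := by rw [he]; exact e_le50 h _
    have he0 : 0 ≤ e := by rw [he]; exact (exp_pos _).le
    have hζ := s.norm_le_eleven hyz hτ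
    have hζ0 := norm_nonneg (ζ τ)
    have hwn : ‖w‖ ≤ 11 * δ := by
      have := glip50 s hyz hτ hτ'
      rwa [← hw, ← hδ, abs_of_pos hδ0] at this
    have hw0 := norm_nonneg w
    have hq : ‖w - δ • ζ τ‖ ≤ δ ^ 2 := by
      have := gquad50 h s hyz hτ hτ'
      rwa [← hw, ← hδ, one_mul] at this
    have hq' : ‖δ • ζ τ' - w‖ ≤ δ ^ 2 := by
      have h1 := gquad50 h s hyz hτ' hτ
      have e1 : γ τ - γ τ' - (τ - τ') • ζ τ' = δ • ζ τ' - w := by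
        rw [hδ, hw]
        module
      rw [e1, one_mul] at h1
      have e2 : (τ - τ') ^ 2 = δ ^ 2 := by rw [hδ]; ring
      rwa [e2] at h1
    have hGn : ‖G‖ ≤ 13 := by rw [hG]; exact gg_le50 h (ho τ hτ).1
    have hGG : ‖G' - G‖ ≤ 33 * δ := by
      have := gg_lip h (ho τ hτ).1 (ho τ' hτ').1
      rw [← hG, ← hG', ← hw] at this
      linarith
    have hsv' := hsv o (γ τ) (γ τ') le_rfl (ho τ hτ).1 (ho τ' hτ').1 (ho τ hτ).2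
    rw [← hG, ← hG', ← hw, ← hℓ, ← he] at hsv'
    -- (i)
    have h1 : ⟪G' - G, w⟫ - 33 * δ ^ 3 ≤ δ * ⟪G' - G, ζ τ'⟫ := by
      have e1 : δ * ⟪G' - G, ζ τ'⟫ = ⟪G' - G, w⟫ + ⟪G' - G, δ • ζ τ' - w⟫ := by
        rw [inner_sub_right _ _ w, real_inner_smul_right]
        ring
      have e2 : |⟪G' - G, δ • ζ τ' - w⟫| ≤ (33 * δ) * δ ^ 2 :=
        (abs_real_inner_le_norm _ _).trans (mul_le_mul hGG hq' (norm_nonneg _) (by positivity))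
      have e3 := (abs_le.1 e2).1
      rw [e1]
      linarith
    -- (ii)
    have h2 : ⟪G, acc (A (γ τ)) w⟫ - 26 * δ ^ 3 ≤ δ * ⟪G, ζ τ' - ζ τ⟫ := by
      have e1 : δ * ⟪G, ζ τ' - ζ τ⟫ = ⟪G, acc (A (γ τ)) w⟫ + ⟪G, δ • (ζ τ' - ζ τ) - acc (A (γ τ)) w⟫ := by
        rw [inner_sub_right _ _ (acc (A (γ τ)) w), real_inner_smul_right]
        ring
      have e4 : acc (A (γ τ)) (δ • ζ τ) = δ ^ 2 • acc (A (γ τ)) (ζ τ) := by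
        unfold acc
        rw [norm_smul, Real.norm_eq_abs, abs_of_pos hδ0, real_inner_smul_right, smul_sub, smul_smul, smul_smul, smul_smul]
        congr 1
        · congr 1
          ring
        · congr 1
          ring
      have e5 : δ • (ζ τ' - ζ τ) - acc (A (γ τ)) w =
          δ • (ζ τ' - ζ τ - δ • acc (A (γ τ)) (ζ τ)) - (acc (A (γ τ)) w - acc (A (γ τ)) (δ • ζ τ)) := by
        rw [e4]
        module
      have e6 : ‖δ • (ζ τ' - ζ τ - δ • acc (A (γ τ)) (ζ τ))‖ ≤ δ * δ ^ 2 := by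
        rw [norm_smul, Real.norm_eq_abs, abs_of_pos hδ0]
        have := zquad50 h s hyz hτ hτ'
        rw [← hδ, one_mul] at this
        exact mul_le_mul_of_nonneg_left this hδ0.le
      have e7 : ‖acc (A (γ τ)) w - acc (A (γ τ)) (δ • ζ τ)‖ ≤ δ * δ ^ 2 := by
        have k1 : ‖δ • ζ τ‖ ≤ 11 * δ := by
          rw [norm_smul, Real.norm_eq_abs, abs_of_pos hδ0]
          nlinarith
        refine (norm_acc_sub_le (h.bA _) (h.bA _) k1 hwn).trans ?_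
        rw [sub_self, norm_zero, mul_zero, zero_add]
        have k2 : 6 / 10000 * (11 * δ) * ‖w - δ • ζ τ‖ ≤ 6 / 10000 * (11 * δ) * δ ^ 2 :=
          mul_le_mul_of_nonneg_left hq (by positivity)
        refine k2.trans ?_
        have k3 : 0 ≤ δ * δ ^ 2 := by positivity
        linarith
      have e8 : ‖δ • (ζ τ' - ζ τ) - acc (A (γ τ)) w‖ ≤ 2 * (δ * δ ^ 2) := by
        rw [e5]
        refine (norm_sub_le _ _).trans ?_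
        linarith
      have e2 : |⟪G, δ • (ζ τ' - ζ τ) - acc (A (γ τ)) w⟫| ≤ 13 * (2 * (δ * δ ^ 2)) :=
        (abs_real_inner_le_norm _ _).trans (mul_le_mul hGn e8 (norm_nonneg _) (by norm_num))
      have e3 := (abs_le.1 e2).1
      rw [e1]
      linarith
    -- the norm of `w`
    have h3 : a ^ 2 * δ ^ 2 - 27 * δ ^ 3 ≤ e * ‖w‖ ^ 2 := by
      have k1 : |‖w‖ - ‖δ • ζ τ‖| ≤ δ ^ 2 := (abs_norm_sub_norm_le _ _).trans hq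
      have k2 : ‖δ • ζ τ‖ = δ * ‖ζ τ‖ := by rw [norm_smul, Real.norm_eq_abs, abs_of_pos hδ0]
      rw [k2] at k1
      have k3 : ‖w‖ ^ 2 - (δ * ‖ζ τ‖) ^ 2 = (‖w‖ - δ * ‖ζ τ‖) * (‖w‖ + δ * ‖ζ τ‖) := by ring
      have k4 : ‖w‖ + δ * ‖ζ τ‖ ≤ 22 * δ := by nlinarith
      have k5 : 0 ≤ ‖w‖ + δ * ‖ζ τ‖ := by positivity
      have k6 : |‖w‖ ^ 2 - (δ * ‖ζ τ‖) ^ 2| ≤ δ ^ 2 * (22 * δ) := by
        rw [k3, abs_mul, abs_of_nonneg k5]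
        exact mul_le_mul k1 k4 k5 (by positivity)
      have k7 := (abs_le.1 k6).1
      have k8 : e * (‖w‖ ^ 2 - (δ * ‖ζ τ‖) ^ 2) ≥ e * (-(δ ^ 2 * (22 * δ))) := mul_le_mul_of_nonneg_left k7 he0
      have k9 : e * (δ ^ 2 * (22 * δ)) ≤ 1.2215 * (δ ^ 2 * (22 * δ)) := mul_le_mul_of_nonneg_right he1 (by positivity)
      have k10 : 0 ≤ δ ^ 3 := by positivity
      rw [hea]
      nlinarith
    -- the tangential part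
    have h4 : δ ^ 2 * ⟪G, ζ τ⟫ ^ 2 - 4000 * δ ^ 3 ≤ ⟪G, w⟫ ^ 2 := by
      have k1 := hT τ hτ τ' hτ'
      rw [← hG, ← hw, ← hδ] at k1
      have k2 : |⟪G, w⟫| ≤ 143 * δ := by
        refine (abs_real_inner_le_norm _ _).trans ?_
        have := mul_le_mul hGn hwn hw0 (by norm_num)
        linarith
      have k3 : |δ * ⟪G, ζ τ⟫| ≤ 143 * δ := by
        rw [abs_mul, abs_of_pos hδ0]
        have k4 : |⟪G, ζ τ⟫| ≤ 13 * 11 := (abs_real_inner_le_norm _ _).trans (mul_le_mul hGn hζ hζ0 (by norm_num))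
        nlinarith
      have k5 : ⟪G, w⟫ ^ 2 - δ ^ 2 * ⟪G, ζ τ⟫ ^ 2 = (⟪G, w⟫ - δ * ⟪G, ζ τ⟫) * (⟪G, w⟫ + δ * ⟪G, ζ τ⟫) := by ring
      have k6 : |⟪G, w⟫ ^ 2 - δ ^ 2 * ⟪G, ζ τ⟫ ^ 2| ≤ (13 * δ ^ 2) * (286 * δ) := by
        rw [k5, abs_mul]
        refine mul_le_mul k1 ((abs_add_le _ _).trans (by linarith)) (abs_nonneg _) (by positivity)
      have k7 := (abs_le.1 k6).1
      have k8 : 0 ≤ δ ^ 3 := by positivity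
      nlinarith
    -- the left side of `second_var`
    have hw3 : C₂ * ‖w‖ ^ 3 ≤ 1331 * C₂ * δ ^ 3 := by
      have k1 := pow_le_pow_left₀ hw0 hwn 3
      have k2 := mul_le_mul_of_nonneg_left k1 hC₂
      rw [mul_pow] at k2
      linarith
    have h5 : ⟪G, w⟫ ^ 2 / ℓ ^ 2 + (1 - ℓ ^ 2 / 4000) * (e * ‖w‖ ^ 2 - ⟪G, w⟫ ^ 2 / ℓ ^ 2) =
        (1 - ℓ ^ 2 / 4000) * (e * ‖w‖ ^ 2) + ⟪G, w⟫ ^ 2 / 4000 := by
      field_simp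
      ring
    rw [h5] at hsv'
    have h6 : 0 ≤ 1 - ℓ ^ 2 / 4000 ∧ 1 - ℓ ^ 2 / 4000 ≤ 1 := by
      constructor <;> nlinarith
    have h7 : (1 - ℓ ^ 2 / 4000) * (a ^ 2 * δ ^ 2 - 27 * δ ^ 3) ≤ (1 - ℓ ^ 2 / 4000) * (e * ‖w‖ ^ 2) :=
      mul_le_mul_of_nonneg_left h3 h6.1
    have h8 : 0 ≤ δ ^ 3 := by positivity
    have h9 : (1 - ℓ ^ 2 / 4000) * (27 * δ ^ 3) ≤ 1 * (27 * δ ^ 3) := mul_le_mul_of_nonneg_right h6.2 (by positivity)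
    have h10 : δ * (⟪G', ζ τ'⟫ - ⟪G, ζ τ⟫) = δ * ⟪G' - G, ζ τ'⟫ + δ * ⟪G, ζ τ' - ζ τ⟫ := by
      rw [inner_sub_left, inner_sub_right]
      ring
    have h11 : δ * (δ * (a ^ 2 - (ℓ ^ 2 * a ^ 2 - ⟪G, ζ τ⟫ ^ 2) / 4000) - (1331 * C₂ + 400) * δ ^ 2) ≤
        δ * (⟪G', ζ τ'⟫ - ⟪G, ζ τ⟫) := by
      rw [h10]
      have k1 : δ * (δ * (a ^ 2 - (ℓ ^ 2 * a ^ 2 - ⟪G, ζ τ⟫ ^ 2) / 4000) - (1331 * C₂ + 400) * δ ^ 2) =
          (1 - ℓ ^ 2 / 4000) * (a ^ 2 * δ ^ 2) + δ ^ 2 * ⟪G, ζ τ⟫ ^ 2 / 4000 - (1331 * C₂ + 400) * δ ^ 3 := by ring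
      rw [k1]
      linarith
    have h12 := le_of_mul_le_mul_left h11 hδ0
    rw [← hG, ← hG', ← hδ, ← hℓ, ← ha]
    exact h12

end Pool.Agent.Helper48.FC
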