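import Mathlib
import Pool.Agent.Helper48.FC.Defs

/-!
Block FC-16.  The approximate Stewart inequality from exact inequalities for nearby distances.

Let `D = d y z < π`, `0 ≤ u ≤ D`.  If `D = 0`, take `w = y` (both sides are `0`).  Let `D > 0`, so `sin D > 0`.  Fix a small `δ0 ∈ (0, 1)` depending on `D`, `u`, `ε` only
(conditions below).  `H` for `F = {y, z}`, `δ0`: `Z0, ι0, d0`, points `y0, z0` over `y, z`; `D/(1+δ0) ≤ d0 y0 z0 ≤ D + δ0 < π`.  `u0 = u * d0 y0 z0 / D ∈ [0, d0 y0 z0]`;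
let `w0` be a Stewart point and `w = ι0 w0`:
`d y w ≤ (1+δ0) u0 ≤ u + C δ0`, `d w z ≤ (1+δ0)(d0 y0 z0 - u0) ≤ D - u + C δ0` (`C` absolute constants; `D, u ≤ 4`).

Let `x` be a point with `d x y + d x z + D < 2π`.  Choose `δ ∈ (0, δ0]` with also `d x y + d x z + D + 3δ < 2π` and apply `H` to `F = {y, z, w, x}`, `δ`: `Z1, ι1, d1`, points
`y1, z1, w1, x1` over `y, z, w, x`.  For two of these points `d ≤ (1+δ) d1` and `d1 ≤ d + δ`, all distances involved are at most `10`, so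
`|d1 - d| ≤ 10 δ` (up to an absolute constant).  `D1 = d1 y1 z1 < π`, `u1 = u * D1/D`, `w'` a Stewart point for `d1, y1, z1, u1`.
* `w'` is near `w1`: apply its inequality to `w1` (perimeter `≤ 2 D + C δ0 < 2π`):
  `sin (D1 - u1) cos (d1 w1 y1) + sin u1 cos (d1 w1 z1) ≤ sin D1 cos (d1 w1 w')`.  The left side is at least
  `sin (D1-u1) cos u1 + sin u1 cos (D1 - u1) - C δ0 = sin D1 - C δ0` (`cos` is 1-Lipschitz and decreasing on `[0,π]`; `d1 w1 y1 ≤ u1 + C δ0`, and if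
  `u1 + C δ0` exceeds `π`... it does not: `u1 ≤ D1 < π - C δ0`).  So `1 - cos (d1 w1 w') ≤ C δ0/sin D1`.  Also `d1 w1 w' ≤ d1 w1 y1 + u1` and
  `≤ d1 w1 z1 + D1 - u1`, so `d1 w1 w' ≤ D1 + C δ0 < π`; with `1 - cos s ≥ 2 s²/π²` on `[0,π]`: `d1 w1 w' ≤ κ`, where `κ = κ(δ0) → 0` as `δ0 → 0` (`D` fixed).
* the inequality of `w'` for `x1`: `sin (D1-u1) cos (d1 x1 y1) + sin u1 cos (d1 x1 z1) ≤ sin D1 cos (d1 x1 w')`.  Replace `D1, u1, d1 x1 y1, d1 x1 z1` by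
  `D, u, d x y, d x z`: error `C δ0`.  `t = d1 x1 w' ≤ (perimeter)/2 ≤ π` (it is `≤ d1 x1 y1 + u1` and `≤ d1 x1 z1 + D1 - u1`), and
  `d x w ≤ (1+δ) d1 x1 w1 ≤ (1+δ)(t + κ) ≤ t + κ + C δ0 =: t + κ'`, so `d x w - κ' ≤ t ≤ π` and `cos t ≤ cos (max (d x w - κ') 0) ≤ cos (d x w) + κ'`.
Choose `δ0` such that all the errors are at most `ε`.
-/

set_option autoImplicit false
set_option linter.unusedSectionVars false

namespace Pool.Agent.Helper48.FC

open Real Set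

universe u

/-- pseudometric -/
structure PM {Z : Type u} (d : Z → Z → ℝ) : Prop where
  nonneg : ∀ a b, 0 ≤ d a b
  self : ∀ a, d a a = 0
  symm : ∀ a b, d a b = d b a
  tri : ∀ a b c, d a c ≤ d a b + d b c

private theorem prod_err {a a' b b' p q : ℝ} (ha : |a - a'| ≤ p) (hb : |b - b'| ≤ q) (h1 : |b| ≤ 1)
    (h2 : |a'| ≤ 1) : a * b ≤ a' * b' + (p + q) := by
  have e : a * b - a' * b' = (a - a') * b + a' * (b - b') := by ring
  have h3 : |(a - a') * b| ≤ p := by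
    rw [abs_mul]
    calc |a - a'| * |b| ≤ |a - a'| * 1 := mul_le_mul_of_nonneg_left h1 (abs_nonneg _)
      _ ≤ p := by rw [mul_one]; exact ha
  have h4 : |a' * (b - b')| ≤ q := by
    rw [abs_mul]
    calc |a'| * |b - b'| ≤ 1 * |b - b'| := mul_le_mul_of_nonneg_right h2 (abs_nonneg _)
      _ ≤ q := by rw [one_mul]; exact hb
  have h5 := (abs_le.1 h3).2
  have h6 := (abs_le.1 h4).2
  linarith

/-- comparison of `d` and `d1` at two points -/
private theorem cmp_le {a b δ M : ℝ} (hδ : 0 ≤ δ) (h1 : a ≤ (1 + δ) * b) (h2 : b ≤ a + δ) (h3 : b ≤ M) :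
    |b - a| ≤ δ * max M 1 := by
  have hM : M ≤ max M 1 := le_max_left _ _
  have h1M : 1 ≤ max M 1 := le_max_right _ _
  have h4 : δ * b ≤ δ * max M 1 := mul_le_mul_of_nonneg_left (h3.trans hM) hδ
  have h5 : δ * 1 ≤ δ * max M 1 := mul_le_mul_of_nonneg_left h1M hδ
  rw [abs_le]
  constructor <;> linarith

/-- the point `w1` is near the Stewart point `w'` -/
private theorem near {D D1 u1 s1 s2 t1 δ κ : ℝ} (hδ : 0 < δ) (hκ : 0 < κ) (hD : 0 < D) (hDpi : D < π)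
    (hD1 : |D1 - D| ≤ 4 * δ) (hu1 : 0 ≤ u1) (hu1' : u1 ≤ D1) (hs1 : 0 ≤ s1) (hs2 : 0 ≤ s2)
    (hs1' : s1 ≤ u1 + 11 * δ) (hs2' : s2 ≤ D1 - u1 + 11 * δ) (ht0 : 0 ≤ t1) (ht1 : t1 ≤ s1 + u1)
    (ht2 : t1 ≤ s2 + (D1 - u1)) (hst : sin (D1 - u1) * cos s1 + sin u1 * cos s2 ≤ sin D1 * cos t1)
    (h1 : 20 * δ ≤ π - D) (h2 : 8 * δ ≤ sin D) (h3 : 220 * δ ≤ κ ^ 2 * sin D) : t1 ≤ κ := by
  have hsD : 0 < sin D := sin_pos_of_pos_of_lt_pi hD hDpi
  obtain ⟨hDl, hDr⟩ := abs_le.1 hD1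
  have hD1pi : D1 ≤ π := by linarith
  have hc1 : cos u1 - 11 * δ ≤ cos s1 := by
    have h5 : cos (u1 + 11 * δ) ≤ cos s1 :=
      cos_le_cos_of_nonneg_of_le_pi hs1 (by linarith) hs1'
    have h6 := (abs_le.1 (abs_cos_sub_cos_le (u1 + 11 * δ) u1)).1
    have h7 : |u1 + 11 * δ - u1| = 11 * δ := by
      rw [add_sub_cancel_left, abs_of_pos (by positivity)]
    rw [h7] at h6
    linarith
  have hc2 : cos (D1 - u1) - 11 * δ ≤ cos s2 := by
    have h5 : cos (D1 - u1 + 11 * δ) ≤ cos s2 :=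
      cos_le_cos_of_nonneg_of_le_pi hs2 (by linarith) hs2'
    have h6 := (abs_le.1 (abs_cos_sub_cos_le (D1 - u1 + 11 * δ) (D1 - u1))).1
    have h7 : |D1 - u1 + 11 * δ - (D1 - u1)| = 11 * δ := by
      rw [add_sub_cancel_left, abs_of_pos (by positivity)]
    rw [h7] at h6
    linarith
  have hsa : 0 ≤ sin (D1 - u1) := sin_nonneg_of_nonneg_of_le_pi (by linarith) (by linarith)
  have hsb : 0 ≤ sin u1 := sin_nonneg_of_nonneg_of_le_pi hu1 (by linarith)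
  have hsa1 := sin_le_one (D1 - u1)
  have hsb1 := sin_le_one u1
  have hadd : sin D1 = sin (D1 - u1) * cos u1 + cos (D1 - u1) * sin u1 := by
    rw [← sin_add]; congr 1; ring
  have h8 : sin D1 - 22 * δ ≤ sin D1 * cos t1 := by
    have h9 := mul_le_mul_of_nonneg_left hc1 hsa
    have h10 := mul_le_mul_of_nonneg_left hc2 hsb
    have h11 : sin (D1 - u1) * (11 * δ) ≤ 1 * (11 * δ) :=
      mul_le_mul_of_nonneg_right hsa1 (by positivity)
    have h12 : sin u1 * (11 * δ) ≤ 1 * (11 * δ) :=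
      mul_le_mul_of_nonneg_right hsb1 (by positivity)
    nlinarith
  have hsD1 : sin D / 2 ≤ sin D1 := by
    have := (abs_le.1 (abs_sin_sub_sin_le D1 D)).1
    linarith
  have htpi : t1 ≤ π := by linarith
  have hq := cos_le_one_sub_mul_cos_sq (x := t1) (by rw [abs_of_nonneg ht0]; exact htpi)
  have h13 : sin D / 2 * (1 - cos t1) ≤ 22 * δ := by
    have h14 : sin D / 2 * (1 - cos t1) ≤ sin D1 * (1 - cos t1) :=
      mul_le_mul_of_nonneg_right hsD1 (by linarith [cos_le_one t1])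
    nlinarith
  have h15 : sin D / 2 * (2 / π ^ 2 * t1 ^ 2) ≤ 22 * δ :=
    (mul_le_mul_of_nonneg_left (by linarith) (by positivity)).trans h13
  have hpi : π ^ 2 ≤ 10 := by
    have := pi_lt_d2
    have := pi_pos
    nlinarith
  have h16 : sin D * t1 ^ 2 ≤ 220 * δ := by
    have h17 : sin D / 2 * (2 / π ^ 2 * t1 ^ 2) = sin D * t1 ^ 2 / π ^ 2 := by
      field_simp
    rw [h17, div_le_iff₀ (by positivity)] at h15
    nlinarith
  have h18 : sin D * t1 ^ 2 ≤ sin D * κ ^ 2 := by linarith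
  have h19 : t1 ^ 2 ≤ κ ^ 2 := le_of_mul_le_mul_left h18 hsD
  exact le_of_sq_le_sq h19 hκ.le

private theorem scale {D D' u e : ℝ} (hD : 0 < D) (hu : 0 ≤ u) (hu' : u ≤ D) (hD' : 0 ≤ D')
    (he : |D' - D| ≤ e) : 0 ≤ u * D' / D ∧ u * D' / D ≤ D' ∧ |u * D' / D - u| ≤ e ∧
      |(D' - u * D' / D) - (D - u)| ≤ e := by
  obtain ⟨r, hr⟩ : ∃ r, r = u / D := ⟨_, rfl⟩
  have hr0 : 0 ≤ r := by rw [hr]; positivity
  have hr1 : r ≤ 1 := by rw [hr, div_le_one hD]; exact hu'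
  have h1 : u * D' / D = r * D' := by rw [hr]; ring
  have h2 : u = r * D := by rw [hr]; field_simp
  rw [h1]
  refine ⟨by positivity, by nlinarith, ?_, ?_⟩
  · have h3 : r * D' - u = r * (D' - D) := by rw [h2]; ring
    rw [h3, abs_mul, abs_of_nonneg hr0]
    nlinarith [abs_nonneg (D' - D)]
  · have h3 : D' - r * D' - (D - u) = (1 - r) * (D' - D) := by
      rw [h2]; ring
    rw [h3, abs_mul, abs_of_nonneg (by linarith : 0 ≤ 1 - r)]
    nlinarith [abs_nonneg (D' - D)]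

/-- the last step of the approximation -/
private theorem last {D D1 u u1 a a1 b b1 t c κ δ ε : ℝ} (hδ : 0 < δ) (hD1 : |D1 - D| ≤ 4 * δ)
    (hu1 : |u1 - u| ≤ 4 * δ) (hv1 : |(D1 - u1) - (D - u)| ≤ 4 * δ) (ha : |a1 - a| ≤ 7 * δ)
    (hb : |b1 - b| ≤ 7 * δ) (hsD : 0 ≤ sin D) (ht0 : 0 ≤ t) (ht : t ≤ π) (hc0 : 0 ≤ c)
    (hκ0 : 0 ≤ κ) (hc : c ≤ t + κ + 5 * δ)
    (hst : sin (D1 - u1) * cos a1 + sin u1 * cos b1 ≤ sin D1 * cos t) (h : κ + 31 * δ ≤ ε) :
    sin (D - u) * cos a + sin u * cos b ≤ sin D * cos c + ε := by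
  have e1 : |sin (D - u) - sin (D1 - u1)| ≤ 4 * δ :=
    (abs_sin_sub_sin_le _ _).trans (by rw [abs_sub_comm]; exact hv1)
  have e2 : |sin u - sin u1| ≤ 4 * δ :=
    (abs_sin_sub_sin_le _ _).trans (by rw [abs_sub_comm]; exact hu1)
  have e3 : |cos a - cos a1| ≤ 7 * δ :=
    (abs_cos_sub_cos_le _ _).trans (by rw [abs_sub_comm]; exact ha)
  have e4 : |cos b - cos b1| ≤ 7 * δ :=
    (abs_cos_sub_cos_le _ _).trans (by rw [abs_sub_comm]; exact hb)
  have f1 := prod_err e1 e3 (abs_cos_le_one a) (abs_sin_le_one _)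
  have f2 := prod_err e2 e4 (abs_cos_le_one b) (abs_sin_le_one _)
  have f3 : sin D1 * cos t ≤ sin D * cos t + 4 * δ := by
    have g1 : |sin D1 - sin D| ≤ 4 * δ := (abs_sin_sub_sin_le _ _).trans hD1
    have g2 := prod_err g1 (b := cos t) (b' := cos t) (q := 0) (by simp) (abs_cos_le_one t)
      (abs_sin_le_one _)
    linarith
  have f4 : cos t ≤ cos c + (κ + 5 * δ) := by
    rcases le_total c t with hct | hct
    · have := cos_le_cos_of_nonneg_of_le_pi hc0 ht hct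
      linarith
    · have g1 := (abs_le.1 (abs_cos_sub_cos_le t c)).2
      rw [abs_sub_comm, abs_of_nonneg (by linarith : 0 ≤ c - t)] at g1
      linarith
  have f5 : sin D * cos t ≤ sin D * cos c + (κ + 5 * δ) := by
    have g1 := mul_le_mul_of_nonneg_left f4 hsD
    have g2 : sin D * (κ + 5 * δ) ≤ 1 * (κ + 5 * δ) :=
      mul_le_mul_of_nonneg_right (sin_le_one D) (by positivity)
    nlinarith
  linarith

theorem apx {Z : Type u} {d : Z → Z → ℝ} (hd : PM d)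
    (H : ∀ (F : Finset Z) (δ : ℝ), 0 < δ → ∃ (Z' : Type u) (ι : Z' → Z) (d' : Z' → Z' → ℝ), PM d' ∧
      (∀ y z, d' y z < π → ∀ u, 0 ≤ u → u ≤ d' y z → ∃ w, StewAt d' y z u w) ∧
      (∀ a b, d (ι a) (ι b) ≤ (1 + δ) * d' a b) ∧ (∀ p ∈ F, ∃ a, ι a = p) ∧
      ∀ a b, ι a ∈ F → ι b ∈ F → d' a b ≤ d (ι a) (ι b) + δ) : StewA d := by
  classical
  intro ε hε y z hyz u hu hu'
  have hpi := pi_lt_d2
  rcases eq_or_lt_of_le (hd.nonneg y z) with h0 | h0
  · have hu0 : u = 0 := le_antisymm (by rw [h0]; exact hu') hu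
    refine ⟨y, ?_, ?_, ?_⟩
    · rw [hd.self]; linarith
    · linarith
    · intro x _
      rw [← h0, hu0]
      simp only [sub_zero, sin_zero, zero_mul, add_zero]
      linarith
  obtain ⟨D, hD⟩ : ∃ D, D = d y z := ⟨_, rfl⟩
  rw [← hD] at hyz hu' h0
  have hsD : 0 < sin D := sin_pos_of_pos_of_lt_pi h0 hyz
  obtain ⟨κ, hκ, hκ1, hκ2⟩ : ∃ κ : ℝ, 0 < κ ∧ κ ≤ ε / 2 ∧ κ ≤ 1 :=
    ⟨min (ε / 2) 1, lt_min (by linarith) one_pos, min_le_left _ _, min_le_right _ _⟩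
  obtain ⟨δ, hδ, c1, c2, c3, c4, c5⟩ : ∃ δ : ℝ, 0 < δ ∧ 20 * δ ≤ π - D ∧ 8 * δ ≤ sin D ∧
      220 * δ ≤ κ ^ 2 * sin D ∧ 100 * δ ≤ ε ∧ 100 * δ ≤ 1 := by
    refine ⟨min (min ((π - D) / 20) (sin D / 8)) (min (κ ^ 2 * sin D / 220) (min (ε / 100) (1 / 100))),
      ?_, ?_, ?_, ?_, ?_, ?_⟩
    · have := sub_pos.2 hyz
      refine lt_min (lt_min (by positivity) (by positivity)) (lt_min (by positivity)
        (lt_min (by positivity) (by norm_num)))
    · have := (min_le_left (min ((π - D) / 20) (sin D / 8))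
        (min (κ ^ 2 * sin D / 220) (min (ε / 100) (1 / 100)))).trans (min_le_left _ _)
      linarith
    · have := (min_le_left (min ((π - D) / 20) (sin D / 8))
        (min (κ ^ 2 * sin D / 220) (min (ε / 100) (1 / 100)))).trans (min_le_right _ _)
      linarith
    · have := (min_le_right (min ((π - D) / 20) (sin D / 8))
        (min (κ ^ 2 * sin D / 220) (min (ε / 100) (1 / 100)))).trans (min_le_left _ _)
      linarith
    · have := ((min_le_right (min ((π - D) / 20) (sin D / 8))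
        (min (κ ^ 2 * sin D / 220) (min (ε / 100) (1 / 100)))).trans (min_le_right _ _)).trans
        (min_le_left _ _)
      linarith
    · have := ((min_le_right (min ((π - D) / 20) (sin D / 8))
        (min (κ ^ 2 * sin D / 220) (min (ε / 100) (1 / 100)))).trans (min_le_right _ _)).trans
        (min_le_right _ _)
      linarith
  obtain ⟨Z0, ι0, d0, hd0, hst0, hup0, hex0, hlow0⟩ := H {y, z} δ hδ
  obtain ⟨y0, hy0⟩ := hex0 y (by simp)
  obtain ⟨z0, hz0⟩ := hex0 z (by simp)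
  obtain ⟨w, hw1, hw2⟩ : ∃ w, d y w ≤ u + 6 * δ ∧ d w z ≤ D - u + 6 * δ := by
    have hDa : D ≤ (1 + δ) * d0 y0 z0 := by
      have := hup0 y0 z0
      rwa [hy0, hz0, ← hD] at this
    have hDb : d0 y0 z0 ≤ D + δ := by
      have := hlow0 y0 z0 (by rw [hy0]; simp) (by rw [hz0]; simp)
      rwa [hy0, hz0, ← hD] at this
    have hD0 : |d0 y0 z0 - D| ≤ δ * max 4 1 := cmp_le hδ.le hDa hDb (by linarith)
    rw [max_eq_left (by norm_num)] at hD0
    obtain ⟨s1, s2, s3, s4⟩ := scale h0 hu hu' (hd0.nonneg y0 z0) hD0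
    obtain ⟨w0, hw0a, hw0b, -⟩ := hst0 y0 z0 (by linarith) (u * d0 y0 z0 / D) s1 s2
    have k1 : u * d0 y0 z0 / D ≤ u + δ := by
      rw [div_le_iff₀ h0]
      nlinarith
    have k2 : d0 y0 z0 - u * d0 y0 z0 / D ≤ D - u + δ := by
      have : d0 y0 z0 - u * d0 y0 z0 / D = (D - u) * d0 y0 z0 / D := by field_simp
      rw [this, div_le_iff₀ h0]
      nlinarith
    refine ⟨ι0 w0, ?_, ?_⟩
    · have h1 := hup0 y0 w0
      rw [hy0] at h1
      have h2 : d0 y0 w0 ≤ u + δ := hw0a.trans k1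
      nlinarith
    · have h1 := hup0 w0 z0
      rw [hz0] at h1
      have h2 : d0 w0 z0 ≤ D - u + δ := hw0b.trans k2
      nlinarith
  refine ⟨w, by linarith, by rw [← hD]; linarith, ?_⟩
  intro x hx
  rw [← hD] at hx ⊢
  obtain ⟨δ', hδ', hδ'le, hδ'3⟩ : ∃ δ' : ℝ, 0 < δ' ∧ δ' ≤ δ ∧ d x y + d x z + D + 3 * δ' < 2 * π := by
    have h1 : 0 < 2 * π - (d x y + d x z + D) := by linarith
    refine ⟨min δ ((2 * π - (d x y + d x z + D)) / 4), lt_min hδ (by positivity), min_le_left _ _, ?_⟩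
    have := min_le_right δ ((2 * π - (d x y + d x z + D)) / 4)
    linarith
  obtain ⟨Z1, ι1, d1, hd1, hst1, hup1, hex1, hlow1⟩ := H {y, z, w, x} δ' hδ'
  obtain ⟨y1, hy1⟩ := hex1 y (by simp)
  obtain ⟨z1, hz1⟩ := hex1 z (by simp)
  obtain ⟨w1, hw1'⟩ := hex1 w (by simp)
  obtain ⟨x1, hx1⟩ := hex1 x (by simp)
  have hDa : D ≤ (1 + δ') * d1 y1 z1 := by
    have := hup1 y1 z1
    rwa [hy1, hz1, ← hD] at this
  have hDb : d1 y1 z1 ≤ D + δ' := by
    have := hlow1 y1 z1 (by rw [hy1]; simp) (by rw [hz1]; simp)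
    rwa [hy1, hz1, ← hD] at this
  have hD1 : |d1 y1 z1 - D| ≤ δ' * max 4 1 := cmp_le hδ'.le hDa hDb (by linarith)
  rw [max_eq_left (by norm_num)] at hD1
  obtain ⟨s1, s2, s3, s4⟩ := scale h0 hu hu' (hd1.nonneg y1 z1) hD1
  obtain ⟨w', hwa, hwb, hwc⟩ := hst1 y1 z1 (by linarith) (u * d1 y1 z1 / D) s1 s2
  have a1 : d1 x1 y1 ≤ d x y + δ' := by
    have := hlow1 x1 y1 (by rw [hx1]; simp) (by rw [hy1]; simp)
    rwa [hx1, hy1] at this
  have a2 : d1 x1 z1 ≤ d x z + δ' := by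
    have := hlow1 x1 z1 (by rw [hx1]; simp) (by rw [hz1]; simp)
    rwa [hx1, hz1] at this
  have a3 : d1 w1 y1 ≤ d y w + δ' := by
    have := hlow1 w1 y1 (by rw [hw1']; simp) (by rw [hy1]; simp)
    rwa [hw1', hy1, hd.symm w y] at this
  have a4 : d1 w1 z1 ≤ d w z + δ' := by
    have := hlow1 w1 z1 (by rw [hw1']; simp) (by rw [hz1]; simp)
    rwa [hw1', hz1] at this
  have b1 : d x y ≤ (1 + δ') * d1 x1 y1 := by
    have := hup1 x1 y1
    rwa [hx1, hy1] at this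
  have b2 : d x z ≤ (1 + δ') * d1 x1 z1 := by
    have := hup1 x1 z1
    rwa [hx1, hz1] at this
  have b3 : d x w ≤ (1 + δ') * d1 x1 w1 := by
    have := hup1 x1 w1
    rwa [hx1, hw1'] at this
  have nxy := hd.nonneg x y
  have nxz := hd.nonneg x z
  have hA : |d1 x1 y1 - d x y| ≤ δ' * max 7 1 := cmp_le hδ'.le b1 a1 (by linarith)
  have hB : |d1 x1 z1 - d x z| ≤ δ' * max 7 1 := cmp_le hδ'.le b2 a2 (by linarith)
  rw [max_eq_left (by norm_num)] at hA hB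
  have m1 := (abs_le.1 s3)
  have m2 := (abs_le.1 s4)
  have m3 := (abs_le.1 hD1)
  -- `w1` is near `w'`
  have hnear : d1 w1 w' ≤ κ := by
    refine near (D := D) (D1 := d1 y1 z1) (u1 := u * d1 y1 z1 / D) (s1 := d1 w1 y1) (s2 := d1 w1 z1)
      (δ := δ) hδ hκ h0 hyz (hD1.trans (by linarith)) s1 s2 (hd1.nonneg _ _) (hd1.nonneg _ _) (by linarith)
      (by linarith) (hd1.nonneg _ _) ?_ ?_ (hwc w1 (by linarith)) c1 c2 c3
    · have := hd1.tri w1 y1 w'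
      linarith
    · have := hd1.tri w1 z1 w'
      rw [hd1.symm z1 w'] at this
      linarith
  have t1 : d1 x1 w' ≤ d1 x1 y1 + u * d1 y1 z1 / D := by
    have := hd1.tri x1 y1 w'
    linarith
  have t2 : d1 x1 w' ≤ d1 x1 z1 + (d1 y1 z1 - u * d1 y1 z1 / D) := by
    have := hd1.tri x1 z1 w'
    rw [hd1.symm z1 w'] at this
    linarith
  have tpi : d1 x1 w' ≤ π := by linarith
  have t3 : d1 x1 w1 ≤ d1 x1 w' + κ := by
    have := hd1.tri x1 w' w1
    rw [hd1.symm w' w1] at this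
    linarith
  refine last (δ := δ') (κ := κ) (t := d1 x1 w') hδ' (hD1.trans (by linarith)) (s3.trans (by linarith))
    (s4.trans (by linarith)) (hA.trans (by linarith)) (hB.trans (by linarith)) hsD.le (hd1.nonneg _ _) tpi
    (hd.nonneg _ _) hκ.le ?_ (hwc x1 (by linarith)) (by linarith)
  have t4 : d1 x1 w1 ≤ 5 := by linarith
  have t5 : δ' * d1 x1 w1 ≤ δ' * 5 := mul_le_mul_of_nonneg_left t4 hδ'.le
  linarith

end Pool.Agent.Helper48.FC
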