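import Mathlib
import Pool.Agent.Helper48.FC.Defs

/-!
Project FC, chains: basic properties of `csum` and `cinf`.
-/

set_option autoImplicit false
set_option linter.unusedSectionVars false

namespace Pool.Agent.Helper48.FC

open Real Set

section chain

variable {Z : Type*} {e : Z → Z → ℝ}

theorem csum_nonneg (h0 : ∀ a b, 0 ≤ e a b) (c : ℕ → Z) (n : ℕ) : 0 ≤ csum e c n :=
  Finset.sum_nonneg fun _ _ => h0 _ _

theorem csum_succ (c : ℕ → Z) (n : ℕ) : csum e c (n + 1) = csum e c n + e (c n) (c (n + 1)) :=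
  Finset.sum_range_succ _ _

theorem csum_zero (c : ℕ → Z) : csum e c 0 = 0 := Finset.sum_range_zero _

theorem csum_mono (h0 : ∀ a b, 0 ≤ e a b) (c : ℕ → Z) {m n : ℕ} (h : m ≤ n) : csum e c m ≤ csum e c n :=
  Finset.sum_le_sum_of_subset_of_nonneg (Finset.range_mono h) fun _ _ _ => h0 _ _

theorem cinf_bdd (h0 : ∀ a b, 0 ≤ e a b) (a b : Z) :
    BddBelow {L | ∃ (c : ℕ → Z) (n : ℕ), c 0 = a ∧ c n = b ∧ L = csum e c n} := by
  refine ⟨0, ?_⟩
  rintro L ⟨c, n, _, _, rfl⟩
  exact csum_nonneg h0 c n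

theorem cinf_ne (a b : Z) :
    {L | ∃ (c : ℕ → Z) (n : ℕ), c 0 = a ∧ c n = b ∧ L = csum e c n}.Nonempty :=
  ⟨_, fun k => if k = 0 then a else b, 1, by simp, by simp, rfl⟩

theorem cinf_le_csum (h0 : ∀ a b, 0 ≤ e a b) {a b : Z} {c : ℕ → Z} {n : ℕ} (ha : c 0 = a) (hb : c n = b) :
    cinf e a b ≤ csum e c n :=
  csInf_le (cinf_bdd h0 a b) ⟨c, n, ha, hb, rfl⟩

theorem le_cinf {a b : Z} {L : ℝ} (h : ∀ (c : ℕ → Z) (n : ℕ), c 0 = a → c n = b → L ≤ csum e c n) :
    L ≤ cinf e a b := by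
  apply le_csInf (cinf_ne a b)
  rintro _ ⟨c, n, h1, h2, rfl⟩
  exact h c n h1 h2

theorem exists_chain {a b : Z} {L : ℝ} (h : cinf e a b < L) :
    ∃ (c : ℕ → Z) (n : ℕ), c 0 = a ∧ c n = b ∧ csum e c n < L := by
  obtain ⟨_, ⟨c, n, h1, h2, rfl⟩, h3⟩ := exists_lt_of_csInf_lt (cinf_ne a b) h
  exact ⟨c, n, h1, h2, h3⟩

theorem cinf_nonneg (h0 : ∀ a b, 0 ≤ e a b) (a b : Z) : 0 ≤ cinf e a b :=
  le_cinf fun c n _ _ => csum_nonneg h0 c n

theorem cinf_self (h0 : ∀ a b, 0 ≤ e a b) (a : Z) : cinf e a a = 0 := by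
  apply le_antisymm _ (cinf_nonneg h0 a a)
  have := cinf_le_csum (n := 0) (c := fun _ => a) h0 (a := a) (b := a) rfl rfl
  rwa [csum_zero] at this

theorem cinf_le_edge (h0 : ∀ a b, 0 ≤ e a b) (a b : Z) : cinf e a b ≤ e a b := by
  have h := cinf_le_csum (e := e) h0 (c := fun k => if k = 0 then a else b) (n := 1) (a := a) (b := b)
    (by simp) (by simp)
  simpa [csum] using h

theorem csum_congr {c c' : ℕ → Z} {n : ℕ} (h : ∀ k ≤ n, c k = c' k) : csum e c n = csum e c' n := by
  apply Finset.sum_congr rfl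
  intro i hi
  rw [Finset.mem_range] at hi
  rw [h i hi.le, h (i + 1) hi]

theorem csum_reverse (hs : ∀ a b, e a b = e b a) (c : ℕ → Z) (n : ℕ) :
    csum e (fun k => c (n - k)) n = csum e c n := by
  unfold csum
  rw [← Finset.sum_range_reflect]
  apply Finset.sum_congr rfl
  intro i hi
  rw [Finset.mem_range] at hi
  show e (c (n - (n - 1 - i))) (c (n - (n - 1 - i + 1))) = e (c i) (c (i + 1))
  rw [hs, show n - (n - 1 - i + 1) = i by omega, show n - (n - 1 - i) = i + 1 by omega]

theorem cinf_symm (h0 : ∀ a b, 0 ≤ e a b) (hs : ∀ a b, e a b = e b a) (a b : Z) :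
    cinf e a b = cinf e b a := by
  have key : ∀ a b, cinf e a b ≤ cinf e b a := by
    intro a b
    apply le_cinf
    intro c n h1 h2
    rw [← csum_reverse hs c n]
    exact cinf_le_csum h0 (by simpa using h2) (by simpa using h1)
  exact le_antisymm (key a b) (key b a)

theorem cinf_tri (h0 : ∀ a b, 0 ≤ e a b) (a b d : Z) : cinf e a d ≤ cinf e a b + cinf e b d := by
  apply le_of_forall_pos_le_add
  intro ε hε
  obtain ⟨c, n, h1, h2, h3⟩ := exists_chain (e := e) (a := a) (b := b) (L := cinf e a b + ε / 2)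
    (by linarith)
  obtain ⟨c', n', h1', h2', h3'⟩ := exists_chain (e := e) (a := b) (b := d) (L := cinf e b d + ε / 2)
    (by linarith)
  have h4 := cinf_le_csum (e := e) h0 (a := a) (b := d) (c := fun k => if k ≤ n then c k else c' (k - n))
    (n := n + n') (by simpa using h1) (by
      by_cases h0' : n' = 0
      · subst h0'
        simp only [add_zero, le_refl, if_true]
        rw [h2, ← h1', h2']
      · have : ¬ (n + n' ≤ n) := by omega
        simp only [this, if_false]
        rw [show n + n' - n = n' by omega, h2'])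
  have h5 : csum e (fun k => if k ≤ n then c k else c' (k - n)) (n + n') = csum e c n + csum e c' n' := by
    unfold csum
    rw [Finset.sum_range_add]
    congr 1
    · apply Finset.sum_congr rfl
      intro i hi
      rw [Finset.mem_range] at hi
      show e (if i ≤ n then c i else c' (i - n)) (if i + 1 ≤ n then c (i + 1) else c' (i + 1 - n)) = _
      rw [if_pos hi.le, if_pos (by omega : i + 1 ≤ n)]
    · apply Finset.sum_congr rfl
      intro i _
      have e1 : (if n + i ≤ n then c (n + i) else c' (n + i - n)) = c' i := by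
        by_cases hi : i = 0
        · subst hi
          simp [h2, h1']
        · rw [if_neg (by omega), show n + i - n = i by omega]
      have e2 : (if n + i + 1 ≤ n then c (n + i + 1) else c' (n + i + 1 - n)) = c' (i + 1) := by
        rw [if_neg (by omega), show n + i + 1 - n = i + 1 by omega]
      show e (if n + i ≤ n then c (n + i) else c' (n + i - n))
        (if n + i + 1 ≤ n then c (n + i + 1) else c' (n + i + 1 - n)) = _
      rw [e1, e2]
  rw [h5] at h4
  linarith

end chain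

section ed

variable {E : Type*} [NormedAddCommGroup E] [InnerProductSpace ℝ E] {φ : E → ℝ}

theorem rr_nonneg (a b : E) : 0 ≤ rr φ a b := mul_nonneg (norm_nonneg _) (exp_pos _).le

theorem ed_nonneg (a b : E) : 0 ≤ ed φ a b := add_nonneg (rr_nonneg a b) (sq_nonneg _)

theorem rr_symm (a b : E) : rr φ a b = rr φ b a := by
  unfold rr
  rw [norm_sub_rev, add_comm (φ a)]

theorem ed_symm (a b : E) : ed φ a b = ed φ b a := by
  unfold ed
  rw [rr_symm]

theorem rr_le_ed (a b : E) : rr φ a b ≤ ed φ a b := by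
  unfold ed
  nlinarith [sq_nonneg (rr φ a b)]

theorem norm_le_rr (hb : ∀ x, |φ x| ≤ 1 / 10) (a b : E) : ‖a - b‖ ≤ 10 / 9 * rr φ a b := by
  have h1 : -(1 / 10) ≤ (φ a + φ b) / 2 := by
    have := (abs_le.1 (hb a)).1
    have := (abs_le.1 (hb b)).1
    linarith
  have h2 : (9 / 10 : ℝ) ≤ exp ((φ a + φ b) / 2) := by
    have := add_one_le_exp ((φ a + φ b) / 2)
    linarith
  have h3 := mul_le_mul_of_nonneg_left h2 (norm_nonneg (a - b))
  unfold rr
  linarith

theorem norm_le_ed (hb : ∀ x, |φ x| ≤ 1 / 10) (a b : E) : ‖a - b‖ ≤ 10 / 9 * ed φ a b :=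
  (norm_le_rr hb a b).trans (mul_le_mul_of_nonneg_left (rr_le_ed a b) (by norm_num))

theorem norm_le_csum (hb : ∀ x, |φ x| ≤ 1 / 10) (c : ℕ → E) (n : ℕ) :
    ‖c n - c 0‖ ≤ 10 / 9 * csum (ed φ) c n := by
  induction n with
  | zero => simp [csum]
  | succ n ih =>
    rw [csum_succ]
    have h1 : c (n + 1) - c 0 = (c n - c 0) - (c n - c (n + 1)) := by abel
    rw [h1]
    have := norm_sub_le (c n - c 0) (c n - c (n + 1))
    have := norm_le_ed hb (c n) (c (n + 1))
    linarith

theorem norm_le_cinf (hb : ∀ x, |φ x| ≤ 1 / 10) (a b : E) : ‖a - b‖ ≤ 10 / 9 * cinf (ed φ) a b := by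
  have h : 9 / 10 * ‖a - b‖ ≤ cinf (ed φ) a b := by
    apply le_cinf
    intro c n h1 h2
    have := norm_le_csum hb c n
    rw [h1, h2, norm_sub_rev] at this
    linarith
  linarith

end ed

end Pool.Agent.Helper48.FC
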