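import Mathlib
import Pool.Agent.Helper48.FC.Defs

/-!
Block FC-14.  Smoothing in finite dimension.

`E` is finite-dimensional; use `borel E` and additive Haar measure `μ`, a `ContDiffBump f` centred at `0` with `f.rOut ≤ 10000 m`, and
`ψ x = ∫ t, f.normed μ t * φ (x - t)` (a convolution of `f.normed μ` with the continuous function `φ`; smooth:
`HasCompactSupport.contDiff_convolution_left`, `f.contDiff_normed`, `f.hasCompactSupport_normed`).  As `f.normed μ ≥ 0` has integral `1` and support in the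
ball of radius `f.rOut`, and the conditions on `φ` are inequalities between translates of `φ`:
`|ψ| ≤ 1/10`, `|ψ x - ψ y| ≤ ‖x - y‖/10000`, `|ψ (x+k) + ψ (x-k) - 2 ψ x| ≤ ‖k‖²/10000`, `|ψ x - φ x| ≤ f.rOut/10000 ≤ m`.
`A x` is the gradient of `ψ` (`(InnerProductSpace.toDual ℝ E).symm (fderiv ℝ ψ x)`), `H x = fderiv ℝ A x`; both smooth.  `symm`: second derivatives
are symmetric (`second_derivative_symmetric`, `ContDiffAt.isSymmSndFDerivAt`).  `bA`: Lipschitz bound.  `bH`: the second difference bound gives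
`|⟪H x k, k⟫| ≤ ‖k‖²/10000` (second derivative at `0` of `s ↦ ψ (x + s k)`: `(ψ (x+sk) + ψ (x-sk) - 2 ψ x)/s² → ⟪H x k, k⟫`), then by symmetry
`4 ⟪H x k, l⟫ = ⟪H (k+l), k+l⟫ - ⟪H (k-l), k-l⟫ ≤ (‖k+l‖² + ‖k-l‖²)/10000 = 2 (‖k‖² + ‖l‖²)/10000`, and with `l = (‖k‖/‖H x k‖) H x k` (if `H x k ≠ 0`,
`k ≠ 0`) `‖H x k‖ ‖k‖ ≤ ‖k‖²/10000`.  `third`: `H` is `C¹`, hence Lipschitz on the compact convex ball of radius `R`, with constant `K`, and
`‖A y - A x - H x (y - x)‖ ≤ K ‖y - x‖²` by the mean value inequality on the segment.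
-/

set_option autoImplicit false
set_option linter.unusedSectionVars false

namespace Pool.Agent.Helper48.FC

open Real Set
open scoped RealInnerProductSpace

variable {E : Type*} [NormedAddCommGroup E] [InnerProductSpace ℝ E]

open MeasureTheory Filter Topology in
private lemma second26 {g g1 : ℝ → ℝ} {g2 M : ℝ} (h1 : ∀ s, HasDerivAt g (g1 s) s) (h2 : HasDerivAt g1 g2 0)
    (hM : ∀ s, |g s + g (-s) - 2 * g 0| ≤ M * s ^ 2) : |g2| ≤ M := by
  have hG : ∀ s, HasDerivAt (fun s => g s + g (-s) - 2 * g 0) (g1 s - g1 (-s)) s := by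
    intro s
    have h3 : HasDerivAt (fun s => g (-s)) (-(g1 (-s))) s := by
      have := (h1 (-s)).comp s (hasDerivAt_neg s)
      rw [mul_neg_one] at this
      exact this
    have h4 := ((h1 s).add h3).sub_const (2 * g 0)
    rw [← sub_eq_add_neg] at h4
    exact h4
  have hF : HasDerivAt (fun s => g1 s - g1 (-s)) (2 * g2) 0 := by
    have h3 : HasDerivAt (fun s => g1 (-s)) (-g2) 0 := by
      have h2' : HasDerivAt g1 g2 (-0) := by rwa [neg_zero]
      have := h2'.comp 0 (hasDerivAt_neg (0 : ℝ))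
      rw [mul_neg_one] at this
      exact this
    have h4 := h2.sub h3
    have h5 : g2 - -g2 = 2 * g2 := by ring
    rw [h5] at h4
    exact h4
  have hdiv : Tendsto (fun s => (g1 s - g1 (-s)) / (2 * s)) (𝓝[≠] 0) (𝓝 g2) := by
    have h3 := (hasDerivAt_iff_tendsto_slope.1 hF).div_const 2
    have h4 : 2 * g2 / 2 = g2 := by ring
    rw [h4] at h3
    refine h3.congr fun s => ?_
    rw [slope_def_field]
    simp only [neg_zero, sub_self, sub_zero]
    rw [div_div, mul_comm s 2]
  have hc : Continuous g := continuous_iff_continuousAt.2 fun s => (h1 s).continuousAt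
  have hlim : Tendsto (fun s => (g s + g (-s) - 2 * g 0) / s ^ 2) (𝓝[≠] 0) (𝓝 g2) := by
    refine HasDerivAt.lhopital_zero_nhdsNE (f := fun s => g s + g (-s) - 2 * g 0) (f' := fun s => g1 s - g1 (-s))
      (g := fun s => s ^ 2) (g' := fun s => 2 * s) (Eventually.of_forall hG)
      (Eventually.of_forall fun s => by simpa using hasDerivAt_pow 2 s) ?_ ?_ ?_ hdiv
    · filter_upwards [self_mem_nhdsWithin] with s hs
      exact mul_ne_zero two_ne_zero hs
    · have h3 : Continuous fun s => g s + g (-s) - 2 * g 0 := by fun_prop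
      have h4 := h3.tendsto 0
      have h5 : g 0 + g (-0) - 2 * g 0 = 0 := by rw [neg_zero]; ring
      rw [h5] at h4
      exact h4.mono_left nhdsWithin_le_nhds
    · have h3 : Continuous fun s : ℝ => s ^ 2 := by fun_prop
      have h4 := h3.tendsto 0
      simp only [ne_eq, OfNat.ofNat_ne_zero, not_false_eq_true, zero_pow] at h4
      exact h4.mono_left nhdsWithin_le_nhds
  refine le_of_tendsto hlim.abs ?_
  filter_upwards [self_mem_nhdsWithin] with s hs
  have hs2 : 0 < s ^ 2 := by
    have : s ≠ 0 := hs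
    positivity
  rw [abs_div, abs_of_pos hs2, div_le_iff₀ hs2]
  exact hM s

open MeasureTheory in
private lemma moll26 [FiniteDimensional ℝ E] {φ : E → ℝ} (h : Slow φ) {m : ℝ} (hm : 0 < m) :
    ∃ ψ : E → ℝ, ContDiff ℝ 3 ψ ∧ (∀ x, |ψ x| ≤ 1 / 10) ∧ (∀ x y, |ψ x - ψ y| ≤ 1 / 10000 * ‖x - y‖) ∧
      (∀ x k, |ψ (x + k) + ψ (x - k) - 2 * ψ x| ≤ 1 / 10000 * ‖k‖ ^ 2) ∧ ∀ x, |ψ x - φ x| ≤ m := by
  let _ : MeasurableSpace E := borel E
  have _ : BorelSpace E := ⟨rfl⟩
  obtain ⟨μ, hμ⟩ : ∃ μ : Measure E, μ = Measure.addHaar := ⟨_, rfl⟩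
  have _ : μ.IsAddHaarMeasure := by rw [hμ]; infer_instance
  let f : ContDiffBump (0 : E) := ⟨m, 2 * m, hm, by linarith⟩
  have hfr : f.rOut = 2 * m := rfl
  have hcont : Continuous φ := by
    have : LipschitzWith ⟨1 / 10000, by norm_num⟩ φ := by
      refine LipschitzWith.of_dist_le_mul fun y z => ?_
      rw [Real.dist_eq, dist_eq_norm]
      exact h.lip y z
    exact this.continuous
  have hint : ∀ g : E → ℝ, Continuous g → Integrable (fun t => f.normed μ t * g t) μ := by
    intro g hg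
    exact (f.continuous_normed.mul hg).integrable_of_hasCompactSupport f.hasCompactSupport_normed.mul_right
  have havg : ∀ (g : E → ℝ) (C : ℝ), Continuous g → (∀ t, ‖t‖ ≤ 2 * m → |g t| ≤ C) →
      |∫ t, f.normed μ t * g t ∂μ| ≤ C := by
    intro g C hg hC
    have h1 : ∫ t, f.normed μ t * C ∂μ = C := by
      rw [integral_mul_const, f.integral_normed, one_mul]
    have h2 : ∫ t, ‖f.normed μ t * g t‖ ∂μ ≤ ∫ t, f.normed μ t * C ∂μ := by
      refine integral_mono (hint g hg).norm (hint (fun _ => C) continuous_const) fun t => ?_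
      have hn := f.nonneg_normed (μ := μ) t
      by_cases ht : ‖t‖ ≤ 2 * m
      · simp only
        rw [norm_mul, Real.norm_of_nonneg hn, Real.norm_eq_abs]
        exact mul_le_mul_of_nonneg_left (hC t ht) hn
      · have h3 : f.normed μ t = 0 := by
          by_contra h4
          have h5 : t ∈ Function.support (f.normed μ) := h4
          rw [f.support_normed_eq, mem_ball_zero_iff, hfr] at h5
          exact ht h5.le
        simp only [h3, zero_mul, norm_zero, le_refl]
    rw [← Real.norm_eq_abs]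
    exact (norm_integral_le_integral_norm _).trans (h2.trans_eq h1)
  have hct : ∀ x, Continuous fun t => φ (x - t) := fun x => hcont.comp (continuous_const.sub continuous_id)
  refine ⟨fun x => ∫ t, f.normed μ t * φ (x - t) ∂μ, ?_, ?_, ?_, ?_, ?_⟩
  · have h1 := f.hasCompactSupport_normed (μ := μ).contDiff_convolution_left (ContinuousLinearMap.mul ℝ ℝ)
      (f.contDiff_normed (n := 3)) (hcont.locallyIntegrable (μ := μ))
    exact h1
  · intro x
    exact havg _ _ (hct x) fun t _ => h.bdd _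
  · intro x y
    have h1 : (∫ t, f.normed μ t * φ (x - t) ∂μ) - (∫ t, f.normed μ t * φ (y - t) ∂μ) =
        ∫ t, f.normed μ t * (φ (x - t) - φ (y - t)) ∂μ := by
      rw [← integral_sub (hint _ (hct x)) (hint _ (hct y))]
      refine integral_congr_ae (Filter.Eventually.of_forall fun t => ?_)
      simp only
      ring
    simp only
    rw [h1]
    refine havg _ _ ((hct x).sub (hct y)) fun t _ => ?_
    have h2 := h.lip (x - t) (y - t)
    rwa [sub_sub_sub_cancel_right] at h2
  · intro x k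
    have h1 : (∫ t, f.normed μ t * φ (x + k - t) ∂μ) + (∫ t, f.normed μ t * φ (x - k - t) ∂μ) -
        2 * (∫ t, f.normed μ t * φ (x - t) ∂μ) =
        ∫ t, f.normed μ t * (φ (x + k - t) + φ (x - k - t) - 2 * φ (x - t)) ∂μ := by
      rw [← integral_const_mul, ← integral_add (hint _ (hct _)) (hint _ (hct _)), ← integral_sub]
      · refine integral_congr_ae (Filter.Eventually.of_forall fun t => ?_)
        simp only
        ring
      · exact (hint _ (hct _)).add (hint _ (hct _))
      · exact (hint _ (hct _)).const_mul 2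
    simp only
    rw [h1]
    refine havg _ _ (((hct _).add (hct _)).sub ((hct _).const_mul 2)) fun t _ => ?_
    have h2 := h.sd (x - t) k
    have e1 : x - t + k = x + k - t := by abel
    have e2 : x - t - k = x - k - t := by abel
    rwa [e1, e2] at h2
  · intro x
    have h1 : (∫ t, f.normed μ t * φ (x - t) ∂μ) - φ x = ∫ t, f.normed μ t * (φ (x - t) - φ x) ∂μ := by
      have h2 : ∫ t, f.normed μ t * φ x ∂μ = φ x := by
        rw [integral_mul_const, f.integral_normed, one_mul]
      conv_lhs => rw [← h2]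
      rw [h2]
      rw [← h2, ← integral_sub (hint _ (hct x)) (hint (fun _ => φ x) continuous_const), h2]
      refine integral_congr_ae (Filter.Eventually.of_forall fun t => ?_)
      simp only
      ring
    simp only
    rw [h1]
    refine havg _ _ ((hct x).sub continuous_const) fun t ht => ?_
    have h2 := h.lip (x - t) x
    have e1 : x - t - x = -t := by abel
    rw [e1, norm_neg] at h2
    linarith

theorem exists_good [FiniteDimensional ℝ E] {φ : E → ℝ} (h : Slow φ) {m : ℝ} (hm : 0 < m) :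
    ∃ (ψ : E → ℝ) (A : E → E) (H : E → E →L[ℝ] E), Good ψ A H ∧ ∀ x, |ψ x - φ x| ≤ m := by
  obtain ⟨ψ, hψ, b1, b2, b3, b4⟩ := moll26 h hm
  -- the gradient
  let B := stdOrthonormalBasis ℝ E
  have hd1 : ContDiff ℝ 2 (fderiv ℝ ψ) := hψ.fderiv_right (by norm_num)
  obtain ⟨A, hAdef⟩ : ∃ A : E → E, A = fun x => ∑ i, (fderiv ℝ ψ x (B i)) • B i := ⟨_, rfl⟩
  have hA : ∀ x v, ⟪A x, v⟫ = fderiv ℝ ψ x v := by
    intro x v
    have h1 : ∑ i, ⟪B i, v⟫ • B i = v := B.sum_repr' v
    rw [hAdef]
    simp only [sum_inner, real_inner_smul_left]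
    conv_rhs => rw [← h1, map_sum]
    refine Finset.sum_congr rfl fun i _ => ?_
    rw [map_smul, smul_eq_mul, mul_comm]
  have hAc : ContDiff ℝ 2 A := by
    rw [hAdef]
    refine ContDiff.sum fun i _ => ?_
    exact (hd1.clm_apply contDiff_const).smul contDiff_const
  have hAd : Differentiable ℝ A := hAc.differentiable (by norm_num)
  have hψd : Differentiable ℝ ψ := hψ.differentiable (by norm_num)
  have hd1d : Differentiable ℝ (fderiv ℝ ψ) := hd1.differentiable (by norm_num)
  obtain ⟨H, hHdef⟩ : ∃ H : E → E →L[ℝ] E, H = fderiv ℝ A := ⟨_, rfl⟩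
  have hH : ∀ x, HasFDerivAt A (H x) x := by
    intro x
    rw [hHdef]
    exact (hAd x).hasFDerivAt
  have hHc : ContDiff ℝ 1 H := by
    rw [hHdef]
    exact hAc.fderiv_right (by norm_num)
  -- second derivatives
  have hHs : ∀ x u v, ⟪H x u, v⟫ = fderiv ℝ (fderiv ℝ ψ) x u v := by
    intro x u v
    have h1 : HasFDerivAt (fun y => ⟪A y, v⟫) ((innerSL ℝ v).comp (H x)) x := by
      have h2 := (innerSL ℝ v).hasFDerivAt.comp x (hH x)
      have h3 : (innerSL ℝ v) ∘ A = fun y => ⟪A y, v⟫ := by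
        ext y
        rw [Function.comp_apply, innerSL_apply_apply, real_inner_comm]
      rwa [h3] at h2
    have h4 : HasFDerivAt (fun y => ⟪A y, v⟫) ((ContinuousLinearMap.apply ℝ ℝ v).comp (fderiv ℝ (fderiv ℝ ψ) x)) x := by
      have h2 := (ContinuousLinearMap.apply ℝ ℝ v).hasFDerivAt.comp x (hd1d x).hasFDerivAt
      have h3 : (ContinuousLinearMap.apply ℝ ℝ v) ∘ (fderiv ℝ ψ) = fun y => ⟪A y, v⟫ := by
        ext y
        rw [Function.comp_apply, ContinuousLinearMap.apply_apply, hA]
      rwa [h3] at h2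
    have h5 := congrArg (fun T : E →L[ℝ] ℝ => T u) (h1.unique h4)
    simp only [ContinuousLinearMap.comp_apply, innerSL_apply_apply, ContinuousLinearMap.apply_apply] at h5
    rw [real_inner_comm]
    exact h5
  have hsymm : ∀ x u v, ⟪H x u, v⟫ = ⟪u, H x v⟫ := by
    intro x u v
    have h1 : IsSymmSndFDerivAt ℝ ψ x := hψ.contDiffAt.isSymmSndFDerivAt (by
      rw [minSmoothness_of_isRCLikeNormedField]
      norm_num)
    rw [real_inner_comm (H x v) u, hHs, hHs]
    exact h1 u v
  have hq : ∀ x k, |⟪H x k, k⟫| ≤ 1 / 10000 * ‖k‖ ^ 2 := by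
    intro x k
    have hl : ∀ s : ℝ, HasDerivAt (fun s : ℝ => x + s • k) k s := by
      intro s
      have := ((hasDerivAt_id s).smul_const k).const_add x
      simpa using this
    refine second26 (g := fun s => ψ (x + s • k)) (g1 := fun s => ⟪A (x + s • k), k⟫) ?_ ?_ ?_
    · intro s
      have h1 := (hψd (x + s • k)).hasFDerivAt.comp_hasDerivAt s (hl s)
      rw [hA]
      exact h1
    · have h1 : HasFDerivAt A (H x) (x + (0 : ℝ) • k) := by
        rw [zero_smul, add_zero]
        exact hH x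
      have h2 := h1.comp_hasDerivAt (0 : ℝ) (hl 0)
      have h3 := (innerSL ℝ k).hasFDerivAt.comp_hasDerivAt (0 : ℝ) h2
      have h4 : (innerSL ℝ k) ∘ (A ∘ fun s : ℝ => x + s • k) = fun s : ℝ => ⟪A (x + s • k), k⟫ := by
        ext s
        rw [Function.comp_apply, Function.comp_apply, innerSL_apply_apply, real_inner_comm]
      rw [h4, innerSL_apply_apply, real_inner_comm] at h3
      exact h3
    · intro s
      have h1 := b3 x (s • k)
      rw [norm_smul, mul_pow, Real.norm_eq_abs, sq_abs] at h1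
      simp only [neg_smul, ← sub_eq_add_neg, zero_smul, add_zero]
      linarith
  have hbH : ∀ x u, ‖H x u‖ ≤ 1 / 10000 * ‖u‖ := by
    intro x k
    by_cases hk : k = 0
    · rw [hk, map_zero, norm_zero, mul_zero]
    by_cases hz : H x k = 0
    · rw [hz, norm_zero]
      positivity
    have hk0 : 0 < ‖k‖ := norm_pos_iff.2 hk
    have hz0 : 0 < ‖H x k‖ := norm_pos_iff.2 hz
    set l : E := (‖k‖ / ‖H x k‖) • H x k with hl
    have hln : ‖l‖ = ‖k‖ := by
      rw [hl, norm_smul, Real.norm_eq_abs, abs_of_pos (by positivity)]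
      field_simp
    have hin : ⟪H x k, l⟫ = ‖k‖ * ‖H x k‖ := by
      rw [hl, real_inner_smul_right, real_inner_self_eq_norm_sq]
      field_simp
    have hpol : ⟪H x (k + l), k + l⟫ - ⟪H x (k - l), k - l⟫ = 4 * ⟪H x k, l⟫ := by
      have h1 : ⟪H x l, k⟫ = ⟪H x k, l⟫ := by
        rw [hsymm, real_inner_comm]
      simp only [map_add, map_sub, inner_add_left, inner_add_right, inner_sub_left, inner_sub_right]
      rw [h1]
      ring
    have hpar : ‖k + l‖ ^ 2 + ‖k - l‖ ^ 2 = 2 * (‖k‖ ^ 2 + ‖l‖ ^ 2) := by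
      have := parallelogram_law_with_norm ℝ k l
      nlinarith
    have q1 := abs_le.1 (hq x (k + l))
    have q2 := abs_le.1 (hq x (k - l))
    rw [hin] at hpol
    rw [hln] at hpar
    have h5 : ‖k‖ * ‖H x k‖ ≤ ‖k‖ * (1 / 10000 * ‖k‖) := by nlinarith [q1.2, q2.1]
    exact le_of_mul_le_mul_left h5 hk0
  refine ⟨ψ, A, H, ⟨b1, ?_, hH, hsymm, ?_, hbH, ?_⟩, b4⟩
  · intro x
    have h1 : innerSL ℝ (A x) = fderiv ℝ ψ x := by
      ext v
      rw [innerSL_apply_apply, hA]
    rw [h1]
    exact (hψd x).hasFDerivAt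
  · intro x
    have h1 : ‖fderiv ℝ ψ x‖ ≤ 1 / 10000 := by
      have h2 : LipschitzWith ⟨1 / 10000, by norm_num⟩ ψ := by
        refine LipschitzWith.of_dist_le_mul fun y z => ?_
        rw [Real.dist_eq, dist_eq_norm]
        exact b2 y z
      exact norm_fderiv_le_of_lipschitz ℝ h2
    by_cases hz : A x = 0
    · rw [hz, norm_zero]
      norm_num
    have hz0 : 0 < ‖A x‖ := norm_pos_iff.2 hz
    have h3 : ‖A x‖ * ‖A x‖ ≤ ‖A x‖ * (1 / 10000) := by
      rw [← real_inner_self_eq_norm_mul_norm, hA]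
      have h4 := (le_abs_self _).trans ((fderiv ℝ ψ x).le_opNorm (A x))
      have h5 : ‖fderiv ℝ ψ x‖ * ‖A x‖ ≤ 1 / 10000 * ‖A x‖ := by gcongr
      linarith
    exact le_of_mul_le_mul_left h3 hz0
  · intro R
    have hHd : Differentiable ℝ H := hHc.differentiable (by norm_num)
    have hc : Continuous fun x => ‖fderiv ℝ H x‖ := (hHc.continuous_fderiv (by norm_num)).norm
    obtain ⟨K, hK⟩ := (isCompact_closedBall (0 : E) R).bddAbove_image hc.continuousOn
    refine ⟨max K 0, le_max_right _ _, fun x y hx hy => ?_⟩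
    have hKb : ∀ z ∈ Metric.closedBall (0 : E) R, ‖fderiv ℝ H z‖ ≤ max K 0 := fun z hz =>
      (hK ⟨z, hz, rfl⟩).trans (le_max_left _ _)
    have hcv : Convex ℝ (Metric.closedBall (0 : E) R) := convex_closedBall 0 R
    have hx' : x ∈ Metric.closedBall (0 : E) R := mem_closedBall_zero_iff.2 hx
    have hy' : y ∈ Metric.closedBall (0 : E) R := mem_closedBall_zero_iff.2 hy
    have hL : ∀ z ∈ Metric.closedBall (0 : E) R, ‖H z - H x‖ ≤ max K 0 * ‖z - x‖ := fun z hz =>
      hcv.norm_image_sub_le_of_norm_hasFDerivWithin_le (f := H) (f' := fderiv ℝ H)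
        (fun w _ => (hHd w).hasFDerivAt.hasFDerivWithinAt) hKb hx' hz
    have hseg : segment ℝ x y ⊆ Metric.closedBall (0 : E) R := hcv.segment_subset hx' hy'
    have h1 := (convex_segment x y).norm_image_sub_le_of_norm_hasFDerivWithin_le' (f := A) (f' := H) (φ := H x)
      (C := max K 0 * ‖y - x‖) (fun z _ => (hH z).hasFDerivWithinAt) (fun z hz => by
        refine (hL z (hseg hz)).trans ?_
        have h2 : ‖z - x‖ ≤ ‖y - x‖ := by
          obtain ⟨t, ht0, ht1⟩ := (segment_eq_image' ℝ x y).subset hz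
          rw [← ht1]
          simp only [add_sub_cancel_left]
          rw [norm_smul, Real.norm_eq_abs, abs_of_nonneg ht0.1]
          have := norm_nonneg (y - x)
          nlinarith [ht0.2]
        gcongr) (left_mem_segment ℝ x y) (right_mem_segment ℝ x y)
    calc ‖A y - A x - H x (y - x)‖ ≤ max K 0 * ‖y - x‖ * ‖y - x‖ := h1
      _ = max K 0 * ‖y - x‖ ^ 2 := by ring

end Pool.Agent.Helper48.FC
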