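import Mathlib
import Pool.Agent.Helper48.FC.Moll
import Pool.Agent.Helper48.FC.Chain

/-!
Block FC-15.  Comparison of the distance on `E` with distances of smooth weights on finite-dimensional subspaces.

For all pairs `(p, q)` in `F × F` choose (`exists_chain`) a chain from `p` to `q` in `E` with `csum < cinf (ed φ) p q + δ/2`.  Let `S` be the span of `F` and of all
points `c 0, ..., c n` of these chains: finite-dimensional.  The restriction of `φ` to `S` is `Slow`.  Let `B ≥ 0` be a bound for all the numbers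
`cinf (ed φ) p q + δ/2`, and `m > 0` so small that `exp (2 m) ≤ 1 + δ` and `exp (2 m) (b + δ/2) ≤ b + δ` for `0 ≤ b ≤ B` (for instance
`exp (2 m) - 1 ≤ min δ (δ/(2 (B + 1)))`), and `ψ` from `exists_good` on `S`.  For `a, b ∈ S`: the chords satisfy `rr φ a b ≤ exp m * rr ψ a b` and
`rr ψ a b ≤ exp m * rr φ a b` (norms in `S` and `E` agree), so `ed φ a b ≤ exp (2m) ed ψ a b` and conversely (`k ≥ 1`: `k r + k² r² ≤ k² (r + r²)`).
A chain in `S` is a chain in `E`: `cinf (ed φ) a b ≤ exp (2m) cinf (ed ψ) a b`.  For `a, b ∈ F` the chosen chain is a chain in `S` (its first `n + 1`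
points are in `S`; change the others, `csum_congr`).
-/

set_option autoImplicit false
set_option linter.unusedSectionVars false

namespace Pool.Agent.Helper48.FC

open Real Set
open scoped RealInnerProductSpace

variable {E : Type*} [NormedAddCommGroup E] [InnerProductSpace ℝ E]

private lemma ed_le74 {r r' k : ℝ} (hr : 0 ≤ r) (hr' : 0 ≤ r') (hk : 1 ≤ k) (h : r ≤ k * r') :
    r + r ^ 2 ≤ k ^ 2 * (r' + r' ^ 2) := by
  have h1 : r ^ 2 ≤ (k * r') ^ 2 := pow_le_pow_left₀ hr h 2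
  have h2 : k * r' ≤ k ^ 2 * r' := by
    refine mul_le_mul_of_nonneg_right ?_ hr'
    nlinarith
  nlinarith

private lemma comp74 {S : Submodule ℝ E} {φ : E → ℝ} {ψ : S → ℝ} {m : ℝ} (hm : 0 ≤ m)
    (h : ∀ x : S, |ψ x - φ x| ≤ m) (a b : S) :
    ed φ (a : E) (b : E) ≤ exp (2 * m) * ed ψ a b ∧ ed ψ a b ≤ exp (2 * m) * ed φ (a : E) (b : E) := by
  have e : exp (2 * m) = exp m ^ 2 := by
    rw [← Real.exp_nat_mul]
    norm_num
  have hn : ‖a - b‖ = ‖(a : E) - (b : E)‖ := rfl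
  have ha := abs_le.1 (h a)
  have hb := abs_le.1 (h b)
  have hr1 : 0 ≤ rr φ (a : E) (b : E) := mul_nonneg (norm_nonneg _) (exp_pos _).le
  have hr2 : 0 ≤ rr ψ a b := mul_nonneg (norm_nonneg _) (exp_pos _).le
  have hk : 1 ≤ exp m := Real.one_le_exp hm
  constructor
  · rw [e]
    refine ed_le74 hr1 hr2 hk ?_
    unfold rr
    have h1 : exp ((φ a + φ b) / 2) ≤ exp m * exp ((ψ a + ψ b) / 2) := by
      rw [← exp_add]
      exact exp_le_exp.2 (by linarith)
    have h2 := mul_le_mul_of_nonneg_left h1 (norm_nonneg ((a : E) - (b : E)))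
    rw [hn]
    linarith
  · rw [e]
    refine ed_le74 hr2 hr1 hk ?_
    unfold rr
    have h1 : exp ((ψ a + ψ b) / 2) ≤ exp m * exp ((φ a + φ b) / 2) := by
      rw [← exp_add]
      exact exp_le_exp.2 (by linarith)
    have h2 := mul_le_mul_of_nonneg_left h1 (norm_nonneg ((a : E) - (b : E)))
    rw [hn]
    linarith

private lemma csum74 {S : Submodule ℝ E} {φ : E → ℝ} {ψ : S → ℝ} {m : ℝ} (hm : 0 ≤ m)
    (h : ∀ x : S, |ψ x - φ x| ≤ m) (c : ℕ → S) (n : ℕ) :
    csum (ed φ) (fun k => (c k : E)) n ≤ exp (2 * m) * csum (ed ψ) c n ∧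
      csum (ed ψ) c n ≤ exp (2 * m) * csum (ed φ) (fun k => (c k : E)) n := by
  unfold csum
  rw [Finset.mul_sum, Finset.mul_sum]
  exact ⟨Finset.sum_le_sum fun i _ => (comp74 hm h _ _).1, Finset.sum_le_sum fun i _ => (comp74 hm h _ _).2⟩

theorem cmpd {φ : E → ℝ} (h : Slow φ) (F : Finset E) {δ : ℝ} (hδ : 0 < δ) :
    ∃ (S : Submodule ℝ E) (_ : FiniteDimensional ℝ S) (ψ : S → ℝ) (A : S → S) (H : S → S →L[ℝ] S),
      Good ψ A H ∧ (∀ p ∈ F, p ∈ S) ∧
      (∀ a b : S, cinf (ed φ) (a : E) (b : E) ≤ (1 + δ) * cinf (ed ψ) a b) ∧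
      ∀ a b : S, (a : E) ∈ F → (b : E) ∈ F →
        cinf (ed ψ) a b ≤ cinf (ed φ) (a : E) (b : E) + δ := by
  classical
  have e0 : ∀ a b : E, 0 ≤ ed φ a b := fun a b => add_nonneg (mul_nonneg (norm_nonneg _) (exp_pos _).le) (sq_nonneg _)
  have hex : ∀ p q : E, ∃ (c : ℕ → E) (n : ℕ), c 0 = p ∧ c n = q ∧ csum (ed φ) c n < cinf (ed φ) p q + δ / 2 :=
    fun p q => exists_chain (by linarith)
  choose c n hc0 hcn hcs using hex
  set T : Finset E := F ∪ (F ×ˢ F).biUnion fun pq => (Finset.range (n pq.1 pq.2 + 1)).image (c pq.1 pq.2) with hT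
  set S : Submodule ℝ E := Submodule.span ℝ (T : Set E) with hS
  have hfd : FiniteDimensional ℝ S := FiniteDimensional.span_finset ℝ T
  have hF : ∀ p ∈ F, p ∈ S := fun p hp => Submodule.subset_span (by
    rw [hT]
    exact Finset.mem_coe.2 (Finset.mem_union_left _ hp))
  have hcS : ∀ p ∈ F, ∀ q ∈ F, ∀ k ≤ n p q, c p q k ∈ S := fun p hp q hq k hk => Submodule.subset_span (by
    rw [hT]
    refine Finset.mem_coe.2 (Finset.mem_union_right _ (Finset.mem_biUnion.2 ⟨(p, q), Finset.mem_product.2 ⟨hp, hq⟩, ?_⟩))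
    exact Finset.mem_image.2 ⟨k, Finset.mem_range.2 (by simpa using Nat.lt_succ_of_le hk), rfl⟩)
  -- the bound
  set B : ℝ := ∑ pq ∈ F ×ˢ F, (cinf (ed φ) pq.1 pq.2 + δ / 2) with hB
  have hterm : ∀ pq ∈ F ×ˢ F, 0 ≤ cinf (ed φ) pq.1 pq.2 + δ / 2 := fun pq _ => by
    have := cinf_nonneg e0 pq.1 pq.2
    linarith
  have hB0 : 0 ≤ B := Finset.sum_nonneg hterm
  have hBle : ∀ p ∈ F, ∀ q ∈ F, cinf (ed φ) p q + δ / 2 ≤ B := fun p hp q hq =>
    Finset.single_le_sum (f := fun pq : E × E => cinf (ed φ) pq.1 pq.2 + δ / 2) hterm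
      (show (p, q) ∈ F ×ˢ F from Finset.mem_product.2 ⟨hp, hq⟩)
  set η : ℝ := min δ (δ / (2 * (B + 1))) with hη
  have hη0 : 0 < η := lt_min hδ (by positivity)
  have hη1 : η ≤ δ := min_le_left _ _
  have hη2 : η * B ≤ δ / 2 := by
    have h1 : η ≤ δ / (2 * (B + 1)) := min_le_right _ _
    have h2 : η * B ≤ δ / (2 * (B + 1)) * B := mul_le_mul_of_nonneg_right h1 hB0
    refine h2.trans ?_
    rw [div_mul_eq_mul_div, div_le_div_iff₀ (by positivity) (by norm_num)]
    nlinarith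
  set m : ℝ := log (1 + η) / 2 with hm
  have hm0 : 0 < m := by
    have : 0 < log (1 + η) := Real.log_pos (by linarith)
    positivity
  have hexp : exp (2 * m) = 1 + η := by
    rw [hm, show 2 * (log (1 + η) / 2) = log (1 + η) by ring, Real.exp_log (by linarith)]
  have hslow : Slow (fun x : S => φ (x : E)) := by
    refine ⟨fun x => h.bdd _, fun x y => h.lip _ _, fun x k => ?_⟩
    exact h.sd (x : E) (k : E)
  obtain ⟨ψ, A, H, hgood, hψ⟩ := exists_good hslow hm0
  have e0' : ∀ a b : S, 0 ≤ ed ψ a b := fun a b => add_nonneg (mul_nonneg (norm_nonneg _) (exp_pos _).le) (sq_nonneg _)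
  refine ⟨S, hfd, ψ, A, H, hgood, hF, ?_, ?_⟩
  · intro a b
    have h1 : cinf (ed φ) (a : E) (b : E) / (1 + η) ≤ cinf (ed ψ) a b := by
      refine le_cinf fun d k hd0 hdk => ?_
      rw [div_le_iff₀ (by linarith), mul_comm]
      have h2 := (csum74 hm0.le hψ d k).1
      rw [hexp] at h2
      refine le_trans (cinf_le_csum e0 (c := fun k => (d k : E)) ?_ ?_) h2
      · rw [hd0]
      · rw [hdk]
    rw [div_le_iff₀ (by linarith)] at h1
    have h2 := cinf_nonneg e0' a b
    nlinarith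
  · intro a b ha hb
    let d : ℕ → S := fun k => if hk : c a b k ∈ S then ⟨c a b k, hk⟩ else 0
    have hd : ∀ k ≤ n a b, ((d k : S) : E) = c a b k := by
      intro k hk
      simp only [d]
      rw [dif_pos (hcS _ ha _ hb k hk)]
    have hd0 : d 0 = a := Subtype.ext ((hd 0 (Nat.zero_le _)).trans (hc0 _ _))
    have hdn : d (n a b) = b := Subtype.ext ((hd _ le_rfl).trans (hcn _ _))
    have h1 := cinf_le_csum e0' hd0 hdn
    have h2 := (csum74 hm0.le hψ d (n a b)).2
    have h3 : csum (ed φ) (fun k => (d k : E)) (n a b) = csum (ed φ) (c a b) (n a b) := csum_congr hd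
    rw [h3, hexp] at h2
    have h4 := hcs (a : E) (b : E)
    have h5 := hBle _ ha _ hb
    have h6 : η * csum (ed φ) (c a b) (n a b) ≤ η * B := mul_le_mul_of_nonneg_left (by linarith) hη0.le
    linarith

end Pool.Agent.Helper48.FC
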