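import Mathlib
import Pool.Agent.Helper48.FC.FV
import Pool.Agent.Helper48.FC.Chain

/-!
Block FC-12.  One step changes the length by at most its cost.

Let `q s = a + s (b - a)`, `s ∈ [0,1]`; `‖q s - o‖ ≤ 10` (convexity of the ball).  `F s = ll o (q s)²/2` has the derivative
`g s = ⟪gg o (q s), b - a⟫` within `[0,1]` (`first_var`), and `|g s| ≤ exp (φ (q s)) ll o (q s) ‖b - a‖ ≤ M √(2 F s)` (`norm_gg`), where
`M = rr φ a b + (rr φ a b)²`: `φ (q s) ≤ (φ a + φ b)/2 + ‖b - a‖/20000` (`Good.lip`; distances to `a` and `b` add up to `‖b - a‖`), so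
`exp (φ (q s)) ‖b - a‖ ≤ r exp (‖b - a‖/20000)`, `r = rr φ a b`, `‖b - a‖ ≤ 10/9 r` (`norm_le_rr`) and `‖b - a‖ ≤ 20`, `exp x ≤ 1 + 2 x` for `0 ≤ x ≤ 1`:
at most `r (1 + r)`.  For `ε > 0` the function `√(2 F s + ε)` has derivative `g/√(2F + ε)`, at most `M`, so
`ll o b ≤ √(2 F 1 + ε) ≤ √(2 F 0 + ε) + M = √(ll o a² + ε) + ed φ a b`; let `ε → 0`.
-/

set_option autoImplicit false
set_option linter.unusedSectionVars false

namespace Pool.Agent.Helper48.FC

open Real Set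
open scoped RealInnerProductSpace

variable {E : Type*} [NormedAddCommGroup E] [InnerProductSpace ℝ E] [CompleteSpace E]
variable {φ : E → ℝ} {A : E → E} {H : E → E →L[ℝ] E}

private theorem seg_ball99 {o a b : E} {R : ℝ} (ha : ‖a - o‖ ≤ R) (hb : ‖b - o‖ ≤ R) {s : ℝ}
    (hs : s ∈ Icc (0 : ℝ) 1) : ‖a + s • (b - a) - o‖ ≤ R := by
  have h1 : a + s • (b - a) - o = (1 - s) • (a - o) + s • (b - o) := by
    simp only [smul_sub, sub_smul, one_smul]
    abel
  rw [h1]
  have h2 := norm_add_le ((1 - s) • (a - o)) (s • (b - o))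
  rw [norm_smul, norm_smul, Real.norm_eq_abs, Real.norm_eq_abs, abs_of_nonneg hs.1,
    abs_of_nonneg (sub_nonneg.2 hs.2)] at h2
  have h3 := mul_le_mul_of_nonneg_left ha (sub_nonneg.2 hs.2)
  have h4 := mul_le_mul_of_nonneg_left hb hs.1
  linarith

omit [CompleteSpace E] in
private theorem weight99 (h : Good φ A H) {a b : E} (hD : ‖b - a‖ ≤ 20) {s : ℝ}
    (hs : s ∈ Icc (0 : ℝ) 1) : exp (φ (a + s • (b - a))) * ‖b - a‖ ≤ ed φ a b := by
  have h0 := norm_nonneg (b - a)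
  have h1 := h.lip (a + s • (b - a)) a
  have h2 := h.lip (a + s • (b - a)) b
  have e1 : a + s • (b - a) - a = s • (b - a) := by abel
  have e2 : a + s • (b - a) - b = -((1 - s) • (b - a)) := by
    simp only [sub_smul, one_smul]
    abel
  rw [e1, norm_smul, Real.norm_eq_abs, abs_of_nonneg hs.1] at h1
  rw [e2, norm_neg, norm_smul, Real.norm_eq_abs, abs_of_nonneg (sub_nonneg.2 hs.2)] at h2
  have h3 : φ (a + s • (b - a)) ≤ (φ a + φ b) / 2 + ‖b - a‖ / 20000 := by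
    have h4 := (abs_le.1 h1).2
    have h5 := (abs_le.1 h2).2
    linarith
  have h4 : exp (φ (a + s • (b - a))) * ‖b - a‖ ≤ rr φ a b * exp (‖b - a‖ / 20000) := by
    calc exp (φ (a + s • (b - a))) * ‖b - a‖ ≤
        exp ((φ a + φ b) / 2 + ‖b - a‖ / 20000) * ‖b - a‖ :=
          mul_le_mul_of_nonneg_right (exp_le_exp.2 h3) h0
      _ = rr φ a b * exp (‖b - a‖ / 20000) := by
          unfold rr
          rw [exp_add, norm_sub_rev a b]
          ring
  have h5 : exp (‖b - a‖ / 20000) ≤ 1 + rr φ a b := by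
    have h6 := Real.abs_exp_sub_one_le (x := ‖b - a‖ / 20000) (by
      rw [abs_of_nonneg (by positivity)]; linarith)
    rw [abs_of_nonneg (by positivity : 0 ≤ ‖b - a‖ / 20000)] at h6
    have h7 := (abs_le.1 h6).2
    have h8 := norm_le_rr h.bdd a b
    rw [norm_sub_rev] at h8
    have h9 := rr_nonneg (φ := φ) a b
    linarith
  refine h4.trans ?_
  have h9 := mul_le_mul_of_nonneg_left h5 (rr_nonneg (φ := φ) a b)
  unfold ed
  linarith

theorem ll_lip (h : Good φ A H) {o a b : E} (ha : ‖a - o‖ ≤ 10) (hb : ‖b - o‖ ≤ 10) :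
    ll φ A o b ≤ ll φ A o a + ed φ a b := by
  have hD : ‖b - a‖ ≤ 20 := by
    have e1 : b - a = (b - o) - (a - o) := by abel
    rw [e1]
    have := norm_sub_le (b - o) (a - o)
    linarith
  obtain ⟨q, hq⟩ : ∃ q : ℝ → E, q = fun s => a + s • (b - a) := ⟨_, rfl⟩
  have hq0 : q 0 = a := by rw [hq]; simp
  have hq1 : q 1 = b := by rw [hq]; simp
  have hqb : ∀ s ∈ Icc (0 : ℝ) 1, ‖q s - o‖ ≤ 10 := fun s hs => by
    rw [hq]; exact seg_ball99 ha hb hs
  obtain ⟨g, hg⟩ : ∃ g : ℝ → ℝ, g = fun s => ⟪gg φ A o (q s), b - a⟫ := ⟨_, rfl⟩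
  have hgb : ∀ s ∈ Icc (0 : ℝ) 1, |g s| ≤ ed φ a b * ll φ A o (q s) := by
    intro s hs
    have h1 := abs_real_inner_le_norm (gg φ A o (q s)) (b - a)
    rw [norm_gg h (hqb s hs)] at h1
    have h2 := weight99 h hD hs
    have h3 : 0 ≤ ll φ A o (q s) := ll_nonneg _ _
    rw [hg]
    refine h1.trans ?_
    have h4 := mul_le_mul_of_nonneg_right h2 h3
    have h5 : exp (φ (q s)) = exp (φ (a + s • (b - a))) := by rw [hq]
    rw [h5]
    linarith
  have hder : ∀ s ∈ Icc (0 : ℝ) 1,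
      HasDerivWithinAt (fun s => ll φ A o (q s) ^ 2 / 2) (g s) (Icc 0 1) s := by
    intro s hs
    rw [hasDerivWithinAt_iff_isLittleO]
    refine Asymptotics.IsBigO.trans_isLittleO (g := fun s' : ℝ => ‖s' - s‖ ^ 2) ?_
      ((Asymptotics.isLittleO_pow_sub_sub s (by norm_num)).mono nhdsWithin_le_nhds)
    refine Asymptotics.IsBigO.of_bound (10 * ‖b - a‖ ^ 2) ?_
    filter_upwards [self_mem_nhdsWithin] with s' hs'
    have h1 := first_var h (hqb s hs) (hqb s' hs')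
    have h2 : q s' - q s = (s' - s) • (b - a) := by
      rw [hq]
      simp only [sub_smul]
      abel
    rw [h2, real_inner_smul_right, norm_smul] at h1
    have e3 : ‖(‖s' - s‖ ^ 2 : ℝ)‖ = ‖s' - s‖ ^ 2 := by
      rw [Real.norm_eq_abs, abs_of_nonneg (sq_nonneg _)]
    rw [e3, smul_eq_mul, hg]
    refine h1.trans (le_of_eq ?_)
    ring
  have hmain : ∀ ε : ℝ, 0 < ε → ll φ A o b ≤ ll φ A o a + ed φ a b + ε := by
    intro ε hε
    have hpos : ∀ s, 0 < 2 * (ll φ A o (q s) ^ 2 / 2) + ε ^ 2 := fun s => by positivity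
    have h1 := (convex_Icc (0 : ℝ) 1).norm_image_sub_le_of_norm_hasDerivWithin_le
      (f := fun s => √(2 * (ll φ A o (q s) ^ 2 / 2) + ε ^ 2))
      (f' := fun s => (2 * g s) / (2 * √(2 * (ll φ A o (q s) ^ 2 / 2) + ε ^ 2)))
      (C := ed φ a b)
      (fun s hs => (((hder s hs).const_mul 2).add_const (ε ^ 2)).sqrt (hpos s).ne')
      (fun s hs => by
        have h2 : 0 < √(2 * (ll φ A o (q s) ^ 2 / 2) + ε ^ 2) := Real.sqrt_pos.2 (hpos s)
        have h3 : ll φ A o (q s) ≤ √(2 * (ll φ A o (q s) ^ 2 / 2) + ε ^ 2) := by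
          apply Real.le_sqrt_of_sq_le
          nlinarith [sq_nonneg ε]
        rw [mul_div_mul_left _ _ (by norm_num : (2 : ℝ) ≠ 0), Real.norm_eq_abs, abs_div,
          abs_of_pos h2, div_le_iff₀ h2]
        exact (hgb s hs).trans (mul_le_mul_of_nonneg_left h3 (ed_nonneg a b)))
      (left_mem_Icc.2 zero_le_one) (right_mem_Icc.2 zero_le_one)
    rw [sub_zero, norm_one, mul_one, Real.norm_eq_abs, hq0, hq1] at h1
    have h2 := (abs_le.1 h1).2
    have h3 : ll φ A o b ≤ √(2 * (ll φ A o b ^ 2 / 2) + ε ^ 2) := by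
      apply Real.le_sqrt_of_sq_le
      nlinarith [sq_nonneg ε]
    have h4 : √(2 * (ll φ A o a ^ 2 / 2) + ε ^ 2) ≤ ll φ A o a + ε := by
      have h5 : 0 ≤ ll φ A o a := ll_nonneg _ _
      rw [Real.sqrt_le_left (by positivity)]
      nlinarith
    linarith
  exact le_of_forall_pos_le_add hmain

end Pool.Agent.Helper48.FC
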