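import Mathlib
import Pool.Agent.Helper48.FC.Lip

/-!
Block FC-13.  Geodesics realise the infimum over chains.

(≤) Let `(c, v)` be the geodesic from `x` to `y`, `ℓ = ll x y = exp (φ (c t)) ‖v t‖` (`ll_eq`), `n ≥ 1`, chain `c (i/n)`.  On `[i/n, (i+1)/n]` the numbers `φ (c t)`
differ by at most `11/(10000 n)` (`Good.lip`, `‖v‖ ≤ 11`), so `‖c ((i+1)/n) - c (i/n)‖ ≤ (1/n) sup ‖v‖ = (1/n) ℓ exp (-inf φ)` and
`rr φ (c (i/n)) (c ((i+1)/n)) ≤ (ℓ/n) exp (1/n)`.  So `csum ≤ ℓ exp (1/n) + ℓ² exp (2/n)/n`, which tends to `ℓ`.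
(≥) `le_cinf`: let `c 0 = x, ..., c n = y` be a chain in `E` with `csum (ed φ) c n < ℓ` (otherwise nothing to prove), `ℓ ≤ 1.12 * 8 = 8.96` (`ll_le`).
For `i ≤ n`: `csum c i ≤ csum c n < 8.96` and `‖c i - x‖ ≤ 10/9 csum c i ≤ 10` (`norm_le_csum`).  Induction with `ll_lip` (`o = x`) and `ll_self`:
`ll x (c i) ≤ csum c i`.  So `ℓ ≤ csum c n`, contradiction.
-/

set_option autoImplicit false
set_option linter.unusedSectionVars false

namespace Pool.Agent.Helper48.FC

open Real Set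
open scoped RealInnerProductSpace

variable {E : Type*} [NormedAddCommGroup E] [InnerProductSpace ℝ E] [CompleteSpace E]
variable {φ : E → ℝ} {A : E → E} {H : E → E →L[ℝ] E}

private theorem seg_move {x y : E} {c v : ℝ → E} (g : Seg A x y c v) {s t M : ℝ} (hs : 0 ≤ s)
    (hst : s ≤ t) (ht : t ≤ 1) (hM : ∀ r ∈ Icc s t, ‖v r‖ ≤ M) : ‖c t - c s‖ ≤ M * (t - s) :=
  norm_image_sub_le_of_norm_deriv_le_segment' (f := c) (f' := v) (C := M) (a := s) (b := t)
    (fun r hr => (g.geo.dc r ⟨hs.trans hr.1, hr.2.trans ht⟩).hasDerivWithinAt)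
    (fun r hr => hM r ⟨hr.1, hr.2.le⟩) t ⟨hst, le_rfl⟩

private theorem edge_le (h : Good φ A H) {x y : E} {c v : ℝ → E} (g : Seg A x y c v)
    (hd : ‖y - x‖ ≤ 10) {s t : ℝ} (hs : 0 ≤ s) (hst : s ≤ t) (ht : t ≤ 1) :
    rr φ (c s) (c t) ≤ ll φ A x y * (t - s) * exp (t - s) := by
  have hl0 : 0 ≤ ll φ A x y := ll_nonneg x y
  have hts : 0 ≤ t - s := by linarith
  have m1 : ∀ r ∈ Icc s t, ‖c r - c s‖ ≤ 11 * (t - s) := by
    intro r hr
    refine (seg_move g hs hr.1 (hr.2.trans ht) (M := 11) (fun q hq => g.norm_le_eleven hd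
      ⟨hs.trans hq.1, hq.2.trans (hr.2.trans ht)⟩)).trans ?_
    have := hr.2
    linarith
  have m2 : ∀ r ∈ Icc s t, |φ (c r) - φ (c s)| ≤ (t - s) / 2 := by
    intro r hr
    have h1 := h.lip (c r) (c s)
    have h2 := m1 r hr
    linarith
  have m3 : ∀ r ∈ Icc s t, ‖v r‖ ≤ ll φ A x y * exp (-φ (c s) + (t - s) / 2) := by
    intro r hr
    have h1 := ll_eq h g hd (t := r) ⟨hs.trans hr.1, hr.2.trans ht⟩
    have h2 : ‖v r‖ = ll φ A x y * exp (-φ (c r)) := by
      rw [← h1, exp_neg]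
      have := exp_pos (φ (c r))
      field_simp
    rw [h2]
    apply mul_le_mul_of_nonneg_left _ hl0
    apply exp_le_exp.2
    have := (abs_le.1 (m2 r hr)).1
    linarith
  have m4 := seg_move g hs hst ht m3
  unfold rr
  rw [norm_sub_rev]
  have h5 : exp ((φ (c s) + φ (c t)) / 2) ≤ exp (φ (c s) + (t - s) / 2) := by
    apply exp_le_exp.2
    have := (abs_le.1 (m2 t ⟨hst, le_rfl⟩)).2
    linarith
  refine (mul_le_mul m4 h5 (exp_pos _).le (by positivity)).trans (le_of_eq ?_)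
  have h6 : exp (-φ (c s) + (t - s) / 2) * exp (φ (c s) + (t - s) / 2) = exp (t - s) := by
    rw [← exp_add]; congr 1; ring
  rw [← h6]; ring

theorem cinf_eq_ll (h : Good φ A H) {x y : E} (hd : ‖y - x‖ ≤ 8) :
    cinf (ed φ) x y = ll φ A x y := by
  apply le_antisymm
  · obtain ⟨c, v, g⟩ := exists_seg h (x := x) (y := y) (by linarith)
    have hl0 : 0 ≤ ll φ A x y := ll_nonneg x y
    have key : ∀ n : ℕ, cinf (ed φ) x y ≤ ll φ A x y * exp (1 / ((n : ℝ) + 1)) +
        (ll φ A x y * exp (1 / ((n : ℝ) + 1))) ^ 2 * (1 / ((n : ℝ) + 1)) := by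
      intro n
      have hn0 : (0 : ℝ) < (n : ℝ) + 1 := by positivity
      have h1 := cinf_le_csum (e := ed φ) ed_nonneg (a := x) (b := y)
        (c := fun i : ℕ => c ((i : ℝ) / ((n : ℝ) + 1))) (n := n + 1) (by simp [g.c0])
        (by
          show c (((n + 1 : ℕ) : ℝ) / ((n : ℝ) + 1)) = y
          push_cast
          rw [div_self hn0.ne', g.c1])
      refine h1.trans ?_
      have h2 : ∀ i ∈ Finset.range (n + 1), ed φ (c ((i : ℝ) / ((n : ℝ) + 1)))
          (c (((i + 1 : ℕ) : ℝ) / ((n : ℝ) + 1))) ≤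
          ll φ A x y * (1 / ((n : ℝ) + 1)) * exp (1 / ((n : ℝ) + 1)) +
          (ll φ A x y * (1 / ((n : ℝ) + 1)) * exp (1 / ((n : ℝ) + 1))) ^ 2 := by
        intro i hi
        rw [Finset.mem_range] at hi
        have hi2 : (i : ℝ) + 1 ≤ (n : ℝ) + 1 := by
          have : i + 1 ≤ n + 1 := hi
          exact_mod_cast this
        have e1 : (((i + 1 : ℕ) : ℝ) / ((n : ℝ) + 1)) - (i : ℝ) / ((n : ℝ) + 1) = 1 / ((n : ℝ) + 1) := by
          push_cast
          rw [← sub_div]; congr 1; ring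
        have h3 := edge_le h g (by linarith) (s := (i : ℝ) / ((n : ℝ) + 1))
          (t := ((i + 1 : ℕ) : ℝ) / ((n : ℝ) + 1)) (by positivity)
          (by
            apply div_le_div_of_nonneg_right _ hn0.le
            push_cast; linarith)
          (by
            rw [div_le_one hn0]
            push_cast; exact hi2)
        rw [e1] at h3
        have h4 := rr_nonneg (φ := φ) (c ((i : ℝ) / ((n : ℝ) + 1))) (c (((i + 1 : ℕ) : ℝ) / ((n : ℝ) + 1)))
        unfold ed
        have h5 := pow_le_pow_left₀ h4 h3 2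
        linarith
      have h3 : csum (ed φ) (fun i : ℕ => c ((i : ℝ) / ((n : ℝ) + 1))) (n + 1) ≤
          ∑ _i ∈ Finset.range (n + 1), (ll φ A x y * (1 / ((n : ℝ) + 1)) * exp (1 / ((n : ℝ) + 1)) +
          (ll φ A x y * (1 / ((n : ℝ) + 1)) * exp (1 / ((n : ℝ) + 1))) ^ 2) :=
        Finset.sum_le_sum h2
      refine h3.trans (le_of_eq ?_)
      rw [Finset.sum_const, Finset.card_range, nsmul_eq_mul]
      push_cast
      field_simp
    have hlim : Filter.Tendsto (fun n : ℕ => ll φ A x y * exp (1 / ((n : ℝ) + 1)) +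
        (ll φ A x y * exp (1 / ((n : ℝ) + 1))) ^ 2 * (1 / ((n : ℝ) + 1))) Filter.atTop
        (nhds (ll φ A x y * exp 0 + (ll φ A x y * exp 0) ^ 2 * 0)) := by
      have h1 : Filter.Tendsto (fun n : ℕ => 1 / ((n : ℝ) + 1)) Filter.atTop (nhds 0) :=
        tendsto_one_div_add_atTop_nhds_zero_nat
      have h2 := (continuous_exp.tendsto 0).comp h1
      have h3 := (tendsto_const_nhds (x := ll φ A x y)).mul h2
      exact h3.add ((h3.pow 2).mul h1)
    rw [exp_zero, mul_one, mul_zero, add_zero] at hlim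
    exact ge_of_tendsto' hlim key
  · apply le_cinf
    intro c n hc0 hcn
    by_contra hlt
    push Not at hlt
    have h1 : ll φ A x y ≤ 1.12 * ‖y - x‖ := ll_le h (by linarith)
    have hsum : csum (ed φ) c n < 8.96 := by linarith
    have hnear : ∀ i ≤ n, ‖c i - x‖ ≤ 10 := by
      intro i hi
      have h2 := norm_le_csum h.bdd c i
      rw [hc0] at h2
      have h3 := csum_mono (e := ed φ) ed_nonneg c hi
      linarith
    have hind : ∀ i ≤ n, ll φ A x (c i) ≤ csum (ed φ) c i := by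
      intro i
      induction i with
      | zero =>
        intro _
        rw [hc0, ll_self, csum_zero]
      | succ i ih =>
        intro hi
        rw [csum_succ]
        have h2 := ll_lip h (o := x) (hnear i (by omega)) (hnear (i + 1) hi)
        have h3 := ih (by omega)
        linarith
    have h4 := hind n le_rfl
    rw [hcn] at h4
    linarith

end Pool.Agent.Helper48.FC
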