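import Mathlib

/-!
Block FC-11.  Sturm comparison for a weak differential inequality `h'' ≥ -a² h`.

If `a = 0` both sides are `0`.  Let `0 < a < π`.  `k τ = h τ sin a - sin ((1-τ) a) h 0 - sin (τ a) h 1`; `k 0 = k 1 = 0`, `k` has derivative
`k1 τ = u τ sin a + a cos ((1-τ) a) h 0 - a cos (τ a) h 1` within `[0,1]`, `k1` is Lipschitz and
`k1 τ' - k1 τ ≥ -(τ'-τ) a² k τ - C' (τ'-τ)²` for `τ ≤ τ'` (the added terms are smooth solutions of `f'' = -a² f`; `sin a ≥ 0`).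
`ψ τ = sin (a τ)`, `ψ' τ = a cos (a τ)`, `W τ = k1 τ ψ τ - k τ ψ' τ`.  Then `W 0 = 0` and for `τ ≤ τ'`
`W τ' - W τ = (k1 τ' - k1 τ) ψ τ' + k1 τ (ψ τ' - ψ τ) - (k τ' - k τ) ψ' τ' - k τ (ψ' τ' - ψ' τ)
 ≥ δ (-a² k τ ψ τ + k1 τ ψ' τ - k1 τ ψ' τ + k τ a² ψ τ) - C'' δ² = -C'' δ²`   (`δ = τ' - τ`, `ψ ≥ 0` on `[0,1]`, everything Lipschitz).
Hence `W` is monotone: dividing `[τ, τ']` into `n` equal parts, `W τ' - W τ ≥ -C'' (τ'-τ)²/n` for all `n`.  So `W ≥ 0`, the function `k/ψ` has the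
derivative `W/ψ² ≥ 0` on `(0,1]` and is monotone there, with value `0` at `1` (`sin a > 0`): `k ≤ 0` on `(0,1]`, and `k 0 = 0`.
-/

set_option autoImplicit false

namespace Pool.Agent.Helper48.FC

open Real Set

/-- Taylor estimate. -/
private theorem stl {f f1 : ℝ → ℝ} {L : ℝ}
    (hd : ∀ τ ∈ Icc (0 : ℝ) 1, HasDerivWithinAt f (f1 τ) (Icc 0 1) τ)
    (hl : ∀ τ ∈ Icc (0 : ℝ) 1, ∀ τ' ∈ Icc (0 : ℝ) 1, |f1 τ' - f1 τ| ≤ L * |τ' - τ|)
    {τ τ' : ℝ} (hτ : τ ∈ Icc (0 : ℝ) 1) (hτ' : τ' ∈ Icc (0 : ℝ) 1) (hle : τ ≤ τ') :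
    |f τ' - f τ - f1 τ * (τ' - τ)| ≤ L * (τ' - τ) ^ 2 := by
  have hL : 0 ≤ L := by
    have h := hl 0 (by constructor <;> norm_num) 1 (by constructor <;> norm_num)
    have h' := abs_nonneg (f1 1 - f1 0)
    norm_num at h
    linarith
  have hsub : Icc τ τ' ⊆ Icc (0 : ℝ) 1 := Icc_subset_Icc hτ.1 hτ'.2
  have key := (convex_Icc τ τ').norm_image_sub_le_of_norm_hasDerivWithin_le
    (f := fun s => f s - f1 τ * s) (f' := fun s => f1 s - f1 τ) (C := L * (τ' - τ))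
    (fun s hs => by
      have h1 := (hd s (hsub hs)).mono hsub
      have h2 := ((hasDerivAt_id s).const_mul (f1 τ)).hasDerivWithinAt (s := Icc τ τ')
      rw [mul_one] at h2
      exact h1.sub h2)
    (fun s hs => by
      rw [Real.norm_eq_abs]
      refine (hl τ hτ s (hsub hs)).trans ?_
      rw [abs_of_nonneg (by linarith [hs.1])]
      exact mul_le_mul_of_nonneg_left (by linarith [hs.2]) hL)
    (left_mem_Icc.2 hle) (right_mem_Icc.2 hle)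
  rw [Real.norm_eq_abs, Real.norm_eq_abs, abs_of_nonneg (by linarith : 0 ≤ τ' - τ)] at key
  have e1 : f τ' - f τ - f1 τ * (τ' - τ) = f τ' - f1 τ * τ' - (f τ - f1 τ * τ) := by ring
  rw [e1]
  calc _ ≤ L * (τ' - τ) * (τ' - τ) := key
    _ = _ := by ring

/-- Mean value estimate. -/
private theorem smv {f f1 : ℝ → ℝ} {L : ℝ}
    (hd : ∀ τ ∈ Icc (0 : ℝ) 1, HasDerivWithinAt f (f1 τ) (Icc 0 1) τ)
    (hl : ∀ τ ∈ Icc (0 : ℝ) 1, |f1 τ| ≤ L)
    {τ τ' : ℝ} (hτ : τ ∈ Icc (0 : ℝ) 1) (hτ' : τ' ∈ Icc (0 : ℝ) 1) :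
    |f τ' - f τ| ≤ L * |τ' - τ| := by
  have key := (convex_Icc (0 : ℝ) 1).norm_image_sub_le_of_norm_hasDerivWithin_le
    (f := f) (f' := f1) (C := L) hd (fun s hs => by simpa using hl s hs) hτ hτ'
  simpa using key

/-- A function with quadratic defect is monotone. -/
private theorem smono {W : ℝ → ℝ} {B : ℝ}
    (hW : ∀ τ ∈ Icc (0 : ℝ) 1, ∀ τ' ∈ Icc (0 : ℝ) 1, τ ≤ τ' → -(B * (τ' - τ) ^ 2) ≤ W τ' - W τ)
    {τ τ' : ℝ} (hτ : τ ∈ Icc (0 : ℝ) 1) (hτ' : τ' ∈ Icc (0 : ℝ) 1) (hle : τ ≤ τ') : W τ ≤ W τ' := by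
  have key : ∀ n : ℕ, 0 < n → -(B * (τ' - τ) ^ 2 / n) ≤ W τ' - W τ := by
    intro n hn
    have hn' : (0 : ℝ) < n := by exact_mod_cast hn
    let t : ℕ → ℝ := fun i => τ + (τ' - τ) * (i / n)
    have hmem : ∀ i ≤ n, t i ∈ Icc (0 : ℝ) 1 := by
      intro i hi
      have h1 : (0 : ℝ) ≤ (i : ℝ) / n := by positivity
      have h2 : (i : ℝ) / n ≤ 1 := by
        rw [div_le_one hn']; exact_mod_cast hi
      have h3 : 0 ≤ (τ' - τ) * ((i : ℝ) / n) := mul_nonneg (by linarith) h1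
      have h4 : (τ' - τ) * ((i : ℝ) / n) ≤ τ' - τ := by nlinarith
      exact ⟨by show 0 ≤ τ + _; linarith [hτ.1], by show τ + _ ≤ 1; linarith [hτ'.2]⟩
    have hstep : ∀ i ∈ Finset.range n, -(B * ((τ' - τ) / n) ^ 2) ≤ W (t (i + 1)) - W (t i) := by
      intro i hi
      have hi' := Finset.mem_range.1 hi
      have hd : t (i + 1) - t i = (τ' - τ) / n := by
        simp only [t]; push_cast; field_simp; ring
      have hnn : 0 ≤ (τ' - τ) / n := div_nonneg (by linarith) hn'.le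
      have := hW (t i) (hmem i hi'.le) (t (i + 1)) (hmem _ hi') (by linarith)
      rwa [hd] at this
    have hs := Finset.sum_le_sum hstep
    rw [Finset.sum_range_sub (fun i => W (t i)), Finset.sum_const, Finset.card_range, nsmul_eq_mul] at hs
    have ht0 : t 0 = τ := by simp [t]
    have htn : t n = τ' := by simp only [t]; rw [div_self hn'.ne']; ring
    rw [ht0, htn] at hs
    have e : (n : ℝ) * -(B * ((τ' - τ) / n) ^ 2) = -(B * (τ' - τ) ^ 2 / n) := by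
      field_simp
    rw [e] at hs
    exact hs
  by_contra hcon
  push Not at hcon
  have hpos : 0 < W τ - W τ' := by linarith
  obtain ⟨n, hn⟩ := exists_nat_gt (B * (τ' - τ) ^ 2 / (W τ - W τ'))
  have hn1 : (0 : ℝ) < (n : ℝ) + 1 := by positivity
  have h := key (n + 1) (Nat.succ_pos n)
  push_cast at h
  have h2 : W τ - W τ' ≤ B * (τ' - τ) ^ 2 / ((n : ℝ) + 1) := by linarith
  rw [le_div_iff₀ hn1] at h2
  rw [div_lt_iff₀ hpos] at hn
  nlinarith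

private theorem sabs {x y A B : ℝ} (hx : |x| ≤ A) (hy : |y| ≤ B) : |x * y| ≤ A * B := by
  rw [abs_mul]
  exact mul_le_mul hx hy (abs_nonneg _) ((abs_nonneg _).trans hx)

theorem sturm {h u : ℝ → ℝ} {a C : ℝ} (ha : 0 ≤ a) (haπ : a < π) (hC : 0 ≤ C)
    (hd : ∀ τ ∈ Icc (0 : ℝ) 1, HasDerivWithinAt h (u τ) (Icc 0 1) τ)
    (hl : ∀ τ ∈ Icc (0 : ℝ) 1, ∀ τ' ∈ Icc (0 : ℝ) 1, |u τ' - u τ| ≤ C * |τ' - τ|)
    (h2 : ∀ τ ∈ Icc (0 : ℝ) 1, ∀ τ' ∈ Icc (0 : ℝ) 1, τ ≤ τ' →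
      -((τ' - τ) * (a ^ 2 * h τ)) - C * (τ' - τ) ^ 2 ≤ u τ' - u τ)
    {τ : ℝ} (hτ : τ ∈ Icc (0 : ℝ) 1) :
    h τ * sin a ≤ sin ((1 - τ) * a) * h 0 + sin (τ * a) * h 1 := by
  rcases eq_or_lt_of_le ha with h0 | hapos
  · rw [← h0]; simp
  have hsa : 0 < sin a := sin_pos_of_pos_of_lt_pi hapos haπ
  have hsa1 : sin a ≤ 1 := sin_le_one a
  -- the comparison solution
  set S : ℝ → ℝ := fun s => sin ((1 - s) * a) * h 0 + sin (s * a) * h 1 with hSdef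
  set S1 : ℝ → ℝ := fun s => -(a * cos ((1 - s) * a)) * h 0 + a * cos (s * a) * h 1 with hS1def
  have hS : ∀ s ∈ Icc (0 : ℝ) 1, HasDerivWithinAt S (S1 s) (Icc 0 1) s := by
    intro s _
    have d1 : HasDerivAt (fun s : ℝ => (1 - s) * a) (-a) s := by
      simpa using ((hasDerivAt_id s).const_sub 1).mul_const a
    have d2 : HasDerivAt (fun s : ℝ => s * a) a s := by
      simpa using (hasDerivAt_id s).mul_const a
    have d := (d1.sin.mul_const (h 0)).add (d2.sin.mul_const (h 1))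
    refine (d.hasDerivWithinAt).congr_deriv ?_
    simp only [hS1def]; ring
  have hS1 : ∀ s ∈ Icc (0 : ℝ) 1, HasDerivWithinAt S1 (-(a ^ 2 * S s)) (Icc 0 1) s := by
    intro s _
    have d1 : HasDerivAt (fun s : ℝ => (1 - s) * a) (-a) s := by
      simpa using ((hasDerivAt_id s).const_sub 1).mul_const a
    have d2 : HasDerivAt (fun s : ℝ => s * a) a s := by
      simpa using (hasDerivAt_id s).mul_const a
    have d := (((d1.cos.const_mul a).neg.mul_const (h 0))).add ((d2.cos.const_mul a).mul_const (h 1))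
    refine (d.hasDerivWithinAt).congr_deriv ?_
    simp only [hSdef]; ring
  set M : ℝ := |h 0| + |h 1| with hMdef
  have hM0 : 0 ≤ M := by positivity
  have hSb : ∀ s, |S s| ≤ M := by
    intro s
    simp only [hSdef]
    refine (abs_add_le _ _).trans ?_
    rw [abs_mul, abs_mul]
    have := abs_sin_le_one ((1 - s) * a)
    have := abs_sin_le_one (s * a)
    nlinarith [abs_nonneg (h 0), abs_nonneg (h 1)]
  have hS1b : ∀ s, |S1 s| ≤ a * M := by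
    intro s
    simp only [hS1def]
    refine (abs_add_le _ _).trans ?_
    rw [abs_mul, abs_mul, abs_neg, abs_mul, abs_mul, abs_of_pos hapos]
    have h1 := abs_cos_le_one ((1 - s) * a)
    have h2 := abs_cos_le_one (s * a)
    have h3 : a * |cos ((1 - s) * a)| * |h 0| ≤ a * |h 0| := by
      have := mul_le_mul_of_nonneg_left h1 hapos.le
      nlinarith [abs_nonneg (h 0)]
    have h4 : a * |cos (s * a)| * |h 1| ≤ a * |h 1| := by
      have := mul_le_mul_of_nonneg_left h2 hapos.le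
      nlinarith [abs_nonneg (h 1)]
    rw [hMdef, mul_add]; linarith
  have hSl : ∀ s ∈ Icc (0 : ℝ) 1, ∀ s' ∈ Icc (0 : ℝ) 1,
      |(-(a ^ 2 * S s')) - (-(a ^ 2 * S s))| ≤ (a ^ 2 * (a * M)) * |s' - s| := by
    intro s hs s' hs'
    have e : (-(a ^ 2 * S s')) - (-(a ^ 2 * S s)) = -(a ^ 2 * (S s' - S s)) := by ring
    rw [e, abs_neg, abs_mul, abs_of_nonneg (by positivity : (0:ℝ) ≤ a ^ 2), mul_assoc]
    exact mul_le_mul_of_nonneg_left (smv hS (fun t _ => hS1b t) hs hs') (by positivity)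
  have hS1l : ∀ s ∈ Icc (0 : ℝ) 1, ∀ s' ∈ Icc (0 : ℝ) 1, |S1 s' - S1 s| ≤ (a ^ 2 * M) * |s' - s| := by
    intro s hs s' hs'
    refine smv hS1 (fun t _ => ?_) hs hs'
    rw [abs_neg, abs_mul, abs_of_nonneg (by positivity : (0:ℝ) ≤ a ^ 2)]
    exact mul_le_mul_of_nonneg_left (hSb t) (by positivity)
  -- the test function
  set ψ : ℝ → ℝ := fun s => sin (a * s) with hψdef
  set ψ1 : ℝ → ℝ := fun s => a * cos (a * s) with hψ1def
  have hψ : ∀ s ∈ Icc (0 : ℝ) 1, HasDerivWithinAt ψ (ψ1 s) (Icc 0 1) s := by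
    intro s _
    have d2 : HasDerivAt (fun s : ℝ => a * s) a s := by
      simpa using (hasDerivAt_id s).const_mul a
    refine (d2.sin.hasDerivWithinAt).congr_deriv ?_
    simp only [hψ1def]; ring
  have hψ1 : ∀ s ∈ Icc (0 : ℝ) 1, HasDerivWithinAt ψ1 (-(a ^ 2 * ψ s)) (Icc 0 1) s := by
    intro s _
    have d2 : HasDerivAt (fun s : ℝ => a * s) a s := by
      simpa using (hasDerivAt_id s).const_mul a
    refine ((d2.cos.const_mul a).hasDerivWithinAt).congr_deriv ?_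
    simp only [hψdef]; ring
  have hψb : ∀ s, |ψ s| ≤ 1 := fun s => abs_sin_le_one _
  have hψ1b : ∀ s, |ψ1 s| ≤ a := by
    intro s
    simp only [hψ1def]
    rw [abs_mul, abs_of_pos hapos]
    nlinarith [abs_cos_le_one (a * s)]
  have hψl : ∀ s ∈ Icc (0 : ℝ) 1, ∀ s' ∈ Icc (0 : ℝ) 1,
      |(-(a ^ 2 * ψ s')) - (-(a ^ 2 * ψ s))| ≤ (a ^ 2 * a) * |s' - s| := by
    intro s hs s' hs'
    have e : (-(a ^ 2 * ψ s')) - (-(a ^ 2 * ψ s)) = -(a ^ 2 * (ψ s' - ψ s)) := by ring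
    rw [e, abs_neg, abs_mul, abs_of_nonneg (by positivity : (0:ℝ) ≤ a ^ 2), mul_assoc]
    exact mul_le_mul_of_nonneg_left (smv hψ (fun t _ => hψ1b t) hs hs') (by positivity)
  have hψ1l : ∀ s ∈ Icc (0 : ℝ) 1, ∀ s' ∈ Icc (0 : ℝ) 1, |ψ1 s' - ψ1 s| ≤ (a ^ 2 * 1) * |s' - s| := by
    intro s hs s' hs'
    refine smv hψ1 (fun t _ => ?_) hs hs'
    rw [abs_neg, abs_mul, abs_of_nonneg (by positivity : (0:ℝ) ≤ a ^ 2)]
    exact mul_le_mul_of_nonneg_left (hψb t) (by positivity)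
  have hψnn : ∀ s ∈ Icc (0 : ℝ) 1, 0 ≤ ψ s := by
    intro s hs
    refine sin_nonneg_of_nonneg_of_le_pi (mul_nonneg ha hs.1) ?_
    nlinarith [hs.2]
  -- the difference
  set k : ℝ → ℝ := fun s => h s * sin a - S s with hkdef
  set k1 : ℝ → ℝ := fun s => u s * sin a - S1 s with hk1def
  have hk : ∀ s ∈ Icc (0 : ℝ) 1, HasDerivWithinAt k (k1 s) (Icc 0 1) s := by
    intro s hs
    exact ((hd s hs).mul_const (sin a)).sub (hS s hs)
  have hk1l : ∀ s ∈ Icc (0 : ℝ) 1, ∀ s' ∈ Icc (0 : ℝ) 1,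
      |k1 s' - k1 s| ≤ (C + a ^ 2 * M) * |s' - s| := by
    intro s hs s' hs'
    have e : k1 s' - k1 s = (u s' - u s) * sin a - (S1 s' - S1 s) := by simp only [hk1def]; ring
    rw [e]
    refine (abs_sub _ _).trans ?_
    rw [abs_mul, abs_of_pos hsa, add_mul]
    refine add_le_add ?_ (hS1l s hs s' hs')
    have := hl s hs s' hs'
    have h3 := mul_le_mul_of_nonneg_left hsa1 (abs_nonneg (u s' - u s))
    linarith
  have hk0 : k 0 = 0 := by simp [hkdef, hSdef]; ring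
  have hk1' : k 1 = 0 := by simp [hkdef, hSdef]; ring
  -- bounds
  set N : ℝ := |k1 0| + (C + a ^ 2 * M) with hNdef
  have hN0 : 0 ≤ N := by positivity
  have hk1b : ∀ s ∈ Icc (0 : ℝ) 1, |k1 s| ≤ N := by
    intro s hs
    have h3 := hk1l 0 (by constructor <;> norm_num) s hs
    rw [sub_zero, abs_of_nonneg hs.1] at h3
    have h4 : |k1 s| ≤ |k1 s - k1 0| + |k1 0| := by
      have := abs_add_le (k1 s - k1 0) (k1 0); simpa using this
    have h5 : (C + a ^ 2 * M) * s ≤ (C + a ^ 2 * M) * 1 :=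
      mul_le_mul_of_nonneg_left hs.2 (by positivity)
    linarith
  have hkb : ∀ s ∈ Icc (0 : ℝ) 1, |k s| ≤ N := by
    intro s hs
    have h3 := smv hk hk1b (by constructor <;> norm_num : (0:ℝ) ∈ Icc (0:ℝ) 1) hs
    rw [hk0, sub_zero, sub_zero, abs_of_nonneg hs.1] at h3
    nlinarith [hs.2]
  -- weak inequality for `k`
  have hkw : ∀ s ∈ Icc (0 : ℝ) 1, ∀ s' ∈ Icc (0 : ℝ) 1, s ≤ s' →
      -((s' - s) * (a ^ 2 * k s)) - (C + a ^ 2 * (a * M)) * (s' - s) ^ 2 ≤ k1 s' - k1 s := by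
    intro s hs s' hs' hle
    have e : k1 s' - k1 s = (u s' - u s) * sin a - (S1 s' - S1 s) := by simp only [hk1def]; ring
    have h3 := mul_le_mul_of_nonneg_right (h2 s hs s' hs' hle) hsa.le
    have h4 := (abs_le.1 (stl hS1 hSl hs hs' hle)).2
    have h5 : C * (s' - s) ^ 2 * sin a ≤ C * (s' - s) ^ 2 := by
      have : 0 ≤ C * (s' - s) ^ 2 := by positivity
      nlinarith
    rw [e]
    simp only [hkdef]
    nlinarith
  -- the Wronskian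
  set W : ℝ → ℝ := fun s => k1 s * ψ s - k s * ψ1 s with hWdef
  have hWm : ∃ B : ℝ, ∀ s ∈ Icc (0 : ℝ) 1, ∀ s' ∈ Icc (0 : ℝ) 1, s ≤ s' →
      -(B * (s' - s) ^ 2) ≤ W s' - W s := by
    refine ⟨(C + a ^ 2 * (a * M)) + N * (a ^ 2 * 1) + a ^ 2 * N * a + a ^ 2 * N * (a ^ 2 * 1) + N * (a ^ 2 * a) +
      N * a ^ 2 * 1 + N * (a ^ 2 * a) + (C + a ^ 2 * M) * a, ?_⟩
    intro s hs s' hs' hle
    set δ : ℝ := s' - s with hδ
    have hδ0 : 0 ≤ δ := by linarith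
    have hδ1 : δ ≤ 1 := by linarith [hs.1, hs'.2]
    -- errors
    obtain ⟨E1, hE1⟩ : ∃ E1, E1 = k1 s' - k1 s + δ * (a ^ 2 * k s) := ⟨_, rfl⟩
    obtain ⟨Ek, hEk⟩ : ∃ Ek, Ek = k s' - k s - k1 s * δ := ⟨_, rfl⟩
    obtain ⟨Eψ, hEψ⟩ : ∃ Eψ, Eψ = ψ s' - ψ s - ψ1 s * δ := ⟨_, rfl⟩
    obtain ⟨Ed, hEd⟩ : ∃ Ed, Ed = ψ1 s' - ψ1 s - (-(a ^ 2 * ψ s)) * δ := ⟨_, rfl⟩
    have b1 : -((C + a ^ 2 * (a * M)) * δ ^ 2) ≤ E1 := by
      have := hkw s hs s' hs' hle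
      rw [hE1]; linarith
    have bk : |Ek| ≤ (C + a ^ 2 * M) * δ ^ 2 := by rw [hEk]; exact stl hk hk1l hs hs' hle
    have bψ : |Eψ| ≤ (a ^ 2 * 1) * δ ^ 2 := by rw [hEψ]; exact stl hψ hψ1l hs hs' hle
    have bd : |Ed| ≤ (a ^ 2 * a) * δ ^ 2 := by rw [hEd]; exact stl hψ1 hψl hs hs' hle
    have c1 := hk1b s hs
    have c2 := hkb s hs
    have c3 := hψb s'
    have c4 := hψnn s' hs'
    have c5 := hψ1b s
    have c6 := hψ1b s'
    have c7 := hψb s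
    have eW : W s' - W s = E1 * ψ s' + (k1 s * Eψ - δ ^ 2 * (a ^ 2 * (k s * ψ1 s)) - δ * (a ^ 2 * (k s * Eψ))) -
        (k s * Ed - δ ^ 2 * (a ^ 2 * (k1 s * ψ s)) + δ * (k1 s * Ed) + Ek * ψ1 s') := by
      have f1 : k1 s' = E1 + k1 s - δ * (a ^ 2 * k s) := by rw [hE1]; ring
      have f2 : k s' = Ek + k s + k1 s * δ := by rw [hEk]; ring
      have f3 : Eψ = ψ s' - ψ s - ψ1 s * δ := hEψ
      have f4 : Ed = ψ1 s' - ψ1 s + a ^ 2 * ψ s * δ := by rw [hEd]; ring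
      show k1 s' * ψ s' - k s' * ψ1 s' - (k1 s * ψ s - k s * ψ1 s) = _
      rw [f1, f2, f3, f4]; ring
    have t0 : -((C + a ^ 2 * (a * M)) * δ ^ 2) ≤ E1 * ψ s' := by
      have hq : 0 ≤ (C + a ^ 2 * (a * M)) * δ ^ 2 := by positivity
      have hψ1' : ψ s' ≤ 1 := (abs_le.1 c3).2
      nlinarith
    have t1 := abs_le.1 (sabs c1 bψ)
    have t2 := abs_le.1 (sabs c2 c5)
    have t3 := abs_le.1 (sabs c2 bψ)
    have t4 := abs_le.1 (sabs c2 bd)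
    have t5 := abs_le.1 (sabs c1 c7)
    have t6 := abs_le.1 (sabs c1 bd)
    have t7 := abs_le.1 (sabs bk c6)
    have a2 : (0 : ℝ) ≤ a ^ 2 := by positivity
    have d2 : (0 : ℝ) ≤ δ ^ 2 := by positivity
    have s2 : δ ^ 2 * (a ^ 2 * (k s * ψ1 s)) ≤ δ ^ 2 * (a ^ 2 * (N * a)) :=
      mul_le_mul_of_nonneg_left (mul_le_mul_of_nonneg_left t2.2 a2) d2
    have s3 : δ * (a ^ 2 * (k s * Eψ)) ≤ a ^ 2 * (N * ((a ^ 2 * 1) * δ ^ 2)) := by
      have q1 : a ^ 2 * (k s * Eψ) ≤ a ^ 2 * (N * ((a ^ 2 * 1) * δ ^ 2)) := mul_le_mul_of_nonneg_left t3.2 a2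
      have q2 : 0 ≤ a ^ 2 * (N * ((a ^ 2 * 1) * δ ^ 2)) := by positivity
      calc δ * (a ^ 2 * (k s * Eψ)) ≤ δ * (a ^ 2 * (N * ((a ^ 2 * 1) * δ ^ 2))) :=
            mul_le_mul_of_nonneg_left q1 hδ0
        _ ≤ 1 * (a ^ 2 * (N * ((a ^ 2 * 1) * δ ^ 2))) := mul_le_mul_of_nonneg_right hδ1 q2
        _ = _ := one_mul _
    have s5 : -(δ ^ 2 * (a ^ 2 * (N * 1))) ≤ δ ^ 2 * (a ^ 2 * (k1 s * ψ s)) := by
      have := mul_le_mul_of_nonneg_left (mul_le_mul_of_nonneg_left t5.1 a2) d2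
      linarith [this, (by ring : δ ^ 2 * (a ^ 2 * -(N * 1)) = -(δ ^ 2 * (a ^ 2 * (N * 1))))]
    have s6 : δ * (k1 s * Ed) ≤ N * ((a ^ 2 * a) * δ ^ 2) := by
      have q2 : 0 ≤ N * ((a ^ 2 * a) * δ ^ 2) := by positivity
      calc δ * (k1 s * Ed) ≤ δ * (N * ((a ^ 2 * a) * δ ^ 2)) := mul_le_mul_of_nonneg_left t6.2 hδ0
        _ ≤ 1 * (N * ((a ^ 2 * a) * δ ^ 2)) := mul_le_mul_of_nonneg_right hδ1 q2
        _ = _ := one_mul _
    rw [eW]
    have fin : -(((C + a ^ 2 * (a * M)) + N * (a ^ 2 * 1) + a ^ 2 * N * a + a ^ 2 * N * (a ^ 2 * 1) + N * (a ^ 2 * a) +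
      N * a ^ 2 * 1 + N * (a ^ 2 * a) + (C + a ^ 2 * M) * a) * δ ^ 2) =
      -((C + a ^ 2 * (a * M)) * δ ^ 2) - N * ((a ^ 2 * 1) * δ ^ 2) - δ ^ 2 * (a ^ 2 * (N * a)) -
      a ^ 2 * (N * ((a ^ 2 * 1) * δ ^ 2)) - N * ((a ^ 2 * a) * δ ^ 2) - δ ^ 2 * (a ^ 2 * (N * 1)) -
      N * ((a ^ 2 * a) * δ ^ 2) - (C + a ^ 2 * M) * δ ^ 2 * a := by ring
    rw [fin]
    linarith [t1.1, t4.2, t7.2]
  obtain ⟨B, hB⟩ := hWm
  have hW0 : W 0 = 0 := by simp [hWdef, hk0, hψdef]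
  have hWnn : ∀ s ∈ Icc (0 : ℝ) 1, 0 ≤ W s := by
    intro s hs
    rw [← hW0]
    exact smono hB (by constructor <;> norm_num) hs hs.1
  have hfin : k τ ≤ 0 := by
    rcases eq_or_lt_of_le hτ.1 with h0 | hpos
    · rw [← h0, hk0]
    have hψpos : ∀ s ∈ Ioc (0 : ℝ) 1, 0 < ψ s := by
      intro s hs
      refine sin_pos_of_pos_of_lt_pi (mul_pos hapos hs.1) ?_
      nlinarith [hs.2]
    have hmon : MonotoneOn (fun s => k s / ψ s) (Ioc 0 1) := by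
      refine monotoneOn_of_deriv_nonneg (convex_Ioc 0 1) ?_ ?_ ?_
      · intro s hs
        have hs' : s ∈ Icc (0 : ℝ) 1 := Ioc_subset_Icc_self hs
        exact (((hk s hs').continuousWithinAt.div (hψ s hs').continuousWithinAt (hψpos s hs).ne')).mono
          Ioc_subset_Icc_self
      · rw [interior_Ioc]
        intro s hs
        have hs' : s ∈ Icc (0 : ℝ) 1 := Ioo_subset_Icc_self hs
        have hn : Icc (0 : ℝ) 1 ∈ nhds s := Icc_mem_nhds hs.1 hs.2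
        exact (((hk s hs').hasDerivAt hn).div ((hψ s hs').hasDerivAt hn)
          (hψpos s (Ioo_subset_Ioc_self hs)).ne').differentiableAt.differentiableWithinAt
      · rw [interior_Ioc]
        intro s hs
        have hs' : s ∈ Icc (0 : ℝ) 1 := Ioo_subset_Icc_self hs
        have hn : Icc (0 : ℝ) 1 ∈ nhds s := Icc_mem_nhds hs.1 hs.2
        have dd := (((hk s hs').hasDerivAt hn).div ((hψ s hs').hasDerivAt hn)
          (hψpos s (Ioo_subset_Ioc_self hs)).ne').deriv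
        have e : deriv (fun s => k s / ψ s) s = (k1 s * ψ s - k s * ψ1 s) / ψ s ^ 2 := dd
        rw [e]
        exact div_nonneg (hWnn s hs') (by positivity)
    have := hmon (⟨hpos, hτ.2⟩ : τ ∈ Ioc (0 : ℝ) 1) (by constructor <;> norm_num : (1:ℝ) ∈ Ioc (0:ℝ) 1) hτ.2
    simp only [hk1', zero_div] at this
    have hp := hψpos τ ⟨hpos, hτ.2⟩
    rw [div_le_iff₀ hp, zero_mul] at this
    exact this
  simp only [hkdef, hSdef] at hfin
  linarith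

end Pool.Agent.Helper48.FC
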