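import Mathlib

/-!
Block FC-10.  From the square of the distance to the cosine of the distance.

`trig`: `θ cos θ ≤ sin θ (1 - θ²/4000)` on `[0, π]`.  For `θ ≥ π/2` the left side is at most `0` and the right side at least `0`.  On `[0, π/2]` the function
`f = sin θ (1 - θ²/4000) - θ cos θ` has `f 0 = 0`, `f' = θ sin θ - (θ/2000) sin θ - (θ²/4000) cos θ = θ ((1999/2000) sin θ - (θ cos θ)/4000) ≥ 0`, as
`θ cos θ ≤ sin θ` (`Real.mul_cos_le_sin`?, or tan) .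

`weak_cos`: `F = θ²/2` is continuous on `[0,1]` (it has a derivative), so `θ` (`= √(2F)`) is continuous and takes values in some `[m, M]`,
`0 < m ≤ M < π`.  `S θ = sin θ/θ`.  `u τ = S (θ τ) g τ`.
* `-cos θ = G(F)`, `G f = -cos √(2f)`, `G' f = sin √(2f)/√(2f)`, so the derivative of `-cos (θ τ)` is `S (θ τ) g τ`.
* Write `s f = sin √(2f)/√(2f)`; it is `C²` on `[m²/2, M²/2]` with `s' f = (cos θ - sin θ/θ)/θ²`, `θ = √(2f)`; so `s (F') - s (F) = s'(F) (F' - F) + O((F'-F)²)`,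
  `F' - F = δ g τ + O(δ²)` (`g` Lipschitz), where `F' = F τ'`, `F = F τ`, `δ = τ' - τ ≥ 0`.
* `u τ' - u τ = s(F') (g τ' - g τ) + (s(F') - s(F)) g τ ≥ s(F') (δ (a² - (θ² a² - g²)/4000) - C δ²) + s'(F) g² δ - C' δ²`
  `≥ δ (s(F) (a² - (θ² a² - g²)/4000) + s'(F) g²) - C'' δ²`.  With `q = g²/θ² ≤ a²` the bracket is
  `S a² - S θ² (a² - q)/4000 + (cos θ - S) q = a² cos θ + (a² - q)(S (1 - θ²/4000) - cos θ) ≥ a² cos θ` by `trig`.
-/

set_option autoImplicit false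

namespace Pool.Agent.Helper48.FC

open Real Set

private theorem mono82 {f f' : ℝ → ℝ} {b : ℝ} (hd : ∀ x, HasDerivAt f (f' x) x) (h0 : f 0 = 0)
    (hp : ∀ x, 0 ≤ x → x ≤ b → 0 ≤ f' x) {x : ℝ} (hx0 : 0 ≤ x) (hxb : x ≤ b) : 0 ≤ f x := by
  have hm : MonotoneOn f (Icc 0 b) := by
    refine monotoneOn_of_deriv_nonneg (convex_Icc 0 b)
      (fun y _ => (hd y).continuousAt.continuousWithinAt)
      (fun y _ => (hd y).differentiableAt.differentiableWithinAt) ?_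
    intro y hy
    rw [interior_Icc] at hy
    rw [(hd y).deriv]
    exact hp y hy.1.le hy.2.le
  have := hm (left_mem_Icc.2 (hx0.trans hxb)) ⟨hx0, hxb⟩ hx0
  rwa [h0] at this

private theorem mul_cos_le82 {θ : ℝ} (h0 : 0 ≤ θ) (h1 : θ ≤ π) : θ * cos θ ≤ sin θ := by
  have h := mono82 (f := fun x => sin x - x * cos x) (f' := fun x => x * sin x) (b := π)
    (fun x => by
      have h2 := (hasDerivAt_sin x).fun_sub ((hasDerivAt_id' x).fun_mul (hasDerivAt_cos x))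
      exact h2.congr_deriv (by ring)) (by simp) (fun x hx hxp => mul_nonneg hx (sin_nonneg_of_nonneg_of_le_pi hx hxp)) h0 h1
  have h3 : 0 ≤ sin θ - θ * cos θ := h
  linarith

theorem trig {θ : ℝ} (h0 : 0 ≤ θ) (h1 : θ ≤ π) : θ * cos θ ≤ sin θ * (1 - θ ^ 2 / 4000) := by
  have hπ : π < 4 := pi_lt_four
  have hs := sin_nonneg_of_nonneg_of_le_pi h0 h1
  by_cases hc : θ ≤ π / 2
  · have h := mono82 (f := fun x => sin x * (1 - x ^ 2 / 4000) - x * cos x)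
      (f' := fun x => x * (1999 / 2000 * sin x - x * cos x / 4000)) (b := π / 2)
      (fun x => by
        have h2 := ((hasDerivAt_sin x).fun_mul ((((hasDerivAt_id' x).fun_pow 2).div_const 4000).const_sub
          1)).fun_sub ((hasDerivAt_id' x).fun_mul (hasDerivAt_cos x))
        exact h2.congr_deriv (by
          push_cast
          ring)) (by simp)
      (fun x hx hxp => by
        have hxπ : x ≤ π := by linarith [pi_pos]
        have h3 := mul_cos_le82 hx hxπ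
        have h4 := sin_nonneg_of_nonneg_of_le_pi hx hxπ
        refine mul_nonneg hx ?_
        linarith) h0 hc
    have h3 : 0 ≤ sin θ * (1 - θ ^ 2 / 4000) - θ * cos θ := h
    linarith
  · push Not at hc
    have hcos : cos θ ≤ 0 := cos_nonpos_of_pi_div_two_le_of_le hc.le (by linarith [pi_pos])
    have h2 : θ * cos θ ≤ 0 := mul_nonpos_of_nonneg_of_nonpos h0 hcos
    have h3 : 0 ≤ sin θ * (1 - θ ^ 2 / 4000) := by
      refine mul_nonneg hs ?_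
      nlinarith
    linarith

private theorem taylor82 {a b K : ℝ} (hK : 0 ≤ K) {φ φ' : ℝ → ℝ}
    (h : ∀ x ∈ Icc a b, HasDerivWithinAt φ (φ' x) (Icc a b) x)
    (hl : ∀ x ∈ Icc a b, ∀ y ∈ Icc a b, |φ' y - φ' x| ≤ K * |y - x|) :
    ∀ x ∈ Icc a b, ∀ y ∈ Icc a b, |φ y - φ x - φ' x * (y - x)| ≤ K * |y - x| * |y - x| := by
  intro x hx y hy
  have hsub : uIcc x y ⊆ Icc a b := by
    intro z hz
    rw [mem_uIcc] at hz
    rcases hz with hz | hz
    · exact ⟨hx.1.trans hz.1, hz.2.trans hy.2⟩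
    · exact ⟨hy.1.trans hz.1, hz.2.trans hx.2⟩
  have hd : ∀ z ∈ uIcc x y, HasDerivWithinAt (fun z => φ z - φ' x * z) (φ' z - φ' x) (uIcc x y) z := by
    intro z hz
    have h1 := ((h z (hsub hz)).mono hsub).fun_sub ((hasDerivAt_id' z).hasDerivWithinAt.const_mul (φ' x))
    exact h1.congr_deriv (by ring)
  have hb : ∀ z ∈ uIcc x y, ‖φ' z - φ' x‖ ≤ K * |y - x| := by
    intro z hz
    rw [Real.norm_eq_abs]
    refine (hl x hx z (hsub hz)).trans (mul_le_mul_of_nonneg_left ?_ hK)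
    rw [mem_uIcc] at hz
    rcases hz with hz | hz
    · rw [abs_of_nonneg (by linarith), abs_of_nonneg (by linarith)]
      linarith
    · rw [abs_of_nonpos (by linarith), abs_of_nonpos (by linarith)]
      linarith
  have h2 := Convex.norm_image_sub_le_of_norm_hasDerivWithin_le hd hb (convex_uIcc x y)
    left_mem_uIcc right_mem_uIcc
  rw [Real.norm_eq_abs, Real.norm_eq_abs] at h2
  have e : φ y - φ x - φ' x * (y - x) = φ y - φ' x * y - (φ x - φ' x * x) := by ring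
  rw [e]
  exact h2

private theorem lip82 {a b K : ℝ} {φ φ' : ℝ → ℝ}
    (h : ∀ x ∈ Icc a b, HasDerivWithinAt φ (φ' x) (Icc a b) x)
    (hb : ∀ x ∈ Icc a b, |φ' x| ≤ K) :
    ∀ x ∈ Icc a b, ∀ y ∈ Icc a b, |φ y - φ x| ≤ K * |y - x| := by
  intro x hx y hy
  have h2 := Convex.norm_image_sub_le_of_norm_hasDerivWithin_le (C := K) h
    (fun z hz => by rw [Real.norm_eq_abs]; exact hb z hz) (convex_Icc a b) hx hy
  rwa [Real.norm_eq_abs, Real.norm_eq_abs] at h2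

/-- the function `sin √(2f) / √(2f)` -/
private noncomputable def s82 (f : ℝ) : ℝ := sin √(2 * f) / √(2 * f)

private noncomputable def t82 (f : ℝ) : ℝ := (cos √(2 * f) - sin √(2 * f) / √(2 * f)) / (2 * f)

private theorem sqrt82 {f : ℝ} (hf : 0 < f) : HasDerivAt (fun f => √(2 * f)) (1 / √(2 * f)) f := by
  have h1 : HasDerivAt (fun f : ℝ => 2 * f) 2 f := by
    exact ((hasDerivAt_id' f).const_mul (2 : ℝ)).congr_deriv (by ring)
  have h2 := h1.sqrt (by positivity)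
  have h3 : 0 < √(2 * f) := Real.sqrt_pos.2 (by positivity)
  exact h2.congr_deriv (by field_simp)

private theorem G82 {f : ℝ} (hf : 0 < f) : HasDerivAt (fun f => -cos √(2 * f)) (s82 f) f := by
  have h1 := ((hasDerivAt_cos √(2 * f)).comp f (sqrt82 hf)).fun_neg
  exact h1.congr_deriv (by
    unfold s82
    ring)

private theorem s82_deriv {f : ℝ} (hf : 0 < f) : HasDerivAt s82 (t82 f) f := by
  have h3 : 0 < √(2 * f) := Real.sqrt_pos.2 (by positivity)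
  have h1 := ((hasDerivAt_sin √(2 * f)).comp f (sqrt82 hf)).fun_div (sqrt82 hf) h3.ne'
  have h4 : √(2 * f) ^ 2 = 2 * f := Real.sq_sqrt (by positivity)
  refine HasDerivAt.congr_deriv (f := s82) h1 ?_
  unfold t82
  rw [h4]
  simp only [Function.comp_apply]
  field_simp

private theorem t82_lip {m M : ℝ} (hm : 0 < m) :
    ∃ K : ℝ, 0 ≤ K ∧ ∀ x ∈ Icc m M, ∀ y ∈ Icc m M, |t82 y - t82 x| ≤ K * |y - x| := by
  have hsm : ContDiffOn ℝ 2 t82 (Ioi 0) := by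
    intro x hx
    have hx0 : (0 : ℝ) < x := hx
    have h1 : ContDiffAt ℝ 2 (fun f : ℝ => √(2 * f)) x := by
      refine ContDiffAt.sqrt ?_ (by positivity)
      exact contDiffAt_const.mul contDiffAt_id
    have h3 : 0 < √(2 * x) := Real.sqrt_pos.2 (by positivity)
    have h2 : ContDiffAt ℝ 2 t82 x := by
      unfold t82
      refine ContDiffAt.div ?_ (contDiffAt_const.mul contDiffAt_id) (by simp; positivity)
      refine (contDiff_cos.contDiffAt.comp x h1).sub ?_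
      exact (contDiff_sin.contDiffAt.comp x h1).div h1 h3.ne'
    exact h2.contDiffWithinAt
  have hcont : ContinuousOn (deriv t82) (Icc m M) := by
    have := (hsm.continuousOn_deriv_of_isOpen isOpen_Ioi (by norm_num))
    exact this.mono fun x hx => lt_of_lt_of_le hm hx.1
  obtain ⟨K, hK⟩ := isCompact_Icc.exists_bound_of_continuousOn hcont
  refine ⟨max K 0, le_max_right _ _, ?_⟩
  refine lip82 (φ' := deriv t82) (fun x hx => ?_) (fun x hx => (hK x hx).trans (le_max_left _ _))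
  have hx0 : (0 : ℝ) < x := lt_of_lt_of_le hm hx.1
  have h1 : DifferentiableAt ℝ t82 x :=
    (hsm.differentiableOn (by norm_num)).differentiableAt (isOpen_Ioi.mem_nhds hx0)
  exact h1.hasDerivAt.hasDerivWithinAt

theorem weak_cos {θ g : ℝ → ℝ} {a C : ℝ} (hC : 0 ≤ C)
    (h0 : ∀ τ ∈ Icc (0 : ℝ) 1, 0 < θ τ ∧ θ τ < π)
    (hd : ∀ τ ∈ Icc (0 : ℝ) 1, HasDerivWithinAt (fun τ => θ τ ^ 2 / 2) (g τ) (Icc 0 1) τ)
    (hg : ∀ τ ∈ Icc (0 : ℝ) 1, |g τ| ≤ a * θ τ)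
    (hl : ∀ τ ∈ Icc (0 : ℝ) 1, ∀ τ' ∈ Icc (0 : ℝ) 1, |g τ' - g τ| ≤ C * |τ' - τ|)
    (h2 : ∀ τ ∈ Icc (0 : ℝ) 1, ∀ τ' ∈ Icc (0 : ℝ) 1, τ ≤ τ' →
      (τ' - τ) * (a ^ 2 - (θ τ ^ 2 * a ^ 2 - g τ ^ 2) / 4000) - C * (τ' - τ) ^ 2 ≤ g τ' - g τ) :
    ∃ (u : ℝ → ℝ) (C' : ℝ), 0 ≤ C' ∧
      (∀ τ ∈ Icc (0 : ℝ) 1, HasDerivWithinAt (fun τ => -cos (θ τ)) (u τ) (Icc 0 1) τ) ∧
      (∀ τ ∈ Icc (0 : ℝ) 1, ∀ τ' ∈ Icc (0 : ℝ) 1, |u τ' - u τ| ≤ C' * |τ' - τ|) ∧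
      ∀ τ ∈ Icc (0 : ℝ) 1, ∀ τ' ∈ Icc (0 : ℝ) 1, τ ≤ τ' →
        -((τ' - τ) * (a ^ 2 * -cos (θ τ))) - C' * (τ' - τ) ^ 2 ≤ u τ' - u τ := by
  classical
  obtain ⟨F, hF⟩ : ∃ F : ℝ → ℝ, F = fun τ => θ τ ^ 2 / 2 := ⟨_, rfl⟩
  have hFτ : ∀ τ, F τ = θ τ ^ 2 / 2 := fun τ => by rw [hF]
  rw [← hF] at hd
  have hθF : ∀ τ ∈ Icc (0 : ℝ) 1, √(2 * F τ) = θ τ := by
    intro τ hτ
    rw [hFτ, mul_div_cancel₀ _ (two_ne_zero), Real.sqrt_sq (h0 τ hτ).1.le]
  have hFc : ContinuousOn F (Icc 0 1) := fun τ hτ => (hd τ hτ).continuousWithinAt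
  have hne : (Icc (0 : ℝ) 1).Nonempty := ⟨0, by simp⟩
  obtain ⟨τm, hτm, hmin⟩ := isCompact_Icc.exists_isMinOn hne hFc
  obtain ⟨τM, hτM, hmax⟩ := isCompact_Icc.exists_isMaxOn hne hFc
  obtain ⟨m, hm⟩ : ∃ m, m = F τm := ⟨_, rfl⟩
  obtain ⟨M, hM⟩ : ∃ M, M = F τM := ⟨_, rfl⟩
  have hm0 : 0 < m := by
    rw [hm, hFτ]
    have := (h0 τm hτm).1
    positivity
  have hFm : ∀ τ ∈ Icc (0 : ℝ) 1, F τ ∈ Icc m M := fun τ hτ => by
    rw [hm, hM]
    exact ⟨hmin hτ, hmax hτ⟩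
  -- the constants
  have hπ := pi_pos
  have ha0 : 0 ≤ a := by
    have h1 := hg 0 (by simp)
    have h2 := (h0 0 (by simp)).1
    have h3 := (abs_nonneg (g 0)).trans h1
    by_contra h4
    push Not at h4
    nlinarith
  have hga : ∀ τ ∈ Icc (0 : ℝ) 1, |g τ| ≤ a * π := fun τ hτ =>
    (hg τ hτ).trans (mul_le_mul_of_nonneg_left (h0 τ hτ).2.le ha0)
  have hKF := lip82 hd hga
  have hTF := taylor82 hC hd hl
  obtain ⟨K2, hK20, hK2⟩ := t82_lip (m := m) (M := M) hm0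
  obtain ⟨K1, hK10, hK1⟩ : ∃ K1 : ℝ, 0 ≤ K1 ∧ ∀ x ∈ Icc m M, |t82 x| ≤ K1 := by
    refine ⟨|t82 m| + K2 * (M - m), ?_, ?_⟩
    · have : m ≤ M := by
        rw [hm, hM]
        exact hmax hτm
      have : 0 ≤ K2 * (M - m) := mul_nonneg hK20 (by linarith)
      positivity
    · intro x hx
      have h1 := hK2 m ⟨le_rfl, hx.1.trans hx.2⟩ x hx
      have h2 : |t82 x| ≤ |t82 m| + |t82 x - t82 m| := by
        have := abs_add_le (t82 m) (t82 x - t82 m)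
        rwa [add_sub_cancel] at this
      have h3 : K2 * |x - m| ≤ K2 * (M - m) := by
        refine mul_le_mul_of_nonneg_left ?_ hK20
        rw [abs_of_nonneg (by linarith [hx.1])]
        linarith [hx.2]
      linarith
  have hsd : ∀ x ∈ Icc m M, HasDerivWithinAt s82 (t82 x) (Icc m M) x := fun x hx =>
    (s82_deriv (lt_of_lt_of_le hm0 hx.1)).hasDerivWithinAt
  have hsl := lip82 hsd hK1
  have hst := taylor82 hK20 hsd hK2
  -- the values of `s`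
  have hsv : ∀ τ ∈ Icc (0 : ℝ) 1, s82 (F τ) = sin (θ τ) / θ τ := fun τ hτ => by
    unfold s82
    rw [hθF τ hτ]
  have htv : ∀ τ ∈ Icc (0 : ℝ) 1, t82 (F τ) = (cos (θ τ) - sin (θ τ) / θ τ) / θ τ ^ 2 := fun τ hτ => by
    unfold t82
    rw [hθF τ hτ, hFτ, mul_div_cancel₀ _ (two_ne_zero)]
  have hs0 : ∀ τ ∈ Icc (0 : ℝ) 1, 0 ≤ s82 (F τ) := fun τ hτ => by
    rw [hsv τ hτ]
    exact div_nonneg (sin_nonneg_of_nonneg_of_le_pi (h0 τ hτ).1.le (h0 τ hτ).2.le) (h0 τ hτ).1.le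
  have hs1 : ∀ τ ∈ Icc (0 : ℝ) 1, s82 (F τ) ≤ 1 := fun τ hτ => by
    rw [hsv τ hτ, div_le_one (h0 τ hτ).1]
    exact sin_le (h0 τ hτ).1.le
  -- Lipschitz bound of `s ∘ F`
  have hsF : ∀ τ ∈ Icc (0 : ℝ) 1, ∀ τ' ∈ Icc (0 : ℝ) 1,
      |s82 (F τ') - s82 (F τ)| ≤ K1 * (a * π) * |τ' - τ| := by
    intro τ hτ τ' hτ'
    refine (hsl _ (hFm τ hτ) _ (hFm τ' hτ')).trans ?_
    rw [mul_assoc]
    exact mul_le_mul_of_nonneg_left (hKF τ hτ τ' hτ') hK10
  obtain ⟨L, hL⟩ : ∃ L, L = a * π := ⟨_, rfl⟩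
  have hL0 : 0 ≤ L := by
    rw [hL]
    positivity
  rw [← hL] at hga hKF hsF
  obtain ⟨C', hC'⟩ : ∃ C', C' = C + K1 * L * a ^ 2 + K2 * L ^ 3 + K1 * L * C + K1 * L ^ 2 := ⟨_, rfl⟩
  have hC'0 : 0 ≤ C' := by
    rw [hC']
    positivity
  refine ⟨fun τ => s82 (F τ) * g τ, C', hC'0, ?_, ?_, ?_⟩
  · intro τ hτ
    have hFpos : 0 < F τ := lt_of_lt_of_le hm0 (hFm τ hτ).1
    have h1 := (G82 hFpos).comp_hasDerivWithinAt τ (hd τ hτ)
    refine h1.congr (fun x hx => ?_) ?_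
    · simp only [Function.comp_apply]
      rw [hθF x hx]
    · simp only [Function.comp_apply]
      rw [hθF τ hτ]
  · intro τ hτ τ' hτ'
    have e : s82 (F τ') * g τ' - s82 (F τ) * g τ =
        s82 (F τ') * (g τ' - g τ) + (s82 (F τ') - s82 (F τ)) * g τ := by ring
    have h1 : |s82 (F τ') * (g τ' - g τ)| ≤ 1 * (C * |τ' - τ|) := by
      rw [abs_mul, abs_of_nonneg (hs0 τ' hτ')]
      exact mul_le_mul (hs1 τ' hτ') (hl τ hτ τ' hτ') (abs_nonneg _) zero_le_one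
    have h3 : |(s82 (F τ') - s82 (F τ)) * g τ| ≤ K1 * L * |τ' - τ| * L := by
      rw [abs_mul]
      exact mul_le_mul (hsF τ hτ τ' hτ') (hga τ hτ) (abs_nonneg _) (by positivity)
    change |s82 (F τ') * g τ' - s82 (F τ) * g τ| ≤ C' * |τ' - τ|
    rw [e]
    refine (abs_add_le _ _).trans ?_
    have h4 : (C + K1 * L ^ 2) * |τ' - τ| ≤ C' * |τ' - τ| := by
      refine mul_le_mul_of_nonneg_right ?_ (abs_nonneg _)
      rw [hC']
      have : 0 ≤ K1 * L * a ^ 2 + K2 * L ^ 3 + K1 * L * C := by positivity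
      linarith
    nlinarith
  · intro τ hτ τ' hτ' hle
    change _ ≤ s82 (F τ') * g τ' - s82 (F τ) * g τ
    obtain ⟨δ, hδ⟩ : ∃ δ, δ = τ' - τ := ⟨_, rfl⟩
    have hδ0 : 0 ≤ δ := by rw [hδ]; linarith
    have hδabs : |τ' - τ| = δ := by rw [hδ]; exact abs_of_nonneg (by linarith)
    have hθ := h0 τ hτ
    obtain ⟨Q, hQ⟩ : ∃ Q, Q = a ^ 2 - (θ τ ^ 2 * a ^ 2 - g τ ^ 2) / 4000 := ⟨_, rfl⟩
    have hg2 : g τ ^ 2 ≤ θ τ ^ 2 * a ^ 2 := by
      have h1 := hg τ hτ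
      have h3 : |g τ| ^ 2 ≤ (a * θ τ) ^ 2 := pow_le_pow_left₀ (abs_nonneg _) h1 2
      rw [sq_abs] at h3
      nlinarith
    have hQ1 : |Q| ≤ a ^ 2 := by
      rw [hQ, abs_le]
      have hπ4 : π < 4 := pi_lt_four
      have h3 : θ τ ^ 2 ≤ 16 := by nlinarith
      have h4 : θ τ ^ 2 * a ^ 2 ≤ 16 * a ^ 2 := mul_le_mul_of_nonneg_right h3 (sq_nonneg a)
      constructor
      · nlinarith [sq_nonneg (g τ), sq_nonneg a]
      · linarith
    have b1 := h2 τ hτ τ' hτ' hle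
    rw [← hδ, ← hQ] at b1
    have b2 := hsF τ hτ τ' hτ'
    rw [hδabs] at b2
    have b3 := hst _ (hFm τ hτ) _ (hFm τ' hτ')
    have b4 := hKF τ hτ τ' hτ'
    rw [hδabs] at b4
    have b5 := hTF τ hτ τ' hτ'
    rw [hδabs, ← hδ] at b5
    have b6 := hK1 _ (hFm τ hτ)
    have b7 := hga τ hτ
    -- first part
    have c1 : s82 (F τ') * (δ * Q - C * δ ^ 2) ≤ s82 (F τ') * (g τ' - g τ) :=
      mul_le_mul_of_nonneg_left b1 (hs0 τ' hτ')
    have c2 : s82 (F τ') * (C * δ ^ 2) ≤ C * δ ^ 2 := by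
      have : 0 ≤ C * δ ^ 2 := by positivity
      have h3 := mul_le_mul_of_nonneg_right (hs1 τ' hτ') this
      linarith
    have c3 : s82 (F τ) * (δ * Q) - K1 * L * a ^ 2 * δ ^ 2 ≤ s82 (F τ') * (δ * Q) := by
      have h3 : |(s82 (F τ') - s82 (F τ)) * (δ * Q)| ≤ K1 * L * δ * (δ * a ^ 2) := by
        rw [abs_mul, abs_mul, abs_of_nonneg hδ0]
        exact mul_le_mul b2 (mul_le_mul_of_nonneg_left hQ1 hδ0) (by positivity) (by positivity)
      have h4 := neg_abs_le ((s82 (F τ') - s82 (F τ)) * (δ * Q))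
      nlinarith
    -- second part
    have d1 : |s82 (F τ') - s82 (F τ) - t82 (F τ) * (F τ' - F τ)| ≤ K2 * (L * δ) * (L * δ) := by
      refine b3.trans ?_
      exact mul_le_mul (mul_le_mul_of_nonneg_left b4 hK20) b4 (abs_nonneg _) (by positivity)
    have d2 : |(s82 (F τ') - s82 (F τ) - t82 (F τ) * (F τ' - F τ)) * g τ| ≤ K2 * (L * δ) * (L * δ) * L := by
      rw [abs_mul]
      exact mul_le_mul d1 b7 (abs_nonneg _) (by positivity)
    have d3 : |t82 (F τ) * g τ * (F τ' - F τ - g τ * δ)| ≤ K1 * L * (C * δ * δ) := by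
      rw [abs_mul, abs_mul]
      exact mul_le_mul (mul_le_mul b6 b7 (abs_nonneg _) hK10) b5 (abs_nonneg _) (by positivity)
    have d4 := neg_abs_le ((s82 (F τ') - s82 (F τ) - t82 (F τ) * (F τ' - F τ)) * g τ)
    have d5 := neg_abs_le (t82 (F τ) * g τ * (F τ' - F τ - g τ * δ))
    -- the bracket
    have e1 : a ^ 2 * cos (θ τ) ≤ s82 (F τ) * Q + t82 (F τ) * g τ ^ 2 := by
      obtain ⟨q, hq⟩ : ∃ q, q = g τ ^ 2 / θ τ ^ 2 := ⟨_, rfl⟩
      have hθ2 : 0 < θ τ ^ 2 := by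
        have := hθ.1
        positivity
      have hgq : g τ ^ 2 = q * θ τ ^ 2 := by
        rw [hq, div_mul_cancel₀ _ hθ2.ne']
      have hqa : q ≤ a ^ 2 := by
        rw [hq, div_le_iff₀ hθ2]
        linarith
      have ht := trig hθ.1.le hθ.2.le
      have ht2 : cos (θ τ) ≤ sin (θ τ) / θ τ * (1 - θ τ ^ 2 / 4000) := by
        rw [div_mul_eq_mul_div, le_div_iff₀ hθ.1]
        linarith
      rw [htv τ hτ, hsv τ hτ, hQ, hgq]
      have e2 : (cos (θ τ) - sin (θ τ) / θ τ) / θ τ ^ 2 * (q * θ τ ^ 2) =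
          (cos (θ τ) - sin (θ τ) / θ τ) * q := by
        rw [mul_comm q, ← mul_assoc, div_mul_cancel₀ _ hθ2.ne']
      rw [e2]
      have e3 : sin (θ τ) / θ τ * (a ^ 2 - (θ τ ^ 2 * a ^ 2 - q * θ τ ^ 2) / 4000) +
          (cos (θ τ) - sin (θ τ) / θ τ) * q = a ^ 2 * cos (θ τ) +
          (a ^ 2 - q) * (sin (θ τ) / θ τ * (1 - θ τ ^ 2 / 4000) - cos (θ τ)) := by ring
      rw [e3]
      have : 0 ≤ (a ^ 2 - q) * (sin (θ τ) / θ τ * (1 - θ τ ^ 2 / 4000) - cos (θ τ)) :=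
        mul_nonneg (by linarith) (by linarith)
      linarith
    have e4 := mul_le_mul_of_nonneg_left e1 hδ0
    have e5 : s82 (F τ') * g τ' - s82 (F τ) * g τ =
        s82 (F τ') * (g τ' - g τ) +
          (s82 (F τ') - s82 (F τ) - t82 (F τ) * (F τ' - F τ)) * g τ +
          t82 (F τ) * g τ * (F τ' - F τ - g τ * δ) + t82 (F τ) * g τ ^ 2 * δ := by ring
    rw [e5, ← hδ]
    have e6 : C' * δ ^ 2 = C * δ ^ 2 + K1 * L * a ^ 2 * δ ^ 2 + K2 * (L * δ) * (L * δ) * L +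
        K1 * L * (C * δ * δ) + K1 * L ^ 2 * δ ^ 2 := by
      rw [hC']
      ring
    have e7 : 0 ≤ K1 * L ^ 2 * δ ^ 2 := by positivity
    rw [e6]
    nlinarith

end Pool.Agent.Helper48.FC
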