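import Mathlib
import Pool.Agent.Helper48.FC.Along
import Pool.Agent.Helper48.FC.Weak
import Pool.Agent.Helper48.FC.Sturm
import Pool.Agent.Helper48.FC.Min

/-!
Project FC, assembly of part I: the spherical Stewart inequality for smooth weights.
-/

set_option autoImplicit false
set_option linter.unusedSectionVars false

namespace Pool.Agent.Helper48.FC

open Real Set
open scoped RealInnerProductSpace

variable {E : Type*} [NormedAddCommGroup E] [InnerProductSpace ℝ E] [CompleteSpace E]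
variable {φ : E → ℝ} {A : E → E} {H : E → E →L[ℝ] E}

/-- Stewart's inequality when the point `o` is not on the geodesic -/
theorem stew_seg (h : Good φ A H) {y z o : E} {γ ζ : ℝ → E} (s : Seg A y z γ ζ) (hyz : ‖z - y‖ ≤ 10)
    (ho : ∀ τ ∈ Icc (0 : ℝ) 1, ‖γ τ - o‖ ≤ 10 ∧ γ τ ≠ o)
    (hπ : ∀ τ ∈ Icc (0 : ℝ) 1, ll φ A o (γ τ) < π) (ha : ll φ A y z < π)
    {τ : ℝ} (hτ : τ ∈ Icc (0 : ℝ) 1) :
    sin ((1 - τ) * ll φ A y z) * cos (ll φ A o y) + sin (τ * ll φ A y z) * cos (ll φ A o z) ≤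
      sin (ll φ A y z) * cos (ll φ A o (γ τ)) := by
  obtain ⟨g, C, hC, h1, h2, h3⟩ := along h s hyz ho
  have hpos : ∀ τ ∈ Icc (0 : ℝ) 1, 0 < ll φ A o (γ τ) := by
    intro τ hτ
    obtain ⟨h4, h5⟩ := ho τ hτ
    refine lt_of_lt_of_le ?_ (le_ll h h4)
    have : 0 < ‖γ τ - o‖ := norm_pos_iff.2 (sub_ne_zero.2 h5)
    linarith
  obtain ⟨u, C', hC', k1, k2, k3⟩ := weak_cos (θ := fun τ => ll φ A o (γ τ)) (g := g)
    (a := ll φ A y z) hC (fun τ hτ => ⟨hpos τ hτ, hπ τ hτ⟩) (fun τ hτ => (h1 τ hτ).1)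
    (fun τ hτ => (h1 τ hτ).2) h2 h3
  have h6 := sturm (ll_nonneg y z) ha hC' k1 k2 k3 hτ
  simp only [s.c0, s.c1] at h6
  linarith

theorem ed_d_le (h : Good φ A H) {x y : E} (hd : cinf (ed φ) x y < 3.6) : ‖y - x‖ ≤ 4 := by
  have h1 := norm_le_cinf h.bdd x y
  rw [norm_sub_rev] at h1
  linarith

theorem stew_smooth (h : Good φ A H) (y z : E) (hyz : cinf (ed φ) y z < π) (u : ℝ) (hu0 : 0 ≤ u)
    (hu1 : u ≤ cinf (ed φ) y z) : ∃ w, StewAt (cinf (ed φ)) y z u w := by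
  have e0 : ∀ a b : E, 0 ≤ ed φ a b := ed_nonneg
  have hs : ∀ a b : E, cinf (ed φ) a b = cinf (ed φ) b a := cinf_symm e0 ed_symm
  have hpi : π < 3.15 := pi_lt_d2
  have hn : ‖z - y‖ ≤ 3.51 := by
    have h1 := norm_le_cinf h.bdd y z
    rw [norm_sub_rev] at h1
    linarith
  obtain ⟨γ, ζ, s⟩ := exists_seg h (x := y) (y := z) (by linarith)
  have ea : cinf (ed φ) y z = ll φ A y z := cinf_eq_ll h (by linarith)
  set a := ll φ A y z with hadef
  rw [ea] at hyz hu1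
  have ha0 : 0 ≤ a := ll_nonneg y z
  rcases eq_or_lt_of_le ha0 with ha | ha
  · -- `y = z`
    have hu : u = 0 := le_antisymm (by rw [← ha] at hu1; exact hu1) hu0
    refine ⟨y, ?_, ?_, ?_⟩
    · rw [cinf_self e0, hu]
    · rw [hu, sub_zero]
    · intro x _
      rw [ea, ← ha, hu]
      simp
  set τ0 := u / a with hτ0
  have hτ : τ0 ∈ Icc (0 : ℝ) 1 := ⟨by positivity, by rw [hτ0, div_le_one ha]; exact hu1⟩
  have hua : τ0 * a = u := by rw [hτ0]; field_simp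
  -- distances along the geodesic
  have hγy : ∀ τ ∈ Icc (0 : ℝ) 1, ‖γ τ - y‖ ≤ 3.6 := by
    intro τ hτ
    have h1 := s.near hτ
    have h2 : γ τ - y = (γ τ - (y + τ • (z - y))) + τ • (z - y) := by abel
    rw [h2]
    refine (norm_add_le _ _).trans ?_
    rw [norm_smul, Real.norm_eq_abs, abs_of_nonneg hτ.1]
    have h3 : τ * ‖z - y‖ ≤ 1 * ‖z - y‖ := mul_le_mul_of_nonneg_right hτ.2 (norm_nonneg _)
    have h4 : τ * (‖z - y‖ / 100) ≤ 1 * (‖z - y‖ / 100) :=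
      mul_le_mul_of_nonneg_right hτ.2 (by positivity)
    linarith
  have hγγ : ∀ τ ∈ Icc (0 : ℝ) 1, ∀ τ' ∈ Icc (0 : ℝ) 1, τ ≤ τ' →
      cinf (ed φ) (γ τ) (γ τ') = (τ' - τ) * a := by
    intro τ hτ τ' hτ' hle
    rw [← ll_sub h s (by linarith) hτ.1 hle hτ'.2]
    apply cinf_eq_ll h
    have h1 : γ τ' - γ τ = (γ τ' - y) - (γ τ - y) := by abel
    rw [h1]
    refine (norm_sub_le _ _).trans ?_
    have := hγy τ hτ
    have := hγy τ' hτ'
    linarith
  have m0 : (0 : ℝ) ∈ Icc (0 : ℝ) 1 := ⟨le_rfl, zero_le_one⟩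
  have m1 : (1 : ℝ) ∈ Icc (0 : ℝ) 1 := ⟨zero_le_one, le_rfl⟩
  have d1 : cinf (ed φ) y (γ τ0) = u := by
    have := hγγ 0 m0 τ0 hτ hτ.1
    rwa [s.c0, sub_zero, hua] at this
  have d2 : cinf (ed φ) (γ τ0) z = a - u := by
    have := hγγ τ0 hτ 1 m1 hτ.2
    rw [s.c1, sub_mul, one_mul, hua] at this
    exact this
  refine ⟨γ τ0, d1.le, by rw [ea]; exact d2.le, ?_⟩
  intro x hx
  rw [ea] at hx ⊢
  -- all the distances are small
  have t1 := cinf_tri e0 x z y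
  have t2 := cinf_tri e0 x y z
  rw [hs z y, ea] at t1
  rw [ea] at t2
  have hxy : cinf (ed φ) x y < 3.15 := by linarith
  have hxz : cinf (ed φ) x z < 3.15 := by linarith
  have nxy : ‖y - x‖ ≤ 3.51 := by
    have h1 := norm_le_cinf h.bdd x y
    rw [norm_sub_rev] at h1
    linarith
  have hγx : ∀ τ ∈ Icc (0 : ℝ) 1, ‖γ τ - x‖ ≤ 8 := by
    intro τ hτ
    have h1 : γ τ - x = (γ τ - y) + (y - x) := by abel
    rw [h1]
    refine (norm_add_le _ _).trans ?_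
    have := hγy τ hτ
    linarith
  have hdγ : ∀ τ ∈ Icc (0 : ℝ) 1, cinf (ed φ) x (γ τ) = ll φ A x (γ τ) := fun τ hτ =>
    cinf_eq_ll h (hγx τ hτ)
  by_cases hex : ∃ τ1 ∈ Icc (0 : ℝ) 1, γ τ1 = x
  · -- the point is on the geodesic
    obtain ⟨τ1, hτ1, rfl⟩ := hex
    have c1 : cinf (ed φ) (γ τ1) y = τ1 * a := by
      have := hγγ 0 m0 τ1 hτ1 hτ1.1
      rw [s.c0, sub_zero] at this
      rw [hs, this]
    have c2 : cinf (ed φ) (γ τ1) z = a - τ1 * a := by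
      have := hγγ τ1 hτ1 1 m1 hτ1.2
      rw [s.c1, sub_mul, one_mul] at this
      exact this
    have c3 : cos (cinf (ed φ) (γ τ1) (γ τ0)) = cos (u - τ1 * a) := by
      rcases le_total τ1 τ0 with hle | hle
      · rw [hγγ τ1 hτ1 τ0 hτ hle, sub_mul, hua]
      · rw [hs, hγγ τ0 hτ τ1 hτ1 hle, sub_mul, hua, ← cos_neg, neg_sub]
    rw [c1, c2, c3]
    apply le_of_eq
    rw [sin_sub, cos_sub a, cos_sub u]
    ring
  · push Not at hex
    have h1 := stew_seg h s (by linarith) (o := x)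
      (fun τ hτ => ⟨(hγx τ hτ).trans (by norm_num), hex τ hτ⟩) (fun τ hτ => by
        rw [← hdγ τ hτ]
        have b1 : cinf (ed φ) x (γ τ) ≤ cinf (ed φ) x y + τ * a := by
          refine (cinf_tri e0 x y (γ τ)).trans ?_
          have := hγγ 0 m0 τ hτ hτ.1
          rw [s.c0, sub_zero] at this
          linarith
        have b2 : cinf (ed φ) x (γ τ) ≤ cinf (ed φ) x z + (1 - τ) * a := by
          refine (cinf_tri e0 x z (γ τ)).trans ?_
          have := hγγ τ hτ 1 m1 hτ.2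
          rw [s.c1] at this
          rw [hs z]
          linarith
        linarith) hyz hτ
    rw [← hadef, sub_mul, one_mul, hua] at h1
    have e1 : cinf (ed φ) x y = ll φ A x y := cinf_eq_ll h (by linarith)
    have e2 : cinf (ed φ) x z = ll φ A x z := by
      apply cinf_eq_ll h
      have h1 := hγx 1 m1
      rwa [s.c1] at h1
    rw [e1, e2, hdγ τ0 hτ]
    exact h1

end Pool.Agent.Helper48.FC
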