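import Mathlib
import Pool.Agent.Helper48.FC.Smooth
import Pool.Agent.Helper48.FC.Cmpd
import Pool.Agent.Helper48.FC.Apx

/-!
Project FC, assembly of part II: the approximate Stewart inequality for slowly varying weights.
-/

set_option autoImplicit false
set_option linter.unusedSectionVars false

namespace Pool.Agent.Helper48.FC

open Real Set
open scoped RealInnerProductSpace

theorem pm_ed {E : Type*} [NormedAddCommGroup E] [InnerProductSpace ℝ E] (φ : E → ℝ) :
    PM (cinf (ed φ)) where
  nonneg := cinf_nonneg ed_nonneg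
  self := cinf_self ed_nonneg
  symm := cinf_symm ed_nonneg ed_symm
  tri := cinf_tri ed_nonneg

theorem stewA_ed {E : Type*} [NormedAddCommGroup E] [InnerProductSpace ℝ E] {φ : E → ℝ}
    (h : Slow φ) : StewA (cinf (ed φ)) := by
  apply apx (pm_ed φ)
  intro F δ hδ
  obtain ⟨S, _, ψ, A, H, hG, hF, h1, h2⟩ := cmpd h F hδ
  haveI : CompleteSpace S := FiniteDimensional.complete ℝ S
  exact ⟨S, fun a => (a : E), cinf (ed ψ), pm_ed ψ, fun y z hyz u hu0 hu1 =>
    stew_smooth hG y z hyz u hu0 hu1, h1, fun p hp => ⟨⟨p, hF p hp⟩, rfl⟩, h2⟩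

end Pool.Agent.Helper48.FC
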