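import Mathlib
import Pool.Agent.Helper48.FC.Defs

/-!
Block FC-17.  The distance to the complement of `O`, cut off at `ρ`.

`DD ρ O w` is the infimum over `f : E` of the numbers `ρ` (`f ∈ O`) and `min ρ (dist w f)` (`f ∉ O`), all in `[0, ρ]`.
* `DD_lip`: each of the functions `w ↦ (if f ∈ O then ρ else min ρ (dist w f))` is 1-Lipschitz.
* `mem_of_lt_DD`: if `f ∉ O`, `DD ρ O w ≤ min ρ (dist w f) ≤ dist w f`.
* `le_DD`: for `f ∉ O`, `dist w f ≥ r`.
* `DD_sq`: for each `f`, with `b f` the corresponding number: `DD(w+e)² + DD(w-e)² ≤ 2 (b f)² + 2 ‖e‖²`: if `f ∈ O` or `dist w f ≥ ρ`, `b f = ρ`; otherwise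
  `DD(w ± e) ≤ ‖w ± e - f‖` and the parallelogram law.  Then take the infimum over `f` (the square of the infimum is the infimum of the squares:
  argue by contradiction, or with `b f < DD + s` for all small `s`).
* `DD_local`: points `f` with `dist w f ≥ ρ` contribute `ρ` in both cases.
* `DD_isom`: reindex the infimum by `T`; `T f ∈ O' ↔ f ∈ O`.
-/

set_option autoImplicit false
set_option linter.unusedSectionVars false

namespace Pool.Agent.Helper48.FC

open Real Set
open scoped RealInnerProductSpace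

variable {E : Type*} [NormedAddCommGroup E] [InnerProductSpace ℝ E] {ρ : ℝ} {O O' : Set E}

private noncomputable def bb34 (ρ : ℝ) (O : Set E) (w f : E) : ℝ := by
  classical exact if f ∈ O then ρ else min ρ (dist w f)

private theorem DD_eq34 (w : E) : DD ρ O w = ⨅ f : E, bb34 ρ O w f := rfl

private theorem bb34_of_mem {w f : E} (h : f ∈ O) : bb34 ρ O w f = ρ := by
  unfold bb34
  rw [if_pos h]

private theorem bb34_of_notMem {w f : E} (h : f ∉ O) : bb34 ρ O w f = min ρ (dist w f) := by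
  unfold bb34
  rw [if_neg h]

private theorem bb34_nonneg (hρ : 0 ≤ ρ) (w f : E) : 0 ≤ bb34 ρ O w f := by
  by_cases h : f ∈ O
  · rw [bb34_of_mem h]
    exact hρ
  · rw [bb34_of_notMem h]
    exact le_min hρ dist_nonneg

private theorem bb34_le (w f : E) : bb34 ρ O w f ≤ ρ := by
  by_cases h : f ∈ O
  · rw [bb34_of_mem h]
  · rw [bb34_of_notMem h]
    exact min_le_left _ _

private theorem DD_le_bb34 (hρ : 0 ≤ ρ) (w f : E) : DD ρ O w ≤ bb34 ρ O w f := by
  rw [DD_eq34]
  exact ciInf_le ⟨0, by rintro _ ⟨g, rfl⟩; exact bb34_nonneg hρ w g⟩ f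

private theorem le_DD34 {w : E} {r : ℝ} (h : ∀ f, r ≤ bb34 ρ O w f) : r ≤ DD ρ O w := by
  rw [DD_eq34]
  exact le_ciInf h

theorem DD_nonneg (hρ : 0 ≤ ρ) (w : E) : 0 ≤ DD ρ O w := by
  exact le_DD34 fun f => bb34_nonneg hρ w f

theorem DD_le (hρ : 0 ≤ ρ) (w : E) : DD ρ O w ≤ ρ := by
  exact (DD_le_bb34 hρ w 0).trans (bb34_le w 0)

theorem DD_lip (hρ : 0 ≤ ρ) (w w' : E) : DD ρ O w' ≤ DD ρ O w + dist w w' := by
  rw [← sub_le_iff_le_add]
  refine le_DD34 fun f => ?_
  rw [sub_le_iff_le_add]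
  refine (DD_le_bb34 hρ w' f).trans ?_
  by_cases h : f ∈ O
  · rw [bb34_of_mem h, bb34_of_mem h]
    linarith [dist_nonneg (x := w) (y := w')]
  · rw [bb34_of_notMem h, bb34_of_notMem h]
    have h1 : dist w' f ≤ dist w f + dist w w' := by
      have := dist_triangle w' w f
      rw [dist_comm w' w] at this
      linarith
    have h2 := dist_nonneg (x := w) (y := w')
    rcases le_total ρ (dist w f) with h3 | h3
    · rw [min_eq_left h3]
      exact (min_le_left _ _).trans (by linarith)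
    · rw [min_eq_right h3]
      exact (min_le_right _ _).trans h1

theorem mem_of_lt_DD (hρ : 0 ≤ ρ) {w f : E} (h : dist w f < DD ρ O w) : f ∈ O := by
  by_contra hf
  have h1 := DD_le_bb34 (O := O) hρ w f
  rw [bb34_of_notMem hf] at h1
  exact absurd (h1.trans (min_le_right _ _)) (not_le.2 h)

theorem le_DD (hρ : 0 ≤ ρ) {w : E} {r : ℝ} (hr : r ≤ ρ) (h : ∀ f, dist w f < r → f ∈ O) :
    r ≤ DD ρ O w := by
  refine le_DD34 fun f => ?_
  by_cases hf : f ∈ O
  · rw [bb34_of_mem hf]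
    exact hr
  · rw [bb34_of_notMem hf]
    refine le_min hr ?_
    by_contra hc
    exact hf (h f (not_le.1 hc))

theorem DD_sq (hρ : 0 ≤ ρ) (w e : E) :
    DD ρ O (w + e) ^ 2 + DD ρ O (w - e) ^ 2 ≤ 2 * DD ρ O w ^ 2 + 2 * ‖e‖ ^ 2 := by
  have key : ∀ f, DD ρ O (w + e) ^ 2 + DD ρ O (w - e) ^ 2 ≤ 2 * bb34 ρ O w f ^ 2 + 2 * ‖e‖ ^ 2 := by
    intro f
    have n1 := DD_nonneg (O := O) hρ (w + e)
    have n2 := DD_nonneg (O := O) hρ (w - e)
    have n3 : 0 ≤ ‖e‖ ^ 2 := by positivity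
    have big : bb34 ρ O w f = ρ → DD ρ O (w + e) ^ 2 + DD ρ O (w - e) ^ 2 ≤
        2 * bb34 ρ O w f ^ 2 + 2 * ‖e‖ ^ 2 := by
      intro hb
      rw [hb]
      have l1 := pow_le_pow_left₀ n1 (DD_le (O := O) hρ (w + e)) 2
      have l2 := pow_le_pow_left₀ n2 (DD_le (O := O) hρ (w - e)) 2
      linarith
    by_cases hf : f ∈ O
    · exact big (bb34_of_mem hf)
    rcases le_total ρ (dist w f) with h3 | h3
    · exact big (by rw [bb34_of_notMem hf, min_eq_left h3])
    · rw [bb34_of_notMem hf, min_eq_right h3]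
      have l1 : DD ρ O (w + e) ≤ ‖(w - f) + e‖ := by
        refine (DD_le_bb34 hρ (w + e) f).trans ?_
        rw [bb34_of_notMem hf]
        refine (min_le_right _ _).trans (le_of_eq ?_)
        rw [dist_eq_norm]
        congr 1
        abel
      have l2 : DD ρ O (w - e) ≤ ‖(w - f) - e‖ := by
        refine (DD_le_bb34 hρ (w - e) f).trans ?_
        rw [bb34_of_notMem hf]
        refine (min_le_right _ _).trans (le_of_eq ?_)
        rw [dist_eq_norm]
        congr 1
        abel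
      have m1 := pow_le_pow_left₀ n1 l1 2
      have m2 := pow_le_pow_left₀ n2 l2 2
      have m3 := parallelogram_law_with_norm ℝ (w - f) e
      rw [dist_eq_norm]
      nlinarith
  have h1 : √((DD ρ O (w + e) ^ 2 + DD ρ O (w - e) ^ 2 - 2 * ‖e‖ ^ 2) / 2) ≤ DD ρ O w := by
    refine le_DD34 fun f => ?_
    rw [Real.sqrt_le_left (bb34_nonneg hρ w f)]
    have := key f
    linarith
  rw [Real.sqrt_le_left (DD_nonneg hρ w)] at h1
  linarith

theorem DD_local (hρ : 0 ≤ ρ) {w : E} (h : ∀ f, dist w f < ρ → (f ∈ O ↔ f ∈ O')) :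
    DD ρ O w = DD ρ O' w := by
  rw [DD_eq34, DD_eq34]
  congr 1
  funext f
  by_cases hd : dist w f < ρ
  · by_cases hf : f ∈ O
    · rw [bb34_of_mem hf, bb34_of_mem ((h f hd).1 hf)]
    · rw [bb34_of_notMem hf, bb34_of_notMem (fun h' => hf ((h f hd).2 h'))]
  · have hd' := not_lt.1 hd
    have aux : ∀ Q : Set E, bb34 ρ Q w f = ρ := by
      intro Q
      by_cases hf : f ∈ Q
      · exact bb34_of_mem hf
      · rw [bb34_of_notMem hf, min_eq_left hd']
    rw [aux, aux]

theorem DD_isom (hρ : 0 ≤ ρ) (T : E ≃ᵢ E) (h : ∀ f, T f ∈ O' ↔ f ∈ O) (w : E) :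
    DD ρ O' (T w) = DD ρ O w := by
  rw [DD_eq34, DD_eq34, ← T.surjective.iInf_comp]
  congr 1
  funext f
  by_cases hf : f ∈ O
  · rw [bb34_of_mem hf, bb34_of_mem ((h f).2 hf)]
  · rw [bb34_of_notMem hf, bb34_of_notMem (fun h' => hf ((h f).1 h')), T.isometry.dist_eq]

end Pool.Agent.Helper48.FC
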