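import Mathlib
import Pool.Agent.Helper48.FC.DDf

/-!
Block FC-18.  The regularised square of the distance.

`PP ρ O x = sup_w (DD w² - 2 dist x w²)`, `D = DD ρ O`, `D w² - 2 dist x w² ≤ ρ²` (bounded above).
* `DD_sq_le_PP`: `w = x`.  `PP_le`: `D w ≤ D x + r`, `r = dist x w`, and `(D x + r)² - 2 r² = 2 (D x)² - (D x - r)²`.
* `sqrt_PP_lip`: let `s = √(PP x) ≥ D x` and `k = dist x x'`.  It is enough that `D w² - 2 dist x' w² ≤ (s + 4 k)²` for all `w` (then exchange the roles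
  of `x`, `x'`).  Put `w0 = w + (x - x')`, so `dist x w0 = dist x' w = r`, `dist w w0 = k`.  If `D w² ≤ 2 r²` this is clear.  Otherwise `r ≤ 0.7072 D w` and
  `D w ≤ D x + dist x w ≤ s + k + r`, so `D w ≤ 3.42 (s + k)`, and `D w² - 2 r² = (D w0² - 2 r²) + (D w - D w0)(D w + D w0)
  ≤ s² + k (2 D w + k) ≤ s² + 6.84 k (s + k) + k² ≤ (s + 4 k)²`.
* `PP_sd`: lower bound: for each `w`: `PP (x+h) + PP (x-h) ≥ 2 D w² - 2 (‖x+h-w‖² + ‖x-h-w‖²) = 2 D w² - 4 ‖x-w‖² - 4 ‖h‖²`.  Upper bound: for `w1, w2`, with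
  `m = (w1+w2)/2`, `e = (w1-w2)/2`: `D w1² + D w2² ≤ 2 (D m)² + 2 ‖e‖²` (`DD_sq`), and `‖x+h-w1‖² + ‖x-h-w2‖² = 2 ‖x-m‖² + 2 ‖h-e‖²`, so
  `(D w1² - 2 ‖x+h-w1‖²) + (D w2² - 2 ‖x-h-w2‖²) ≤ 2 (D m² - 2 ‖x-m‖²) + 2 ‖e‖² - 4 ‖h-e‖² ≤ 2 PP x + 4 ‖h‖²`, as
  `‖e‖² ≤ (‖h‖ + ‖h-e‖)² ≤ 2 ‖h‖² + 2 ‖h-e‖²`.
* `PP_local`: both sides are nonnegative (`DD_sq_le_PP`), and only `w` with `D w² ≥ 2 dist x w²` matter; for these `dist x w ≤ ρ/√2 < ρ`, the ball of radius `ρ` about `w` is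
  contained in the ball of radius `2ρ` about `x`, and `DD_local` applies.
* `PP_isom`: reindex the supremum by `T`; `DD_isom`.
* `mem_of_PP_pos`: `PP x > 0` gives `D x > 0` (`PP_le`), then `mem_of_lt_DD` with `f = x`.
-/

set_option autoImplicit false
set_option linter.unusedSectionVars false

namespace Pool.Agent.Helper48.FC

open Real Set
open scoped RealInnerProductSpace

variable {E : Type*} [NormedAddCommGroup E] [InnerProductSpace ℝ E] {ρ : ℝ} {O O' : Set E}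

private theorem bdd42 (hρ : 0 < ρ) (x : E) : BddAbove (range fun w : E => DD ρ O w ^ 2 - 2 * dist x w ^ 2) := by
  refine ⟨ρ ^ 2, ?_⟩
  rintro _ ⟨w, rfl⟩
  have h1 := pow_le_pow_left₀ (DD_nonneg hρ.le w) (DD_le (O := O) hρ.le w) 2
  have h2 : 0 ≤ dist x w ^ 2 := by positivity
  simp only
  linarith

private theorem le_PP42 (hρ : 0 < ρ) (x w : E) : DD ρ O w ^ 2 - 2 * dist x w ^ 2 ≤ PP ρ O x :=
  le_ciSup (bdd42 hρ x) w

private theorem PP_le42 {x : E} {C : ℝ} (h : ∀ w, DD ρ O w ^ 2 - 2 * dist x w ^ 2 ≤ C) : PP ρ O x ≤ C :=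
  ciSup_le h

theorem DD_sq_le_PP (hρ : 0 < ρ) (x : E) : DD ρ O x ^ 2 ≤ PP ρ O x := by
  have h := le_PP42 (O := O) hρ x x
  simpa using h

theorem PP_le (hρ : 0 < ρ) (x : E) : PP ρ O x ≤ 2 * DD ρ O x ^ 2 := by
  refine PP_le42 fun w => ?_
  have h1 := DD_lip (O := O) hρ.le x w
  have h2 := pow_le_pow_left₀ (DD_nonneg hρ.le w) h1 2
  nlinarith [sq_nonneg (DD ρ O x - dist x w)]

theorem PP_nonneg (hρ : 0 < ρ) (x : E) : 0 ≤ PP ρ O x :=
  (sq_nonneg _).trans (DD_sq_le_PP hρ x)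

theorem sqrt_PP_lip (hρ : 0 < ρ) (x x' : E) :
    |√(PP ρ O x') - √(PP ρ O x)| ≤ 6 * dist x x' := by
  have key : ∀ x x' : E, √(PP ρ O x') ≤ √(PP ρ O x) + 6 * dist x x' := by
    intro x x'
    set s := √(PP ρ O x) with hs
    set k := dist x x' with hk
    have hs0 : 0 ≤ s := Real.sqrt_nonneg _
    have hk0 : 0 ≤ k := dist_nonneg
    have hss : s ^ 2 = PP ρ O x := Real.sq_sqrt (PP_nonneg hρ x)
    have hDs : DD ρ O x ≤ s := by
      refine Real.le_sqrt_of_sq_le ?_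
      exact DD_sq_le_PP hρ x
    rw [Real.sqrt_le_left (by positivity)]
    refine PP_le42 fun w => ?_
    set r := dist x' w with hr
    have hr0 : 0 ≤ r := dist_nonneg
    have hD0 : 0 ≤ DD ρ O w := DD_nonneg hρ.le w
    rcases le_total (DD ρ O w ^ 2) (2 * r ^ 2) with h1 | h1
    · have : 0 ≤ (s + 6 * k) ^ 2 := by positivity
      linarith
    have hw0r : dist x (w + (x - x')) = r := by
      rw [hr, dist_eq_norm, dist_eq_norm]
      congr 1
      abel
    have hw0k : dist (w + (x - x')) w = k := by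
      rw [hk, dist_eq_norm, dist_eq_norm]
      congr 1
      abel
    have h2 := le_PP42 (O := O) hρ x (w + (x - x'))
    rw [hw0r, ← hss] at h2
    have h3 := DD_lip (O := O) hρ.le (w + (x - x')) w
    rw [hw0k] at h3
    have h4 := DD_lip (O := O) hρ.le x w
    have h5 : dist x w ≤ k + r := dist_triangle x x' w
    have hD0' : 0 ≤ DD ρ O (w + (x - x')) := DD_nonneg hρ.le _
    have h6 : r ≤ 0.7072 * DD ρ O w := by
      by_contra hc
      have hc' := not_le.1 hc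
      nlinarith
    have h7 : DD ρ O w ≤ 3.42 * (s + k) := by
      have : 0.2928 * DD ρ O w ≤ s + k := by linarith
      nlinarith
    rcases le_total (DD ρ O w) (DD ρ O (w + (x - x'))) with h8 | h8
    · have h9 := pow_le_pow_left₀ hD0 h8 2
      nlinarith [mul_nonneg hs0 hk0, mul_nonneg hk0 hk0]
    · have h9 : DD ρ O w ^ 2 - DD ρ O (w + (x - x')) ^ 2 ≤ k * (2 * (3.42 * (s + k))) := by
        have e : DD ρ O w ^ 2 - DD ρ O (w + (x - x')) ^ 2 =
            (DD ρ O w - DD ρ O (w + (x - x'))) * (DD ρ O w + DD ρ O (w + (x - x'))) := by ring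
        rw [e]
        exact mul_le_mul (by linarith) (by linarith) (by linarith) hk0
      nlinarith [mul_nonneg hs0 hk0, mul_nonneg hk0 hk0]
  have h1 := key x x'
  have h2 := key x' x
  rw [dist_comm x' x] at h2
  rw [abs_le]
  constructor <;> linarith

theorem PP_sd (hρ : 0 < ρ) (x h : E) :
    |PP ρ O (x + h) + PP ρ O (x - h) - 2 * PP ρ O x| ≤ 4 * ‖h‖ ^ 2 := by
  have lo : 2 * PP ρ O x ≤ PP ρ O (x + h) + PP ρ O (x - h) + 4 * ‖h‖ ^ 2 := by
    have h1 : PP ρ O x ≤ (PP ρ O (x + h) + PP ρ O (x - h) + 4 * ‖h‖ ^ 2) / 2 := by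
      refine PP_le42 fun w => ?_
      have a1 := le_PP42 (O := O) hρ (x + h) w
      have a2 := le_PP42 (O := O) hρ (x - h) w
      have e1 : dist (x + h) w = ‖(x - w) + h‖ := by
        rw [dist_eq_norm]
        congr 1
        abel
      have e2 : dist (x - h) w = ‖(x - w) - h‖ := by
        rw [dist_eq_norm]
        congr 1
        abel
      have e3 := parallelogram_law_with_norm ℝ (x - w) h
      rw [e1] at a1
      rw [e2] at a2
      rw [dist_eq_norm]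
      nlinarith
    linarith
  have up : ∀ w1 w2 : E, (DD ρ O w1 ^ 2 - 2 * dist (x + h) w1 ^ 2) + (DD ρ O w2 ^ 2 - 2 * dist (x - h) w2 ^ 2) ≤
      2 * PP ρ O x + 4 * ‖h‖ ^ 2 := by
    intro w1 w2
    set m : E := (1 / 2 : ℝ) • (w1 + w2) with hm
    set e : E := (1 / 2 : ℝ) • (w1 - w2) with he
    have hw1 : m + e = w1 := by
      rw [hm, he, ← smul_add]
      have : w1 + w2 + (w1 - w2) = (2 : ℝ) • w1 := by
        rw [two_smul]
        abel
      rw [this, smul_smul]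
      norm_num
    have hw2 : m - e = w2 := by
      rw [hm, he, ← smul_sub]
      have : w1 + w2 - (w1 - w2) = (2 : ℝ) • w2 := by
        rw [two_smul]
        abel
      rw [this, smul_smul]
      norm_num
    have b1 := DD_sq (O := O) hρ.le m e
    rw [hw1, hw2] at b1
    have e1 : dist (x + h) w1 = ‖(x - m) + (h - e)‖ := by
      rw [dist_eq_norm, ← hw1]
      congr 1
      abel
    have e2 : dist (x - h) w2 = ‖(x - m) - (h - e)‖ := by
      rw [dist_eq_norm, ← hw2]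
      congr 1
      abel
    have e3 := parallelogram_law_with_norm ℝ (x - m) (h - e)
    have b2 := le_PP42 (O := O) hρ x m
    rw [dist_eq_norm] at b2
    have b3 : ‖e‖ ≤ ‖h‖ + ‖h - e‖ := by
      have := norm_sub_le h (h - e)
      rwa [sub_sub_cancel] at this
    have b4 : ‖e‖ ^ 2 ≤ 2 * ‖h‖ ^ 2 + 2 * ‖h - e‖ ^ 2 := by
      have := pow_le_pow_left₀ (norm_nonneg e) b3 2
      nlinarith [sq_nonneg (‖h‖ - ‖h - e‖)]
    rw [e1, e2]
    nlinarith
  have up2 : PP ρ O (x + h) + PP ρ O (x - h) ≤ 2 * PP ρ O x + 4 * ‖h‖ ^ 2 := by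
    have h1 : PP ρ O (x - h) ≤ 2 * PP ρ O x + 4 * ‖h‖ ^ 2 - PP ρ O (x + h) := by
      refine PP_le42 fun w2 => ?_
      have h2 : PP ρ O (x + h) ≤ 2 * PP ρ O x + 4 * ‖h‖ ^ 2 - (DD ρ O w2 ^ 2 - 2 * dist (x - h) w2 ^ 2) := by
        refine PP_le42 fun w1 => ?_
        have := up w1 w2
        linarith
      linarith
    linarith
  rw [abs_le]
  constructor <;> linarith

theorem PP_local (hρ : 0 < ρ) {x : E} (h : ∀ f, dist x f < 2 * ρ → (f ∈ O ↔ f ∈ O')) :
    PP ρ O x = PP ρ O' x := by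
  have key : ∀ O O' : Set E, (∀ f, dist x f < 2 * ρ → (f ∈ O ↔ f ∈ O')) → PP ρ O x ≤ PP ρ O' x := by
    intro O O' h
    refine PP_le42 fun w => ?_
    rcases le_total (DD ρ O w ^ 2) (2 * dist x w ^ 2) with h1 | h1
    · exact (by linarith : DD ρ O w ^ 2 - 2 * dist x w ^ 2 ≤ 0).trans (PP_nonneg hρ x)
    have h2 := pow_le_pow_left₀ (DD_nonneg hρ.le w) (DD_le (O := O) hρ.le w) 2
    have h3 : dist x w < ρ := by
      by_contra hc
      have hc' := not_lt.1 hc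
      nlinarith
    have h4 : DD ρ O w = DD ρ O' w := by
      refine DD_local hρ.le fun f hf => h f ?_
      have := dist_triangle x w f
      linarith
    rw [h4]
    exact le_PP42 hρ x w
  exact le_antisymm (key O O' h) (key O' O fun f hf => (h f hf).symm)

theorem PP_isom (hρ : 0 < ρ) (T : E ≃ᵢ E) (h : ∀ f, T f ∈ O' ↔ f ∈ O) (x : E) :
    PP ρ O' (T x) = PP ρ O x := by
  unfold PP
  rw [← T.surjective.iSup_comp]
  congr 1
  funext w
  rw [DD_isom hρ.le T h w, T.isometry.dist_eq]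

theorem mem_of_PP_pos (hρ : 0 < ρ) {x : E} (h : 0 < PP ρ O x) : x ∈ O := by
  have h1 := PP_le (O := O) hρ x
  have h2 := DD_nonneg (O := O) hρ.le x
  have h3 : 0 < DD ρ O x := by
    rcases h2.lt_or_eq with h3 | h3
    · exact h3
    · rw [← h3] at h1
      exfalso
      have : (2 : ℝ) * 0 ^ 2 = 0 := by norm_num
      linarith
  exact mem_of_lt_DD hρ.le (w := x) (f := x) (by rwa [dist_self])

theorem PP_le_sq (hρ : 0 < ρ) (x : E) : PP ρ O x ≤ 2 * ρ ^ 2 := by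
  have h1 := PP_le (O := O) hρ x
  have h2 := pow_le_pow_left₀ (DD_nonneg hρ.le x) (DD_le (O := O) hρ.le x) 2
  linarith

end Pool.Agent.Helper48.FC
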