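import Mathlib
import Pool.Agent.Helper48.FC.Defs

/-!
Block FC-19.  A slowly varying weight from a slowly varying positive function (`cc = 1e-8`).

Let `δ = 1e-5`, `k t = max 0 (min 1 ((3δ - |t|)/(2δ)))` (continuous, values in `[0,1]`, Lipschitz with constant `1/(2δ)`, `= 1` for `|t| ≤ δ`,
`= 0` for `|t| ≥ 3δ`) and `F s = ∫_0^s k` (`F' = k`, `F s = s` for `|s| ≤ δ`, `F` constant on `[3δ, ∞)` and on `(-∞, -3δ]`, `|F| ≤ 2δ`... `|F| ≤ 3δ` is enough,
`|F (s+α) - F s - k s α| ≤ α²/(4δ)` or `α²/(2δ)`, whichever is easier).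
Let `f z = q z ^ 2`, `G z = F (f z - 1)`, `φ z = -(1/2) log (1 + G z)`.
* `|G| ≤ 3δ`, `|φ| ≤ 2δ ≤ 1/10`.
* `G` is Lipschitz with constant `3 * 6 cc`: `t ↦ F (t² - 1)` on `t ≥ 0` has derivative `2 t k (t² - 1)`, which vanishes for `t² ≥ 1 + 3δ`, so is at most `3`.
  `φ` is Lipschitz with constant `18 cc ≤ 1/10000` (`s ↦ -(1/2) log (1+s)` has derivative of norm at most `1` on `[-3δ, 3δ]`).
* second differences of `G`: `|G (z+h) + G (z-h) - 2 G z| ≤ ‖h‖²/50000`:
  - if `‖h‖ ≥ 3`: the left side is at most `4 * 3δ = 12e-5 ≤ 9/50000`;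
  - if `‖h‖ < 3` and `q z ≥ 2`: `q (z ± h) ≥ 2 - 18 cc`, so all three values of `F` are equal: the left side is `0`;
  - if `‖h‖ < 3` and `q z < 2`: `α = f (z+h) - f z`, `β = f (z-h) - f z`, `|α|, |β| ≤ 6 cc ‖h‖ (4 + 18 cc) ≤ 30 cc ‖h‖`, `|α + β| ≤ 4 cc² ‖h‖²`, so the left side is at most
    `|α + β| + (α² + β²)/(2δ) ≤ 4 cc² ‖h‖² + 900 cc² ‖h‖²/δ ≤ ‖h‖²/50000`.
* second differences of `φ`: `L s = -(1/2) log (1+s)` satisfies `|L'| ≤ 1`, `|L''| ≤ 1` on `[-3δ, 3δ]`, so
  `|L (s+α) + L (s+β) - 2 L s| ≤ |α + β| + (α² + β²)/2` (all of `s, s+α, s+β` in the interval), with `s = G z`, `|α|, |β| ≤ 18 cc ‖h‖`: at most `‖h‖²/10000`.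
* for `‖z‖ ≤ 20`: `|q z - 1| ≤ 120 cc`, `q z > 0`, `|f z - 1| ≤ 241 cc * ... ≤ δ`, `G z = f z - 1`, `φ z = -(1/2) log (q z ^ 2)`.
-/

set_option autoImplicit false
set_option linter.unusedSectionVars false

namespace Pool.Agent.Helper48.FC

open Real Set
open scoped RealInnerProductSpace

variable {E : Type*} [NormedAddCommGroup E] [InnerProductSpace ℝ E]

private noncomputable def F99 (t : ℝ) : ℝ :=
  t - (max (t - 1) 0 ^ 2 - max (t - 3) 0 ^ 2) / 4 + (max (-t - 1) 0 ^ 2 - max (-t - 3) 0 ^ 2) / 4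

private noncomputable def k99 (t : ℝ) : ℝ :=
  1 - (max (t - 1) 0 - max (t - 3) 0) / 2 - (max (-t - 1) 0 - max (-t - 3) 0) / 2

private theorem pos_sq99 (u α : ℝ) : 0 ≤ max (u + α) 0 ^ 2 - max u 0 ^ 2 - 2 * max u 0 * α ∧
    max (u + α) 0 ^ 2 - max u 0 ^ 2 - 2 * max u 0 * α ≤ α ^ 2 := by
  rcases le_total u 0 with h | h
  · rw [max_eq_right h]
    rcases le_total (u + α) 0 with h' | h'
    · rw [max_eq_right h']
      constructor
      · norm_num
      · norm_num
        exact sq_nonneg α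
    · rw [max_eq_left h']
      constructor <;> nlinarith
  · rw [max_eq_left h]
    rcases le_total (u + α) 0 with h' | h'
    · rw [max_eq_right h']
      constructor <;> nlinarith
    · rw [max_eq_left h']
      constructor <;> nlinarith [sq_nonneg α]

private theorem F_quad99 (t α : ℝ) : |F99 (t + α) - F99 t - k99 t * α| ≤ α ^ 2 / 2 := by
  have h1 := pos_sq99 (t - 1) α
  have h2 := pos_sq99 (t - 3) α
  have h3 := pos_sq99 (-t - 1) (-α)
  have h4 := pos_sq99 (-t - 3) (-α)
  have e1 : t + α - 1 = t - 1 + α := by ring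
  have e2 : t + α - 3 = t - 3 + α := by ring
  have e3 : -(t + α) - 1 = -t - 1 + -α := by ring
  have e4 : -(t + α) - 3 = -t - 3 + -α := by ring
  unfold F99 k99
  rw [e1, e2, e3, e4]
  have h3' : (-α) ^ 2 = α ^ 2 := by ring
  rw [h3'] at h3 h4
  rw [abs_le]
  constructor <;> linarith [h1.1, h1.2, h2.1, h2.2, h3.1, h3.2, h4.1, h4.2]

private theorem k_le99 (t : ℝ) : |k99 t| ≤ 1 := by
  unfold k99
  rw [abs_le]
  rcases le_total t 0 with h | h
  · rw [max_eq_right (show t - 1 ≤ 0 by linarith), max_eq_right (show t - 3 ≤ 0 by linarith)]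
    rcases le_total (-t - 1) 0 with h1 | h1 <;> rcases le_total (-t - 3) 0 with h2 | h2
    · rw [max_eq_right h1, max_eq_right h2]; constructor <;> linarith
    · rw [max_eq_right h1, max_eq_left h2]; constructor <;> linarith
    · rw [max_eq_left h1, max_eq_right h2]; constructor <;> linarith
    · rw [max_eq_left h1, max_eq_left h2]; constructor <;> linarith
  · rw [max_eq_right (show -t - 1 ≤ 0 by linarith), max_eq_right (show -t - 3 ≤ 0 by linarith)]
    rcases le_total (t - 1) 0 with h1 | h1 <;> rcases le_total (t - 3) 0 with h2 | h2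
    · rw [max_eq_right h1, max_eq_right h2]; constructor <;> linarith
    · rw [max_eq_right h1, max_eq_left h2]; constructor <;> linarith
    · rw [max_eq_left h1, max_eq_right h2]; constructor <;> linarith
    · rw [max_eq_left h1, max_eq_left h2]; constructor <;> linarith

private theorem F_eq99 {t : ℝ} (h : |t| ≤ 1) : F99 t = t := by
  have h1 := abs_le.1 h
  unfold F99
  rw [max_eq_right (show t - 1 ≤ 0 by linarith), max_eq_right (show t - 3 ≤ 0 by linarith),
    max_eq_right (show -t - 1 ≤ 0 by linarith), max_eq_right (show -t - 3 ≤ 0 by linarith)]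
  ring

private theorem F_const99 {t : ℝ} (h : 3 ≤ t) : F99 t = 2 := by
  unfold F99
  rw [max_eq_left (show 0 ≤ t - 1 by linarith), max_eq_left (show 0 ≤ t - 3 by linarith),
    max_eq_right (show -t - 1 ≤ 0 by linarith), max_eq_right (show -t - 3 ≤ 0 by linarith)]
  ring

private theorem F_neg99 (t : ℝ) : F99 (-t) = -F99 t := by
  unfold F99
  rw [neg_neg]
  ring

private theorem F_bd99 (t : ℝ) : |F99 t| ≤ 2 := by
  have key : ∀ s : ℝ, 0 ≤ s → |F99 s| ≤ 2 := by
    intro s hs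
    rcases le_total s 1 with h1 | h1
    · rw [F_eq99 (by rw [abs_of_nonneg hs]; exact h1), abs_of_nonneg hs]
      linarith
    · rcases le_total 3 s with h2 | h2
      · rw [F_const99 h2]; norm_num
      · unfold F99
        rw [max_eq_left (show 0 ≤ s - 1 by linarith), max_eq_right (show s - 3 ≤ 0 by linarith),
          max_eq_right (show -s - 1 ≤ 0 by linarith), max_eq_right (show -s - 3 ≤ 0 by linarith),
          abs_le]
        constructor <;> nlinarith
  rcases le_total 0 t with h | h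
  · exact key t h
  · have h1 := key (-t) (by linarith)
    rwa [F_neg99, abs_neg] at h1

private theorem F_deriv99 (t : ℝ) : HasDerivAt F99 (k99 t) t := by
  rw [hasDerivAt_iff_isLittleO_nhds_zero]
  refine Asymptotics.IsBigO.trans_isLittleO (g := fun h : ℝ => h ^ 2) ?_
    (Asymptotics.isLittleO_pow_id (by norm_num))
  refine Asymptotics.IsBigO.of_bound (1 / 2) (Filter.Eventually.of_forall fun α => ?_)
  rw [Real.norm_eq_abs, Real.norm_eq_abs, abs_of_nonneg (sq_nonneg α), smul_eq_mul]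
  have := F_quad99 t α
  rw [mul_comm α]
  linarith

private theorem F_lip99 (s t : ℝ) : |F99 s - F99 t| ≤ |s - t| := by
  have h := convex_univ.norm_image_sub_le_of_norm_hasDerivWithin_le (f := F99) (f' := k99)
    (C := 1) (s := univ) (fun x _ => (F_deriv99 x).hasDerivWithinAt) (fun x _ => by
      rw [Real.norm_eq_abs]; exact k_le99 x) (mem_univ t) (mem_univ s)
  rwa [Real.norm_eq_abs, Real.norm_eq_abs, one_mul] at h

/-- the scaled clipping function -/
private noncomputable def D99 (s : ℝ) : ℝ := F99 (100000 * s) / 100000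

private theorem D_bd99 (s : ℝ) : |D99 s| ≤ 2 / 100000 := by
  unfold D99
  rw [abs_div, abs_of_pos (by norm_num : (0 : ℝ) < 100000)]
  exact div_le_div_of_nonneg_right (F_bd99 _) (by norm_num)

private theorem D_lip99 (s t : ℝ) : |D99 s - D99 t| ≤ |s - t| := by
  unfold D99
  rw [← sub_div, abs_div, abs_of_pos (by norm_num : (0 : ℝ) < 100000),
    div_le_iff₀ (by norm_num : (0 : ℝ) < 100000)]
  refine (F_lip99 _ _).trans ?_
  rw [← mul_sub, abs_mul, abs_of_pos (by norm_num : (0 : ℝ) < 100000), mul_comm]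

private theorem D_quad99 (s α β : ℝ) :
    |D99 (s + α) + D99 (s + β) - 2 * D99 s| ≤ |α + β| + 50000 * (α ^ 2 + β ^ 2) := by
  have h1 := F_quad99 (100000 * s) (100000 * α)
  have h2 := F_quad99 (100000 * s) (100000 * β)
  rw [← mul_add] at h1 h2
  have hk := k_le99 (100000 * s)
  have h3 : |k99 (100000 * s) * (α + β)| ≤ |α + β| := by
    rw [abs_mul]
    exact mul_le_of_le_one_left (abs_nonneg _) hk
  have h4 : D99 (s + α) + D99 (s + β) - 2 * D99 s =
      (F99 (100000 * (s + α)) - F99 (100000 * s) - k99 (100000 * s) * (100000 * α)) / 100000 +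
      (F99 (100000 * (s + β)) - F99 (100000 * s) - k99 (100000 * s) * (100000 * β)) / 100000 +
      k99 (100000 * s) * (α + β) := by
    unfold D99
    ring
  rw [h4]
  rw [abs_le] at h1 h2 h3 ⊢
  constructor <;> linarith [h1.1, h1.2, h2.1, h2.2, h3.1, h3.2]

private theorem D_eq99 {s : ℝ} (h : |s| ≤ 1 / 100000) : D99 s = s := by
  unfold D99
  rw [F_eq99]
  · ring
  · rw [abs_mul, abs_of_pos (by norm_num : (0 : ℝ) < 100000)]
    linarith

private theorem D_const99 {s : ℝ} (h : 3 / 100000 ≤ s) : D99 s = 2 / 100000 := by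
  unfold D99
  rw [F_const99]
  linarith

private theorem D_sq_lip99 {t t' : ℝ} (ht : 0 ≤ t) (ht' : 0 ≤ t') :
    |D99 (t ^ 2 - 1) - D99 (t' ^ 2 - 1)| ≤ 3 * |t - t'| := by
  have key : ∀ r : ℝ, 0 ≤ r → D99 (r ^ 2 - 1) = D99 (min r (3 / 2) ^ 2 - 1) := by
    intro r _
    rcases le_total r (3 / 2) with h | h
    · rw [min_eq_left h]
    · rw [min_eq_right h, D_const99, D_const99]
      · norm_num
      · nlinarith
  rw [key t ht, key t' ht']
  refine (D_lip99 _ _).trans ?_
  have h1 : 0 ≤ min t (3 / 2) := le_min ht (by norm_num)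
  have h1' : 0 ≤ min t' (3 / 2) := le_min ht' (by norm_num)
  have h2 : min t (3 / 2) ≤ 3 / 2 := min_le_right _ _
  have h2' : min t' (3 / 2) ≤ 3 / 2 := min_le_right _ _
  have h3 : |min t (3 / 2) - min t' (3 / 2)| ≤ |t - t'| := (abs_min_sub_min_le_max t (3 / 2) t' (3 / 2)).trans (by simp)
  have h4 : min t (3 / 2) ^ 2 - 1 - (min t' (3 / 2) ^ 2 - 1) =
      (min t (3 / 2) + min t' (3 / 2)) * (min t (3 / 2) - min t' (3 / 2)) := by ring
  rw [h4, abs_mul, abs_of_nonneg (by linarith)]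
  exact mul_le_mul (by linarith) h3 (abs_nonneg _) (by norm_num)

/-- the logarithm near `1` -/
private theorem log_quad99 {s α : ℝ} (hs : |s| ≤ 1 / 100) (hα : |s + α| ≤ 1 / 100) :
    |Real.log (1 + (s + α)) - Real.log (1 + s) - α / (1 + s)| ≤ 3 * α ^ 2 := by
  have h1 := abs_le.1 hs
  have h2 := abs_le.1 hα
  have hp : 0 < 1 + s := by linarith
  have hp' : 0 < 1 + (s + α) := by linarith
  have hlog : Real.log (1 + (s + α)) - Real.log (1 + s) = Real.log ((1 + (s + α)) / (1 + s)) := by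
    rw [Real.log_div hp'.ne' hp.ne']
  have h3 : (1 + (s + α)) / (1 + s) = 1 + α / (1 + s) := by
    field_simp
    ring
  have hq : 0 < (1 + (s + α)) / (1 + s) := div_pos hp' hp
  have h4 := Real.log_le_sub_one_of_pos hq
  have h5 := Real.one_sub_inv_le_log_of_pos hq
  rw [hlog]
  have h6 : 1 - ((1 + (s + α)) / (1 + s))⁻¹ - α / (1 + s) = -(α ^ 2 / ((1 + s) * (1 + (s + α)))) := by
    field_simp
    ring
  have h7 : α ^ 2 / ((1 + s) * (1 + (s + α))) ≤ 3 * α ^ 2 := by
    rw [div_le_iff₀ (by positivity)]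
    have h8 : 1 ≤ 3 * ((1 + s) * (1 + (s + α))) := by nlinarith
    have h9 := mul_le_mul_of_nonneg_left h8 (sq_nonneg α)
    linarith
  rw [abs_le]
  constructor
  · linarith
  · rw [h3] at h4 ⊢
    nlinarith [sq_nonneg α]

private theorem log_sd99 {s α β : ℝ} (hs : |s| ≤ 1 / 100) (hα : |s + α| ≤ 1 / 100)
    (hβ : |s + β| ≤ 1 / 100) :
    |-(1 / 2) * Real.log (1 + (s + α)) + -(1 / 2) * Real.log (1 + (s + β)) -
      2 * (-(1 / 2) * Real.log (1 + s))| ≤ |α + β| + 3 / 2 * (α ^ 2 + β ^ 2) := by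
  have h1 := log_quad99 hs hα
  have h2 := log_quad99 hs hβ
  have h3 := abs_le.1 hs
  have hp : 0 < 1 + s := by linarith
  have h4 : |(α + β) / (1 + s)| ≤ 2 * |α + β| := by
    rw [abs_div, abs_of_pos hp, div_le_iff₀ hp]
    have := abs_nonneg (α + β)
    nlinarith
  have h5 : α / (1 + s) + β / (1 + s) = (α + β) / (1 + s) := by rw [add_div]
  rw [abs_le] at h1 h2 h4 ⊢
  constructor <;> linarith [h1.1, h1.2, h2.1, h2.2, h4.1, h4.2]

private theorem log_lip99 {s t : ℝ} (hs : |s| ≤ 1 / 100) (ht : |t| ≤ 1 / 100) :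
    |-(1 / 2) * Real.log (1 + s) - -(1 / 2) * Real.log (1 + t)| ≤ |s - t| := by
  have key : ∀ a b : ℝ, |a| ≤ 1 / 100 → |b| ≤ 1 / 100 →
      Real.log (1 + a) - Real.log (1 + b) ≤ 2 * |a - b| := by
    intro a b ha hb
    have h1 := abs_le.1 ha
    have h2 := abs_le.1 hb
    have hp : 0 < 1 + b := by linarith
    have hp' : 0 < 1 + a := by linarith
    rw [← Real.log_div hp'.ne' hp.ne']
    have h4 := Real.log_le_sub_one_of_pos (div_pos hp' hp)
    have h5 : (1 + a) / (1 + b) - 1 = (a - b) / (1 + b) := by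
      field_simp
      ring
    have h6 : (a - b) / (1 + b) ≤ 2 * |a - b| := by
      rw [div_le_iff₀ hp]
      have h7 := le_abs_self (a - b)
      have h8 := abs_nonneg (a - b)
      nlinarith
    linarith
  have h1 := key s t hs ht
  have h2 := key t s ht hs
  rw [abs_sub_comm t s] at h2
  rw [abs_le]
  constructor <;> linarith

theorem slow_of {q : E → ℝ} (h0 : ∀ z, 0 ≤ q z) (h1 : q 0 = 1)
    (hl : ∀ z z', |q z - q z'| ≤ 6 * cc * ‖z - z'‖)
    (h2 : ∀ z h, |q (z + h) ^ 2 + q (z - h) ^ 2 - 2 * q z ^ 2| ≤ 4 * cc ^ 2 * ‖h‖ ^ 2) :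
    ∃ φ : E → ℝ, Slow φ ∧ ∀ z, ‖z‖ ≤ 20 → 0 < q z ∧ φ z = -(1 / 2) * log (q z ^ 2) := by
  have hcc : cc = 1 / 100000000 := rfl
  obtain ⟨G, hG⟩ : ∃ G : E → ℝ, G = fun z => D99 (q z ^ 2 - 1) := ⟨_, rfl⟩
  have hGb : ∀ z, |G z| ≤ 2 / 100000 := fun z => by rw [hG]; exact D_bd99 _
  have hGb' : ∀ z, |G z| ≤ 1 / 100 := fun z => (hGb z).trans (by norm_num)
  have hGl : ∀ z z', |G z - G z'| ≤ 18 * cc * ‖z - z'‖ := by
    intro z z'
    rw [hG]
    have h3 := D_sq_lip99 (h0 z) (h0 z')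
    have h4 := hl z z'
    linarith
  have hGs : ∀ z h, |G (z + h) + G (z - h) - 2 * G z| ≤ 1 / 50000 * ‖h‖ ^ 2 := by
    intro z h
    have hn := norm_nonneg h
    rcases le_total 3 ‖h‖ with h3 | h3
    · have b1 := abs_le.1 (hGb (z + h))
      have b2 := abs_le.1 (hGb (z - h))
      have b3 := abs_le.1 (hGb z)
      have h4 : (9 : ℝ) ≤ ‖h‖ ^ 2 := by nlinarith
      rw [abs_le]
      constructor <;> linarith [b1.1, b1.2, b2.1, b2.2, b3.1, b3.2]
    · have l1 := hl (z + h) z
      have l2 := hl (z - h) z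
      rw [add_sub_cancel_left] at l1
      rw [sub_sub_cancel_left, norm_neg] at l2
      rw [hcc] at l1 l2
      have m1 := abs_le.1 l1
      have m2 := abs_le.1 l2
      rcases le_total 2 (q z) with h4 | h4
      · have n1 : 1.9 ≤ q (z + h) := by linarith [m1.1]
        have n2 : 1.9 ≤ q (z - h) := by linarith [m2.1]
        have e1 : G (z + h) = 2 / 100000 := by rw [hG]; exact D_const99 (by nlinarith)
        have e2 : G (z - h) = 2 / 100000 := by rw [hG]; exact D_const99 (by nlinarith)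
        have e3 : G z = 2 / 100000 := by rw [hG]; exact D_const99 (by nlinarith)
        rw [e1, e2, e3]
        norm_num
      · obtain ⟨α, hα⟩ : ∃ α, α = q (z + h) ^ 2 - q z ^ 2 := ⟨_, rfl⟩
        obtain ⟨β, hβ⟩ : ∃ β, β = q (z - h) ^ 2 - q z ^ 2 := ⟨_, rfl⟩
        have e1 : G (z + h) = D99 (q z ^ 2 - 1 + α) := by
          rw [hG, hα]
          change D99 (q (z + h) ^ 2 - 1) = _
          congr 1
          ring
        have e2 : G (z - h) = D99 (q z ^ 2 - 1 + β) := by
          rw [hG, hβ]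
          change D99 (q (z - h) ^ 2 - 1) = _
          congr 1
          ring
        have e3 : G z = D99 (q z ^ 2 - 1) := by rw [hG]
        have hq := D_quad99 (q z ^ 2 - 1) α β
        rw [← e1, ← e2, ← e3] at hq
        have hab : |α + β| ≤ 4 * cc ^ 2 * ‖h‖ ^ 2 := by
          have h5 : α + β = q (z + h) ^ 2 + q (z - h) ^ 2 - 2 * q z ^ 2 := by rw [hα, hβ]; ring
          rw [h5]
          exact h2 z h
        have hA : |α| ≤ 30 / 100000000 * ‖h‖ := by
          have h5 : α = (q (z + h) - q z) * (q (z + h) + q z) := by rw [hα]; ring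
          rw [h5, abs_mul, abs_of_nonneg (add_nonneg (h0 _) (h0 _))]
          have h6 : q (z + h) + q z ≤ 5 := by linarith [m1.2]
          calc |q (z + h) - q z| * (q (z + h) + q z) ≤ (6 * (1 / 100000000) * ‖h‖) * 5 :=
                mul_le_mul l1 h6 (add_nonneg (h0 _) (h0 _)) (by positivity)
            _ = 30 / 100000000 * ‖h‖ := by ring
        have hB : |β| ≤ 30 / 100000000 * ‖h‖ := by
          have h5 : β = (q (z - h) - q z) * (q (z - h) + q z) := by rw [hβ]; ring
          rw [h5, abs_mul, abs_of_nonneg (add_nonneg (h0 _) (h0 _))]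
          have h6 : q (z - h) + q z ≤ 5 := by linarith [m2.2]
          calc |q (z - h) - q z| * (q (z - h) + q z) ≤ (6 * (1 / 100000000) * ‖h‖) * 5 :=
                mul_le_mul l2 h6 (add_nonneg (h0 _) (h0 _)) (by positivity)
            _ = 30 / 100000000 * ‖h‖ := by ring
        have hA2 : α ^ 2 ≤ (30 / 100000000 * ‖h‖) ^ 2 := by
          rw [← sq_abs α]
          exact pow_le_pow_left₀ (abs_nonneg _) hA 2
        have hB2 : β ^ 2 ≤ (30 / 100000000 * ‖h‖) ^ 2 := by
          rw [← sq_abs β]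
          exact pow_le_pow_left₀ (abs_nonneg _) hB 2
        rw [hcc] at hab
        refine hq.trans ?_
        have h7 : 0 ≤ ‖h‖ ^ 2 := sq_nonneg _
        have h8 : (30 / 100000000 * ‖h‖) ^ 2 = (30 / 100000000) ^ 2 * ‖h‖ ^ 2 := by ring
        rw [h8] at hA2 hB2
        norm_num at hab hA2 hB2 ⊢
        linarith
  refine ⟨fun z => -(1 / 2) * Real.log (1 + G z), ⟨fun z => ?_, fun z z' => ?_, fun z h => ?_⟩,
    fun z hz => ?_⟩
  · have h3 := log_lip99 (hGb' z) (t := 0) (by norm_num)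
    rw [add_zero, Real.log_one, mul_zero, sub_zero, sub_zero] at h3
    exact h3.trans ((hGb' z).trans (by norm_num))
  · have h3 := log_lip99 (hGb' z) (hGb' z')
    have h4 := hGl z z'
    rw [hcc] at h4
    have h5 := norm_nonneg (z - z')
    refine h3.trans (h4.trans ?_)
    apply mul_le_mul_of_nonneg_right _ h5
    norm_num
  · have h3 := log_sd99 (s := G z) (α := G (z + h) - G z) (β := G (z - h) - G z) (hGb' z)
      (by rw [add_sub_cancel]; exact hGb' _) (by rw [add_sub_cancel]; exact hGb' _)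
    rw [add_sub_cancel, add_sub_cancel] at h3
    refine h3.trans ?_
    have h4 : G (z + h) - G z + (G (z - h) - G z) = G (z + h) + G (z - h) - 2 * G z := by ring
    rw [h4]
    have h5 := hGs z h
    have l1 := hGl (z + h) z
    have l2 := hGl (z - h) z
    rw [add_sub_cancel_left] at l1
    rw [sub_sub_cancel_left, norm_neg] at l2
    have hA2 : (G (z + h) - G z) ^ 2 ≤ (18 * cc * ‖h‖) ^ 2 := by
      rw [← sq_abs (G (z + h) - G z)]
      exact pow_le_pow_left₀ (abs_nonneg _) l1 2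
    have hB2 : (G (z - h) - G z) ^ 2 ≤ (18 * cc * ‖h‖) ^ 2 := by
      rw [← sq_abs (G (z - h) - G z)]
      exact pow_le_pow_left₀ (abs_nonneg _) l2 2
    have h7 : 0 ≤ ‖h‖ ^ 2 := sq_nonneg _
    have h8 : (18 * cc * ‖h‖) ^ 2 = (18 * (1 / 100000000)) ^ 2 * ‖h‖ ^ 2 := by rw [hcc]; ring
    rw [h8] at hA2 hB2
    norm_num at h5 hA2 hB2 ⊢
    linarith
  · have l1 := hl z 0
    rw [sub_zero, h1, hcc] at l1
    have m1 : |q z - 1| ≤ 12 / 10000000 := by
      refine l1.trans ?_
      linarith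
    have m2 := abs_le.1 m1
    have hq0 : 0 < q z := by linarith [m2.1]
    refine ⟨hq0, ?_⟩
    have h3 : |q z ^ 2 - 1| ≤ 1 / 100000 := by
      have h4 : q z ^ 2 - 1 = (q z - 1) * (q z + 1) := by ring
      rw [h4, abs_mul, abs_of_pos (by linarith : (0 : ℝ) < q z + 1)]
      calc |q z - 1| * (q z + 1) ≤ 12 / 10000000 * 3 :=
            mul_le_mul m1 (by linarith [m2.2]) (by linarith) (by norm_num)
        _ ≤ 1 / 100000 := by norm_num
    have h5 : G z = q z ^ 2 - 1 := by rw [hG]; exact D_eq99 h3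
    show -(1 / 2) * Real.log (1 + G z) = _
    rw [h5, add_sub_cancel]

end Pool.Agent.Helper48.FC
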