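import Mathlib
import Pool.Agent.Helper48.FC.PPf
import Pool.Agent.Helper48.FC.SlowOf

/-!
Project FC: the weight of the chart of a point, and the charts of `Pt L`.
-/

set_option autoImplicit false
set_option linter.unusedSectionVars false

namespace Pool.Agent.Helper48.FC

open Real Set
open scoped RealInnerProductSpace

theorem cc_pos : 0 < cc := by unfold cc; norm_num

theorem exists_weight {E : Type*} [NormedAddCommGroup E] [InnerProductSpace ℝ E] {ρ : ℝ} {O : Set E}
    (hρ : 0 < ρ) {p : E} (hp : 0 < PP ρ O p) :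
    ∃ φ : E → ℝ, Slow φ ∧ ∀ z, ‖z‖ ≤ 20 → 0 < PP ρ O (p + (cc * √(PP ρ O p)) • z) ∧
      φ z = -(1 / 2) * log (PP ρ O (p + (cc * √(PP ρ O p)) • z) / PP ρ O p) := by
  set s := √(PP ρ O p) with hs
  have hs0 : 0 < s := sqrt_pos.2 hp
  have hs2 : s ^ 2 = PP ρ O p := sq_sqrt hp.le
  have hcc := cc_pos
  obtain ⟨φ, h1, h2⟩ := slow_of (E := E) (q := fun z => √(PP ρ O (p + (cc * s) • z)) / s)
    (fun z => by positivity) (by
      simp only [smul_zero, add_zero]
      rw [← hs, div_self hs0.ne']) (fun z z' => by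
      rw [← sub_div, abs_div, abs_of_pos hs0, div_le_iff₀ hs0]
      refine (sqrt_PP_lip hρ _ _).trans (le_of_eq ?_)
      rw [dist_eq_norm, show p + (cc * s) • z' - (p + (cc * s) • z) = (cc * s) • (z' - z) by
        rw [smul_sub]; abel, norm_smul, norm_sub_rev z', Real.norm_eq_abs,
        abs_of_nonneg (by positivity)]
      ring) (fun z k => by
      have e : ∀ z, (√(PP ρ O (p + (cc * s) • z)) / s) ^ 2 = PP ρ O (p + (cc * s) • z) / s ^ 2 :=
        fun z => by rw [div_pow, sq_sqrt (PP_nonneg hρ _)]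
      simp only [e]
      have e1 : p + (cc * s) • (z + k) = p + (cc * s) • z + (cc * s) • k := by
        rw [smul_add]; abel
      have e2 : p + (cc * s) • (z - k) = p + (cc * s) • z - (cc * s) • k := by
        rw [smul_sub]; abel
      rw [e1, e2]
      rw [show PP ρ O (p + (cc * s) • z + (cc * s) • k) / s ^ 2 +
        PP ρ O (p + (cc * s) • z - (cc * s) • k) / s ^ 2 -
        2 * (PP ρ O (p + (cc * s) • z) / s ^ 2) = (PP ρ O (p + (cc * s) • z + (cc * s) • k) +
        PP ρ O (p + (cc * s) • z - (cc * s) • k) - 2 * PP ρ O (p + (cc * s) • z)) / s ^ 2 by ring]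
      rw [abs_div, abs_of_pos (by positivity : 0 < s ^ 2), div_le_iff₀ (by positivity)]
      refine (PP_sd hρ _ _).trans (le_of_eq ?_)
      rw [norm_smul, Real.norm_eq_abs, abs_of_nonneg (by positivity)]
      ring)
  refine ⟨φ, h1, fun z hz => ?_⟩
  obtain ⟨h3, h4⟩ := h2 z hz
  have h5 : 0 < √(PP ρ O (p + (cc * s) • z)) := by
    by_contra hneg
    have h6 : √(PP ρ O (p + (cc * s) • z)) = 0 := le_antisymm (not_lt.1 hneg) (sqrt_nonneg _)
    simp only [h6, zero_div] at h3
    exact lt_irrefl _ h3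
  refine ⟨sqrt_pos.1 h5, ?_⟩
  rw [h4, div_pow, sq_sqrt (PP_nonneg hρ _), hs2]

end Pool.Agent.Helper48.FC
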