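import Mathlib
import Pool.Agent.Helper48.FC.Scl

/-!
Block FC-20.  Basic facts on `Loc` and `Pt`.

* `T_self`: `coc x x x` gives `T x x (T x x q) = T x x q`; `T x x` is injective.  `T_inv`: `coc x y x` and `T_self`.
* `T_dist`: `dist (T x y p) (T x z q) = dist (T x y p) (T x y (T y z q)) = dist p (T y z q)` (`coc`).
* `O_compat`, used for `PP_compat`: let `x, y ∈ V`, `dist x y ≤ R/4`, `dist q (s y) ≤ 5ρ`, `dist q f < 2ρ`.  Then `T x y f ∈ O x ↔ f ∈ O y`.
  (→) there is `u ∈ V`, `dist x u ≤ R/2`, `dist (T x y f) (T x u (s u)) < ρ`; `dist y u ≤ 3R/4 ≤ R`, so `T_dist` gives `dist f (T y u (s u)) < ρ`; then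
  `dist (s y) (T y u (s u)) ≤ 5ρ + 2ρ + ρ ≤ 30ρ` and `dist y u ≤ R/8 ≤ R/2` by `far`.
  (←) there is `u ∈ V`, `dist y u ≤ R/2`, `dist f (T y u (s u)) < ρ`; `dist x u ≤ 3R/4 ≤ R`, so `dist (T x y f) (T x u (s u)) < ρ`; as before `dist y u ≤ R/8`, so
  `dist x u ≤ R/4 + R/8 ≤ R/2`.
* `PP_compat`: `PP_isom` for `T x y` and the set `{f | T x y f ∈ O x}`, then `PP_local` with `O_compat`.
* `PP_pos`: the ball of radius `ρ` about `s x` is contained in `O x` (`y = x`, `T_self`), so `DD ρ (O x) p ≥ ρ - dist p (s x) > 0` (`le_DD`), `DD_sq_le_PP`.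
  `le_kp`: in the same way `DD ρ (O x) (s x) ≥ ρ`.  `kp_le`: `PP_le_sq`.
* `ez_symm`: if `dist a.x b.x ≤ R/4`: `dist a.p (T a.x b.x b.p) = dist (T b.x a.x a.p) b.p` (`T_dist`, `T_self`).
-/

set_option autoImplicit false
set_option linter.unusedSectionVars false

namespace Pool.Agent.Helper48.FC

open Real Set
open scoped RealInnerProductSpace

universe u v

variable {X : Type u} [MetricSpace X] {E : Type v} [NormedAddCommGroup E] [InnerProductSpace ℝ E]
  {V : Set X} {R ρ : ℝ}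

theorem T_self (L : Loc X E V R ρ) {x : X} (hx : x ∈ V) (q : E) : L.T x x q = q := by
  have h0 : dist x x ≤ R := by
    rw [dist_self]
    exact L.hR.le
  exact (L.T x x).injective (L.coc x hx x hx x hx h0 h0 h0 q)

theorem T_inv (L : Loc X E V R ρ) {x y : X} (hx : x ∈ V) (hy : y ∈ V) (hxy : dist x y ≤ R) (q : E) :
    L.T x y (L.T y x q) = q := by
  have h0 : dist x x ≤ R := by
    rw [dist_self]
    exact L.hR.le
  rw [L.coc x hx y hy x hx hxy (by rwa [dist_comm]) h0 q, T_self L hx]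

theorem T_dist (L : Loc X E V R ρ) {x y z : X} (hx : x ∈ V) (hy : y ∈ V) (hz : z ∈ V)
    (hxy : dist x y ≤ R) (hyz : dist y z ≤ R) (hxz : dist x z ≤ R) (p q : E) :
    dist (L.T x y p) (L.T x z q) = dist p (L.T y z q) := by
  rw [← L.coc x hx y hy z hz hxy hyz hxz q, (L.T x y).isometry.dist_eq]

theorem O_compat (L : Loc X E V R ρ) {x y : X} (hx : x ∈ V) (hy : y ∈ V) (hxy : dist x y ≤ R / 4)
    {q f : E} (hq : dist q (L.s y) ≤ 5 * ρ) (hf : dist q f < 2 * ρ) :
    L.T x y f ∈ L.O x ↔ f ∈ L.O y := by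
  have hR := L.hR
  have hρ := L.hρ
  constructor
  · rintro ⟨u, hu, h1, h2⟩
    have h3 : dist y u ≤ R := by
      have := dist_triangle y x u
      rw [dist_comm y x] at this
      linarith
    rw [T_dist L hx hy hu (by linarith) h3 (by linarith)] at h2
    have h4 : dist (L.s y) (L.T y u (L.s u)) ≤ 30 * ρ := by
      have h5 := dist_triangle (L.s y) q (L.T y u (L.s u))
      have h6 := dist_triangle q f (L.T y u (L.s u))
      rw [dist_comm (L.s y) q] at h5
      linarith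
    have h7 := L.far y hy u hu h3 h4
    exact ⟨u, hu, by linarith, h2⟩
  · rintro ⟨u, hu, h1, h2⟩
    have h3 : dist x u ≤ R := by
      have := dist_triangle x y u
      linarith
    have h4 : dist (L.s y) (L.T y u (L.s u)) ≤ 30 * ρ := by
      have h5 := dist_triangle (L.s y) q (L.T y u (L.s u))
      have h6 := dist_triangle q f (L.T y u (L.s u))
      rw [dist_comm (L.s y) q] at h5
      linarith
    have h7 := L.far y hy u hu (by linarith) h4
    refine ⟨u, hu, ?_, ?_⟩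
    · have := dist_triangle x y u
      linarith
    · rw [T_dist L hx hy hu (by linarith) (by linarith) h3]
      exact h2

theorem PP_compat (L : Loc X E V R ρ) {x y : X} (hx : x ∈ V) (hy : y ∈ V) (hxy : dist x y ≤ R / 4)
    {q : E} (hq : dist q (L.s y) ≤ 5 * ρ) :
    PP ρ (L.O x) (L.T x y q) = PP ρ (L.O y) q := by
  rw [PP_isom (O := {f | L.T x y f ∈ L.O x}) (O' := L.O x) L.hρ (L.T x y) (fun f => Iff.rfl) q]
  exact PP_local L.hρ fun f hf => O_compat L hx hy hxy hq hf

variable {L : Loc X E V R ρ}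

private theorem le_DD20 (a : Pt L) : ρ - dist a.p (L.s a.x) ≤ DD ρ (L.O a.x) a.p := by
  have hρ := L.hρ
  refine le_DD hρ.le (by linarith [dist_nonneg (x := a.p) (y := L.s a.x)]) fun f hf => ?_
  refine ⟨a.x, a.hx, ?_, ?_⟩
  · rw [dist_self]
    linarith [L.hR]
  · rw [T_self L a.hx]
    have := dist_triangle f a.p (L.s a.x)
    rw [dist_comm f a.p] at this
    linarith

theorem PP_pos (a : Pt L) : 0 < PP ρ (L.O a.x) a.p := by
  have h1 := le_DD20 a
  have h2 := a.hp
  have h3 : 0 < DD ρ (L.O a.x) a.p := by linarith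
  exact (pow_pos h3 2).trans_le (DD_sq_le_PP L.hρ a.p)

theorem kp_pos (a : Pt L) : 0 < kp a := mul_pos cc_pos (sqrt_pos.2 (PP_pos a))

theorem kp_le (a : Pt L) : kp a ≤ 2 * cc * ρ := by
  have hρ := L.hρ
  have h1 : √(PP ρ (L.O a.x) a.p) ≤ 2 * ρ := by
    rw [Real.sqrt_le_left (by positivity)]
    have := PP_le_sq (O := L.O a.x) hρ a.p
    nlinarith
  have h2 := mul_le_mul_of_nonneg_left h1 cc_pos.le
  unfold kp
  linarith

/-- the point of the section over `x` -/
def sec (L : Loc X E V R ρ) (x : X) (hx : x ∈ V) : Pt L :=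
  ⟨x, hx, L.s x, by rw [dist_self]; exact L.hρ⟩

theorem le_kp (L : Loc X E V R ρ) (x : X) (hx : x ∈ V) : cc * ρ ≤ kp (sec L x hx) := by
  have hρ := L.hρ
  have h1 := le_DD20 (sec L x hx)
  have h2 : dist (sec L x hx).p (L.s (sec L x hx).x) = 0 := dist_self _
  rw [h2, sub_zero] at h1
  have h3 : ρ ≤ √(PP ρ (L.O (sec L x hx).x) (sec L x hx).p) :=
    Real.le_sqrt_of_sq_le ((pow_le_pow_left₀ hρ.le h1 2).trans (DD_sq_le_PP hρ _))
  exact mul_le_mul_of_nonneg_left h3 cc_pos.le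

theorem ez_nonneg (a b : Pt L) : 0 ≤ ez a b := by
  unfold ez
  have h1 : 0 ≤ rz a b := div_nonneg dist_nonneg (sqrt_nonneg _)
  split_ifs
  · positivity
  · norm_num

theorem ez_symm (a b : Pt L) : ez a b = ez b a := by
  have hR := L.hR
  by_cases h : dist a.x b.x ≤ R / 4
  · have h' : dist b.x a.x ≤ R / 4 := by rwa [dist_comm]
    have h1 : rz a b = rz b a := by
      have h2 := T_dist L b.hx a.hx b.hx (by linarith) (by linarith) (by rw [dist_self]; exact hR.le) a.p b.p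
      rw [T_self L b.hx] at h2
      unfold rz
      rw [← h2, mul_comm (kp a), dist_comm]
    unfold ez
    rw [if_pos h, if_pos h', h1]
  · have h' : ¬ dist b.x a.x ≤ R / 4 := by rwa [dist_comm]
    unfold ez
    rw [if_neg h, if_neg h']

theorem exists_chart (a : Pt L) : ∃ φ : E → ℝ, Chart a φ := by
  obtain ⟨φ, h1, h2⟩ := exists_weight L.hρ (PP_pos a)
  exact ⟨φ, h1, fun z hz => (h2 z hz).1, fun z hz => (h2 z hz).2⟩

end Pool.Agent.Helper48.FC
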