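import Mathlib
import Pool.Agent.Helper48.FC.Ox

/-!
Block FC-21.  Charts: positions of nearby points.  (`κ = kp a`; `κ ≤ 2 cc ρ = ρ/50000000`, `kp_le`.)

* `near_unique`: `kp a ≠ 0`.  `near_self`: `T_self`, `dist a.x a.x = 0`.
* `near_kp`: by `PP_compat` (`x = a.x`, `y = b.x`, `q = b.p`, `dist b.p (s b.x) < ρ`) `PP ρ (O b.x) b.p = PP ρ (O a.x) (a.p + κ z)`, so
  `kp b = cc √(PP ρ (O a.x) (a.p + κ z)) = kp a * √(PP (a.p + κ z)/PP a.p) = kp a * exp (-φ z)` (`Chart.eq`, `Chart.pos`, `PP_pos`).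
* `near_ez`: `dist b.x b'.x ≤ R/4`; `dist b.p (T b.x b'.x b'.p) = dist (T a.x b.x b.p) (T a.x b'.x b'.p) = κ ‖z - z'‖` (`T_dist`), and
  `√(kp b kp b') = κ exp (-(φ z + φ z')/2)` (`near_kp`), so `rz b b' = rr φ z z'`.
* `near_step`: `ez b b' < 10` gives `dist b.x b'.x ≤ R/4` and `r + r² < 10`, so `r = rz b b' < 3`, `m := dist b.p (T b.x b'.x b'.p) < 3 √(kp b kp b') ≤ 6 cc ρ ≤ ρ`.
  `dist (s b.x) (T b.x b'.x (s b'.x)) ≤ ρ + ρ + ρ ≤ 30ρ`, so `dist b.x b'.x ≤ R/8` (`far`), `dist a.x b'.x ≤ R/4`, and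
  `dist (s a.x) (T a.x b'.x (s b'.x)) ≤ dist (s a.x) a.p + dist a.p (T a.x b.x b.p) + dist (T a.x b.x b.p) (T a.x b'.x b'.p) + ρ ≤ ρ + 12 κ + ρ + ρ ≤ 30ρ`
  (`T_dist`), so `dist a.x b'.x ≤ R/8`.  Put `z' = κ⁻¹ (T a.x b'.x b'.p - a.p)`.  `‖z'‖ ≤ 20`: `kp b = κ exp (-φ z) ≤ 1.11 κ` (`near_kp`, `Slow.bdd`; `exp (1/10) ≤ 1.11`).
  By `PP_compat` (`x = a.x`, `y = b.x` and `y = b'.x`) and `sqrt_PP_lip`:
  `kp b' ≤ kp b + 6 cc dist (T a.x b.x b.p) (T a.x b'.x b'.p) = kp b + 6 cc m ≤ kp b + 18 cc √(kp b kp b')`, so `kp b' ≤ 2 kp b` (otherwise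
  `kp b' < kp b + 18 cc kp b'`, `kp b' (1 - 18 cc) < kp b`, contradiction), so `m ≤ 3 * 1.42 * 1.11 κ ≤ 5 κ` and `κ ‖z'‖ ≤ 12 κ + 5 κ`.
* `near_lift`: `PP ρ (O a.x) (a.p + κ z) > 0` (`Chart.pos`) so `a.p + κ z ∈ O a.x` (`mem_of_PP_pos`): there is `y ∈ V`, `dist a.x y ≤ R/2`,
  `dist (a.p + κ z) (T a.x y (s y)) < ρ`.  Let `p = (T a.x y).symm (a.p + κ z)`: `dist p (s y) < ρ`, `b = (y, p)`.
  `dist (s a.x) (T a.x y (s y)) ≤ ρ + 20 κ + ρ ≤ 30ρ`, so `dist a.x y ≤ R/8`.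
-/

set_option autoImplicit false
set_option linter.unusedSectionVars false

namespace Pool.Agent.Helper48.FC

open Real Set
open scoped RealInnerProductSpace

universe u v

variable {X : Type u} [MetricSpace X] {E : Type v} [NormedAddCommGroup E] [InnerProductSpace ℝ E]
  {V : Set X} {R ρ : ℝ} {L : Loc X E V R ρ}

theorem near_unique {a b : Pt L} {z z' : E} (h : Near a b z) (h' : Near a b z') : z = z' := by
  have h1 : a.p + kp a • z = a.p + kp a • z' := by rw [← h.2.1, ← h'.2.1]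
  exact smul_right_injective E (kp_pos a).ne' (add_left_cancel h1)

theorem near_self (a : Pt L) : Near a a 0 := by
  refine ⟨?_, ?_, ?_⟩
  · rw [dist_self]
    linarith [L.hR]
  · rw [T_self L a.hx, smul_zero, add_zero]
  · rw [norm_zero]
    norm_num

private theorem h80_kp_eq {a b : Pt L} (h : dist a.x b.x ≤ R / 4) :
    kp b = cc * √(PP ρ (L.O a.x) (L.T a.x b.x b.p)) := by
  have hρ := L.hρ
  rw [PP_compat L a.hx b.hx h (by linarith [b.hp])]
  rfl

theorem near_kp {a b : Pt L} {φ : E → ℝ} {z : E} (hc : Chart a φ) (h : Near a b z) :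
    kp b = kp a * exp (-φ z) := by
  have hR := L.hR
  rw [h80_kp_eq (a := a) (b := b) (by linarith [h.1]), h.2.1]
  have h1 := hc.pos z h.2.2
  have h2 := PP_pos a
  have h3 : exp (-φ z) = √(PP ρ (L.O a.x) (a.p + kp a • z)) / √(PP ρ (L.O a.x) a.p) := by
    rw [hc.eq z h.2.2, ← Real.sqrt_div h1.le]
    have e : -(-(1 / 2) * log (PP ρ (L.O a.x) (a.p + kp a • z) / PP ρ (L.O a.x) a.p)) =
        log (PP ρ (L.O a.x) (a.p + kp a • z) / PP ρ (L.O a.x) a.p) / 2 := by ring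
    rw [e, Real.exp_half, Real.exp_log (div_pos h1 h2)]
  rw [h3]
  have h4 : 0 < √(PP ρ (L.O a.x) a.p) := sqrt_pos.2 h2
  have h5 : kp a = cc * √(PP ρ (L.O a.x) a.p) := rfl
  rw [mul_div_assoc']
  rw [eq_div_iff h4.ne']
  rw [mul_assoc, mul_comm (√(PP ρ (L.O a.x) (a.p + kp a • z))), ← mul_assoc]
  exact congrArg (· * √(PP ρ (L.O a.x) (a.p + kp a • z))) h5.symm

theorem near_ez {a b b' : Pt L} {φ : E → ℝ} {z z' : E} (hc : Chart a φ) (h : Near a b z)
    (h' : Near a b' z') : ez b b' = ed φ z z' := by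
  have hR := L.hR
  have hk := kp_pos a
  have h1 : dist b.x b'.x ≤ R / 4 := by
    have := dist_triangle b.x a.x b'.x
    rw [dist_comm b.x a.x] at this
    linarith [h.1, h'.1]
  have h2 := T_dist L a.hx b.hx b'.hx (by linarith [h.1]) (by linarith) (by linarith [h'.1]) b.p b'.p
  have h3 : dist b.p (L.T b.x b'.x b'.p) = kp a * ‖z - z'‖ := by
    rw [← h2, h.2.1, h'.2.1, dist_add_left, dist_eq_norm, ← smul_sub, norm_smul,
      Real.norm_eq_abs, abs_of_pos hk]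
  have h4 : √(kp b * kp b') = kp a * exp (-((φ z + φ z') / 2)) := by
    rw [near_kp hc h, near_kp hc h']
    have e : kp a * exp (-φ z) * (kp a * exp (-φ z')) = (kp a * exp (-((φ z + φ z') / 2))) ^ 2 := by
      have e1 : exp (-φ z) * exp (-φ z') = exp (-((φ z + φ z') / 2)) ^ 2 := by
        rw [← exp_add, ← exp_nat_mul]
        congr 1
        push_cast
        ring
      rw [mul_pow, ← e1]
      ring
    rw [e, Real.sqrt_sq (by positivity)]
  have h5 : rz b b' = rr φ z z' := by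
    unfold rz rr
    rw [h3, h4, exp_neg]
    field_simp
  unfold ez ed
  rw [if_pos h1, h5]

theorem near_step {a b b' : Pt L} {φ : E → ℝ} {z : E} (hc : Chart a φ) (h : Near a b z)
    (hz : ‖z‖ ≤ 12) (he : ez b b' < 10) : ∃ z', Near a b' z' := by
  have hR := L.hR
  have hρ := L.hρ
  have hk := kp_pos a
  have hkb := kp_pos b
  have hkb' := kp_pos b'
  have hcc : cc = 1 / 100000000 := rfl
  have la := kp_le a
  have lb := kp_le b
  have lb' := kp_le b'
  rw [hcc] at la lb lb'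
  unfold ez at he
  by_cases h1 : dist b.x b'.x ≤ R / 4
  swap
  · rw [if_neg h1] at he
    exact absurd he (lt_irrefl _)
  rw [if_pos h1] at he
  have hr0 : 0 ≤ rz b b' := div_nonneg dist_nonneg (sqrt_nonneg _)
  have hr : rz b b' < 3 := by
    by_contra hc
    push Not at hc
    nlinarith
  obtain ⟨m, hm⟩ : ∃ m, m = dist b.p (L.T b.x b'.x b'.p) := ⟨_, rfl⟩
  have hm0 : 0 ≤ m := by rw [hm]; exact dist_nonneg
  have hsq : 0 < √(kp b * kp b') := sqrt_pos.2 (mul_pos hkb hkb')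
  have hm1 : m ≤ 3 * √(kp b * kp b') := by
    unfold rz at hr
    rw [← hm, div_lt_iff₀ hsq] at hr
    exact hr.le
  have hamgm : √(kp b * kp b') ≤ (kp b + kp b') / 2 := by
    rw [Real.sqrt_le_left (by positivity)]
    nlinarith [sq_nonneg (kp b - kp b')]
  have hm2 : m ≤ 3 / 2 * (kp b + kp b') := by linarith
  have hm3 : m ≤ ρ := by linarith
  have hbb : dist b.x b'.x ≤ R / 8 := by
    refine L.far b.x b.hx b'.x b'.hx (by linarith) ?_
    have e1 := dist_triangle (L.s b.x) b.p (L.T b.x b'.x (L.s b'.x))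
    have e2 := dist_triangle b.p (L.T b.x b'.x b'.p) (L.T b.x b'.x (L.s b'.x))
    rw [(L.T b.x b'.x).isometry.dist_eq] at e2
    rw [dist_comm (L.s b.x) b.p] at e1
    have := b.hp
    have := b'.hp
    linarith
  have hab4 : dist a.x b'.x ≤ R / 4 := by
    have := dist_triangle a.x b.x b'.x
    linarith [h.1]
  have hT := T_dist L a.hx b.hx b'.hx (by linarith [h.1]) (by linarith) (by linarith) b.p b'.p
  rw [← hm] at hT
  have hab0 : dist a.p (L.T a.x b.x b.p) = kp a * ‖z‖ := by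
    rw [h.2.1, dist_self_add_right, norm_smul, Real.norm_eq_abs, abs_of_pos hk]
  have hab1 : dist a.p (L.T a.x b.x b.p) ≤ kp a * 12 := by
    rw [hab0]
    exact mul_le_mul_of_nonneg_left hz hk.le
  have hab8 : dist a.x b'.x ≤ R / 8 := by
    refine L.far a.x a.hx b'.x b'.hx (by linarith) ?_
    have e1 := dist_triangle (L.s a.x) a.p (L.T a.x b'.x (L.s b'.x))
    have e2 := dist_triangle a.p (L.T a.x b.x b.p) (L.T a.x b'.x (L.s b'.x))
    have e3 := dist_triangle (L.T a.x b.x b.p) (L.T a.x b'.x b'.p) (L.T a.x b'.x (L.s b'.x))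
    rw [(L.T a.x b'.x).isometry.dist_eq] at e3
    rw [dist_comm (L.s a.x) a.p] at e1
    have := a.hp
    have := b'.hp
    linarith
  -- the size of `m`
  have hkb1 : kp b ≤ 10 / 9 * kp a := by
    rw [near_kp hc h]
    have e1 := (abs_le.1 (hc.slow.bdd z)).1
    have e2 := Real.add_one_le_exp (φ z)
    have e3 : exp (-φ z) * exp (φ z) = 1 := by rw [← exp_add]; simp
    have e4 : exp (-φ z) ≤ 10 / 9 := by
      have e5 : exp (-φ z) * (9 / 10) ≤ exp (-φ z) * exp (φ z) :=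
        mul_le_mul_of_nonneg_left (by linarith) (exp_pos _).le
      linarith
    have e6 := mul_le_mul_of_nonneg_left e4 hk.le
    linarith
  have hkb2 : kp b' ≤ kp b + 6 * cc * m := by
    rw [h80_kp_eq (a := a) (b := b') hab4, h80_kp_eq (a := a) (b := b) (by linarith [h.1])]
    have e1 := sqrt_PP_lip (O := L.O a.x) hρ (L.T a.x b.x b.p) (L.T a.x b'.x b'.p)
    rw [hT] at e1
    have e2 := (abs_le.1 e1).2
    have e3 : cc * √(PP ρ (L.O a.x) (L.T a.x b'.x b'.p)) ≤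
        cc * (√(PP ρ (L.O a.x) (L.T a.x b.x b.p)) + 6 * m) :=
      mul_le_mul_of_nonneg_left (by linarith) cc_pos.le
    linarith
  rw [hcc] at hkb2
  have hm5 : m ≤ 8 * kp a := by linarith
  refine ⟨(kp a)⁻¹ • (L.T a.x b'.x b'.p - a.p), hab8, ?_, ?_⟩
  · rw [smul_inv_smul₀ hk.ne', add_sub_cancel]
  · rw [norm_smul, norm_inv, Real.norm_eq_abs, abs_of_pos hk, inv_mul_le_iff₀ hk, ← dist_eq_norm]
    have e1 := dist_triangle (L.T a.x b'.x b'.p) (L.T a.x b.x b.p) a.p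
    rw [dist_comm (L.T a.x b'.x b'.p) (L.T a.x b.x b.p), dist_comm (L.T a.x b.x b.p) a.p, hT] at e1
    linarith

theorem near_lift {a : Pt L} {φ : E → ℝ} {z : E} (hc : Chart a φ) (hz : ‖z‖ ≤ 20) :
    ∃ b, Near a b z := by
  have hR := L.hR
  have hρ := L.hρ
  have hk := kp_pos a
  have hcc : cc = 1 / 100000000 := rfl
  have la := kp_le a
  rw [hcc] at la
  obtain ⟨y, hy, h1, h2⟩ := mem_of_PP_pos hρ (hc.pos z hz)
  have e0 : L.T a.x y ((L.T a.x y).symm (a.p + kp a • z)) = a.p + kp a • z :=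
    (L.T a.x y).apply_symm_apply _
  have h3 : dist ((L.T a.x y).symm (a.p + kp a • z)) (L.s y) < ρ := by
    rw [← (L.T a.x y).isometry.dist_eq, e0]
    exact h2
  refine ⟨⟨y, hy, (L.T a.x y).symm (a.p + kp a • z), h3⟩, ?_, e0, hz⟩
  refine L.far a.x a.hx y hy (by linarith) ?_
  have e1 := dist_triangle (L.s a.x) a.p (L.T a.x y (L.s y))
  have e2 := dist_triangle a.p (a.p + kp a • z) (L.T a.x y (L.s y))
  have e3 : dist a.p (a.p + kp a • z) = kp a * ‖z‖ := by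
    rw [dist_self_add_right, norm_smul, Real.norm_eq_abs, abs_of_pos hk]
  have e4 : kp a * ‖z‖ ≤ kp a * 20 := mul_le_mul_of_nonneg_left hz hk.le
  rw [dist_comm (L.s a.x) a.p] at e1
  have := a.hp
  linarith

end Pool.Agent.Helper48.FC
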