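import Mathlib
import Pool.Agent.Helper48.FC.NearF
import Pool.Agent.Helper48.FC.Chain

/-!
Block FC-22.  Distances in a chart.  (`Slow.bdd` gives the hypothesis `∀ x, |φ x| ≤ 1/10` of the lemmas of `Chain`.)

* `loc_le`: let `D = cinf (ed φ) z z' < 7` and `0 < ε`, `D + ε ≤ 7`.  `exists_chain`: `c 0 = z`, `c n = z'`, `csum (ed φ) c n < D + ε ≤ 7`.  For `i ≤ n`
  `‖c i - z‖ ≤ 10/9 csum c i ≤ 7.8` (`norm_le_csum`, `csum_mono`), `‖c i‖ ≤ 11.8 ≤ 20`, so there are `b i` with `Near a (b i) (c i)` (`near_lift`); take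
  `b 0 = b`, `b n = b'` (if `n = 0` then `z = z'`: use the chain of length 1 `b, b'` instead, whose cost is `ez b b' = ed φ z z = 0` by `near_ez`).
  `csum ez b n = csum (ed φ) c n` (`near_ez`), `cinf_le_csum`.
* `loc_ge`: take chains `b 0 = b, ..., b n = b'` in `Pt L` with `csum ez < min 7 (D + ε)`, `D = cinf ez b b'`.  Induction on `i ≤ n`: there is `z i` with `Near a (b i) (z i)` and (with
  `z 0 = z`) `csum (ed φ) z i = csum ez b i < 7`, so `‖z i - z‖ ≤ 7.8`, `‖z i‖ ≤ 11.8 ≤ 12`, and `near_step` (`ez (b i) (b (i+1)) ≤ csum ez b n < 7 < 10`)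
  gives `z (i+1)`, `near_ez` the cost.  `z n` does not depend on the chain (`near_unique`), call it `z'`; then `cinf (ed φ) z z' ≤ csum (ed φ) z n = csum ez b n < D + ε`
  for every small `ε > 0`.
-/

set_option autoImplicit false
set_option linter.unusedSectionVars false

namespace Pool.Agent.Helper48.FC

open Real Set
open scoped RealInnerProductSpace

universe u v

variable {X : Type u} [MetricSpace X] {E : Type v} [NormedAddCommGroup E] [InnerProductSpace ℝ E]
  {V : Set X} {R ρ : ℝ} {L : Loc X E V R ρ}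

private theorem ez_nonneg68 (a b : Pt L) : 0 ≤ ez a b := by
  have h : 0 ≤ rz a b := div_nonneg dist_nonneg (Real.sqrt_nonneg _)
  unfold ez
  split_ifs
  · positivity
  · norm_num

private theorem chain68 {a b b' : Pt L} {φ : E → ℝ} {z : E} (hc : Chart a φ) (h : Near a b z)
    (hz : ‖z‖ ≤ 4) {c : ℕ → Pt L} {n : ℕ} (h0 : c 0 = b) (hn : c n = b') (hs : csum ez c n < 7) :
    ∃ z', Near a b' z' ∧ cinf (ed φ) z z' ≤ csum ez c n := by
  classical
  obtain ⟨pos, hpos⟩ : ∃ pos : ℕ → E, ∀ i, (∃ w, Near a (c i) w) → Near a (c i) (pos i) := by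
    refine ⟨fun i => if hw : ∃ w, Near a (c i) w then hw.choose else 0, fun i hw => ?_⟩
    simp only [dif_pos hw]
    exact hw.choose_spec
  have hp0 : pos 0 = z := near_unique (hpos 0 ⟨z, by rw [h0]; exact h⟩) (by rw [h0]; exact h)
  have key : ∀ i, i ≤ n → Near a (c i) (pos i) ∧ csum (ed φ) pos i = csum ez c i := by
    intro i
    induction i with
    | zero =>
      intro _
      refine ⟨hpos 0 ⟨z, by rw [h0]; exact h⟩, ?_⟩
      rw [csum_zero, csum_zero]
    | succ i ih =>
      intro hi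
      obtain ⟨h1, h2⟩ := ih (by omega)
      have h3 : csum ez c i ≤ csum ez c n := csum_mono ez_nonneg68 c (by omega)
      have h4 := norm_le_csum hc.slow.bdd pos i
      rw [hp0, h2] at h4
      have h5 : ‖pos i‖ ≤ ‖pos i - z‖ + ‖z‖ := by
        have := norm_add_le (pos i - z) z
        rwa [sub_add_cancel] at this
      have h6 : csum ez c (i + 1) ≤ csum ez c n := csum_mono ez_nonneg68 c hi
      rw [csum_succ] at h6
      have h7 : 0 ≤ csum ez c i := csum_nonneg ez_nonneg68 c i
      obtain ⟨w, hw⟩ := near_step hc h1 (by linarith) (b' := c (i + 1)) (by linarith)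
      have h8 := hpos (i + 1) ⟨w, hw⟩
      refine ⟨h8, ?_⟩
      rw [csum_succ, csum_succ, h2, near_ez hc h1 h8]
  obtain ⟨k1, k2⟩ := key n le_rfl
  rw [hn] at k1
  refine ⟨pos n, k1, ?_⟩
  rw [← k2]
  exact cinf_le_csum ed_nonneg hp0 rfl

theorem loc_le {a b b' : Pt L} {φ : E → ℝ} {z z' : E} (hc : Chart a φ) (h : Near a b z)
    (h' : Near a b' z') (hz : ‖z‖ ≤ 4) (hd : cinf (ed φ) z z' < 7) :
    cinf ez b b' ≤ cinf (ed φ) z z' := by
  classical
  refine le_of_forall_pos_le_add fun ε hε => ?_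
  have hm : 0 < min ε (7 - cinf (ed φ) z z') := lt_min hε (by linarith)
  obtain ⟨c, n, h0, hn, hs⟩ := exists_chain (e := ed φ) (a := z) (b := z')
    (L := cinf (ed φ) z z' + min ε (7 - cinf (ed φ) z z')) (by linarith)
  have hs7 : csum (ed φ) c n < 7 := by
    have := min_le_right ε (7 - cinf (ed φ) z z')
    linarith
  have hsε : csum (ed φ) c n < cinf (ed φ) z z' + ε := by
    have := min_le_left ε (7 - cinf (ed φ) z z')
    linarith
  rcases Nat.eq_zero_or_pos n with hn0 | hn0
  · subst hn0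
    have hzz : z = z' := by rw [← h0, hn]
    have h1 := cinf_le_edge (e := ez (L := L)) ez_nonneg68 b b'
    rw [near_ez hc h h', ← hzz] at h1
    have h2 : ed φ z z = 0 := by simp [ed, rr]
    rw [h2] at h1
    have h3 : 0 ≤ csum (ed φ) c 0 := csum_nonneg ed_nonneg c 0
    linarith
  have hb : ∀ i, i ≤ n → ‖c i‖ ≤ 20 := by
    intro i hi
    have h4 := norm_le_csum hc.slow.bdd c i
    rw [h0] at h4
    have h5 : ‖c i‖ ≤ ‖c i - z‖ + ‖z‖ := by
      have := norm_add_le (c i - z) z
      rwa [sub_add_cancel] at this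
    have h6 : csum (ed φ) c i ≤ csum (ed φ) c n := csum_mono ed_nonneg c hi
    linarith
  obtain ⟨g, hg⟩ : ∃ g : ℕ → Pt L, ∀ i, i ≤ n → Near a (g i) (c i) := by
    refine ⟨fun i => if hi : i ≤ n then (near_lift hc (hb i hi)).choose else b, fun i hi => ?_⟩
    simp only [dif_pos hi]
    exact (near_lift hc (hb i hi)).choose_spec
  obtain ⟨d, hd0, hdn, hdN⟩ : ∃ d : ℕ → Pt L, d 0 = b ∧ d n = b' ∧ ∀ i, i ≤ n → Near a (d i) (c i) := by
    refine ⟨fun i => if i = 0 then b else if i = n then b' else g i, by simp, ?_, fun i hi => ?_⟩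
    · simp only [if_neg hn0.ne']
      simp
    · by_cases h1 : i = 0
      · subst h1
        simp only [if_true]
        rw [h0]
        exact h
      · by_cases h2 : i = n
        · subst h2
          simp only [if_neg h1, if_true]
          rw [hn]
          exact h'
        · simp only [if_neg h1, if_neg h2]
          exact hg i hi
  have heq : csum ez d n = csum (ed φ) c n := by
    unfold csum
    refine Finset.sum_congr rfl fun i hi => ?_
    rw [Finset.mem_range] at hi
    exact near_ez hc (hdN i hi.le) (hdN (i + 1) hi)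
  have hfin := cinf_le_csum (e := ez (L := L)) ez_nonneg68 hd0 hdn
  rw [heq] at hfin
  linarith

theorem loc_ge {a b b' : Pt L} {φ : E → ℝ} {z : E} (hc : Chart a φ) (h : Near a b z)
    (hz : ‖z‖ ≤ 4) (hd : cinf (ez (L := L)) b b' < 7) :
    ∃ z', Near a b' z' ∧ cinf (ed φ) z z' ≤ cinf ez b b' := by
  obtain ⟨c, n, h0, hn, hs⟩ := exists_chain hd
  obtain ⟨z', hz', -⟩ := chain68 hc h hz h0 hn hs
  refine ⟨z', hz', ?_⟩
  refine le_of_forall_pos_le_add fun ε hε => ?_
  have hm : 0 < min ε (7 - cinf ez b b') := lt_min hε (by linarith)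
  obtain ⟨c1, n1, h01, hn1, hs1⟩ := exists_chain (e := ez (L := L)) (a := b) (b := b')
    (L := cinf ez b b' + min ε (7 - cinf ez b b')) (by linarith)
  have a1 := min_le_left ε (7 - cinf ez b b')
  have a2 := min_le_right ε (7 - cinf ez b b')
  obtain ⟨z1, hz1, hle⟩ := chain68 hc h hz h01 hn1 (by linarith)
  rw [near_unique hz' hz1]
  linarith

end Pool.Agent.Helper48.FC
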