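import Mathlib
import Pool.Agent.Helper48.FC.LocEq
import Pool.Agent.Helper48.FC.Cht
import Pool.Agent.Helper15.CE.Trig

/-!
Block FC-23.  `tht` is an approximate space of angles.

Write `D = cinf ez` (a pseudometric: `ez_nonneg`, `ez_symm`, `Chain`), `θ = tht = min π D`.  `nonneg`, `le_pi`, `self`, `symm`, `tri` are clear (`tri`: if one of `D x y`, `D y z` is at least
`π` then the right side is at least `π`).

`stew`: let `θ y z < π`, so `c := D y z = θ y z < π`, `0 ≤ u ≤ c`, `0 < ε`; put `ε' = min (ε/4) (1/10)`.  Let `φ` be the weight of the chart of `y` (`exists_chart`), `d = cinf (ed φ)`.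
`loc_ge` (`a = b = y`, `near_self`) gives `ζ`, `Near y z ζ`, `d 0 ζ ≤ c`; `loc_le` gives `c ≤ d 0 ζ`, so `d 0 ζ = c`, and `‖ζ‖ ≤ 10/9 c ≤ 3.5` (`norm_le_cinf`).
`stewA_ed` for `ε'`: `ω` with `d 0 ω ≤ u + ε'`, `d ω ζ ≤ c - u + ε'` and the inequality; `‖ω‖ ≤ 10/9 * 3.3 ≤ 4 ≤ 20`, `near_lift` gives `w`, `Near y w ω`.
`loc_le`: `D y w ≤ d 0 ω ≤ u + ε'` and `D z w ≤ d ζ ω ≤ c - u + ε'` (`‖ζ‖ ≤ 4`, `cinf_symm`).
Let `x` be any point, `a = θ x y`, `b = θ x z`, `q = θ x w`; `q ≤ a + u + ε'`, `q ≤ b + (c - u) + ε'` (`tri`).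
* `a + b + c ≥ 2π`: `Pool.Agent.Helper15.CE.far_num` with `q' = max 0 (q - ε')`; `cos q' ≤ cos q + ε'` and `0 ≤ sin c ≤ 1`.
* `a + b + c < 2π`: `a ≤ b + c`, so `2a < 2π`, `a < π`, in the same way `b < π`, so `a = D x y`, `b = D x z`.  `loc_ge` (`a = b = y`): `ξ`, `Near y x ξ`, `d 0 ξ ≤ a`, and `loc_le`:
  `d 0 ξ = a`, `‖ξ‖ ≤ 3.5`.  `loc_ge` with `b := x`, `b' := z`: `z'` with `Near y z z'`, `d ξ z' ≤ D x z = b`; `near_unique`: `z' = ζ`; `loc_le`: `b ≤ d ξ ζ` (`d ξ ζ ≤ b < 7`).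
  So the perimeter of `ξ, 0, ζ` for `d` is `a + b + c < 2π`: `sin (c - u) cos a + sin u cos b ≤ sin c cos (d ξ ω) + ε'` (`d ξ 0 = a`, `d ξ ζ = b`).
  `d ξ ω ≤ a + u + ε'` and `≤ b + c - u + ε'`, so `d ξ ω ≤ (a+b+c)/2 + ε' ≤ π + ε' < 7`; `loc_le` with `b := x`, `b' := w`: `D x w ≤ d ξ ω`, so `q ≤ min π (d ξ ω) =: m`,
  `cos m ≤ cos q`, and `cos (d ξ ω) ≤ cos m + ε'` (`|m - d ξ ω| ≤ ε'`).
-/

set_option autoImplicit false
set_option linter.unusedSectionVars false

namespace Pool.Agent.Helper48.FC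

open Real Set
open scoped RealInnerProductSpace

universe u v

variable {X : Type u} [MetricSpace X] {E : Type v} [NormedAddCommGroup E] [InnerProductSpace ℝ E]
  {V : Set X} {R ρ : ℝ}

theorem angA (L : Loc X E V R ρ) : AngA (tht (L := L)) := by
  have e0 : ∀ a b : Pt L, 0 ≤ ez a b := ez_nonneg
  have es : ∀ a b : Pt L, ez a b = ez b a := ez_symm
  have hpi := pi_pos
  have hπ2 : π < 3.15 := pi_lt_d2
  have D0 := cinf_nonneg e0
  have Dt := cinf_tri e0
  have Ds := cinf_symm e0 es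
  have tri : ∀ x y z : Pt L, tht x z ≤ tht x y + tht y z := by
    intro x y z
    unfold tht
    have h1 := Dt x y z
    have h2 := D0 x y
    have h3 := D0 y z
    rcases le_total π (cinf ez x y) with h | h
    · rw [min_eq_left h]
      have h4 := min_le_left π (cinf ez x z)
      have h5 : 0 ≤ min π (cinf ez y z) := le_min hpi.le h3
      linarith
    · rcases le_total π (cinf ez y z) with h' | h'
      · rw [min_eq_left h']
        have h4 := min_le_left π (cinf ez x z)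
        have h5 : 0 ≤ min π (cinf ez x y) := le_min hpi.le h2
        linarith
      · rw [min_eq_right h, min_eq_right h']
        exact (min_le_right _ _).trans h1
  have symm : ∀ x y : Pt L, tht x y = tht y x := by
    intro x y
    unfold tht
    rw [Ds]
  have nonneg : ∀ x y : Pt L, 0 ≤ tht x y := fun x y => le_min hpi.le (D0 x y)
  have le_pi : ∀ x y : Pt L, tht x y ≤ π := fun x y => min_le_left _ _
  have eq_of_lt : ∀ x y : Pt L, tht x y < π → cinf ez x y = tht x y := by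
    intro x y h
    unfold tht at h ⊢
    rcases le_total π (cinf ez x y) with h' | h'
    · rw [min_eq_left h'] at h
      exact absurd h (lt_irrefl _)
    · rw [min_eq_right h']
  have tht_le : ∀ x y : Pt L, tht x y ≤ cinf ez x y := fun x y => min_le_right _ _
  refine ⟨nonneg, le_pi, fun x => ?_, symm, tri, ?_⟩
  · unfold tht
    rw [cinf_self e0]
    exact min_eq_right hpi.le
  intro ε hε y z hyz u hu0 hu1
  have hc := eq_of_lt y z hyz
  set c := tht y z with hcdef
  obtain ⟨φ, hφ⟩ := exists_chart y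
  have hb := hφ.slow.bdd
  have d0 : ∀ a b : E, 0 ≤ cinf (ed φ) a b := cinf_nonneg ed_nonneg
  have dt : ∀ a b d : E, cinf (ed φ) a d ≤ cinf (ed φ) a b + cinf (ed φ) b d := cinf_tri ed_nonneg
  have ds : ∀ a b : E, cinf (ed φ) a b = cinf (ed φ) b a := cinf_symm ed_nonneg ed_symm
  have n0 : ‖(0 : E)‖ ≤ 4 := by rw [norm_zero]; norm_num
  have nrm : ∀ a : E, ∀ m : ℝ, cinf (ed φ) 0 a ≤ m → ‖a‖ ≤ 10 / 9 * m := by
    intro a m h
    have h1 := norm_le_cinf hb 0 a
    rw [zero_sub, norm_neg] at h1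
    linarith
  -- position of a point at distance less than `π` from `y`
  have pos : ∀ x : Pt L, tht y x < π → ∃ ξ : E, Near y x ξ ∧ cinf (ed φ) 0 ξ = tht y x ∧ ‖ξ‖ ≤ 3.6 := by
    intro x hx
    have h1 := eq_of_lt y x hx
    obtain ⟨ξ, h2, h3⟩ := loc_ge hφ (near_self y) n0 (b' := x) (by rw [h1]; linarith)
    rw [h1] at h3
    have h4 := loc_le hφ (near_self y) h2 n0 (by linarith)
    rw [h1] at h4
    refine ⟨ξ, h2, le_antisymm h3 h4, ?_⟩
    have := nrm ξ _ h3
    linarith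
  obtain ⟨ζ, hζ, hζd, nζ⟩ := pos z hyz
  rw [← hcdef] at hζd
  set ε' := min (ε / 4) (1 / 10) with hε'
  have hε'0 : 0 < ε' := lt_min (by linarith) (by norm_num)
  have hε'1 : ε' ≤ ε / 4 := min_le_left _ _
  have hε'2 : ε' ≤ 1 / 10 := min_le_right _ _
  obtain ⟨ω, h1, h2, h3⟩ := stewA_ed hφ.slow ε' hε'0 0 ζ (by rw [hζd]; exact hyz) u hu0
    (by rw [hζd]; exact hu1)
  rw [hζd] at h2 h3
  have nω : ‖ω‖ ≤ 4 := by
    have := nrm ω _ h1
    linarith
  obtain ⟨w, hw⟩ := near_lift hφ (z := ω) (nω.trans (by norm_num))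
  have Dyw : cinf ez y w ≤ u + ε' :=
    (loc_le hφ (near_self y) hw n0 (by linarith)).trans h1
  have Dzw : cinf ez z w ≤ c - u + ε' := by
    have h4 : cinf (ed φ) ζ ω ≤ c - u + ε' := by rw [ds]; exact h2
    exact (loc_le hφ hζ hw (by linarith) (by linarith)).trans h4
  refine ⟨w, fun x => ?_⟩
  have q1 : tht x w ≤ tht x y + (u + ε') := (tri x y w).trans (by linarith [tht_le y w])
  have q2 : tht x w ≤ tht x z + (c - u + ε') := (tri x z w).trans (by linarith [tht_le z w])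
  have sc0 : 0 ≤ sin c := sin_nonneg_of_nonneg_of_le_pi (nonneg _ _) hyz.le
  have sc1 : sin c ≤ 1 := sin_le_one c
  have cosl : ∀ s t : ℝ, |s - t| ≤ ε' → cos s ≤ cos t + ε' := by
    intro s t hst
    have h4 := Real.abs_cos_sub_cos_le s t
    have h5 := (abs_le.1 (h4.trans hst)).2
    linarith
  by_cases hper : 2 * π ≤ tht x y + tht x z + c
  · -- large perimeter
    have h4 := Pool.Agent.Helper15.CE.far_num (a := tht x y) (b := tht x z) (c := c) (u := u)
      (q := max 0 (tht x w - ε')) hu0 hu1 hyz.le (nonneg _ _) (le_pi _ _) (nonneg _ _) (le_pi _ _)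
      hper (le_max_left _ _) (max_le hpi.le (by linarith [le_pi x w]))
      (max_le (by linarith [nonneg x y]) (by linarith))
      (max_le (by linarith [nonneg x z]) (by linarith))
    have h5 : cos (max 0 (tht x w - ε')) ≤ cos (tht x w) + ε' := by
      apply cosl
      rw [abs_le]
      have h6 := le_max_right 0 (tht x w - ε')
      have h7 : max 0 (tht x w - ε') ≤ tht x w := max_le (nonneg _ _) (by linarith)
      constructor <;> linarith
    have h6 := mul_le_mul_of_nonneg_left h5 sc0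
    have h7 : sin c * ε' ≤ 1 * ε' := mul_le_mul_of_nonneg_right sc1 hε'0.le
    rw [mul_add] at h6
    linarith
  · push Not at hper
    have t1 := tri x z y
    rw [symm z y] at t1
    have t2 := tri x y z
    have hxy : tht x y < π := by linarith
    have hxz : tht x z < π := by linarith
    obtain ⟨ξ, hξ, hξd, nξ⟩ := pos x (by rw [symm]; exact hxy)
    rw [symm y x] at hξd
    have Dxz := eq_of_lt x z hxz
    obtain ⟨z', hz', hd⟩ := loc_ge hφ hξ (by linarith) (b' := z) (by rw [Dxz]; linarith)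
    rw [Dxz] at hd
    rw [near_unique hz' hζ] at hd
    have hd2 : cinf (ed φ) ξ ζ = tht x z := by
      apply le_antisymm hd
      rw [← Dxz]
      exact loc_le hφ hξ hζ (by linarith) (by linarith)
    have hξ0 : cinf (ed φ) ξ 0 = tht x y := by rw [ds]; exact hξd
    have h4 := h3 ξ (by rw [hξ0, hd2]; exact hper)
    rw [hξ0, hd2] at h4
    have b1 : cinf (ed φ) ξ ω ≤ tht x y + (u + ε') := by
      have := dt ξ 0 ω
      rw [hξ0] at this
      linarith
    have b2 : cinf (ed φ) ξ ω ≤ tht x z + (c - u + ε') := by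
      have := dt ξ ζ ω
      rw [hd2, ds ζ ω] at this
      linarith
    have b3 : cinf (ed φ) ξ ω ≤ π + ε' := by linarith
    have b4 : cinf ez x w ≤ cinf (ed φ) ξ ω :=
      loc_le hφ hξ hw (by linarith) (by linarith)
    have b5 : tht x w ≤ min π (cinf (ed φ) ξ ω) :=
      le_min (le_pi _ _) ((tht_le x w).trans b4)
    have b6 : cos (min π (cinf (ed φ) ξ ω)) ≤ cos (tht x w) :=
      cos_le_cos_of_nonneg_of_le_pi (nonneg _ _) (min_le_left _ _) b5
    have b7 : cos (cinf (ed φ) ξ ω) ≤ cos (min π (cinf (ed φ) ξ ω)) + ε' := by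
      apply cosl
      rw [abs_le]
      have h6 := min_le_right π (cinf (ed φ) ξ ω)
      have h7 : cinf (ed φ) ξ ω - ε' ≤ min π (cinf (ed φ) ξ ω) := le_min (by linarith) (by linarith)
      constructor <;> linarith
    have b8 : cos (cinf (ed φ) ξ ω) ≤ cos (tht x w) + ε' := by linarith
    have h6 := mul_le_mul_of_nonneg_left b8 sc0
    have h7 : sin c * ε' ≤ 1 * ε' := mul_le_mul_of_nonneg_right sc1 hε'0.le
    rw [mul_add] at h6
    linarith

end Pool.Agent.Helper48.FC
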