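import Mathlib
import Pool.Agent.Helper48.FC.Defs

/-!
Block FC-24.  Ultralimits: from the approximate to the exact Stewart inequality.

Let `U` be a nonprincipal ultrafilter on `ℕ` (`Filter.hyperfilter ℕ`).  For a bounded sequence `a` of reals let `lim_U a` be the limit along `U`
(it exists: `isCompact_Icc.ultrafilter_le_nhds` for the ultrafilter `U.map a`).  `Θ x y = lim_U θ (x n) (y n)`, for `x, y : ℕ → Z`.  `nonneg`, `le_pi`, `self`, `symm`,
`tri` pass to the limit; constant sequences: `Θ = θ`.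
`stew`: let `c = Θ y z < π`, `0 ≤ u ≤ c`.  For `U`-almost all `n` one has `c n := θ (y n) (z n) < π`; `u n = min u (c n)`, which tends to `u` along `U`; for these `n` choose `w n` by
`AngA.stew` with `ε = 1/(n+1)` (`w n = y n` for the other `n`).  For all `x`, for these `n`:
`sin (c n - u n) cos θ(x n, y n) + sin (u n) cos θ(x n, z n) ≤ sin (c n) cos θ(x n, w n) + 1/(n+1)`; let `n → U` (`1/(n+1) → 0` along `U ≤ atTop`).
-/

set_option autoImplicit false

namespace Pool.Agent.Helper48.FC

open Real Set Filter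

universe u

theorem exists_ang {Z : Type u} {θ : Z → Z → ℝ} (h : AngA θ) :
    ∃ Θ : (ℕ → Z) → (ℕ → Z) → ℝ, Pool.Agent.Helper15.CE.Ang Θ ∧
      ∀ a b : Z, Θ (fun _ => a) (fun _ => b) = θ a b := by
  have hU : ((hyperfilter ℕ : Ultrafilter ℕ) : Filter ℕ) ≤ atTop := Nat.hyperfilter_le_atTop
  obtain ⟨U, hUeq⟩ : ∃ U : Ultrafilter ℕ, U = hyperfilter ℕ := ⟨_, rfl⟩
  rw [← hUeq] at hU
  have hex : ∀ x y : ℕ → Z, ∃ t : ℝ, t ∈ Icc 0 π ∧ Tendsto (fun n => θ (x n) (y n)) U (nhds t) := by
    intro x y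
    obtain ⟨t, ht, hle⟩ := (isCompact_Icc (a := (0 : ℝ)) (b := π)).ultrafilter_le_nhds
      (U.map fun n => θ (x n) (y n)) (by
        rw [Filter.le_principal_iff, Ultrafilter.mem_coe, Ultrafilter.mem_map]
        exact Filter.univ_mem' fun n => ⟨h.nonneg _ _, h.le_pi _ _⟩)
    exact ⟨t, ht, hle⟩
  choose Θ hΘ using hex
  have hT : ∀ x y : ℕ → Z, Tendsto (fun n => θ (x n) (y n)) U (nhds (Θ x y)) := fun x y => (hΘ x y).2
  refine ⟨Θ, ⟨fun x y => (hΘ x y).1.1, fun x y => (hΘ x y).1.2, ?_, ?_, ?_, ?_⟩, ?_⟩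
  · intro x
    have h1 := hT x x
    simp only [h.self] at h1
    exact tendsto_nhds_unique h1 tendsto_const_nhds
  · intro x y
    have h1 := hT x y
    simp only [h.symm (x _) (y _)] at h1
    exact tendsto_nhds_unique h1 (hT y x)
  · intro x y z
    exact le_of_tendsto_of_tendsto' (hT x z) ((hT x y).add (hT y z)) fun n => h.tri _ _ _
  · intro y z hc u hu0 huc
    have hw : ∀ n : ℕ, ∃ w : Z, θ (y n) (z n) < π → ∀ x : Z,
        sin (θ (y n) (z n) - min u (θ (y n) (z n))) * cos (θ x (y n)) +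
          sin (min u (θ (y n) (z n))) * cos (θ x (z n)) ≤
          sin (θ (y n) (z n)) * cos (θ x w) + 1 / ((n : ℝ) + 1) := by
      intro n
      by_cases hn : θ (y n) (z n) < π
      · obtain ⟨w, hw⟩ := h.stew (1 / ((n : ℝ) + 1)) (by positivity) (y n) (z n) hn
          (min u (θ (y n) (z n))) (le_min hu0 (h.nonneg _ _)) (min_le_right _ _)
        exact ⟨w, fun _ => hw⟩
      · exact ⟨y n, fun h' => absurd h' hn⟩
    choose w hw using hw
    refine ⟨w, fun x => ?_⟩
    have hcn := hT y z
    have hun : Tendsto (fun n => min u (θ (y n) (z n))) U (nhds u) := by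
      have h1 : Tendsto (fun n => min u (θ (y n) (z n))) U (nhds (min u (Θ y z))) :=
        tendsto_const_nhds.min hcn
      rwa [min_eq_left huc] at h1
    have hev : ∀ᶠ n in (U : Filter ℕ), θ (y n) (z n) < π := hcn.eventually_lt_const hc
    have h0 : Tendsto (fun n : ℕ => 1 / ((n : ℝ) + 1)) U (nhds 0) :=
      (tendsto_one_div_add_atTop_nhds_zero_nat (𝕜 := ℝ)).mono_left hU
    have hL : Tendsto (fun n => sin (θ (y n) (z n) - min u (θ (y n) (z n))) * cos (θ (x n) (y n)) +
        sin (min u (θ (y n) (z n))) * cos (θ (x n) (z n))) U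
        (nhds (sin (Θ y z - u) * cos (Θ x y) + sin u * cos (Θ x z))) := by
      have h1 : Tendsto (fun n => sin (θ (y n) (z n) - min u (θ (y n) (z n)))) U
          (nhds (sin (Θ y z - u))) := (continuous_sin.tendsto _).comp (hcn.sub hun)
      have h2 : Tendsto (fun n => cos (θ (x n) (y n))) U (nhds (cos (Θ x y))) :=
        (continuous_cos.tendsto _).comp (hT x y)
      have h3 : Tendsto (fun n => sin (min u (θ (y n) (z n)))) U (nhds (sin u)) :=
        (continuous_sin.tendsto _).comp hun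
      have h4 : Tendsto (fun n => cos (θ (x n) (z n))) U (nhds (cos (Θ x z))) :=
        (continuous_cos.tendsto _).comp (hT x z)
      exact (h1.mul h2).add (h3.mul h4)
    have hRr : Tendsto (fun n => sin (θ (y n) (z n)) * cos (θ (x n) (w n)) + 1 / ((n : ℝ) + 1)) U
        (nhds (sin (Θ y z) * cos (Θ x w))) := by
      have h1 : Tendsto (fun n => sin (θ (y n) (z n))) U (nhds (sin (Θ y z))) :=
        (continuous_sin.tendsto _).comp hcn
      have h2 : Tendsto (fun n => cos (θ (x n) (w n))) U (nhds (cos (Θ x w))) :=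
        (continuous_cos.tendsto _).comp (hT x w)
      have h3 := (h1.mul h2).add h0
      rwa [add_zero] at h3
    refine le_of_tendsto_of_tendsto hL hRr ?_
    filter_upwards [hev] with n hn
    exact hw n hn (x n)
  · intro a b
    exact tendsto_nhds_unique (hT (fun _ => a) (fun _ => b)) tendsto_const_nhds

end Pool.Agent.Helper48.FC
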