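import Mathlib
import Pool.Agent.Helper48.FC.AngB
import Pool.Agent.Helper48.FC.Ult

/-!
Block FC-25.  Maps at one scale.

`Θ` from `exists_ang (angA L)`, `C` the cone `PreCone` over `Θ` (points `(r, z)`, `z : ℕ → Pt L`), target `SeparationQuotient C`, which is `Stew` (`stew_preCone`, `Stew.sep`); distances in
the quotient are the distances in `C` (`SeparationQuotient.dist_mk`).  `e = (1/2)^(k+1)/(k+1) > 0`.  `r x = min 1 (e * infDist x Vᶜ)` for all `x` (`Vᶜ` contains `x0`):
`0 ≤ r x ≤ 1`, `|r x - r y| ≤ e dist x y`, and `r x = 0` for `x ∉ V`.  `F x = (r x, constant sequence sec L x)` for `x ∈ V`, and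
`F x = (0, constant sequence sec L x1)` for `x ∉ V`, where `x1 ∈ V` is fixed (if `V` is empty then `X` is bounded: take for `F` a constant map to `PUnit`, `stew_punit`, and
`T = 2 M + 1`, for which there are no pairs).  So always `dist (F x) (F y) = cd (r x) (r y) θ` with `θ = tht (sec x) (sec y)` if `x, y ∈ V`.
* `dist (F x) (F y) ≤ r x + r y ≤ 2`  (`cd_mono`, `cd_pi`, or `cos ≥ -1`).
* `dist x y ≤ k`: if `x ∉ V` or `y ∉ V`, `dist (F x) (F y) = |r x - r y| ≤ e k ≤ (1/2)^k` (one of the radii is `0`).  If both are in `V`: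
  `rz (sec x) (sec y) = dist (s x) (T x y (s y))/√(kp kp) ≤ D/(cc ρ) ≤ (1/2)^(k+3)` (`le_kp`), so `θ ≤ ez ≤ 2 (1/2)^(k+3)` (`dist x y ≤ k ≤ R/4`, `cinf_le_edge`) and
  `cd² = (r x - r y)² + 2 r x r y (1 - cos θ) ≤ (e k)² + θ² ≤ (1/2)^(2k+2) + (1/2)^(2k+4) ≤ ((1/2)^k)²` (`1 - cos θ ≤ θ²/2`).
* `T = 2 (M + 1/e) + R + 1`: let `dist x y ≥ T`.  One of `x, y` has distance at least `M + 1/e` from `x0`, say `x`; all points of `Vᶜ` have distance at most `M` from `x0`, so
  `infDist x Vᶜ ≥ 1/e`, `x ∈ V` (as `M + 1/e > M`) and `r x = 1`.  If `y ∉ V`: `dist = 1`.  If `y ∈ V`: `θ = π`, otherwise `cinf ez (sec x) (sec y) < π < 7` and `loc_ge` with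
  `a = b = sec x` (`near_self`, `exists_chart`) gives `Near (sec x) (sec y) z'`, so `dist x y ≤ R/8`, a contradiction; so `dist (F x) (F y) = 1 + r y ≥ 1` (`cd_pi`).
-/

set_option autoImplicit false
set_option linter.unusedSectionVars false

namespace Pool.Agent.Helper48.FC

open Real Set Filter
open scoped RealInnerProductSpace

universe u v

/-- small angles -/
private theorem num_near {r s θ a δ : ℝ} (hr0 : 0 ≤ r) (hr1 : r ≤ 1) (hs0 : 0 ≤ s) (hs1 : s ≤ 1)
    (hrs : |r - s| ≤ a / 2) (hθ0 : 0 ≤ θ) (hδ : δ ≤ a / 8) (hδ1 : δ ≤ 1) (hδ0 : 0 ≤ δ)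
    (hθ : θ ≤ δ + δ ^ 2) (ha : 0 ≤ a) : Pool.Agent.Helper15.CE.cd r s θ ≤ a := by
  have h1 : θ ≤ a / 4 := by nlinarith
  have h2 : Pool.Agent.Helper15.CE.cd r s θ ^ 2 ≤ a ^ 2 := by
    rw [Pool.Agent.Helper15.CE.cd_sq hr0 hs0]
    have h3 := Real.one_sub_sq_div_two_le_cos (x := θ)
    have h4 : (r - s) ^ 2 ≤ (a / 2) ^ 2 := by
      rw [← sq_abs (r - s)]
      exact pow_le_pow_left₀ (abs_nonneg _) hrs 2
    have h5 : θ ^ 2 ≤ (a / 4) ^ 2 := pow_le_pow_left₀ hθ0 h1 2
    have h6 : r * s ≤ 1 := by nlinarith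
    have h7 : 0 ≤ r * s := mul_nonneg hr0 hs0
    have h8 : 1 - cos θ ≤ θ ^ 2 / 2 := by linarith
    have h9 : 2 * (r * s) * (1 - cos θ) ≤ 2 * 1 * (θ ^ 2 / 2) := by
      have h10 : 0 ≤ 1 - cos θ := by linarith [Real.cos_le_one θ]
      have h11 : 0 ≤ θ ^ 2 / 2 := by positivity
      nlinarith
    nlinarith
  exact le_of_sq_le_sq h2 ha

/-- one radius is zero -/
private theorem cd_zero {s : ℝ} (hs : 0 ≤ s) (θ : ℝ) : Pool.Agent.Helper15.CE.cd 0 s θ = s := by
  unfold Pool.Agent.Helper15.CE.cd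
  have : (0 : ℝ) ^ 2 + s ^ 2 - 2 * 0 * s * cos θ = s ^ 2 := by ring
  rw [this, sqrt_sq hs]

theorem scale_of_loc {X : Type u} [MetricSpace X] {E : Type v} [NormedAddCommGroup E]
    [InnerProductSpace ℝ E] {V : Set X} {R ρ : ℝ} (L : Loc X E V R ρ) (k : ℕ) {D M : ℝ} {x0 : X}
    (hx0 : x0 ∉ V) (hM : ∀ x, x ∉ V → dist x x0 ≤ M) (hk : (k : ℝ) ≤ R / 4)
    (hD : ∀ x ∈ V, ∀ y ∈ V, dist x y ≤ k → dist (L.s x) (L.T x y (L.s y)) ≤ D)
    (hρ : D ≤ (1 / 2) ^ (k + 3) * (cc * ρ)) :
    Pool.Agent.Helper15.CE.Scale.{u, max u v} X k := by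
  classical
  have hM0 : 0 ≤ M := by
    have := hM x0 hx0
    rwa [dist_self] at this
  have hR := L.hR
  have hρ0 := L.hρ
  rcases V.eq_empty_or_nonempty with hV | ⟨x1, hx1⟩
  · refine ⟨PUnit.{(max u v) + 1}, inferInstance, Pool.Agent.Helper15.CE.stew_punit, fun _ => PUnit.unit,
      fun x y => ?_, fun x y _ => ?_, 2 * M + 1, fun x y h => ?_⟩
    · rw [dist_self]
      norm_num
    · rw [dist_self]
      positivity
    · exfalso
      have h1 := hM x (by rw [hV]; exact notMem_empty x)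
      have h2 := hM y (by rw [hV]; exact notMem_empty y)
      have h3 := dist_triangle_right x y x0
      linarith
  obtain ⟨Θ, hΘ, hc⟩ := exists_ang (angA L)
  set e : ℝ := (1 / 2) ^ (k + 1) / (k + 1) with he
  have hk1 : (0 : ℝ) < k + 1 := by positivity
  have he0 : 0 < e := by positivity
  have hek : e * k ≤ (1 / 2) ^ (k + 1) := by
    rw [he, div_mul_eq_mul_div, div_le_iff₀ hk1]
    have : (0 : ℝ) ≤ (1 / 2) ^ (k + 1) := by positivity
    nlinarith
  have hVc : (Vᶜ : Set X).Nonempty := ⟨x0, hx0⟩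
  let r : X → ℝ := fun x => min 1 (e * Metric.infDist x Vᶜ)
  have hr0 : ∀ x, 0 ≤ r x := fun x =>
    le_min zero_le_one (mul_nonneg he0.le Metric.infDist_nonneg)
  have hr1 : ∀ x, r x ≤ 1 := fun x => min_le_left _ _
  have hrl : ∀ x y, |r x - r y| ≤ e * dist x y := by
    intro x y
    have h1 : |r x - r y| ≤ |e * Metric.infDist x Vᶜ - e * Metric.infDist y Vᶜ| :=
      (abs_min_sub_min_le_max 1 (e * Metric.infDist x Vᶜ) 1 (e * Metric.infDist y Vᶜ)).trans (by
        rw [sub_self, abs_zero]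
        exact max_le (abs_nonneg _) le_rfl)
    refine h1.trans ?_
    rw [← mul_sub, abs_mul, abs_of_pos he0]
    apply mul_le_mul_of_nonneg_left _ he0.le
    have h2 := Metric.infDist_le_infDist_add_dist (s := Vᶜ) (x := x) (y := y)
    have h3 := Metric.infDist_le_infDist_add_dist (s := Vᶜ) (x := y) (y := x)
    rw [dist_comm y x] at h3
    rw [abs_le]
    constructor <;> linarith
  have hrz : ∀ x, x ∉ V → r x = 0 := by
    intro x hx
    have h1 : Metric.infDist x Vᶜ = 0 := Metric.infDist_zero_of_mem hx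
    show min 1 (e * Metric.infDist x Vᶜ) = 0
    rw [h1, mul_zero]
    exact min_eq_right zero_le_one
  let z : X → Pt L := fun x => if hx : x ∈ V then sec L x hx else sec L x1 hx1
  have hz : ∀ x (hx : x ∈ V), z x = sec L x hx := fun x hx => dif_pos hx
  let G : X → Pool.Agent.Helper15.CE.PreCone hΘ := fun x => ⟨r x, hr0 x, fun _ => z x⟩
  have hG : ∀ x y, dist (SeparationQuotient.mk (G x)) (SeparationQuotient.mk (G y)) =
      Pool.Agent.Helper15.CE.cd (r x) (r y) (tht (z x) (z y)) := by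
    intro x y
    rw [SeparationQuotient.dist_mk, Pool.Agent.Helper15.CE.PreCone.dist_def]
    show Pool.Agent.Helper15.CE.cd (r x) (r y) (Θ (fun _ => z x) (fun _ => z y)) = _
    rw [hc]
  have hθ0 : ∀ x y, 0 ≤ tht (z x) (z y) := fun x y => (angA L).nonneg _ _
  have hθp : ∀ x y, tht (z x) (z y) ≤ π := fun x y => (angA L).le_pi _ _
  refine ⟨SeparationQuotient (Pool.Agent.Helper15.CE.PreCone hΘ), inferInstance,
    Pool.Agent.Helper15.CE.Stew.sep (Pool.Agent.Helper15.CE.stew_preCone hΘ),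
    fun x => SeparationQuotient.mk (G x), fun x y => ?_, fun x y hxy => ?_, 2 * (M + 1 / e) + R + 1, ?_⟩
  · rw [hG]
    refine (Pool.Agent.Helper15.CE.cd_mono (hr0 x) (hr0 y) (hθ0 x y) (hθp x y) le_rfl).trans ?_
    rw [Pool.Agent.Helper15.CE.cd_pi (hr0 x) (hr0 y)]
    linarith [hr1 x, hr1 y]
  · rw [hG]
    have hrxy : |r x - r y| ≤ (1 / 2) ^ k / 2 := by
      have h1 : e * dist x y ≤ e * k := mul_le_mul_of_nonneg_left hxy he0.le
      have h2 : (1 / 2 : ℝ) ^ (k + 1) = (1 / 2) ^ k / 2 := by ring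
      linarith [hrl x y]
    have hp0 : (0 : ℝ) ≤ (1 / 2) ^ k := by positivity
    by_cases hx : x ∈ V
    · by_cases hy : y ∈ V
      · have h8 : (1 / 2 : ℝ) ^ (k + 3) = (1 / 2) ^ k / 8 := by ring
        have hp1 : (1 / 2 : ℝ) ^ k ≤ 1 := pow_le_one₀ (by norm_num) (by norm_num)
        have hcr : 0 < cc * ρ := mul_pos (by unfold cc; norm_num) hρ0
        have hrz' : rz (sec L x hx) (sec L y hy) ≤ (1 / 2) ^ (k + 3) := by
          unfold rz
          have k1 := le_kp L x hx
          have k2 := le_kp L y hy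
          have k3 : cc * ρ ≤ √(kp (sec L x hx) * kp (sec L y hy)) := by
            apply Real.le_sqrt_of_sq_le
            rw [sq]
            exact mul_le_mul k1 k2 hcr.le (hcr.le.trans k1)
          rw [div_le_iff₀ (hcr.trans_le k3)]
          have k4 : dist (L.s x) (L.T x y (L.s y)) ≤ (1 / 2) ^ (k + 3) * (cc * ρ) :=
            (hD x hx y hy hxy).trans hρ
          refine k4.trans ?_
          exact mul_le_mul_of_nonneg_left k3 (by positivity)
        have hrz0 : 0 ≤ rz (sec L x hx) (sec L y hy) := by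
          unfold rz
          positivity
        have hez : ez (sec L x hx) (sec L y hy) = rz (sec L x hx) (sec L y hy) +
            rz (sec L x hx) (sec L y hy) ^ 2 := by
          unfold ez
          exact if_pos (hxy.trans hk)
        have hθ : tht (z x) (z y) ≤ (1 / 2) ^ (k + 3) + ((1 / 2) ^ (k + 3)) ^ 2 := by
          rw [hz x hx, hz y hy]
          refine (min_le_right _ _).trans ((cinf_le_edge ez_nonneg _ _).trans ?_)
          rw [hez]
          have := pow_le_pow_left₀ hrz0 hrz' 2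
          linarith
        exact num_near (hr0 x) (hr1 x) (hr0 y) (hr1 y) hrxy (hθ0 x y) h8.le (by rw [h8]; linarith)
          (by positivity) hθ hp0
      · rw [hrz y hy, Pool.Agent.Helper15.CE.cd_symm, cd_zero (hr0 x)]
        rw [hrz y hy, sub_zero, abs_of_nonneg (hr0 x)] at hrxy
        linarith
    · rw [hrz x hx, cd_zero (hr0 y)]
      rw [hrz x hx, zero_sub, abs_neg, abs_of_nonneg (hr0 y)] at hrxy
      linarith
  · have key : ∀ x y, M + 1 / e ≤ dist x x0 → R < dist x y →
        1 ≤ Pool.Agent.Helper15.CE.cd (r x) (r y) (tht (z x) (z y)) := by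
      intro x y h1 h2
      have he1 : 0 < 1 / e := by positivity
      have hx : x ∈ V := by
        by_contra hx
        have := hM x hx
        linarith
      have h3 : 1 / e ≤ Metric.infDist x Vᶜ := by
        rw [Metric.le_infDist hVc]
        intro w hw
        have h4 := hM w hw
        have h5 := dist_triangle x w x0
        linarith
      have h4 : r x = 1 := by
        show min 1 (e * Metric.infDist x Vᶜ) = 1
        apply min_eq_left
        have h5 := mul_le_mul_of_nonneg_left h3 he0.le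
        rwa [mul_one_div_cancel he0.ne'] at h5
      rw [h4]
      by_cases hy : y ∈ V
      · have h5 : tht (z x) (z y) = π := by
          rw [hz x hx, hz y hy]
          by_contra hne
          have h6 : cinf ez (sec L x hx) (sec L y hy) < π := by
            by_contra h7
            exact hne (min_eq_left (not_lt.1 h7))
          obtain ⟨φ, hφ⟩ := exists_chart (sec L x hx)
          obtain ⟨z', hz', -⟩ := loc_ge hφ (near_self (sec L x hx)) (by rw [norm_zero]; norm_num)
            (h6.trans (by linarith [Real.pi_lt_four]))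
          have h8 : dist x y ≤ R / 8 := hz'.1
          linarith
        rw [h5, Pool.Agent.Helper15.CE.cd_pi zero_le_one (hr0 y)]
        linarith [hr0 y]
      · rw [hrz y hy, Pool.Agent.Helper15.CE.cd_symm, cd_zero zero_le_one]
    intro x y h
    rw [hG]
    have he1 : 0 < 1 / e := by positivity
    have h3 := dist_triangle_right x y x0
    have h4 : R < dist x y := by linarith
    by_cases h5 : M + 1 / e ≤ dist x x0
    · exact key x y h5 h4
    · have h6 : M + 1 / e ≤ dist y x0 := by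
        have := not_le.1 h5
        linarith
      have h7 := key y x h6 (by rwa [dist_comm])
      rw [Pool.Agent.Helper15.CE.cd_symm, (angA L).symm] at h7
      exact h7

end Pool.Agent.Helper48.FC
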