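import Mathlib
import Pool.Agent.Helper48.FC.Defs

/-!
Block FC-26.  From fibred coarse embeddings to `Loc`.

Let `D = max (ρ₂ k) 1`, choose `ρ > 0` with `D ≤ (1/2)^(k+3) (cc ρ)`, then `R > 0` with `k ≤ R/4` and `ρ₁ d > 30 ρ` for all `d ≥ R/8` (`ρ₁ → ∞`).
Apply the definition with `r = R + 1`: `K0` bounded, `t`.  `K = K0 ∪ {x0}`, `V = Kᶜ`.  Sets of at most three points of `V` with mutual distances at most `R` have
diameter at most `R < R + 1` and are contained in `K0ᶜ`; for such sets `C` and `x ∈ C` the map `t C x : F x → H` is an isometry onto `H`, with inverse `(t C x)⁻¹`.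
For `x ∈ V`: `τ x = t {x} x`, `s' x = τ x (s x)`, and `T x y = τ x ∘ (t {x,y} x)⁻¹ ∘ t {x,y} y ∘ (τ y)⁻¹` for `x, y ∈ V`, `dist x y ≤ R` (an isometry of `H` onto itself;
`IsometryEquiv.refl` for the other pairs; `s' x = 0` for `x ∉ V`).
* `coc`: for `x, y, z` as in the statement let `C = {x, y, z}`.  By (2) for `{x, y}` and `C` (both contain `x, y`) there is `τ'` with `t {x,y} x p = τ' (t C x p)` and
  `t {x,y} y p = τ' (t C y p)` for all `p`, so `(t {x,y} x)⁻¹ (t {x,y} y p) = (t C x)⁻¹ (t C y p)`: with `p' = (t C x)⁻¹ (t C y p)`, `t {x,y} x p' = τ' (t C x p') = τ' (t C y p) = t {x,y} y p`.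
  The same for `{y, z}` and `{x, z}`.  So `T x y (T y z q) = τ x ((t C x)⁻¹ (t C y ((t C y)⁻¹ (t C z ((τ z)⁻¹ q))))) = T x z q`.
* `dist (s' x) (T x y (s' y)) = dist (s x) ((t {x,y} x)⁻¹ (t {x,y} y (s y))) = dist (t {x,y} x (s x)) (t {x,y} y (s y))`, which by (1) is between `ρ₁ (dist x y)` and `ρ₂ (dist x y)`.
  `far`: if `R/8 < dist x y ≤ R` this is `> 30ρ`.  `hD`: `ρ₂ (dist x y) ≤ ρ₂ k ≤ D` for `dist x y ≤ k`.
-/

set_option autoImplicit false
set_option linter.unusedSectionVars false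

namespace Pool.Agent.Helper48.FC

open Real Set Filter
open scoped RealInnerProductSpace

universe u v

/-- `X` has a fibred coarse embedding into a real Hilbert space (Chen, Wang, Yu): there are Hilbert spaces `F x`, `x ∈ X`, a section `s`, and non-decreasing
functions `ρ₁, ρ₂` tending to infinity, such that for every `r > 0` there are a bounded set `K` and, for every `C ⊆ X \ K` of diameter less than `r`, isometries
`t C x` of `F x` onto `H`, `x ∈ C`, with (1) and (2) -/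
def FibredCE (X : Type u) [MetricSpace X] : Prop :=
  ∃ (H : Type v) (_ : NormedAddCommGroup H) (_ : InnerProductSpace ℝ H) (_ : CompleteSpace H)
    (F : X → Type v) (_ : ∀ x, NormedAddCommGroup (F x)) (_ : ∀ x, InnerProductSpace ℝ (F x))
    (_ : ∀ x, CompleteSpace (F x)) (s : ∀ x, F x) (ρ₁ ρ₂ : ℝ → ℝ),
    MonotoneOn ρ₁ (Ici 0) ∧ MonotoneOn ρ₂ (Ici 0) ∧ Tendsto ρ₁ atTop atTop ∧
    Tendsto ρ₂ atTop atTop ∧ ∀ r : ℝ, 0 < r → ∃ K : Set X, Bornology.IsBounded K ∧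
      ∃ t : Set X → ∀ x, F x → H,
        (∀ C : Set X, C ⊆ Kᶜ → Metric.ediam C < ENNReal.ofReal r → ∀ x ∈ C,
          Isometry (t C x) ∧ Function.Surjective (t C x)) ∧
        (∀ C : Set X, C ⊆ Kᶜ → Metric.ediam C < ENNReal.ofReal r → ∀ x ∈ C, ∀ y ∈ C,
          ρ₁ (dist x y) ≤ ‖t C x (s x) - t C y (s y)‖ ∧
          ‖t C x (s x) - t C y (s y)‖ ≤ ρ₂ (dist x y)) ∧
        ∀ C₁ C₂ : Set X, C₁ ⊆ Kᶜ → C₂ ⊆ Kᶜ → Metric.ediam C₁ < ENNReal.ofReal r →
          Metric.ediam C₂ < ENNReal.ofReal r → (C₁ ∩ C₂).Nonempty → ∃ τ : H → H,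
            ∀ x ∈ C₁ ∩ C₂, ∀ p : F x, t C₁ x p = τ (t C₂ x p)

/-- an isometry onto as an `IsometryEquiv` -/
private noncomputable def EE28 {A : Type*} {B : Type*} [MetricSpace A] [MetricSpace B] (f : A → B)
    (h : Isometry f ∧ Function.Surjective f) : A ≃ᵢ B :=
  IsometryEquiv.mk' f (Function.surjInv h.2) (Function.surjInv_eq h.2) h.1

private theorem EE28_apply {A : Type*} {B : Type*} [MetricSpace A] [MetricSpace B] (f : A → B)
    (h : Isometry f ∧ Function.Surjective f) (a : A) : EE28 f h a = f a := rfl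

/-- if two pairs of isometries differ by a map of the target, the transition maps agree -/
private theorem trans28 {A : Type*} {B : Type*} {H : Type*} [MetricSpace A] [MetricSpace B] [MetricSpace H]
    {f f' : A → H} {g g' : B → H} (hf : Isometry f ∧ Function.Surjective f)
    (hf' : Isometry f' ∧ Function.Surjective f') {τ : H → H} (h1 : ∀ p, f p = τ (f' p))
    (h2 : ∀ p, g p = τ (g' p)) (p : B) : (EE28 f hf).symm (g p) = (EE28 f' hf').symm (g' p) := by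
  rw [IsometryEquiv.symm_apply_eq, EE28_apply, h1, h2]
  congr 1
  exact ((EE28 f' hf').apply_symm_apply (g' p)).symm

theorem red {X : Type u} [MetricSpace X] (h : FibredCE.{u, v} X) (x0 : X) (k : ℕ) :
    ∃ (H : Type v) (_ : NormedAddCommGroup H) (_ : InnerProductSpace ℝ H) (V : Set X) (R ρ : ℝ)
      (L : Loc X H V R ρ) (D M : ℝ), x0 ∉ V ∧ (∀ x, x ∉ V → dist x x0 ≤ M) ∧ (k : ℝ) ≤ R / 4 ∧
      (∀ x ∈ V, ∀ y ∈ V, dist x y ≤ k → dist (L.s x) (L.T x y (L.s y)) ≤ D) ∧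
      D ≤ (1 / 2) ^ (k + 3) * (cc * ρ) := by
  classical
  obtain ⟨H, iH1, iH2, iH3, F, iF1, iF2, iF3, s, ρ₁, ρ₂, hm1, hm2, ht1, ht2, hmain⟩ := h
  have hcc : 0 < cc := by
    unfold cc
    norm_num
  obtain ⟨D, hD⟩ : ∃ D : ℝ, D = max (ρ₂ k) 1 := ⟨_, rfl⟩
  have hD1 : 1 ≤ D := by
    rw [hD]
    exact le_max_right _ _
  have hD2 : ρ₂ k ≤ D := by
    rw [hD]
    exact le_max_left _ _
  have hpow : (0 : ℝ) < (1 / 2) ^ (k + 3) := by positivity
  obtain ⟨ρ, hρ⟩ : ∃ ρ : ℝ, ρ = D / ((1 / 2) ^ (k + 3) * cc) := ⟨_, rfl⟩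
  have hρ0 : 0 < ρ := by
    rw [hρ]
    positivity
  obtain ⟨A, hA⟩ : ∃ A : ℝ, ∀ d, A ≤ d → 30 * ρ < ρ₁ d := by
    have h1 := ht1.eventually (eventually_gt_atTop (30 * ρ))
    exact eventually_atTop.1 h1
  obtain ⟨R, hR⟩ : ∃ R : ℝ, R = 4 * k + 8 * |A| + 1 := ⟨_, rfl⟩
  have hR0 : 0 < R := by
    rw [hR]
    positivity
  have hRk : (k : ℝ) ≤ R / 4 := by
    rw [hR]
    have := abs_nonneg A
    linarith
  have hRA : A ≤ R / 8 := by
    rw [hR]
    have h1 := le_abs_self A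
    have h2 : (0 : ℝ) ≤ k := Nat.cast_nonneg k
    linarith
  obtain ⟨K0, hK0, t, hiso, hbd, hcomp⟩ := hmain (R + 1) (by linarith)
  obtain ⟨V, hV⟩ : ∃ V : Set X, V = (K0 ∪ {x0})ᶜ := ⟨_, rfl⟩
  have hx0 : x0 ∉ V := by
    rw [hV]
    simp
  have hVK : ∀ x ∈ V, x ∈ K0ᶜ := by
    intro x hx hx'
    rw [hV] at hx
    exact hx (Or.inl hx')
  obtain ⟨M, hM⟩ := (Metric.isBounded_iff_subset_closedBall x0).1 (hK0.union Bornology.isBounded_singleton)
  have hM' : ∀ x, x ∉ V → dist x x0 ≤ M := by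
    intro x hx
    rw [hV, Set.mem_compl_iff, not_not] at hx
    exact Metric.mem_closedBall.1 (hM hx)
  -- small sets
  have hsmall : ∀ x ∈ V, ∀ y ∈ V, ∀ z ∈ V, dist x y ≤ R → dist y z ≤ R → dist x z ≤ R →
      ({x, y, z} : Set X) ⊆ K0ᶜ ∧ Metric.ediam ({x, y, z} : Set X) < ENNReal.ofReal (R + 1) := by
    intro x hx y hy z hz hxy hyz hxz
    constructor
    · intro w hw
      rcases hw with rfl | rfl | rfl
      · exact hVK _ hx
      · exact hVK _ hy
      · exact hVK _ hz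
    · have hlt : ENNReal.ofReal R < ENNReal.ofReal (R + 1) :=
        (ENNReal.ofReal_lt_ofReal_iff (by linarith)).2 (by linarith)
      refine lt_of_le_of_lt ?_ hlt
      rw [Metric.ediam_triple, edist_dist, edist_dist, edist_dist]
      exact max_le (max_le (ENNReal.ofReal_le_ofReal hxy) (ENNReal.ofReal_le_ofReal hxz))
        (ENNReal.ofReal_le_ofReal hyz)
  have hself : ∀ x : X, dist x x ≤ R := fun x => by
    rw [dist_self]
    exact hR0.le
  have e3 : ∀ x y : X, ({x, x, y} : Set X) = {x, y} := fun x y => by simp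
  have e1 : ∀ x : X, ({x, x, x} : Set X) = {x} := fun x => by simp
  have hsmall2 : ∀ x ∈ V, ∀ y ∈ V, dist x y ≤ R →
      ({x, y} : Set X) ⊆ K0ᶜ ∧ Metric.ediam ({x, y} : Set X) < ENNReal.ofReal (R + 1) := by
    intro x hx y hy hxy
    have h1 := hsmall x hx x hx y hy (hself x) hxy hxy
    rwa [e3] at h1
  have hsmall1 : ∀ x ∈ V,
      ({x} : Set X) ⊆ K0ᶜ ∧ Metric.ediam ({x} : Set X) < ENNReal.ofReal (R + 1) := by
    intro x hx
    have h1 := hsmall x hx x hx x hx (hself x) (hself x) (hself x)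
    rwa [e1] at h1
  -- the transition maps
  let I : Set X → X → Prop := fun C x => Isometry (t C x) ∧ Function.Surjective (t C x)
  let G : X → X → Prop := fun x y => I {x} x ∧ I {x, y} x ∧ I {x, y} y ∧ I {y} y
  have hG : ∀ x ∈ V, ∀ y ∈ V, dist x y ≤ R → G x y := by
    intro x hx y hy hxy
    obtain ⟨h1, h2⟩ := hsmall2 x hx y hy hxy
    obtain ⟨h3, h4⟩ := hsmall1 x hx
    obtain ⟨h5, h6⟩ := hsmall1 y hy
    exact ⟨hiso _ h3 h4 x rfl, hiso _ h1 h2 x (Or.inl rfl), hiso _ h1 h2 y (Or.inr rfl), hiso _ h5 h6 y rfl⟩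
  let T : X → X → (H ≃ᵢ H) := fun x y =>
    if h : G x y then (EE28 (t {y} y) h.2.2.2).symm.trans ((EE28 (t {x, y} y) h.2.2.1).trans
      ((EE28 (t {x, y} x) h.2.1).symm.trans (EE28 (t {x} x) h.1))) else IsometryEquiv.refl H
  have hT : ∀ x y (h : G x y) (q : H), T x y q =
      t {x} x ((EE28 (t {x, y} x) h.2.1).symm (t {x, y} y ((EE28 (t {y} y) h.2.2.2).symm q))) := by
    intro x y h q
    have h1 : T x y = (EE28 (t {y} y) h.2.2.2).symm.trans ((EE28 (t {x, y} y) h.2.2.1).trans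
      ((EE28 (t {x, y} x) h.2.1).symm.trans (EE28 (t {x} x) h.1))) := dif_pos h
    rw [h1]
    rfl
  -- independence of the set
  have hind : ∀ C₁ C₂ : Set X, C₁ ⊆ K0ᶜ → C₂ ⊆ K0ᶜ → Metric.ediam C₁ < ENNReal.ofReal (R + 1) →
      Metric.ediam C₂ < ENNReal.ofReal (R + 1) → ∀ x y, x ∈ C₁ → x ∈ C₂ → y ∈ C₁ → y ∈ C₂ →
      ∀ (h1 : I C₁ x) (h2 : I C₂ x) (p : F y), (EE28 (t C₁ x) h1).symm (t C₁ y p) =
        (EE28 (t C₂ x) h2).symm (t C₂ y p) := by
    intro C₁ C₂ hC₁ hC₂ hd₁ hd₂ x y hx₁ hx₂ hy₁ hy₂ h1 h2 p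
    obtain ⟨τ, hτ⟩ := hcomp C₁ C₂ hC₁ hC₂ hd₁ hd₂ ⟨x, hx₁, hx₂⟩
    exact trans28 h1 h2 (hτ x ⟨hx₁, hx₂⟩) (hτ y ⟨hy₁, hy₂⟩) p
  -- the distance of the sections
  have hdist : ∀ x ∈ V, ∀ y ∈ V, dist x y ≤ R →
      ρ₁ (dist x y) ≤ dist (t {x} x (s x)) (T x y (t {y} y (s y))) ∧
      dist (t {x} x (s x)) (T x y (t {y} y (s y))) ≤ ρ₂ (dist x y) := by
    intro x hx y hy hxy
    have hg := hG x hx y hy hxy
    obtain ⟨h1, h2⟩ := hsmall2 x hx y hy hxy
    have h3 := hbd {x, y} h1 h2 x (Or.inl rfl) y (Or.inr rfl)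
    have h4 : dist (t {x} x (s x)) (T x y (t {y} y (s y))) =
        ‖t {x, y} x (s x) - t {x, y} y (s y)‖ := by
      rw [hT x y hg, hg.1.1.dist_eq]
      have h5 : (EE28 (t {y} y) hg.2.2.2).symm (t {y} y (s y)) = s y := (EE28 (t {y} y) hg.2.2.2).symm_apply_apply (s y)
      rw [h5, ← hg.2.1.1.dist_eq]
      have h6 : t {x, y} x ((EE28 (t {x, y} x) hg.2.1).symm (t {x, y} y (s y))) = t {x, y} y (s y) :=
        (EE28 (t {x, y} x) hg.2.1).apply_symm_apply _
      rw [h6, dist_eq_norm]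
    rw [h4]
    exact h3
  let L : Loc X H V R ρ :=
    { s := fun x => t {x} x (s x)
      T := T
      hR := hR0
      hρ := hρ0
      coc := by
        intro x hx y hy z hz hxy hyz hxz q
        obtain ⟨hC, hCd⟩ := hsmall x hx y hy z hz hxy hyz hxz
        obtain ⟨hxyC, hxyd⟩ := hsmall2 x hx y hy hxy
        obtain ⟨hyzC, hyzd⟩ := hsmall2 y hy z hz hyz
        obtain ⟨hxzC, hxzd⟩ := hsmall2 x hx z hz hxz
        have gxy := hG x hx y hy hxy
        have gyz := hG y hy z hz hyz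
        have gxz := hG x hx z hz hxz
        have mx : x ∈ ({x, y, z} : Set X) := Or.inl rfl
        have my : y ∈ ({x, y, z} : Set X) := Or.inr (Or.inl rfl)
        have mz : z ∈ ({x, y, z} : Set X) := Or.inr (Or.inr rfl)
        have iCx : I {x, y, z} x := hiso _ hC hCd x mx
        have iCy : I {x, y, z} y := hiso _ hC hCd y my
        rw [hT y z gyz, hT x y gxy, hT x z gxz]
        have h5 : ∀ u, (EE28 (t {y} y) gxy.2.2.2).symm (t {y} y u) = u := fun u =>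
          (EE28 (t {y} y) gxy.2.2.2).symm_apply_apply u
        rw [h5, hind {y, z} {x, y, z} hyzC hC hyzd hCd y z (Or.inl rfl) my (Or.inr rfl) mz gyz.2.1 iCy,
          hind {x, y} {x, y, z} hxyC hC hxyd hCd x y (Or.inl rfl) mx (Or.inr rfl) my gxy.2.1 iCx,
          hind {x, z} {x, y, z} hxzC hC hxzd hCd x z (Or.inl rfl) mx (Or.inr rfl) mz gxz.2.1 iCx]
        have h6 : ∀ v, t {x, y, z} y ((EE28 (t {x, y, z} y) iCy).symm v) = v := fun v =>
          (EE28 (t {x, y, z} y) iCy).apply_symm_apply v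
        rw [h6]
      far := by
        intro x hx y hy hxy hd
        by_contra hcon
        have h1 := not_le.1 hcon
        have h2 := hA (dist x y) (by linarith)
        have h3 := (hdist x hx y hy hxy).1
        linarith }
  refine ⟨H, iH1, iH2, V, R, ρ, L, D, M, hx0, hM', hRk, ?_, ?_⟩
  · intro x hx y hy hxy
    have h1 : dist x y ≤ R := by
      have : (0 : ℝ) ≤ R := hR0.le
      linarith
    refine (hdist x hx y hy h1).2.trans ?_
    refine (hm2 ?_ ?_ hxy).trans hD2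
    · exact Set.mem_Ici.2 dist_nonneg
    · exact Set.mem_Ici.2 (Nat.cast_nonneg (α := ℝ) k)
  · rw [hρ]
    have h1 : (0 : ℝ) < (1 / 2) ^ (k + 3) * cc := by positivity
    have h2 : (1 / 2 : ℝ) ^ (k + 3) * (cc * (D / ((1 / 2) ^ (k + 3) * cc))) = D := by
      rw [← mul_assoc]
      field_simp
    rw [h2]

end Pool.Agent.Helper48.FC
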