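import Mathlib
import Pool.Agent.Helper48.FC.Fin
import Pool.Agent.Helper48.FC.Red

/-!
Project FC: fibred coarse embeddability into Hilbert space implies coarse embeddability into a CAT(0) space.
-/

set_option autoImplicit false

namespace Pool.Agent.Helper48.FC

open Pool.Agent.Helper15.CE

universe u v

theorem coarse_of_fibred {X : Type u} [MetricSpace X] (h : FibredCE.{u, v} X) :
    CoarseCAT0.{u, max u v} X := by
  rcases isEmpty_or_nonempty X with hX | ⟨⟨x0⟩⟩
  · refine coarse_of_scales fun k => ⟨PUnit, inferInstance, stew_punit, fun _ => PUnit.unit, ?_, ?_, 0, ?_⟩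
    all_goals exact fun x => (hX.false x).elim
  · apply coarse_of_scales
    intro k
    obtain ⟨H, _, _, V, R, ρ, L, D, M, h1, h2, h3, h4, h5⟩ := red h x0 k
    exact scale_of_loc L k h1 h2 h3 h4 h5

end Pool.Agent.Helper48.FC
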